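import Pool.Agent.Helper55.TA.Base

/-!
# Project TA (MP_7680f0_co): almost all t-perfect graphs are 3-colourable

Base definitions.  (Definitions of t-perfect: Pool/Agent/Helper55/TA/Base.lean.)
-/

set_option autoImplicit false

namespace Pool.Agent.Helper17.TP

open SimpleGraph Finset

section defs

variable {V : Type}

/-- t-perfect in the usual convention `0 ≤ x ≤ 1` (isolated vertices are harmless). All
deterministic blocks use this one; `TPA.TPerfect G` (literally the hypothesis of S09569) implies it. -/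
abbrev TPerf [Fintype V] [DecidableEq V] (G : SimpleGraph V) : Prop := TPA.TP G

/-- The typical structure: the vertex set is the disjoint union of `A` and its complement `B`;
`B` is stable; `G[A]` is a complete bipartite graph between `A₁` and `A₂` plus isolated vertices;
the edges between `A` and `B` are arbitrary. -/
def Typical (G : SimpleGraph V) : Prop :=
  ∃ A A₁ A₂ : Finset V, A₁ ⊆ A ∧ A₂ ⊆ A ∧ Disjoint A₁ A₂ ∧
    (∀ u v, u ∉ A → v ∉ A → ¬ G.Adj u v) ∧
    (∀ u ∈ A, ∀ v ∈ A, (G.Adj u v ↔ (u ∈ A₁ ∧ v ∈ A₂) ∨ (u ∈ A₂ ∧ v ∈ A₁)))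

open Classical in
/-- neighbours of `v` inside the finite set `A` -/
noncomputable def nb (G : SimpleGraph V) (A : Finset V) (v : V) : Finset V :=
  A.filter (fun u => G.Adj v u)

@[simp] theorem mem_nb {G : SimpleGraph V} {A : Finset V} {v u : V} :
    u ∈ nb G A v ↔ u ∈ A ∧ G.Adj v u := by
  simp [nb]

/-- the edges of `G` with both ends in `A` or both ends outside `A` -/
def inside (G : SimpleGraph V) (A : Finset V) : SimpleGraph V where
  Adj u v := G.Adj u v ∧ (u ∈ A ↔ v ∈ A)
  symm := ⟨fun _ _ h => ⟨h.1.symm, h.2.symm⟩⟩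
  loopless := ⟨fun _ h => G.irrefl h.1⟩

/-- number of edges -/
noncomputable def ne (G : SimpleGraph V) : ℕ := G.edgeSet.ncard

/-- `X` is a triangle of `G` -/
def IsK3 [DecidableEq V] (G : SimpleGraph V) (X : Finset V) : Prop :=
  ∃ a b c, X = {a, b, c} ∧ G.Adj a b ∧ G.Adj b c ∧ G.Adj a c

/-- `X` induces two disjoint edges `ab`, `cd` -/
def Is2K2 [DecidableEq V] (G : SimpleGraph V) (X : Finset V) : Prop :=
  ∃ a b c d, X = {a, b, c, d} ∧ G.Adj a b ∧ G.Adj c d ∧
    ¬ G.Adj a c ∧ ¬ G.Adj a d ∧ ¬ G.Adj b c ∧ ¬ G.Adj b d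

/-- `X` induces a path `abcd` -/
def IsP4 [DecidableEq V] (G : SimpleGraph V) (X : Finset V) : Prop :=
  ∃ a b c d, X = {a, b, c, d} ∧ G.Adj a b ∧ G.Adj b c ∧ G.Adj c d ∧
    ¬ G.Adj a c ∧ ¬ G.Adj a d ∧ ¬ G.Adj b d

/-- bad sets: induced triangle, 2K2 or P4 -/
def Bad [DecidableEq V] (G : SimpleGraph V) (X : Finset V) : Prop :=
  IsK3 G X ∨ Is2K2 G X ∨ IsP4 G X

/-- every family of `m` disjoint `k`-tuples in `A` and `m` disjoint `l`-tuples outside `A`
realises every `k x l` pattern -/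
def Gen (G : SimpleGraph V) (A : Finset V) (k l m : ℕ) : Prop :=
  ∀ (s : Fin m → Fin k → V) (t : Fin m → Fin l → V),
    (∀ i a, s i a ∈ A) → (∀ j b, t j b ∉ A) →
    Function.Injective (fun q : Fin m × Fin k => s q.1 q.2) →
    Function.Injective (fun q : Fin m × Fin l => t q.1 q.2) →
    ∀ pat : Fin k → Fin l → Prop, ∃ i j, ∀ a b, (G.Adj (s i a) (t j b) ↔ pat a b)

/-- all patterns up to size 4 x 4 -/
def GenAll (G : SimpleGraph V) (A : Finset V) (m : ℕ) : Prop :=
  ∀ k l, 1 ≤ k → k ≤ 4 → 1 ≤ l → l ≤ 4 → Gen G A k l m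

/-- coarse structure: outside `A` the degrees inside `Aᶜ` are at most `g`; each vertex of `A`
has inside `A` a neighbourhood which is `g`-close to one of the sets `∅`, `T1`, `T2`. -/
structure Close [Fintype V] [DecidableEq V] (G : SimpleGraph V) (A T1 T2 : Finset V) (g : ℕ) :
    Prop where
  sub1 : T1 ⊆ A
  sub2 : T2 ⊆ A
  disj : Disjoint T1 T2
  out : ∀ v ∉ A, (nb G Aᶜ v).card ≤ g
  ins : ∀ v ∈ A, (nb G A v).card ≤ g ∨ (symmDiff (nb G A v) T1).card ≤ g ∨
    (symmDiff (nb G A v) T2).card ≤ g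

theorem Gen.symm [Fintype V] [DecidableEq V] {G : SimpleGraph V} {A : Finset V} {k l m : ℕ}
    (h : Gen G A k l m) : Gen G Aᶜ l k m := by
  intro s t hs ht is it pat
  obtain ⟨i, j, hij⟩ := h t s (fun i a => by simpa using ht i a)
    (fun i a => by simpa using hs i a) it is (fun a b => pat b a)
  exact ⟨j, i, fun a b => by rw [G.adj_comm]; exact hij b a⟩

theorem GenAll.symm [Fintype V] [DecidableEq V] {G : SimpleGraph V} {A : Finset V} {m : ℕ}
    (h : GenAll G A m) : GenAll G Aᶜ m :=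
  fun k l hk hk' hl hl' => (h l k hl hl' hk hk').symm

/-- A graph is determined by its inside and its cross neighbourhoods. -/
theorem ext_of_inside [DecidableEq V] {G G' : SimpleGraph V} {A : Finset V}
    (h : inside G A = inside G' A)
    (h' : ∀ y ∉ A, nb G A y = nb G' A y) : G = G' := by
  have key : ∀ u v, (u ∈ A ↔ v ∈ A) → (G.Adj u v ↔ G'.Adj u v) := by
    intro u v huv
    have : (inside G A).Adj u v ↔ (inside G' A).Adj u v := by rw [h]
    simpa [inside, huv] using this
  have cross : ∀ u v, u ∉ A → v ∈ A → (G.Adj u v ↔ G'.Adj u v) := by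
    intro u v hu hv
    have : v ∈ nb G A u ↔ v ∈ nb G' A u := by rw [h' u hu]
    simpa [hv] using this
  ext u v
  by_cases hu : u ∈ A <;> by_cases hv : v ∈ A
  · exact key u v (by simp [hu, hv])
  · rw [G.adj_comm, G'.adj_comm]; exact cross v u hv hu
  · exact cross u v hu hv
  · exact key u v (by simp [hu, hv])

end defs

end Pool.Agent.Helper17.TP
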