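import Pool.Agent.Helper17.TP.Base
import Pool.Agent.Helper55.TA.ClassC

/-! typical graphs are t-perfect and 3-colourable (from helper55's class C) -/

set_option autoImplicit false

namespace Pool.Agent.Helper17.TP

open SimpleGraph Finset

variable {V : Type} [Fintype V] [DecidableEq V] {G : SimpleGraph V}

theorem typical_isC (h : Typical G) : ∃ lab : V → Fin 4, TPA.IsC G lab := by
  obtain ⟨A, A₁, A₂, h1, h2, hd, hB, hA⟩ := h
  refine ⟨fun v => if v ∉ A then 3 else if v ∈ A₁ then 1 else if v ∈ A₂ then 2 else 0, ?_, ?_⟩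
  · intro u v hu hv
    have key : ∀ w, (if w ∉ A then (3 : Fin 4) else if w ∈ A₁ then 1 else if w ∈ A₂ then 2 else 0)
        = 3 → w ∉ A := by
      intro w hw hwA
      by_cases b : w ∈ A₁
      · simp [hwA, b] at hw
      · by_cases c : w ∈ A₂ <;> simp [hwA, b, c] at hw
    exact hB u v (key u hu) (key v hv)
  · intro u v hu hv
    have hu' : u ∈ A := by
      by_contra h; simp [h] at hu
    have hv' : v ∈ A := by
      by_contra h; simp [h] at hv
    rw [hA u hu' v hv']
    have l1 : ∀ w ∈ A, ((if w ∉ A then (3 : Fin 4) else if w ∈ A₁ then 1 else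
        if w ∈ A₂ then 2 else 0) = 1 ↔ w ∈ A₁) := by
      intro w hw
      by_cases a : w ∈ A₁
      · simp [hw, a]
      · by_cases b : w ∈ A₂ <;> simp [hw, a, b]
    have l2 : ∀ w ∈ A, ((if w ∉ A then (3 : Fin 4) else if w ∈ A₁ then 1 else
        if w ∈ A₂ then 2 else 0) = 2 ↔ w ∈ A₂) := by
      intro w hw
      by_cases a : w ∈ A₁
      · have : w ∉ A₂ := Finset.disjoint_left.mp hd a
        simp [hw, a, this]
      · by_cases b : w ∈ A₂ <;> simp [hw, a, b]
    rw [l1 u hu', l1 v hv', l2 u hu', l2 v hv']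

theorem typical_tPerf (h : Typical G) : TPerf G := by
  obtain ⟨lab, hl⟩ := typical_isC h
  exact TPA.tp_of_isC hl

theorem typical_tPerfect (h : Typical G) (hi : ∀ v, ∃ u, G.Adj v u) : TPA.TPerfect G := by
  obtain ⟨lab, hl⟩ := typical_isC h
  exact TPA.tperfect_of_isC hl hi

omit [Fintype V] in
theorem typical_colorable (h : Typical G) : G.Colorable 3 := by
  obtain ⟨A, A₁, A₂, h1, h2, hd, hB, hA⟩ := h
  refine ⟨SimpleGraph.Coloring.mk (fun v => if v ∉ A then (0 : Fin 3) else if v ∈ A₂ then 1 else 2)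
    ?_⟩
  intro u v huv
  by_cases hu : u ∈ A <;> by_cases hv : v ∈ A
  · rcases (hA u hu v hv).mp huv with ⟨a, b⟩ | ⟨a, b⟩
    · have : u ∉ A₂ := Finset.disjoint_left.mp hd a
      simp [hu, hv, this, b]
    · have : v ∉ A₂ := Finset.disjoint_left.mp hd b
      simp [hu, hv, this, a]
  · by_cases c : u ∈ A₂ <;> simp [hu, hv, c]
  · by_cases c : v ∈ A₂ <;> simp [hu, hv, c]
  · exact absurd huv (hB u v hu hv)

end Pool.Agent.Helper17.TP
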