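import Pool.Agent.Helper17.TP.Base

/-!
# Block TP-G2: using genericity

If `Gen G A k l m` (`k, l ≤ 4`, `m ≥ 1`), `F i ⊆ A` (`i < k`) and `H j ∩ A = ∅` (`j < l`) are sets
(not necessarily disjoint or different) with at least `4 m` elements each, then every `k x l`
pattern is realised by injective choices `a i ∈ F i`, `b j ∈ H j`.

Proof.  Greedily choose `s : Fin m → Fin k → V` injective on pairs with `s i a ∈ F a`: there are
`m k ≤ 4 m` vertices to choose, each from a set with `≥ 4m` elements (e.g. Hall's theorem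
`Finset.all_card_le_biUnion_card_iff_exists_injective` for the family indexed by `Fin m × Fin k`, or
induction); the same for `t`.  Apply `Gen`: it gives `i, j`; take `a = s i`, `b = t j`.
-/

set_option autoImplicit false

namespace Pool.Agent.Helper17.TP

open SimpleGraph Finset

theorem exists_family {V : Type} [DecidableEq V] (k m : ℕ) (hk : k ≤ 4)
    (F : Fin k → Finset V) (hF : ∀ i, 4 * m ≤ (F i).card) :
    ∃ s : Fin m → Fin k → V, (∀ i a, s i a ∈ F a) ∧
      Function.Injective (fun q : Fin m × Fin k => s q.1 q.2) := by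
  classical
  obtain ⟨f, hf, hf'⟩ := (Finset.all_card_le_biUnion_card_iff_exists_injective
    (fun q : Fin m × Fin k => F q.2)).mp (by
      intro s
      rcases s.eq_empty_or_nonempty with rfl | ⟨q, hq⟩
      · simp
      · calc s.card ≤ Fintype.card (Fin m × Fin k) := Finset.card_le_univ s
          _ = m * k := by simp
          _ ≤ 4 * m := by nlinarith
          _ ≤ (F q.2).card := hF q.2
          _ ≤ _ := Finset.card_le_card (Finset.subset_biUnion_of_mem
            (fun q : Fin m × Fin k => F q.2) hq))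
  exact ⟨fun i a => f (i, a), fun i a => hf' (i, a), fun q r h => hf h⟩

theorem Gen.use {V : Type} [DecidableEq V] {G : SimpleGraph V} {A : Finset V} {k l m : ℕ}
    (h : Gen G A k l m) (hk : k ≤ 4) (hl : l ≤ 4)
    (F : Fin k → Finset V) (H : Fin l → Finset V)
    (hF : ∀ i, F i ⊆ A ∧ 4 * m ≤ (F i).card)
    (hH : ∀ j, Disjoint (H j) A ∧ 4 * m ≤ (H j).card)
    (pat : Fin k → Fin l → Prop) :
    ∃ (a : Fin k → V) (b : Fin l → V), Function.Injective a ∧ Function.Injective b ∧
      (∀ i, a i ∈ F i) ∧ (∀ j, b j ∈ H j) ∧ ∀ i j, (G.Adj (a i) (b j) ↔ pat i j) := by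
  obtain ⟨s, hs, hsi⟩ := exists_family k m hk F (fun i => (hF i).2)
  obtain ⟨t, ht, hti⟩ := exists_family l m hl H (fun i => (hH i).2)
  obtain ⟨i, j, hij⟩ := h s t (fun i a => (hF a).1 (hs i a))
    (fun j b => Finset.disjoint_left.mp (hH b).1 (ht j b)) hsi hti pat
  refine ⟨s i, t j, ?_, ?_, fun a => hs i a, fun b => ht j b, hij⟩
  · intro a b hab
    have := hsi (a₁ := (i, a)) (a₂ := (i, b)) hab
    simpa using this
  · intro a b hab
    have := hti (a₁ := (j, a)) (a₂ := (j, b)) hab
    simpa using this

end Pool.Agent.Helper17.TP
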