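import Pool.Agent.Helper17.TP.F6
import Pool.Agent.Helper17.TP.G2

/-!
# Block TP-D1: removing 13m vertices

`G` t-perfect, `GenAll G A m`, `|A|, |Aᶜ| ≥ 4m`.  Then there is `Z`, `|Z| ≤ 13 m`, such that one of
the sides minus `Z` is stable and the other side minus `Z` contains no bad set.

Proof.  (1) there are no `m` pairwise disjoint triangles in `A`: `Gen G A 3 1 m` with the triangles
and any `m` distinct vertices of `Aᶜ`, pattern all true: K4 (`no_K4`).  (2) no `m` disjoint 2K2 in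
`A`: `Gen G A 4 2 m` with tuples `(a,b,c,d)`, and `m` disjoint pairs of vertices of `Aᶜ`
(`2m ≤ |Aᶜ|`), pattern: first column `(F,T,T,T)`, second column `(T,F,T,T)`: contradiction to
`no_2K2_pair`.  (3) no `m` disjoint P4 in `A`: columns `(T,T,T,T)`, `(T,F,F,T)`: `no_P4_pair`.
(4) the same for `Aᶜ` (`GenAll.symm`).  (5) not both `m` disjoint edges in `A` and `m` disjoint
edges in `Aᶜ`: `Gen G A 2 2 m`, all true: K4.
So, say, `Aᶜ` has no `m` disjoint edges (the other case is symmetric).  `Z` := vertices of a maximal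
family of disjoint edges in `Aᶜ` (`≤ 2m`), and of maximal families of disjoint triangles, 2K2's,
P4's in `A` (`≤ 3m + 4m + 4m`).
Suggested helper lemma (used for the edges, K3, 2K2, P4): if a predicate `P : Finset V → Prop`
has no `m` pairwise disjoint sets in `U`, all `P`-sets have at most `r` (and `≥ 1`) elements, then
there is `Z ⊆ U`, `|Z| ≤ r m`, such that no `P`-set is contained in `U \ Z`.
-/

set_option autoImplicit false

namespace Pool.Agent.Helper17.TP

open SimpleGraph Finset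

def IsK2 {V : Type} [DecidableEq V] (G : SimpleGraph V) (X : Finset V) : Prop :=
  ∃ a b, X = {a, b} ∧ G.Adj a b

/-- `m` pairwise disjoint `P`-sets inside `U` -/
def HasM {V : Type} (P : Finset V → Prop) (U : Finset V) (m : ℕ) : Prop :=
  ∃ f : Fin m → Finset V, (∀ i, P (f i) ∧ f i ⊆ U) ∧ ∀ i j, i ≠ j → Disjoint (f i) (f j)

theorem exists_cover {V : Type} [Fintype V] [DecidableEq V] (P : Finset V → Prop) (U : Finset V)
    (r m : ℕ) (hr : ∀ X, P X → X.Nonempty ∧ X.card ≤ r) (hno : ¬ HasM P U m) :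
    ∃ Z : Finset V, Z.card ≤ r * m ∧ ∀ X ⊆ U \ Z, ¬ P X := by
  classical
  set 𝒜 : Finset (Finset (Finset V)) := Finset.univ.filter (fun F =>
    (∀ X ∈ F, P X ∧ X ⊆ U) ∧ ∀ X ∈ F, ∀ Y ∈ F, X ≠ Y → Disjoint X Y) with h𝒜
  have mem : ∀ F, F ∈ 𝒜 ↔ (∀ X ∈ F, P X ∧ X ⊆ U) ∧ ∀ X ∈ F, ∀ Y ∈ F, X ≠ Y → Disjoint X Y := by
    intro F; simp [h𝒜]
  obtain ⟨F, hF, hmax⟩ := Finset.exists_max_image 𝒜 Finset.card
    ⟨∅, by rw [mem]; simp⟩
  rw [mem] at hF
  have hlt : F.card < m := by
    by_contra hcon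
    push Not at hcon
    apply hno
    refine ⟨fun i => (F.equivFin.symm (Fin.castLE hcon i)).1, fun i => hF.1 _ (F.equivFin.symm _).2,
      fun i j hij => hF.2 _ (F.equivFin.symm _).2 _ (F.equivFin.symm _).2 ?_⟩
    intro h
    apply hij
    have := F.equivFin.symm.injective (Subtype.ext h)
    exact Fin.castLE_injective hcon this
  refine ⟨F.biUnion id, ?_, ?_⟩
  · calc (F.biUnion id).card ≤ ∑ X ∈ F, (id X).card := Finset.card_biUnion_le
      _ ≤ ∑ X ∈ F, r := Finset.sum_le_sum fun X hX => (hr X (hF.1 X hX).1).2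
      _ = F.card * r := by simp
      _ ≤ r * m := by nlinarith
  · intro X hX hPX
    have hdis : ∀ Y ∈ F, Disjoint X Y := by
      intro Y hY
      rw [Finset.disjoint_left]
      intro x hx hx'
      exact (Finset.mem_sdiff.mp (hX hx)).2 (Finset.mem_biUnion.mpr ⟨Y, hY, hx'⟩)
    have hXF : X ∉ F := by
      intro h
      obtain ⟨x, hx⟩ := (hr X hPX).1
      exact (Finset.disjoint_left.mp (hdis X h)) hx hx
    have hins : insert X F ∈ 𝒜 := by
      rw [mem]
      constructor
      · intro Y hY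
        rcases Finset.mem_insert.mp hY with rfl | hY
        · exact ⟨hPX, hX.trans Finset.sdiff_subset⟩
        · exact hF.1 Y hY
      · intro Y hY Y' hY' hne
        rcases Finset.mem_insert.mp hY with hY1 | hY1 <;>
          rcases Finset.mem_insert.mp hY' with hY2 | hY2
        · exact absurd (hY1.trans hY2.symm) hne
        · rw [hY1]; exact hdis Y' hY2
        · rw [hY2]; exact (hdis Y hY1).symm
        · exact hF.2 Y hY1 Y' hY2 hne
    have := hmax _ hins
    rw [Finset.card_insert_of_notMem hXF] at this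
    omega

theorem pair_injective {V : Type} {k m : ℕ} {f : Fin m → Finset V} {s : Fin m → Fin k → V}
    (hd : ∀ i j, i ≠ j → Disjoint (f i) (f j)) (hs : ∀ i a, s i a ∈ f i)
    (hi : ∀ i, Function.Injective (s i)) :
    Function.Injective (fun q : Fin m × Fin k => s q.1 q.2) := by
  rintro ⟨i, a⟩ ⟨j, b⟩ h
  simp only at h
  by_cases hij : i = j
  · subst hij
    rw [hi i h]
  · exact absurd (h ▸ hs i a) (fun h' => (Finset.disjoint_left.mp (hd i j hij)) (h ▸ hs i a)
      (hs j b))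

theorem bad_side {V : Type} [Fintype V] [DecidableEq V] {G : SimpleGraph V} (hG : TPerf G)
    (A : Finset V) (m : ℕ) (hm : 1 ≤ m) (hgen : GenAll G A m) (hB : 4 * m ≤ Aᶜ.card) :
    ¬ HasM (IsK3 G) A m ∧ ¬ HasM (Is2K2 G) A m ∧ ¬ HasM (IsP4 G) A m := by
  refine ⟨?_, ?_, ?_⟩
  · rintro ⟨f, hf, hd⟩
    choose a b c hX hab hbc hac using fun i => (hf i).1
    obtain ⟨t, ht, hti⟩ := exists_family 1 m (by norm_num) (fun _ => Aᶜ) (fun _ => hB)
    have hmem : ∀ i, ∀ q : Fin 3, (![a i, b i, c i] : Fin 3 → V) q ∈ f i := by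
      intro i q
      rw [hX i]
      fin_cases q <;> simp
    obtain ⟨i, j, hij⟩ := hgen 3 1 (by norm_num) (by norm_num) (by norm_num) (by norm_num)
      (fun i => ![a i, b i, c i]) t (fun i q => (hf i).2 (hmem i q))
      (fun j q => by simpa using ht j q)
      (pair_injective hd hmem (by
        intro i p q hpq
        have h1 := (hab i).ne
        have h2 := (hbc i).ne
        have h3 := (hac i).ne
        fin_cases p <;> fin_cases q <;> simp_all))
      hti (fun _ _ => True)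
    have h0 := hij 0 0
    have h1 := hij 1 0
    have h2 := hij 2 0
    simp at h0 h1 h2
    exact no_K4 hG (hab i) (hac i) h0 (hbc i) h1 h2
  · rintro ⟨f, hf, hd⟩
    choose a b c d hX hab hcd nac nad nbc nbd using fun i => (hf i).1
    obtain ⟨t, ht, hti⟩ := exists_family 2 m (by norm_num) (fun _ => Aᶜ) (fun _ => hB)
    have hmem : ∀ i, ∀ q : Fin 4, (![a i, b i, c i, d i] : Fin 4 → V) q ∈ f i := by
      intro i q
      rw [hX i]
      fin_cases q <;> simp
    obtain ⟨i, j, hij⟩ := hgen 4 2 (by norm_num) (by norm_num) (by norm_num) (by norm_num)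
      (fun i => ![a i, b i, c i, d i]) t (fun i q => (hf i).2 (hmem i q))
      (fun j q => by simpa using ht j q)
      (pair_injective hd hmem (by
        intro i p q hpq
        have h1 := (hab i).ne
        have h2 := (hcd i).ne
        have h3 : a i ≠ c i := fun h => nad i (h ▸ hcd i)
        have h4 : a i ≠ d i := fun h => nac i (h ▸ (hcd i).symm)
        have h5 : b i ≠ c i := fun h => nbd i (h ▸ hcd i)
        have h6 : b i ≠ d i := fun h => nbc i (h ▸ (hcd i).symm)
        fin_cases p <;> fin_cases q <;> simp_all))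
      hti (![![False, True], ![True, False], ![True, True], ![True, True]])
    have h00 := hij 0 0
    have h01 := hij 0 1
    have h10 := hij 1 0
    have h11 := hij 1 1
    have h20 := hij 2 0
    have h21 := hij 2 1
    have h30 := hij 3 0
    have h31 := hij 3 1
    simp at h00 h01 h10 h11 h20 h21 h30 h31
    exact no_2K2_pair hG (hab i) (hcd i) (nac i) (nad i) (nbc i) (nbd i)
      (y := t j 0) (y' := t j 1) (fun h => h00 h.symm) h10.symm h20.symm h30.symm
      h01.symm (fun h => h11 h.symm) h21.symm h31.symm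
  · rintro ⟨f, hf, hd⟩
    choose a b c d hX hab hbc hcd nac nad nbd using fun i => (hf i).1
    obtain ⟨t, ht, hti⟩ := exists_family 2 m (by norm_num) (fun _ => Aᶜ) (fun _ => hB)
    have hmem : ∀ i, ∀ q : Fin 4, (![a i, b i, c i, d i] : Fin 4 → V) q ∈ f i := by
      intro i q
      rw [hX i]
      fin_cases q <;> simp
    obtain ⟨i, j, hij⟩ := hgen 4 2 (by norm_num) (by norm_num) (by norm_num) (by norm_num)
      (fun i => ![a i, b i, c i, d i]) t (fun i q => (hf i).2 (hmem i q))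
      (fun j q => by simpa using ht j q)
      (pair_injective hd hmem (by
        intro i p q hpq
        have h1 := (hab i).ne
        have h2 := (hcd i).ne
        have h3 : a i ≠ c i := fun h => nad i (h ▸ hcd i)
        have h4 : a i ≠ d i := fun h => nbd i (h ▸ (hab i).symm)
        have h5 := (hbc i).ne
        have h6 : b i ≠ d i := fun h => nad i (h ▸ hab i)
        fin_cases p <;> fin_cases q <;> simp_all))
      hti (![![True, True], ![True, False], ![True, False], ![True, True]])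
    have h00 := hij 0 0
    have h01 := hij 0 1
    have h10 := hij 1 0
    have h11 := hij 1 1
    have h20 := hij 2 0
    have h21 := hij 2 1
    have h30 := hij 3 0
    have h31 := hij 3 1
    simp at h00 h01 h10 h11 h20 h21 h30 h31
    exact no_P4_pair hG (hab i) (hbc i) (hcd i) (nac i) (nad i) (nbd i)
      (y := t j 0) (y' := t j 1) h00.symm h10.symm h20.symm h30.symm
      h01.symm (fun h => h11 h.symm) (fun h => h21 h.symm) h31.symm

theorem edges_sides {V : Type} [Fintype V] [DecidableEq V] {G : SimpleGraph V} (hG : TPerf G)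
    (A : Finset V) (m : ℕ) (hgen : GenAll G A m) :
    ¬ (HasM (IsK2 G) A m ∧ HasM (IsK2 G) Aᶜ m) := by
  rintro ⟨⟨f, hf, hd⟩, ⟨g, hg, hd'⟩⟩
  choose a b hX hab using fun i => (hf i).1
  choose c d hY hcd using fun i => (hg i).1
  have hmem : ∀ i, ∀ q : Fin 2, (![a i, b i] : Fin 2 → V) q ∈ f i := by
    intro i q
    rw [hX i]
    fin_cases q <;> simp
  have hmem' : ∀ i, ∀ q : Fin 2, (![c i, d i] : Fin 2 → V) q ∈ g i := by
    intro i q
    rw [hY i]
    fin_cases q <;> simp
  obtain ⟨i, j, hij⟩ := hgen 2 2 (by norm_num) (by norm_num) (by norm_num) (by norm_num)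
    (fun i => ![a i, b i]) (fun i => ![c i, d i]) (fun i q => (hf i).2 (hmem i q))
    (fun j q => by simpa using (hg j).2 (hmem' j q))
    (pair_injective hd hmem (by
      intro i p q hpq
      have h1 := (hab i).ne
      fin_cases p <;> fin_cases q <;> simp_all))
    (pair_injective hd' hmem' (by
      intro i p q hpq
      have h1 := (hcd i).ne
      fin_cases p <;> fin_cases q <;> simp_all))
    (fun _ _ => True)
  have h00 := hij 0 0
  have h01 := hij 0 1
  have h10 := hij 1 0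
  have h11 := hij 1 1
  simp at h00 h01 h10 h11
  exact no_K4 hG (hab i) h00 h01 h10 h11 (hcd j)

theorem remove_side {V : Type} [Fintype V] [DecidableEq V] {G : SimpleGraph V} (hG : TPerf G)
    (A : Finset V) (m : ℕ) (hm : 1 ≤ m) (hgen : GenAll G A m) (hB : 4 * m ≤ Aᶜ.card)
    (hK2 : ¬ HasM (IsK2 G) Aᶜ m) :
    ∃ Z : Finset V, Z.card ≤ 13 * m ∧
      ((∀ X ⊆ A \ Z, ¬ Bad G X) ∧ (∀ u ∈ Aᶜ \ Z, ∀ v ∈ Aᶜ \ Z, ¬ G.Adj u v)) := by
  obtain ⟨h3, h22, h4⟩ := bad_side hG A m hm hgen hB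
  obtain ⟨Z1, c1, k1⟩ := exists_cover (IsK3 G) A 3 m (by
    rintro X ⟨a, b, c, rfl, _⟩
    exact ⟨by simp, Finset.card_le_three⟩) h3
  obtain ⟨Z2, c2, k2⟩ := exists_cover (Is2K2 G) A 4 m (by
    rintro X ⟨a, b, c, d, rfl, _⟩
    exact ⟨by simp, Finset.card_le_four⟩) h22
  obtain ⟨Z3, c3, k3⟩ := exists_cover (IsP4 G) A 4 m (by
    rintro X ⟨a, b, c, d, rfl, _⟩
    exact ⟨by simp, Finset.card_le_four⟩) h4
  obtain ⟨Z4, c4, k4⟩ := exists_cover (IsK2 G) Aᶜ 2 m (by
    rintro X ⟨a, b, rfl, _⟩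
    exact ⟨by simp, Finset.card_le_two⟩) hK2
  refine ⟨Z1 ∪ Z2 ∪ Z3 ∪ Z4, ?_, ?_, ?_⟩
  · have e1 := Finset.card_union_le (Z1 ∪ Z2 ∪ Z3) Z4
    have e2 := Finset.card_union_le (Z1 ∪ Z2) Z3
    have e3 := Finset.card_union_le Z1 Z2
    omega
  · intro X hX hbad
    have sub : ∀ Z : Finset V, Z ⊆ Z1 ∪ Z2 ∪ Z3 ∪ Z4 → X ⊆ A \ Z := fun Z hZ =>
      hX.trans (Finset.sdiff_subset_sdiff subset_rfl hZ)
    rcases hbad with h | h | h
    · refine k1 X (sub Z1 ?_) h
      intro x hx; simp [hx]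
    · refine k2 X (sub Z2 ?_) h
      intro x hx; simp [hx]
    · refine k3 X (sub Z3 ?_) h
      intro x hx; simp [hx]
  · intro u hu v hv huv
    refine k4 {u, v} ?_ ⟨u, v, rfl, huv⟩
    intro x hx
    simp only [mem_sdiff, mem_union, not_or] at hu hv
    simp only [mem_insert, mem_singleton] at hx
    rcases hx with rfl | rfl
    · exact Finset.mem_sdiff.mpr ⟨hu.1, hu.2.2⟩
    · exact Finset.mem_sdiff.mpr ⟨hv.1, hv.2.2⟩

theorem remove_bad {V : Type} [Fintype V] [DecidableEq V] {G : SimpleGraph V} (hG : TPerf G)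
    (A : Finset V) (m : ℕ) (hm : 1 ≤ m) (hgen : GenAll G A m)
    (hA : 4 * m ≤ A.card) (hB : 4 * m ≤ Aᶜ.card) :
    ∃ Z : Finset V, Z.card ≤ 13 * m ∧
      (((∀ X ⊆ A \ Z, ¬ Bad G X) ∧ (∀ u ∈ Aᶜ \ Z, ∀ v ∈ Aᶜ \ Z, ¬ G.Adj u v)) ∨
       ((∀ X ⊆ Aᶜ \ Z, ¬ Bad G X) ∧ (∀ u ∈ A \ Z, ∀ v ∈ A \ Z, ¬ G.Adj u v))) := by
  have hcc : Aᶜᶜ = A := compl_compl A
  by_cases h : HasM (IsK2 G) Aᶜ m
  · have h' : ¬ HasM (IsK2 G) Aᶜᶜ m := by
      rw [hcc]
      exact fun h' => edges_sides hG A m hgen ⟨h', h⟩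
    obtain ⟨Z, h1, h2, h3⟩ := remove_side hG Aᶜ m hm hgen.symm (by rw [hcc]; exact hA) h'
    rw [hcc] at h3
    exact ⟨Z, h1, Or.inr ⟨h2, h3⟩⟩
  · obtain ⟨Z, h1, h2, h3⟩ := remove_side hG A m hm hgen hB h
    exact ⟨Z, h1, Or.inl ⟨h2, h3⟩⟩

end Pool.Agent.Helper17.TP
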