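import Pool.Agent.Helper17.TP.G2

/-! convenient forms of `Gen.use` -/

set_option autoImplicit false

namespace Pool.Agent.Helper17.TP

open SimpleGraph Finset

variable {V : Type} [DecidableEq V] {G : SimpleGraph V} {A : Finset V} {m : ℕ}

theorem use22 (hgen : GenAll G A m) {F1 F2 H1 H2 : Finset V}
    (f1 : F1 ⊆ A ∧ 4 * m ≤ F1.card) (f2 : F2 ⊆ A ∧ 4 * m ≤ F2.card)
    (h1 : Disjoint H1 A ∧ 4 * m ≤ H1.card) (h2 : Disjoint H2 A ∧ 4 * m ≤ H2.card)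
    (p11 p12 p21 p22 : Prop) :
    ∃ a1 ∈ F1, ∃ a2 ∈ F2, ∃ b1 ∈ H1, ∃ b2 ∈ H2, (G.Adj a1 b1 ↔ p11) ∧ (G.Adj a1 b2 ↔ p12) ∧
      (G.Adj a2 b1 ↔ p21) ∧ (G.Adj a2 b2 ↔ p22) := by
  obtain ⟨a, b, -, -, ha, hb, hab⟩ := (hgen 2 2 (by norm_num) (by norm_num) (by norm_num)
    (by norm_num)).use (by norm_num) (by norm_num) ![F1, F2] ![H1, H2]
    (by intro i; fin_cases i <;> simpa) (by intro i; fin_cases i <;> simpa)
    ![![p11, p12], ![p21, p22]]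
  refine ⟨a 0, by simpa using ha 0, a 1, by simpa using ha 1, b 0, by simpa using hb 0, b 1,
    by simpa using hb 1, ?_, ?_, ?_, ?_⟩
  · simpa using hab 0 0
  · simpa using hab 0 1
  · simpa using hab 1 0
  · simpa using hab 1 1

theorem use11 (hgen : GenAll G A m) {F1 H1 : Finset V}
    (f1 : F1 ⊆ A ∧ 4 * m ≤ F1.card) (h1 : Disjoint H1 A ∧ 4 * m ≤ H1.card) (p11 : Prop) :
    ∃ a1 ∈ F1, ∃ b1 ∈ H1, (G.Adj a1 b1 ↔ p11) := by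
  obtain ⟨a1, ha1, -, -, b1, hb1, -, -, h, -⟩ := use22 hgen f1 f1 h1 h1 p11 True True True
  exact ⟨a1, ha1, b1, hb1, h⟩

theorem use21 (hgen : GenAll G A m) {F1 F2 H1 : Finset V}
    (f1 : F1 ⊆ A ∧ 4 * m ≤ F1.card) (f2 : F2 ⊆ A ∧ 4 * m ≤ F2.card)
    (h1 : Disjoint H1 A ∧ 4 * m ≤ H1.card) (p1 p2 : Prop) :
    ∃ a1 ∈ F1, ∃ a2 ∈ F2, ∃ b1 ∈ H1, (G.Adj a1 b1 ↔ p1) ∧ (G.Adj a2 b1 ↔ p2) := by
  obtain ⟨a1, ha1, a2, ha2, b1, hb1, -, -, h, -, h', -⟩ := use22 hgen f1 f2 h1 h1 p1 True p2 True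
  exact ⟨a1, ha1, a2, ha2, b1, hb1, h, h'⟩

/-- three vertices of `A` (pairwise different), two outside (different) -/
theorem use32 (hgen : GenAll G A m) {F1 F2 F3 H1 H2 : Finset V}
    (f1 : F1 ⊆ A ∧ 4 * m ≤ F1.card) (f2 : F2 ⊆ A ∧ 4 * m ≤ F2.card)
    (f3 : F3 ⊆ A ∧ 4 * m ≤ F3.card)
    (h1 : Disjoint H1 A ∧ 4 * m ≤ H1.card) (h2 : Disjoint H2 A ∧ 4 * m ≤ H2.card)
    (p11 p12 p21 p22 p31 p32 : Prop) :
    ∃ a1 ∈ F1, ∃ a2 ∈ F2, ∃ a3 ∈ F3, ∃ b1 ∈ H1, ∃ b2 ∈ H2,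
      (G.Adj a1 b1 ↔ p11) ∧ (G.Adj a1 b2 ↔ p12) ∧
      (G.Adj a2 b1 ↔ p21) ∧ (G.Adj a2 b2 ↔ p22) ∧
      (G.Adj a3 b1 ↔ p31) ∧ (G.Adj a3 b2 ↔ p32) := by
  obtain ⟨a, b, -, -, ha, hb, hab⟩ := (hgen 3 2 (by norm_num) (by norm_num) (by norm_num)
    (by norm_num)).use (by norm_num) (by norm_num) ![F1, F2, F3] ![H1, H2]
    (by intro i; fin_cases i <;> simpa) (by intro i; fin_cases i <;> simpa)
    ![![p11, p12], ![p21, p22], ![p31, p32]]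
  refine ⟨a 0, by simpa using ha 0, a 1, by simpa using ha 1, a 2, by simpa using ha 2,
    b 0, by simpa using hb 0, b 1, by simpa using hb 1, ?_, ?_, ?_, ?_, ?_, ?_⟩
  · simpa using hab 0 0
  · simpa using hab 0 1
  · simpa using hab 1 0
  · simpa using hab 1 1
  · simpa using hab 2 0
  · simpa using hab 2 1

/-- the 3 x 3 pattern `(T,F,F), (T,T,F), (F,T,T)` of the 7-cycle -/
theorem use7 (hgen : GenAll G A m) {P' P Q Q' : Finset V}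
    (f1 : P' ⊆ A ∧ 4 * m ≤ P'.card) (f2 : P ⊆ A ∧ 4 * m ≤ P.card)
    (h1 : Disjoint Q A ∧ 4 * m ≤ Q.card) (h2 : Disjoint Q' A ∧ 4 * m ≤ Q'.card) :
    ∃ a' ∈ P', ∃ a ∈ P, ∃ a2 ∈ P, ∃ b ∈ Q, ∃ b2 ∈ Q, ∃ b' ∈ Q',
      G.Adj a' b ∧ ¬ G.Adj a' b2 ∧ ¬ G.Adj a' b' ∧
      G.Adj a b ∧ G.Adj a b2 ∧ ¬ G.Adj a b' ∧
      ¬ G.Adj a2 b ∧ G.Adj a2 b2 ∧ G.Adj a2 b' := by
  obtain ⟨a, b, -, -, ha, hb, hab⟩ := (hgen 3 3 (by norm_num) (by norm_num) (by norm_num)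
    (by norm_num)).use (by norm_num) (by norm_num) ![P', P, P] ![Q, Q, Q']
    (by intro i; fin_cases i <;> simpa) (by intro i; fin_cases i <;> simpa)
    ![![True, False, False], ![True, True, False], ![False, True, True]]
  refine ⟨a 0, by simpa using ha 0, a 1, by simpa using ha 1, a 2, by simpa using ha 2,
    b 0, by simpa using hb 0, b 1, by simpa using hb 1, b 2, by simpa using hb 2,
    ?_, ?_, ?_, ?_, ?_, ?_, ?_, ?_, ?_⟩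
  · simpa using hab 0 0
  · simpa using hab 0 1
  · simpa using hab 0 2
  · simpa using hab 1 0
  · simpa using hab 1 1
  · simpa using hab 1 2
  · simpa using hab 2 0
  · simpa using hab 2 1
  · simpa using hab 2 2

end Pool.Agent.Helper17.TP
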