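import Pool.Agent.Helper17.TP.F6
import Pool.Agent.Helper17.TP.G3

/-!
# Block TP-D2: a single vertex against a balanced structure

`A` = `A0 ∪ A1 ∪ A2` part (inside the generic side `A`), `B'` outside `A`, all stable; `A1` complete
to `A2`; no edges `A0`-`A1`, `A0`-`A2`; `|A1|, |A2| ≥ 8m`.  For every vertex `z` outside these sets:
`z` has `< 4m` neighbours in `B'`, or its neighbourhood `N` in `U = A0 ∪ A1 ∪ A2` is within `12 m` of
`∅`, `A1` or `A2`.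

Proof.  Suppose `M = nb G B' z` has `≥ 4m` elements.
(a1) if `|N ∩ A1| ≥ 4m` and `|N ∩ A2| ≥ 4m`: `Gen.use` (2,1) with sets `N ∩ A1`, `N ∩ A2`; `M`; all
true: K4 `{z, a1, a2, b}`.  So, by the symmetry `A1 ↔ A2`, let `|N ∩ A1| < 4m`; then
`|A1 \ N| ≥ 4m`.
(a2) if `|N ∩ A2| ≥ 4m` and `|A2 \ N| ≥ 4m`: `Gen.use` (3,2), sets `N ∩ A2`, `A1 \ N`, `A2 \ N`;
`M`, `M`: get `a2, a1, a2'`, `b1, b2` with `b1` adjacent to all three, `b2` adjacent only to `a2'`: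
`no_H4` with `p1 = z, p2 = a2, p3 = a1, p4 = a2'`, `c = b2`, `h = b1`.
(a3) if `|N ∩ A2| ≥ 4m` (so `|A2 \ N| < 4m`) and `|N ∩ A0| ≥ 4m`: sets `A1 \ N`, `N ∩ A2`, `N ∩ A0`;
`M`, `M`: `a1, a2, a0, b, b'` with `b ~ a2, a0`, `b ≁ a1`, `b' ~ a0, a1`, `b' ≁ a2`: `no_H4` with rim
`p1 = a2, p2 = b, p3 = a0, p4 = b'`, `c = a1`, hub `z`.
    Otherwise `|N ∩ A1| < 4m`, `|A2 \ N| < 4m`, `|N ∩ A0| < 4m`: `|symmDiff N A2| ≤ 12 m`.
(a4) if `|N ∩ A2| < 4m` (so `|A2 \ N| ≥ 4m`) and `|N ∩ A0| ≥ 4m`: sets `A1 \ N`, `A2 \ N`,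
`N ∩ A0`; `M`, `M`: `b ~ a2, a0`, `b ≁ a1`; `b' ~ a1, a0`, `b' ≁ a2`: `no_H3` with
`q1 = a1, q2 = a2, b = b, r = z, c = b', h = a0`.
    Otherwise all of `|N ∩ A0|, |N ∩ A1|, |N ∩ A2| < 4m`: `|N| ≤ 12 m`.
-/

set_option autoImplicit false

namespace Pool.Agent.Helper17.TP

open SimpleGraph Finset

theorem vertex_type_aux {V : Type} [Fintype V] [DecidableEq V] {G : SimpleGraph V}
    (hG : TPerf G)
    (A : Finset V) (m : ℕ) (hgen : GenAll G A m) (A0 A1 A2 B' : Finset V)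
    (i0 : A0 ⊆ A) (i1 : A1 ⊆ A) (i2 : A2 ⊆ A) (iB : Disjoint B' A)
    (sB : ∀ u ∈ B', ∀ v ∈ B', ¬ G.Adj u v)
    (s2 : ∀ u ∈ A2, ∀ v ∈ A2, ¬ G.Adj u v)
    (n01 : ∀ u ∈ A0, ∀ v ∈ A1, ¬ G.Adj u v) (n02 : ∀ u ∈ A0, ∀ v ∈ A2, ¬ G.Adj u v)
    (c12 : ∀ u ∈ A1, ∀ v ∈ A2, G.Adj u v)
    (K1 : 8 * m ≤ A1.card) (K2 : 8 * m ≤ A2.card) (z : V)
    (hM : 4 * m ≤ (nb G B' z).card) (hN1 : (nb G A1 z).card < 4 * m) :
    (nb G (A0 ∪ A1 ∪ A2) z).card ≤ 12 * m ∨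
      (symmDiff (nb G (A0 ∪ A1 ∪ A2) z) A2).card ≤ 12 * m := by
  have hMd : Disjoint (nb G B' z) A ∧ 4 * m ≤ (nb G B' z).card :=
    ⟨Finset.disjoint_of_subset_left (fun x hx => (mem_nb.mp hx).1) iB, hM⟩
  have sub : ∀ B : Finset V, nb G B z ⊆ B := fun B x hx => (mem_nb.mp hx).1
  have hC1 : 4 * m ≤ (A1 \ nb G A1 z).card := by
    rw [Finset.card_sdiff_of_subset (sub A1)]; omega
  have hC1' : (A1 \ nb G A1 z) ⊆ A ∧ 4 * m ≤ (A1 \ nb G A1 z).card :=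
    ⟨Finset.sdiff_subset.trans i1, hC1⟩
  by_cases h2 : 4 * m ≤ (nb G A2 z).card
  · have h2' : nb G A2 z ⊆ A ∧ 4 * m ≤ (nb G A2 z).card := ⟨(sub A2).trans i2, h2⟩
    have hC2 : (A2 \ nb G A2 z).card < 4 * m := by
      by_contra hcon
      push Not at hcon
      obtain ⟨a2, ha2, a1, ha1, a2', ha2', b1, hb1, b2, hb2, e1, e2, e3, e4, e5, e6⟩ :=
        use32 hgen h2' hC1' (⟨Finset.sdiff_subset.trans i2, hcon⟩ :
          (A2 \ nb G A2 z) ⊆ A ∧ 4 * m ≤ (A2 \ nb G A2 z).card) hMd hMd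
          True False True False True True
      simp only [mem_nb, mem_sdiff, not_and] at ha2 ha1 ha2' hb1 hb2
      simp only [iff_true, iff_false] at e1 e2 e3 e4 e5 e6
      exact no_H4 hG (p1 := z) (p2 := a2) (p3 := a1) (p4 := a2') (c := b2) (h := b1)
        ha2.2 (c12 _ ha1.1 _ ha2.1).symm (c12 _ ha1.1 _ ha2'.1) e6 hb2.2.symm
        (ha1.2 ha1.1) (ha2'.2 ha2'.1) (s2 _ ha2.1 _ ha2'.1) e2 e4
        hb1.2.symm e1.symm e3.symm e5.symm (sB _ hb1.1 _ hb2.1)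
    have h0 : (nb G A0 z).card < 4 * m := by
      by_contra hcon
      push Not at hcon
      obtain ⟨a1, ha1, a2, ha2, a0, ha0, b, hb, b', hb', e1, e2, e3, e4, e5, e6⟩ :=
        use32 hgen hC1' h2' (⟨(sub A0).trans i0, hcon⟩ :
          (nb G A0 z) ⊆ A ∧ 4 * m ≤ (nb G A0 z).card) hMd hMd
          False True True False True True
      simp only [mem_nb, mem_sdiff, not_and] at ha2 ha1 ha0 hb hb'
      simp only [iff_true, iff_false] at e1 e2 e3 e4 e5 e6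
      exact no_H4 hG (p1 := a2) (p2 := b) (p3 := a0) (p4 := b') (c := a1) (h := z)
        e3 e5.symm e6 e2.symm (c12 _ ha1.1 _ ha2.1)
        (fun h => n02 _ ha0.1 _ ha2.1 h.symm) e4 (sB _ hb.1 _ hb'.1) (fun h => e1 h.symm)
        (n01 _ ha0.1 _ ha1.1)
        ha2.2 hb.2 ha0.2 hb'.2 (ha1.2 ha1.1)
    right
    have hsub : symmDiff (nb G (A0 ∪ A1 ∪ A2) z) A2 ⊆
        nb G A0 z ∪ nb G A1 z ∪ (A2 \ nb G A2 z) := by
      intro x hx
      simp only [Finset.mem_symmDiff, mem_nb, mem_union, mem_sdiff, not_and] at hx ⊢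
      tauto
    have := (Finset.card_le_card hsub).trans ((Finset.card_union_le _ _).trans
      (Nat.add_le_add_right (Finset.card_union_le _ _) _))
    omega
  · push Not at h2
    have hC2 : 4 * m ≤ (A2 \ nb G A2 z).card := by
      rw [Finset.card_sdiff_of_subset (sub A2)]; omega
    have h0 : (nb G A0 z).card < 4 * m := by
      by_contra hcon
      push Not at hcon
      obtain ⟨a1, ha1, a2, ha2, a0, ha0, b, hb, b', hb', e1, e2, e3, e4, e5, e6⟩ :=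
        use32 hgen hC1' (⟨Finset.sdiff_subset.trans i2, hC2⟩ :
          (A2 \ nb G A2 z) ⊆ A ∧ 4 * m ≤ (A2 \ nb G A2 z).card) (⟨(sub A0).trans i0, hcon⟩ :
          (nb G A0 z) ⊆ A ∧ 4 * m ≤ (nb G A0 z).card) hMd hMd
          False True True False True True
      simp only [mem_nb, mem_sdiff, not_and] at ha2 ha1 ha0 hb hb'
      simp only [iff_true, iff_false] at e1 e2 e3 e4 e5 e6
      exact no_H3 hG (q1 := a1) (q2 := a2) (b := b) (r := z) (c := b') (h := a0)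
        (c12 _ ha1.1 _ ha2.1) e3 hb.2.symm hb'.2 e2.symm
        e1 (fun h => ha1.2 ha1.1 h.symm) (fun h => ha2.2 ha2.1 h.symm) e4 (sB _ hb.1 _ hb'.1)
        e5 ha0.2.symm e6 (n01 _ ha0.1 _ ha1.1) (n02 _ ha0.1 _ ha2.1)
    left
    have hsub : nb G (A0 ∪ A1 ∪ A2) z ⊆ nb G A0 z ∪ nb G A1 z ∪ nb G A2 z := by
      intro x hx
      simp only [mem_nb, mem_union] at hx ⊢
      tauto
    have := (Finset.card_le_card hsub).trans ((Finset.card_union_le _ _).trans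
      (Nat.add_le_add_right (Finset.card_union_le _ _) _))
    omega

theorem vertex_type {V : Type} [Fintype V] [DecidableEq V] {G : SimpleGraph V} (hG : TPerf G)
    (A : Finset V) (m : ℕ) (_hm : 1 ≤ m) (hgen : GenAll G A m) (A0 A1 A2 B' : Finset V)
    (i0 : A0 ⊆ A) (i1 : A1 ⊆ A) (i2 : A2 ⊆ A) (iB : Disjoint B' A)
    (_d01 : Disjoint A0 A1) (_d02 : Disjoint A0 A2) (_d12 : Disjoint A1 A2)
    (sB : ∀ u ∈ B', ∀ v ∈ B', ¬ G.Adj u v)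
    (_s0 : ∀ u ∈ A0, ∀ v ∈ A0, ¬ G.Adj u v) (s1 : ∀ u ∈ A1, ∀ v ∈ A1, ¬ G.Adj u v)
    (s2 : ∀ u ∈ A2, ∀ v ∈ A2, ¬ G.Adj u v)
    (n01 : ∀ u ∈ A0, ∀ v ∈ A1, ¬ G.Adj u v) (n02 : ∀ u ∈ A0, ∀ v ∈ A2, ¬ G.Adj u v)
    (c12 : ∀ u ∈ A1, ∀ v ∈ A2, G.Adj u v)
    (K1 : 8 * m ≤ A1.card) (K2 : 8 * m ≤ A2.card) (z : V) :
    (nb G B' z).card < 4 * m ∨ (nb G (A0 ∪ A1 ∪ A2) z).card ≤ 12 * m ∨
      (symmDiff (nb G (A0 ∪ A1 ∪ A2) z) A1).card ≤ 12 * m ∨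
      (symmDiff (nb G (A0 ∪ A1 ∪ A2) z) A2).card ≤ 12 * m := by
  by_cases hM : 4 * m ≤ (nb G B' z).card
  · right
    have sub : ∀ B : Finset V, nb G B z ⊆ B := fun B x hx => (mem_nb.mp hx).1
    have hMd : Disjoint (nb G B' z) A ∧ 4 * m ≤ (nb G B' z).card :=
      ⟨Finset.disjoint_of_subset_left (sub B') iB, hM⟩
    have hor : (nb G A1 z).card < 4 * m ∨ (nb G A2 z).card < 4 * m := by
      by_contra hcon
      push Not at hcon
      obtain ⟨a1, ha1, a2, ha2, b, hb, e1, e2⟩ := use21 hgen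
        (⟨(sub A1).trans i1, hcon.1⟩ : (nb G A1 z) ⊆ A ∧ 4 * m ≤ (nb G A1 z).card)
        (⟨(sub A2).trans i2, hcon.2⟩ : (nb G A2 z) ⊆ A ∧ 4 * m ≤ (nb G A2 z).card) hMd
        True True
      simp only [mem_nb] at ha1 ha2 hb
      simp only [iff_true] at e1 e2
      exact no_K4 hG ha1.2 ha2.2 hb.2 (c12 _ ha1.1 _ ha2.1) e1 e2
    rcases hor with h1 | h2
    · rcases vertex_type_aux hG A m hgen A0 A1 A2 B' i0 i1 i2 iB sB s2 n01 n02 c12 K1 K2 z hM h1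
        with h | h
      · exact Or.inl h
      · exact Or.inr (Or.inr h)
    · have hcomm : A0 ∪ A2 ∪ A1 = A0 ∪ A1 ∪ A2 := by
        rw [Finset.union_assoc, Finset.union_comm A2 A1, ← Finset.union_assoc]
      have := vertex_type_aux hG A m hgen A0 A2 A1 B' i0 i2 i1 iB sB s1 n02 n01
        (fun u hu v hv => (c12 v hv u hu).symm) K2 K1 z hM h2
      rw [hcomm] at this
      rcases this with h | h
      · exact Or.inl h
      · exact Or.inr (Or.inl h)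
  · left
    omega

end Pool.Agent.Helper17.TP
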