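import Pool.Agent.Helper17.TP.F
import Pool.Agent.Helper17.TP.G3

/-! the contradictory situations of blocks D3a, D3b -/

set_option autoImplicit false

namespace Pool.Agent.Helper17.TP

open SimpleGraph Finset

variable {V : Type} [Fintype V] [DecidableEq V] {G : SimpleGraph V}

/-- the setting of blocks D3a, D3b -/
structure Ctx (G : SimpleGraph V) (A A' B' : Finset V) (m : ℕ) : Prop where
  hG : TPerf G
  hgen : GenAll G A m
  iA : A' ⊆ A
  iB : Disjoint B' A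
  sA : ∀ u ∈ A', ∀ v ∈ A', ¬ G.Adj u v
  sB : ∀ u ∈ B', ∀ v ∈ B', ¬ G.Adj u v

variable {A A' B' : Finset V} {m : ℕ}

theorem Ctx.swap (h : Ctx G A A' B' m) : Ctx G Aᶜ B' A' m where
  hG := h.hG
  hgen := h.hgen.symm
  iA := by
    intro x hx
    rw [mem_compl]
    exact Finset.disjoint_left.mp h.iB hx
  iB := by
    rw [Finset.disjoint_left]
    intro x hx hx'
    exact (mem_compl.mp hx') (h.iA hx)
  sA := h.sB
  sB := h.sA

theorem Ctx.inA (h : Ctx G A A' B' m) {F : Finset V} (hF : F ⊆ A') (hc : 4 * m ≤ F.card) :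
    F ⊆ A ∧ 4 * m ≤ F.card := ⟨hF.trans h.iA, hc⟩

theorem Ctx.inB (h : Ctx G A A' B' m) {F : Finset V} (hF : F ⊆ B') (hc : 4 * m ≤ F.card) :
    Disjoint F A ∧ 4 * m ≤ F.card := ⟨Finset.disjoint_of_subset_left hF h.iB, hc⟩

theorem nb_sub {B : Finset V} {z : V} : nb G B z ⊆ B := fun _ hx => (mem_nb.mp hx).1

theorem kA1 (h : Ctx G A A' B' m) {z z' : V} (hzz : G.Adj z z')
    (hI : 4 * m ≤ (nb G A' z ∩ nb G A' z').card)
    (hJ : 4 * m ≤ (nb G B' z ∩ nb G B' z').card) : False := by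
  obtain ⟨a, ha, b, hb, e⟩ := use11 h.hgen
    (h.inA (Finset.inter_subset_left.trans nb_sub) hI)
    (h.inB (Finset.inter_subset_left.trans nb_sub) hJ) True
  simp only [mem_inter, mem_nb] at ha hb
  simp only [iff_true] at e
  exact no_K4 h.hG hzz ha.1.2 hb.1.2 ha.2.2 hb.2.2 e

theorem kA2 (h : Ctx G A A' B' m) {z z' : V} (hzz : G.Adj z z')
    (hI : 4 * m ≤ (nb G A' z ∩ nb G A' z').card)
    (hP : 4 * m ≤ (nb G A' z \ nb G A' z').card)
    (hQ : 4 * m ≤ (nb G B' z \ nb G B' z').card)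
    (hQ' : 4 * m ≤ (nb G B' z' \ nb G B' z).card) : False := by
  obtain ⟨a, ha, a2, ha2, b, hb, b', hb', e1, e2, e3, e4⟩ := use22 h.hgen
    (h.inA (Finset.inter_subset_left.trans nb_sub) hI)
    (h.inA (Finset.sdiff_subset.trans nb_sub) hP)
    (h.inB (Finset.sdiff_subset.trans nb_sub) hQ)
    (h.inB (Finset.sdiff_subset.trans nb_sub) hQ') True False True True
  simp only [mem_inter, mem_sdiff, mem_nb, not_and] at ha ha2 hb hb'
  simp only [iff_true, iff_false] at e1 e2 e3 e4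
  exact no_H4 h.hG (p1 := z') (p2 := a) (p3 := b) (p4 := a2) (c := b') (h := z)
    ha.2.2 e1 e3.symm e4 hb'.1.2.symm
    (hb.2 hb.1.1) (ha2.2 ha2.1.1) (h.sA _ ha.1.1 _ ha2.1.1) e2 (h.sB _ hb.1.1 _ hb'.1.1)
    hzz ha.1.2 hb.1.2 ha2.1.2 (hb'.2 hb'.1.1)

theorem k7 (h : Ctx G A A' B' m) {z z' : V} (hne : z ≠ z')
    (hP : 4 * m ≤ (nb G A' z \ nb G A' z').card)
    (hP' : 4 * m ≤ (nb G A' z' \ nb G A' z).card)
    (hQ : 4 * m ≤ (nb G B' z \ nb G B' z').card)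
    (hQ' : 4 * m ≤ (nb G B' z' \ nb G B' z).card) : False := by
  obtain ⟨a', ha', a, ha, a2, ha2, b, hb, b2, hb2, b', hb', e1, e2, e3, e4, e5, e6, e7, e8, e9⟩ :=
    use7 h.hgen
    (h.inA (Finset.sdiff_subset.trans nb_sub) hP')
    (h.inA (Finset.sdiff_subset.trans nb_sub) hP)
    (h.inB (Finset.sdiff_subset.trans nb_sub) hQ)
    (h.inB (Finset.sdiff_subset.trans nb_sub) hQ')
  simp only [mem_sdiff, mem_nb, not_and] at ha' ha ha2 hb hb2 hb'
  exact no_C7 h.hG (z' := z') (a' := a') (b := b) (a := a) (b2 := b2) (a2 := a2) (b' := b')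
    (z := z) ha'.1.2 e1 e4.symm e5 e8.symm e9 hb'.1.2.symm
    (hb.2 hb.1.1) (ha.2 ha.1.1) (hb2.2 hb2.1.1) (ha2.2 ha2.1.1)
    (h.sA _ ha'.1.1 _ ha.1.1) e2 (h.sA _ ha'.1.1 _ ha2.1.1) e3
    (h.sB _ hb.1.1 _ hb2.1.1) (fun h => e7 h.symm) (h.sB _ hb.1.1 _ hb'.1.1)
    (h.sA _ ha.1.1 _ ha2.1.1) e6 (h.sB _ hb2.1.1 _ hb'.1.1)
    hb.1.2 ha.1.2 hb2.1.2 ha2.1.2 (ha'.2 ha'.1.1) (hb'.2 hb'.1.1) hne

theorem kB1 (h : Ctx G A A' B' m) {z z' : V} (hzz : ¬ G.Adj z z')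
    (hP : 4 * m ≤ (nb G A' z \ nb G A' z').card)
    (hI : 4 * m ≤ (nb G A' z ∩ nb G A' z').card)
    (hQ : 4 * m ≤ (nb G B' z \ nb G B' z').card)
    (hJ : 4 * m ≤ (nb G B' z ∩ nb G B' z').card) : False := by
  obtain ⟨a', ha', a, ha, b, hb, b', hb', e1, e2, e3, e4⟩ := use22 h.hgen
    (h.inA (Finset.inter_subset_left.trans nb_sub) hI)
    (h.inA (Finset.sdiff_subset.trans nb_sub) hP)
    (h.inB (Finset.sdiff_subset.trans nb_sub) hQ)
    (h.inB (Finset.inter_subset_left.trans nb_sub) hJ) True False True True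
  simp only [mem_inter, mem_sdiff, mem_nb, not_and] at ha ha' hb hb'
  simp only [iff_true, iff_false] at e1 e2 e3 e4
  exact no_H4 h.hG (p1 := a') (p2 := b) (p3 := a) (p4 := b') (c := z') (h := z)
    e1 e3.symm e4 hb'.2.2.symm ha'.2.2
    (h.sA _ ha'.1.1 _ ha.1.1) e2 (h.sB _ hb.1.1 _ hb'.1.1)
    (fun h => hb.2 hb.1.1 h.symm) (fun h => ha.2 ha.1.1 h.symm)
    ha'.1.2 hb.1.2 ha.1.2 hb'.1.2 hzz

theorem kB2 (h : Ctx G A A' B' m) {z z' : V} (hzz : ¬ G.Adj z z')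
    (hP : 4 * m ≤ (nb G A' z \ nb G A' z').card)
    (hI : 4 * m ≤ (nb G A' z ∩ nb G A' z').card)
    (hQ' : 4 * m ≤ (nb G B' z' \ nb G B' z).card)
    (hJ : 4 * m ≤ (nb G B' z ∩ nb G B' z').card) : False := by
  obtain ⟨a, ha, a', ha', b', hb', b, hb, e1, e2, e3, e4⟩ := use22 h.hgen
    (h.inA (Finset.sdiff_subset.trans nb_sub) hP)
    (h.inA (Finset.inter_subset_left.trans nb_sub) hI)
    (h.inB (Finset.sdiff_subset.trans nb_sub) hQ')
    (h.inB (Finset.inter_subset_left.trans nb_sub) hJ) True False True True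
  simp only [mem_inter, mem_sdiff, mem_nb, not_and] at ha ha' hb hb'
  simp only [iff_true, iff_false] at e1 e2 e3 e4
  exact no_H4 h.hG (p1 := b') (p2 := z') (p3 := b) (p4 := z) (c := a) (h := a')
    hb'.1.2.symm hb.2.2 hb.1.2.symm ha.1.2 e1
    (h.sB _ hb'.1.1 _ hb.1.1) (fun h => hb'.2 hb'.1.1 h.symm) (fun h => hzz h.symm)
    (ha.2 ha.1.1) (fun h => e2 h.symm)
    e3 ha'.2.2.symm e4 ha'.1.2.symm (h.sA _ ha'.1.1 _ ha.1.1)

theorem kB3 (h : Ctx G A A' B' m) {z z' : V} (hzz : ¬ G.Adj z z')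
    (hI : 4 * m ≤ (nb G A' z ∩ nb G A' z').card)
    (hP : 4 * m ≤ (nb G A' z \ nb G A' z').card)
    (hQ : 4 * m ≤ (nb G B' z \ nb G B' z').card)
    (hQ' : 4 * m ≤ (nb G B' z' \ nb G B' z).card) : False := by
  obtain ⟨a3, ha3, a2, ha2, b, hb, b', hb', e1, e2, e3, e4⟩ := use22 h.hgen
    (h.inA (Finset.inter_subset_left.trans nb_sub) hI)
    (h.inA (Finset.sdiff_subset.trans nb_sub) hP)
    (h.inB (Finset.sdiff_subset.trans nb_sub) hQ)
    (h.inB (Finset.sdiff_subset.trans nb_sub) hQ') True False True True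
  simp only [mem_inter, mem_sdiff, mem_nb, not_and] at ha3 ha2 hb hb'
  simp only [iff_true, iff_false] at e1 e2 e3 e4
  exact no_H3 h.hG (q1 := z') (q2 := b') (b := a2) (r := z) (c := a3) (h := b)
    hb'.1.2 e4.symm ha2.1.2.symm ha3.1.2 ha3.2.2.symm
    (ha2.2 ha2.1.1) (fun h => hzz h.symm) (fun h => hb'.2 hb'.1.1 h.symm) (fun h => e2 h.symm)
    (h.sA _ ha2.1.1 _ ha3.1.1)
    e3.symm hb.1.2.symm e1.symm (fun h => hb.2 hb.1.1 h.symm) (h.sB _ hb.1.1 _ hb'.1.1)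

/-- cardinality bookkeeping -/
theorem card_parts (N N' : Finset V) :
    N.card = (N ∩ N').card + (N \ N').card ∧ N'.card = (N ∩ N').card + (N' \ N).card ∧
      (symmDiff N N').card = (N \ N').card + (N' \ N).card := by
  refine ⟨?_, ?_, ?_⟩
  · have := Finset.card_inter_add_card_sdiff N N'; omega
  · have := Finset.card_inter_add_card_sdiff N' N
    rw [Finset.inter_comm] at this; omega
  · rw [symmDiff_def, Finset.sup_eq_union, Finset.card_union_of_disjoint]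
    exact disjoint_sdiff_sdiff

end Pool.Agent.Helper17.TP
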