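import Pool.Agent.Helper17.TP.F6
import Pool.Agent.Helper17.TP.G4

/-!
# Block TP-D3a (only `pair_adj`; the nonadjacent case is D3b): two double vertices over a generic bipartite graph

`A' ⊆ A`, `B' ∩ A = ∅`, both stable, `z ≠ z'` arbitrary vertices, `N = nb G A' z`,
`M = nb G B' z`, `N' = nb G A' z'`, `M' = nb G B' z'`, all of size `≥ 8m`.  Then
`|N Δ N'| < 8m` or `|M Δ M'| < 8m`.

Note first: `z, z'` may lie in `A'` or `B'`?  No: `z ∈ A'` has `N = ∅`, `z ∈ B'` has `M = ∅`.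

Proof.  Suppose both are `≥ 8m`.  Call a set large if it has `≥ 4m` elements.  Put
`P = N \ N'`, `P' = N' \ N`, `I = N ∩ N'`, `Q = M \ M'`, `Q' = M' \ M`, `J = M ∩ M'`.  Then
(P or P') large, (I or P) large, (I or P') large, (Q or Q'), (J or Q), (J or Q') large.
Each of the following situations is impossible (vertices chosen by `Gen.use` with the indicated
sets; `a`'s in `A'`, `b`'s in `B'`; all pairs `a`-`a`, `b`-`b` are non-adjacent):

If `z ~ z'`:
 (A1) I, J large: `a ∈ I`, `b ∈ J`, `a ~ b`: K4.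
 (A2) I, P, Q, Q' large: `a ∈ I`, `a2 ∈ P`, `b ∈ Q`, `b' ∈ Q'`; `a ~ b`, `a ≁ b'`, `a2 ~ b`,
   `a2 ~ b'`: H4 with rim `p1 = z', p2 = a, p3 = b, p4 = a2, c = b'`, hub `z`.
 (A2') I, P', Q, Q': exchange `z` and `z'`.   (A2'') J, Q, P, P' and J, Q', P, P': exchange the
   roles of `A'` and `B'` (use `GenAll.symm`).
 (A3) P, P', Q, Q' large: 7-cycle: `a, a2 ∈ P`, `a' ∈ P'`, `b, b2 ∈ Q`, `b' ∈ Q'`; `Gen.use` (3,3),
   rows `a', a, a2`, columns `b, b2, b'`: `a': (T,F,F)`, `a: (T,T,F)`, `a2: (F,T,T)`: `no_C7`.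
 These cover all cases: if I is not large then P, P' are large, and J large + (Q or Q') gives
 (A2''), J not large gives Q, Q' large: (A3).  If I is large: J large: (A1); J not large: Q, Q'
 large, and P or P' is large: (A2)/(A2').
If `z ≁ z'`:
 (B1) P, I, Q, J large: `a ∈ P`, `a' ∈ I`, `b ∈ Q`, `b' ∈ J`; `a' ~ b`, `a' ≁ b'`, `a ~ b`,
   `a ~ b'`: H4, rim `p1 = a', p2 = b, p3 = a, p4 = b', c = z'`, hub `z`.
 (B1') P', I, Q', J: exchange `z, z'`.
 (B2) P, I, Q', J large: `a ∈ P`, `a' ∈ I`, `b' ∈ Q'`, `b ∈ J`; `a ~ b'`, `a ≁ b`, `a' ~ b'`,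
   `a' ~ b`: H4, rim `p1 = b', p2 = z', p3 = b, p4 = z, c = a`, hub `a'`.
 (B2') P', I, Q, J: exchange `z, z'`.
 (B3) I, P, Q, Q' large: `a3 ∈ I`, `a2 ∈ P`, `b ∈ Q`, `b' ∈ Q'`; `a2 ~ b'`, `a2 ~ b`, `a3 ≁ b'`,
   `a3 ~ b`: H3 with `q1 = z', q2 = b', b = a2, r = z, c = a3, h = b`.
 (B3') I, P', Q, Q': exchange `z, z'`.  (B3'') J, Q, P, P' and J, Q', P, P': exchange `A'`, `B'`.
 (B4) P, P', Q, Q' large: as (A3).
 Covering: I, J large: (B1), (B1'), (B2), (B2') according to P/P', Q/Q'.  I large, J not: (B3),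
 (B3').  J large, I not: (B3'').  None: (B4).
-/

set_option autoImplicit false

namespace Pool.Agent.Helper17.TP

open SimpleGraph Finset

/-- block TP-D3a (z, z' adjacent) -/
theorem pair_adj {V : Type} [Fintype V] [DecidableEq V] {G : SimpleGraph V} (hG : TPerf G)
    (A : Finset V) (m : ℕ) (hm : 1 ≤ m) (hgen : GenAll G A m) (A' B' : Finset V)
    (iA : A' ⊆ A) (iB : Disjoint B' A)
    (sA : ∀ u ∈ A', ∀ v ∈ A', ¬ G.Adj u v) (sB : ∀ u ∈ B', ∀ v ∈ B', ¬ G.Adj u v)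
    (z z' : V) (hzz : G.Adj z z')
    (h1 : 8 * m ≤ (nb G A' z).card) (h2 : 8 * m ≤ (nb G B' z).card)
    (h1' : 8 * m ≤ (nb G A' z').card) (h2' : 8 * m ≤ (nb G B' z').card) :
    (symmDiff (nb G A' z) (nb G A' z')).card < 8 * m ∨
      (symmDiff (nb G B' z) (nb G B' z')).card < 8 * m := by
  have h : Ctx G A A' B' m := ⟨hG, hgen, iA, iB, sA, sB⟩
  by_contra hcon
  push Not at hcon
  obtain ⟨c1, c2, c3⟩ := card_parts (nb G A' z) (nb G A' z')
  obtain ⟨d1, d2, d3⟩ := card_parts (nb G B' z) (nb G B' z')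
  have hs := h.swap
  have comm : ∀ X Y : Finset V, X ∩ Y = Y ∩ X := fun X Y => Finset.inter_comm X Y
  by_cases hI : 4 * m ≤ (nb G A' z ∩ nb G A' z').card
  · by_cases hJ : 4 * m ≤ (nb G B' z ∩ nb G B' z').card
    · exact kA1 h hzz hI hJ
    · push Not at hJ
      by_cases hP : 4 * m ≤ (nb G A' z \ nb G A' z').card
      · exact kA2 h hzz hI hP (by omega) (by omega)
      · exact kA2 h hzz.symm (by rw [comm]; exact hI) (by omega) (by omega) (by omega)
  · push Not at hI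
    by_cases hJ : 4 * m ≤ (nb G B' z ∩ nb G B' z').card
    · by_cases hQ : 4 * m ≤ (nb G B' z \ nb G B' z').card
      · exact kA2 hs hzz hJ hQ (by omega) (by omega)
      · exact kA2 hs hzz.symm (by rw [comm]; exact hJ) (by omega) (by omega) (by omega)
    · push Not at hJ
      exact k7 h hzz.ne (by omega) (by omega) (by omega) (by omega)

end Pool.Agent.Helper17.TP
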