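import Pool.Agent.Helper17.TP.F6
import Pool.Agent.Helper17.TP.G4

/-!
# Block TP-D3b (only `pair_nonadj`; the adjacent case is D3a): two double vertices over a generic bipartite graph

`A' ⊆ A`, `B' ∩ A = ∅`, both stable, `z ≠ z'` arbitrary vertices, `N = nb G A' z`,
`M = nb G B' z`, `N' = nb G A' z'`, `M' = nb G B' z'`, all of size `≥ 8m`.  Then
`|N Δ N'| < 8m` or `|M Δ M'| < 8m`.

Note first: `z, z'` may lie in `A'` or `B'`?  No: `z ∈ A'` has `N = ∅`, `z ∈ B'` has `M = ∅`.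

Proof.  Suppose both are `≥ 8m`.  Call a set large if it has `≥ 4m` elements.  Put
`P = N \ N'`, `P' = N' \ N`, `I = N ∩ N'`, `Q = M \ M'`, `Q' = M' \ M`, `J = M ∩ M'`.  Then
(P or P') large, (I or P) large, (I or P') large, (Q or Q'), (J or Q), (J or Q') large.
Each of the following situations is impossible (vertices chosen by `Gen.use` with the indicated
sets; `a`'s in `A'`, `b`'s in `B'`; all pairs `a`-`a`, `b`-`b` are non-adjacent):

If `z ~ z'`:
 (A1) I, J large: `a ∈ I`, `b ∈ J`, `a ~ b`: K4.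
 (A2) I, P, Q, Q' large: `a ∈ I`, `a2 ∈ P`, `b ∈ Q`, `b' ∈ Q'`; `a ~ b`, `a ≁ b'`, `a2 ~ b`,
   `a2 ~ b'`: H4 with rim `p1 = z', p2 = a, p3 = b, p4 = a2, c = b'`, hub `z`.
 (A2') I, P', Q, Q': exchange `z` and `z'`.   (A2'') J, Q, P, P' and J, Q', P, P': exchange the
   roles of `A'` and `B'` (use `GenAll.symm`).
 (A3) P, P', Q, Q' large: 7-cycle: `a, a2 ∈ P`, `a' ∈ P'`, `b, b2 ∈ Q`, `b' ∈ Q'`; `Gen.use` (3,3),
   rows `a', a, a2`, columns `b, b2, b'`: `a': (T,F,F)`, `a: (T,T,F)`, `a2: (F,T,T)`: `no_C7`.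
 These cover all cases: if I is not large then P, P' are large, and J large + (Q or Q') gives
 (A2''), J not large gives Q, Q' large: (A3).  If I is large: J large: (A1); J not large: Q, Q'
 large, and P or P' is large: (A2)/(A2').
If `z ≁ z'`:
 (B1) P, I, Q, J large: `a ∈ P`, `a' ∈ I`, `b ∈ Q`, `b' ∈ J`; `a' ~ b`, `a' ≁ b'`, `a ~ b`,
   `a ~ b'`: H4, rim `p1 = a', p2 = b, p3 = a, p4 = b', c = z'`, hub `z`.
 (B1') P', I, Q', J: exchange `z, z'`.
 (B2) P, I, Q', J large: `a ∈ P`, `a' ∈ I`, `b' ∈ Q'`, `b ∈ J`; `a ~ b'`, `a ≁ b`, `a' ~ b'`,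
   `a' ~ b`: H4, rim `p1 = b', p2 = z', p3 = b, p4 = z, c = a`, hub `a'`.
 (B2') P', I, Q, J: exchange `z, z'`.
 (B3) I, P, Q, Q' large: `a3 ∈ I`, `a2 ∈ P`, `b ∈ Q`, `b' ∈ Q'`; `a2 ~ b'`, `a2 ~ b`, `a3 ≁ b'`,
   `a3 ~ b`: H3 with `q1 = z', q2 = b', b = a2, r = z, c = a3, h = b`.
 (B3') I, P', Q, Q': exchange `z, z'`.  (B3'') J, Q, P, P' and J, Q', P, P': exchange `A'`, `B'`.
 (B4) P, P', Q, Q' large: as (A3).
 Covering: I, J large: (B1), (B1'), (B2), (B2') according to P/P', Q/Q'.  I large, J not: (B3),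
 (B3').  J large, I not: (B3'').  None: (B4).
-/

set_option autoImplicit false

namespace Pool.Agent.Helper17.TP

open SimpleGraph Finset

/-- block TP-D3b (z, z' not adjacent) -/
theorem pair_nonadj {V : Type} [Fintype V] [DecidableEq V] {G : SimpleGraph V} (hG : TPerf G)
    (A : Finset V) (m : ℕ) (hm : 1 ≤ m) (hgen : GenAll G A m) (A' B' : Finset V)
    (iA : A' ⊆ A) (iB : Disjoint B' A)
    (sA : ∀ u ∈ A', ∀ v ∈ A', ¬ G.Adj u v) (sB : ∀ u ∈ B', ∀ v ∈ B', ¬ G.Adj u v)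
    (z z' : V) (hzz : ¬ G.Adj z z') (hne : z ≠ z')
    (h1 : 8 * m ≤ (nb G A' z).card) (h2 : 8 * m ≤ (nb G B' z).card)
    (h1' : 8 * m ≤ (nb G A' z').card) (h2' : 8 * m ≤ (nb G B' z').card) :
    (symmDiff (nb G A' z) (nb G A' z')).card < 8 * m ∨
      (symmDiff (nb G B' z) (nb G B' z')).card < 8 * m := by
  have h : Ctx G A A' B' m := ⟨hG, hgen, iA, iB, sA, sB⟩
  by_contra hcon
  push Not at hcon
  obtain ⟨c1, c2, c3⟩ := card_parts (nb G A' z) (nb G A' z')
  obtain ⟨d1, d2, d3⟩ := card_parts (nb G B' z) (nb G B' z')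
  have hs := h.swap
  have hzz' : ¬ G.Adj z' z := fun h => hzz h.symm
  have comm : ∀ X Y : Finset V, X ∩ Y = Y ∩ X := fun X Y => Finset.inter_comm X Y
  by_cases hI : 4 * m ≤ (nb G A' z ∩ nb G A' z').card
  · by_cases hJ : 4 * m ≤ (nb G B' z ∩ nb G B' z').card
    · by_cases hP : 4 * m ≤ (nb G A' z \ nb G A' z').card
      · by_cases hQ : 4 * m ≤ (nb G B' z \ nb G B' z').card
        · exact kB1 h hzz hP hI hQ hJ
        · exact kB2 h hzz hP hI (by omega) hJ
      · have hP' : 4 * m ≤ (nb G A' z' \ nb G A' z).card := by omega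
        rw [comm] at hI hJ
        by_cases hQ' : 4 * m ≤ (nb G B' z' \ nb G B' z).card
        · exact kB1 h hzz' hP' hI hQ' hJ
        · exact kB2 h hzz' hP' hI (by omega) hJ
    · push Not at hJ
      by_cases hP : 4 * m ≤ (nb G A' z \ nb G A' z').card
      · exact kB3 h hzz hI hP (by omega) (by omega)
      · exact kB3 h hzz' (by rw [comm]; exact hI) (by omega) (by omega) (by omega)
  · push Not at hI
    by_cases hJ : 4 * m ≤ (nb G B' z ∩ nb G B' z').card
    · by_cases hQ : 4 * m ≤ (nb G B' z \ nb G B' z').card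
      · exact kB3 hs hzz hJ hQ (by omega) (by omega)
      · exact kB3 hs hzz' (by rw [comm]; exact hJ) (by omega) (by omega) (by omega)
    · push Not at hJ
      exact k7 h hne (by omega) (by omega) (by omega) (by omega)

end Pool.Agent.Helper17.TP
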