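import Pool.Agent.Helper17.TP.D3a
import Pool.Agent.Helper17.TP.D3b

/-!
# Block TP-D4: coarse structure, unbalanced case

`GenAll G A m`, `Z` arbitrary, `A \ Z` and `Aᶜ \ Z` stable.  Then there are `A', T1, T2` with
`Close G A' T1 T2 (16 m + |Z|)`, `|T1| ≤ |Z|`, and `A'` differs in size from `A` or from `Aᶜ` by at
most `|Z|`.

Proof.  `A₀ = A \ Z`, `B₀ = Aᶜ \ Z`.  For `z ∈ Z` let `N z = nb G A₀ z`, `M z = nb G B₀ z`.
`D := {z ∈ Z | |N z| ≥ 8m ∧ |M z| ≥ 8m}`.  By D3a/D3b for all `z ≠ z' ∈ D`: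
`|N z Δ N z'| < 8m` or `|M z Δ M z'| < 8m`.
Claim: either all `|N z Δ N z'| < 16 m` (`z, z' ∈ D`), or all `|M z Δ M z'| < 16 m`.  Otherwise there
are `z1, z2 ∈ D` with `|N z1 Δ N z2| ≥ 16m`, hence `|M z1 Δ M z2| < 8m`; for `z3 ∈ D`: `N z3` cannot
be within `8m` of both `N z1` and `N z2` (triangle inequality for `Δ`), so `M z3` is within `8m` of
`M z1` or of `M z2`.  Hence all `M z3` are within `16 m` of `M z1`...  NOTE two elements `z3, z4` are
then only within `32 m`; so we use a fixed centre: the claim we need is: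
 either for all `z ∈ D`: `|N z Δ N z0| < 16 m` for one fixed `z0 ∈ D`, or the same with `M`.
 (If for some fixed `z1 ∈ D` all `|N z Δ N z1| < 16 m`: done.  Otherwise take `z1 ∈ D` arbitrary and
 `z2` with `|N z1 Δ N z2| ≥ 16m`; by the argument `|M z Δ M z1| < 16m` for all `z ∈ D`.)
By the symmetry `A ↔ Aᶜ` (`GenAll.symm`, `compl_compl`) it suffices to treat the first case: put
`T1 = D`, `T2 = N z0` (both empty if `D = ∅`), `A' = A₀ ∪ D ∪ {z ∈ Z \ D | |N z| < 8m}`; the complement
of `A'` is `B₀ ∪ {z ∈ Z \ D | |N z| ≥ 8m}`, and those `z` have `|M z| < 8m`.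
Check `Close`: for `v ∉ A'`: `nb G A'ᶜ v ⊆ (nb G B₀ v) ∪ Z`, and `nb G B₀ v = ∅` for `v ∈ B₀`, `< 8m`
for `v ∈ Z`.  For `v ∈ A'`: `nb G A' v ⊆ nb G A₀ v ∪ Z`; if `v ∉ D` this has size `≤ 8m + |Z|`; if
`v ∈ D`: `symmDiff (nb G A' v) T2 ⊆ symmDiff (N v) (N z0) ∪ Z`, size `≤ 16 m + |Z|`.
-/

set_option autoImplicit false

namespace Pool.Agent.Helper17.TP

open SimpleGraph Finset

theorem card_symmDiff_triangle {V : Type} [DecidableEq V] (X Y Z : Finset V) :
    (symmDiff X Z).card ≤ (symmDiff X Y).card + (symmDiff Y Z).card := by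
  have h : symmDiff X Z ⊆ symmDiff X Y ∪ symmDiff Y Z := by
    have := symmDiff_triangle X Y Z
    simpa using this
  exact (Finset.card_le_card h).trans (Finset.card_union_le _ _)

theorem close_core {V : Type} [Fintype V] [DecidableEq V] {G : SimpleGraph V}
    (A : Finset V) (m : ℕ) (Z : Finset V)
    (sA : ∀ u ∈ A \ Z, ∀ v ∈ A \ Z, ¬ G.Adj u v)
    (sB : ∀ u ∈ Aᶜ \ Z, ∀ v ∈ Aᶜ \ Z, ¬ G.Adj u v)
    (T : Finset V) (hT : T ⊆ A \ Z)
    (hD : ∀ z ∈ Z, 8 * m ≤ (nb G (A \ Z) z).card → 8 * m ≤ (nb G (Aᶜ \ Z) z).card →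
      (symmDiff (nb G (A \ Z) z) T).card ≤ 16 * m) :
    ∃ A' T1 T2 : Finset V,
      (A'.card ≤ A.card + Z.card ∧ A.card ≤ A'.card + Z.card) ∧
      Close G A' T1 T2 (16 * m + Z.card) ∧ T1.card ≤ Z.card := by
  classical
  set D : Finset V := Z.filter (fun z => 8 * m ≤ (nb G (A \ Z) z).card ∧
    8 * m ≤ (nb G (Aᶜ \ Z) z).card) with hDdef
  set E : Finset V := Z.filter (fun z => (nb G (A \ Z) z).card < 8 * m ∨
    8 * m ≤ (nb G (Aᶜ \ Z) z).card) with hEdef
  have memE : ∀ z, z ∈ E ↔ z ∈ Z ∧ ((nb G (A \ Z) z).card < 8 * m ∨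
      8 * m ≤ (nb G (Aᶜ \ Z) z).card) := fun z => by simp [hEdef]
  have memD : ∀ z, z ∈ D ↔ z ∈ Z ∧ (8 * m ≤ (nb G (A \ Z) z).card ∧
      8 * m ≤ (nb G (Aᶜ \ Z) z).card) := fun z => by simp [hDdef]
  refine ⟨(A \ Z) ∪ E, D, T, ⟨?_, ?_⟩, ?_, ?_⟩
  · refine (Finset.card_union_le _ _).trans (Nat.add_le_add ?_ ?_)
    · exact Finset.card_le_card Finset.sdiff_subset
    · exact Finset.card_le_card (Finset.filter_subset _ _)
  · have : A ⊆ ((A \ Z) ∪ E) ∪ Z := by
      intro x hx
      by_cases hz : x ∈ Z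
      · exact Finset.mem_union_right _ hz
      · exact Finset.mem_union_left _ (Finset.mem_union_left _ (Finset.mem_sdiff.mpr ⟨hx, hz⟩))
    exact (Finset.card_le_card this).trans (Finset.card_union_le _ _)
  · refine ⟨?_, ?_, ?_, ?_, ?_⟩
    · intro z hz
      rw [memD] at hz
      exact Finset.mem_union_right _ ((memE z).mpr ⟨hz.1, Or.inr hz.2.2⟩)
    · exact hT.trans Finset.subset_union_left
    · rw [Finset.disjoint_left]
      intro z hz hz'
      exact (Finset.mem_sdiff.mp (hT hz')).2 ((memD z).mp hz).1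
    · intro v hv
      have hsub : nb G ((A \ Z) ∪ E)ᶜ v ⊆ nb G (Aᶜ \ Z) v ∪ Z := by
        intro x hx
        simp only [mem_nb, mem_compl, mem_union, mem_sdiff, not_or, not_and, not_not] at hx ⊢
        by_cases hz : x ∈ Z
        · exact Or.inr hz
        · exact Or.inl ⟨⟨fun hA => hz (hx.1.1 hA), hz⟩, hx.2⟩
      have h8 : (nb G (Aᶜ \ Z) v).card ≤ 8 * m := by
        by_cases hz : v ∈ Z
        · have : ¬ ((nb G (A \ Z) v).card < 8 * m ∨ 8 * m ≤ (nb G (Aᶜ \ Z) v).card) := by
            intro h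
            exact hv (Finset.mem_union_right _ ((memE v).mpr ⟨hz, h⟩))
          push Not at this
          omega
        · have hvB : v ∈ Aᶜ \ Z := by
            rw [Finset.mem_sdiff, Finset.mem_compl]
            refine ⟨fun hA => hv (Finset.mem_union_left _ (Finset.mem_sdiff.mpr ⟨hA, hz⟩)), hz⟩
          have : nb G (Aᶜ \ Z) v = ∅ := by
            rw [Finset.eq_empty_iff_forall_notMem]
            intro x hx
            rw [mem_nb] at hx
            exact sB v hvB x hx.1 hx.2
          rw [this]; simp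
      have := (Finset.card_le_card hsub).trans (Finset.card_union_le _ _)
      omega
    · intro v hv
      have hsub : nb G ((A \ Z) ∪ E) v ⊆ nb G (A \ Z) v ∪ Z := by
        intro x hx
        simp only [mem_nb, mem_union, mem_sdiff] at hx ⊢
        by_cases hz : x ∈ Z
        · exact Or.inr hz
        · rcases hx.1 with h | h
          · exact Or.inl ⟨h, hx.2⟩
          · exact absurd ((memE x).mp h).1 hz
      have hc := (Finset.card_le_card hsub).trans (Finset.card_union_le _ _)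
      by_cases hz : v ∈ Z
      · by_cases h1 : (nb G (A \ Z) v).card < 8 * m
        · left; omega
        · push Not at h1
          have hvE : v ∈ E := by
            rcases Finset.mem_union.mp hv with h | h
            · exact absurd hz (Finset.mem_sdiff.mp h).2
            · exact h
          have h2 : 8 * m ≤ (nb G (Aᶜ \ Z) v).card := by
            rcases ((memE v).mp hvE).2 with h | h
            · omega
            · exact h
          right; right
          have hsub2 : symmDiff (nb G ((A \ Z) ∪ E) v) T ⊆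
              symmDiff (nb G (A \ Z) v) T ∪ Z := by
            intro x hx
            by_cases hxz : x ∈ Z
            · exact Finset.mem_union_right _ hxz
            · refine Finset.mem_union_left _ ?_
              have hTx : x ∈ T → x ∈ A ∧ x ∉ Z := fun h => Finset.mem_sdiff.mp (hT h)
              have hEx : x ∉ E := fun h => hxz ((memE x).mp h).1
              simp only [Finset.mem_symmDiff, mem_nb, mem_union, mem_sdiff] at hx ⊢
              tauto
          have := (Finset.card_le_card hsub2).trans (Finset.card_union_le _ _)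
          have := hD v hz h1 h2
          omega
      · left
        have hvA : v ∈ A \ Z := by
          rcases Finset.mem_union.mp hv with h | h
          · exact h
          · exact absurd ((memE v).mp h).1 hz
        have : nb G (A \ Z) v = ∅ := by
          rw [Finset.eq_empty_iff_forall_notMem]
          intro x hx
          rw [mem_nb] at hx
          exact sA v hvA x hx.1 hx.2
        rw [this] at hc
        simp at hc
        omega
  · exact Finset.card_le_card (Finset.filter_subset _ _)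

theorem close_unbalanced {V : Type} [Fintype V] [DecidableEq V] {G : SimpleGraph V} (hG : TPerf G)
    (A : Finset V) (m : ℕ) (hm : 1 ≤ m) (hgen : GenAll G A m) (Z : Finset V)
    (sA : ∀ u ∈ A \ Z, ∀ v ∈ A \ Z, ¬ G.Adj u v)
    (sB : ∀ u ∈ Aᶜ \ Z, ∀ v ∈ Aᶜ \ Z, ¬ G.Adj u v) :
    ∃ A' T1 T2 : Finset V,
      ((A'.card ≤ A.card + Z.card ∧ A.card ≤ A'.card + Z.card) ∨
        (A'.card ≤ Aᶜ.card + Z.card ∧ Aᶜ.card ≤ A'.card + Z.card)) ∧
      Close G A' T1 T2 (16 * m + Z.card) ∧ T1.card ≤ Z.card := by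
  have pair : ∀ z z' : V, z ≠ z' → 8 * m ≤ (nb G (A \ Z) z).card →
      8 * m ≤ (nb G (Aᶜ \ Z) z).card → 8 * m ≤ (nb G (A \ Z) z').card →
      8 * m ≤ (nb G (Aᶜ \ Z) z').card →
      (symmDiff (nb G (A \ Z) z) (nb G (A \ Z) z')).card < 8 * m ∨
      (symmDiff (nb G (Aᶜ \ Z) z) (nb G (Aᶜ \ Z) z')).card < 8 * m := by
    intro z z' hne h1 h2 h1' h2'
    have iB : Disjoint (Aᶜ \ Z) A :=
      Finset.disjoint_of_subset_left Finset.sdiff_subset disjoint_compl_left
    by_cases hzz : G.Adj z z'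
    · exact pair_adj hG A m hm hgen _ _ Finset.sdiff_subset iB sA sB z z' hzz h1 h2 h1' h2'
    · exact pair_nonadj hG A m hm hgen _ _ Finset.sdiff_subset iB sA sB z z' hzz hne h1 h2 h1' h2'
  by_cases hDe : ∃ z1, 8 * m ≤ (nb G (A \ Z) z1).card ∧ 8 * m ≤ (nb G (Aᶜ \ Z) z1).card
  · obtain ⟨z1, n1, m1⟩ := hDe
    by_cases hall : ∀ z ∈ Z, 8 * m ≤ (nb G (A \ Z) z).card → 8 * m ≤ (nb G (Aᶜ \ Z) z).card →
        (symmDiff (nb G (A \ Z) z) (nb G (A \ Z) z1)).card ≤ 16 * m
    · obtain ⟨A', T1, T2, h1, h2, h3⟩ := close_core A m Z sA sB (nb G (A \ Z) z1) nb_sub hall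
      exact ⟨A', T1, T2, Or.inl h1, h2, h3⟩
    · push Not at hall
      obtain ⟨z2, hz2, n2, m2, h12⟩ := hall
      have hcc : Aᶜᶜ = A := compl_compl A
      have hne12 : z2 ≠ z1 := by
        rintro rfl
        simp at h12
      have hM12 : (symmDiff (nb G (Aᶜ \ Z) z2) (nb G (Aᶜ \ Z) z1)).card < 8 * m := by
        rcases pair z2 z1 hne12 n2 m2 n1 m1 with h | h
        · omega
        · exact h
      have key : ∀ z ∈ Z, 8 * m ≤ (nb G (Aᶜ \ Z) z).card → 8 * m ≤ (nb G (Aᶜᶜ \ Z) z).card →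
          (symmDiff (nb G (Aᶜ \ Z) z) (nb G (Aᶜ \ Z) z1)).card ≤ 16 * m := by
        intro z hz hm' hn'
        rw [hcc] at hn'
        by_cases e1 : z = z1
        · subst e1; simp
        by_cases e2 : z = z2
        · subst e2; omega
        rcases pair z z1 e1 hn' hm' n1 m1 with h | h
        · rcases pair z z2 e2 hn' hm' n2 m2 with h' | h'
          · exfalso
            have t := card_symmDiff_triangle (nb G (A \ Z) z2) (nb G (A \ Z) z)
              (nb G (A \ Z) z1)
            rw [symmDiff_comm (nb G (A \ Z) z2) (nb G (A \ Z) z)] at t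
            omega
          · have t := card_symmDiff_triangle (nb G (Aᶜ \ Z) z) (nb G (Aᶜ \ Z) z2)
              (nb G (Aᶜ \ Z) z1)
            omega
        · omega
      obtain ⟨A', T1, T2, h1, h2, h3⟩ := close_core Aᶜ m Z sB (by rw [hcc]; exact sA)
        (nb G (Aᶜ \ Z) z1) nb_sub key
      exact ⟨A', T1, T2, Or.inr h1, h2, h3⟩
  · push Not at hDe
    obtain ⟨A', T1, T2, h1, h2, h3⟩ := close_core A m Z sA sB ∅ (by simp)
      (fun z _ h1 h2 => absurd h2 (not_le.mpr (hDe z h1)))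
    exact ⟨A', T1, T2, Or.inl h1, h2, h3⟩

end Pool.Agent.Helper17.TP
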