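import Pool.Agent.Helper17.TP.D2
import Pool.Agent.Helper17.TP.G4

/-!
# Block TP-D5: coarse structure, balanced case

`GenAll G A m`, `|Z| ≤ 13 m`, `A \ Z` contains no bad set, `Aᶜ \ Z` stable, `v w` an edge of `A \ Z`
such that `A1 = nb G (A \ Z) v` and `A2 = nb G (A \ Z) w` have at least `K ≥ 8m` elements.  Then
there are `A', T1, T2` with `Close G A' T1 T2 (25 m)`, `|T1|, |T2| ≥ K`, for every edge `uu'` outside
`A'` the common neighbourhood of `u, u'` meets `T1` or `T2` in at most `25 m` vertices, and
`||A'| - |A|| ≤ 13 m`.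

Proof.  By `structure_of_no_bad` the edges of `G[A \ Z]` are exactly the pairs between `A1` and `A2`;
`A1, A2` are disjoint (no triangle), `A0 := A \ Z \ (A1 ∪ A2)`, `B' := Aᶜ \ Z`: all hypotheses of
block D2 hold.  Every `z ∈ Z` has one of the types: (B) `|nb G B' z| < 4m`; otherwise (0) `nb` in
`U = A \ Z` has `≤ 12 m` elements; (1) it is within `12 m` of `A1`; (2) within `12 m` of `A2`.
(choose the first that applies, in the order B, 0, 1, 2.)
`T1 := A1 ∪ {z ∈ Z of type 2}` (they are adjacent to `A2`), `T2 := A2 ∪ {z of type 1}`,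
`A' := (A \ Z) ∪ {z of type 0, 1, 2}`.
Check `Close` with `g = 25m`: `v ∉ A'`: `nb G A'ᶜ v ⊆ nb G B' v ∪ Z`: `≤ 4m + 13m`.  `v ∈ A'`:
`symmDiff (nb G A' v) (nb G (A \ Z) v) ⊆ Z` and `symmDiff T_i A_i ⊆ Z`; the union of all
differences is contained in (difference inside `A \ Z`, `≤ 12 m`) ∪ `Z` (`≤ 13 m`).  For
`v ∈ A1`: `nb G (A \ Z) v = A2`, for `v ∈ A2`: `= A1`, for `v ∈ A0`: `∅`.
Common neighbours: if the common neighbourhood of `u, u'` met both `A1` and `A2` we had a K4
(`A1` complete to `A2`); so it is disjoint from `A1` or from `A2`, hence meets `T1` or `T2` only in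
`Z`: at most `13 m`.
-/

set_option autoImplicit false

namespace Pool.Agent.Helper17.TP

open SimpleGraph Finset

theorem close_balanced {V : Type} [Fintype V] [DecidableEq V] {G : SimpleGraph V} (hG : TPerf G)
    (A : Finset V) (m K : ℕ) (hm : 1 ≤ m) (hK : 8 * m ≤ K) (hgen : GenAll G A m) (Z : Finset V)
    (hZ : Z.card ≤ 13 * m) (hbad : ∀ X ⊆ A \ Z, ¬ Bad G X)
    (sB : ∀ u ∈ Aᶜ \ Z, ∀ v ∈ Aᶜ \ Z, ¬ G.Adj u v)
    (v w : V) (hv : v ∈ A \ Z) (hw : w ∈ A \ Z) (hvw : G.Adj v w)
    (K1 : K ≤ (nb G (A \ Z) v).card) (K2 : K ≤ (nb G (A \ Z) w).card) :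
    ∃ A' T1 T2 : Finset V,
      (A'.card ≤ A.card + 13 * m ∧ A.card ≤ A'.card + 13 * m) ∧
      Close G A' T1 T2 (25 * m) ∧ K ≤ T1.card ∧ K ≤ T2.card ∧
      (∀ u u', u ∉ A' → u' ∉ A' → G.Adj u u' →
        (nb G T1 u ∩ nb G T1 u').card ≤ 25 * m ∨ (nb G T2 u ∩ nb G T2 u').card ≤ 25 * m) := by
  classical
  have hstr : ∀ a ∈ A \ Z, ∀ b ∈ A \ Z, (G.Adj a b ↔ (a ∈ nb G (A \ Z) v ∧ b ∈ nb G (A \ Z) w) ∨
      (a ∈ nb G (A \ Z) w ∧ b ∈ nb G (A \ Z) v)) := by
    intro a ha b hb
    rw [structure_of_no_bad hbad hv hw hvw ha hb]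
    simp only [mem_nb]
    tauto
  set U : Finset V := A \ Z with hU
  set A1 : Finset V := nb G U v with hA1
  set A2 : Finset V := nb G U w with hA2
  set A0 : Finset V := U \ (A1 ∪ A2) with hA0
  set B' : Finset V := Aᶜ \ Z with hB'
  have s1U : A1 ⊆ U := nb_sub
  have s2U : A2 ⊆ U := nb_sub
  have s0U : A0 ⊆ U := Finset.sdiff_subset
  have hUA : U ⊆ A := Finset.sdiff_subset
  have hUZ : ∀ x ∈ U, x ∉ Z := fun x hx => (Finset.mem_sdiff.mp hx).2
  have d12 : Disjoint A1 A2 := by
    rw [Finset.disjoint_left]
    intro x h1 h2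
    exact G.irrefl ((hstr x (s1U h1) x (s1U h1)).mpr (Or.inl ⟨h1, h2⟩))
  have n12 : ∀ x, x ∈ A1 → x ∉ A2 := fun x h => Finset.disjoint_left.mp d12 h
  have mem0 : ∀ x, x ∈ A0 ↔ x ∈ U ∧ x ∉ A1 ∧ x ∉ A2 := by
    intro x; simp [hA0, not_or]
  have hun : A0 ∪ A1 ∪ A2 = U := by
    ext x
    simp only [mem_union, mem0]
    constructor
    · rintro ((h | h) | h)
      · exact h.1
      · exact s1U h
      · exact s2U h
    · intro h
      tauto
  have iB : Disjoint B' A :=
    Finset.disjoint_of_subset_left Finset.sdiff_subset disjoint_compl_left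
  have vt : ∀ z, (nb G B' z).card < 4 * m ∨ (nb G U z).card ≤ 12 * m ∨
      (symmDiff (nb G U z) A1).card ≤ 12 * m ∨ (symmDiff (nb G U z) A2).card ≤ 12 * m := by
    intro z
    have := vertex_type hG A m hm hgen A0 A1 A2 B' (s0U.trans hUA) (s1U.trans hUA)
      (s2U.trans hUA) iB
      (by
        rw [Finset.disjoint_left]; intro x h0 h1; exact ((mem0 x).mp h0).2.1 h1)
      (by
        rw [Finset.disjoint_left]; intro x h0 h1; exact ((mem0 x).mp h0).2.2 h1)
      d12 sB
      (fun a ha b hb h => by
        have := (hstr a (s0U ha) b (s0U hb)).mp h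
        have h1 := (mem0 a).mp ha
        tauto)
      (fun a ha b hb h => by
        have := (hstr a (s1U ha) b (s1U hb)).mp h
        have h1 := n12 a ha
        have h2 := n12 b hb
        tauto)
      (fun a ha b hb h => by
        have := (hstr a (s2U ha) b (s2U hb)).mp h
        have h1 : a ∉ A1 := fun h => n12 a h ha
        have h2 : b ∉ A1 := fun h => n12 b h hb
        tauto)
      (fun a ha b hb h => by
        have := (hstr a (s0U ha) b (s1U hb)).mp h
        have h1 := (mem0 a).mp ha
        tauto)
      (fun a ha b hb h => by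
        have := (hstr a (s0U ha) b (s2U hb)).mp h
        have h1 := (mem0 a).mp ha
        tauto)
      (fun a ha b hb => (hstr a (s1U ha) b (s2U hb)).mpr (Or.inl ⟨ha, hb⟩))
      (hK.trans K1) (hK.trans K2) z
    rwa [hun] at this
  -- the parts
  set E : Finset V := Z.filter (fun z => ¬ (nb G B' z).card < 4 * m) with hE
  set E1 : Finset V := Z.filter (fun z => ¬ (nb G B' z).card < 4 * m ∧
    ¬ (nb G U z).card ≤ 12 * m ∧ (symmDiff (nb G U z) A1).card ≤ 12 * m) with hE1
  set E2 : Finset V := Z.filter (fun z => ¬ (nb G B' z).card < 4 * m ∧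
    ¬ (nb G U z).card ≤ 12 * m ∧ ¬ (symmDiff (nb G U z) A1).card ≤ 12 * m) with hE2
  have memE : ∀ z, z ∈ E ↔ z ∈ Z ∧ ¬ (nb G B' z).card < 4 * m := fun z => by simp [hE]
  have memE1 : ∀ z, z ∈ E1 ↔ z ∈ Z ∧ ¬ (nb G B' z).card < 4 * m ∧
    ¬ (nb G U z).card ≤ 12 * m ∧ (symmDiff (nb G U z) A1).card ≤ 12 * m := fun z => by
      simp [hE1]
  have memE2 : ∀ z, z ∈ E2 ↔ z ∈ Z ∧ ¬ (nb G B' z).card < 4 * m ∧
    ¬ (nb G U z).card ≤ 12 * m ∧ ¬ (symmDiff (nb G U z) A1).card ≤ 12 * m := fun z => by
      simp [hE2]
  have E1Z : ∀ z ∈ E1, z ∈ Z := fun z hz => ((memE1 z).mp hz).1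
  have E2Z : ∀ z ∈ E2, z ∈ Z := fun z hz => ((memE2 z).mp hz).1
  have EZ : ∀ z ∈ E, z ∈ Z := fun z hz => ((memE z).mp hz).1
  refine ⟨U ∪ E, A1 ∪ E2, A2 ∪ E1, ⟨?_, ?_⟩, ?_, ?_, ?_, ?_⟩
  · refine (Finset.card_union_le _ _).trans (Nat.add_le_add ?_ ?_)
    · exact Finset.card_le_card hUA
    · exact (Finset.card_le_card (Finset.filter_subset _ _)).trans hZ
  · have : A ⊆ (U ∪ E) ∪ Z := by
      intro x hx
      by_cases hz : x ∈ Z
      · exact Finset.mem_union_right _ hz
      · exact Finset.mem_union_left _ (Finset.mem_union_left _ (Finset.mem_sdiff.mpr ⟨hx, hz⟩))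
    exact (Finset.card_le_card this).trans ((Finset.card_union_le _ _).trans
      (Nat.add_le_add_left hZ _))
  · refine ⟨?_, ?_, ?_, ?_, ?_⟩
    · intro x hx
      rcases Finset.mem_union.mp hx with h | h
      · exact Finset.mem_union_left _ (s1U h)
      · exact Finset.mem_union_right _ ((memE x).mpr ⟨E2Z x h, ((memE2 x).mp h).2.1⟩)
    · intro x hx
      rcases Finset.mem_union.mp hx with h | h
      · exact Finset.mem_union_left _ (s2U h)
      · exact Finset.mem_union_right _ ((memE x).mpr ⟨E1Z x h, ((memE1 x).mp h).2.1⟩)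
    · rw [Finset.disjoint_left]
      intro x h1 h2
      rcases Finset.mem_union.mp h1 with h1 | h1 <;> rcases Finset.mem_union.mp h2 with h2 | h2
      · exact n12 x h1 h2
      · exact hUZ x (s1U h1) (E1Z x h2)
      · exact hUZ x (s2U h2) (E2Z x h1)
      · exact ((memE2 x).mp h1).2.2.2 ((memE1 x).mp h2).2.2.2
    · intro y hy
      have hsub : nb G (U ∪ E)ᶜ y ⊆ nb G B' y ∪ Z := by
        intro x hx
        simp only [mem_nb, mem_compl, mem_union, not_or, hB', hU, mem_sdiff, not_and,
          not_not] at hx ⊢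
        by_cases hz : x ∈ Z
        · exact Or.inr hz
        · exact Or.inl ⟨⟨fun hA => hz (hx.1.1 hA), hz⟩, hx.2⟩
      have h4 : (nb G B' y).card ≤ 4 * m := by
        by_cases hz : y ∈ Z
        · have : ¬ ¬ (nb G B' y).card < 4 * m := by
            intro h
            exact hy (Finset.mem_union_right _ ((memE y).mpr ⟨hz, h⟩))
          push Not at this
          omega
        · have hyB : y ∈ B' := by
            rw [hB', Finset.mem_sdiff, Finset.mem_compl]
            refine ⟨fun hA => hy (Finset.mem_union_left _ (Finset.mem_sdiff.mpr ⟨hA, hz⟩)), hz⟩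
          have : nb G B' y = ∅ := by
            rw [Finset.eq_empty_iff_forall_notMem]
            intro x hx
            rw [mem_nb] at hx
            exact sB y hyB x hx.1 hx.2
          rw [this]; simp
      have := (Finset.card_le_card hsub).trans (Finset.card_union_le _ _)
      omega
    · intro y hy
      have hsub : nb G (U ∪ E) y ⊆ nb G U y ∪ Z := by
        intro x hx
        simp only [mem_nb, mem_union] at hx ⊢
        rcases hx.1 with h | h
        · exact Or.inl ⟨h, hx.2⟩
        · exact Or.inr (EZ x h)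
      have hsub1 : symmDiff (nb G (U ∪ E) y) (A1 ∪ E2) ⊆ symmDiff (nb G U y) A1 ∪ Z := by
        intro x hx
        by_cases hxz : x ∈ Z
        · exact Finset.mem_union_right _ hxz
        · refine Finset.mem_union_left _ ?_
          have e1 : x ∉ E := fun h => hxz (EZ x h)
          have e2 : x ∉ E2 := fun h => hxz (E2Z x h)
          have e3 : x ∈ A1 → x ∈ U := fun h => s1U h
          simp only [Finset.mem_symmDiff, mem_nb, mem_union] at hx ⊢
          tauto
      have hsub2 : symmDiff (nb G (U ∪ E) y) (A2 ∪ E1) ⊆ symmDiff (nb G U y) A2 ∪ Z := by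
        intro x hx
        by_cases hxz : x ∈ Z
        · exact Finset.mem_union_right _ hxz
        · refine Finset.mem_union_left _ ?_
          have e1 : x ∉ E := fun h => hxz (EZ x h)
          have e2 : x ∉ E1 := fun h => hxz (E1Z x h)
          have e3 : x ∈ A2 → x ∈ U := fun h => s2U h
          simp only [Finset.mem_symmDiff, mem_nb, mem_union] at hx ⊢
          tauto
      have c0 := (Finset.card_le_card hsub).trans (Finset.card_union_le _ _)
      have c1 := (Finset.card_le_card hsub1).trans (Finset.card_union_le _ _)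
      have c2 := (Finset.card_le_card hsub2).trans (Finset.card_union_le _ _)
      by_cases hz : y ∈ Z
      · have hyE : y ∈ E := by
          rcases Finset.mem_union.mp hy with h | h
          · exact absurd hz (hUZ y h)
          · exact h
        have := ((memE y).mp hyE).2
        rcases vt y with h | h | h | h
        · exact absurd h this
        · left; omega
        · right; left; omega
        · right; right; omega
      · have hyU : y ∈ U := by
          rcases Finset.mem_union.mp hy with h | h
          · exact h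
          · exact absurd (EZ y h) hz
        by_cases y1 : y ∈ A1
        · have : nb G U y = A2 := by
            ext x
            rw [mem_nb]
            constructor
            · rintro ⟨hx, hyx⟩
              rcases (hstr y hyU x hx).mp hyx with h | h
              · exact h.2
              · exact absurd h.1 (n12 y y1)
            · intro hx
              exact ⟨s2U hx, (hstr y hyU x (s2U hx)).mpr (Or.inl ⟨y1, hx⟩)⟩
          rw [this] at c2
          simp at c2
          right; right; omega
        · by_cases y2 : y ∈ A2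
          · have : nb G U y = A1 := by
              ext x
              rw [mem_nb]
              constructor
              · rintro ⟨hx, hyx⟩
                rcases (hstr y hyU x hx).mp hyx with h | h
                · exact absurd h.1 y1
                · exact h.2
              · intro hx
                exact ⟨s1U hx, (hstr y hyU x (s1U hx)).mpr (Or.inr ⟨y2, hx⟩)⟩
            rw [this] at c1
            simp at c1
            right; left; omega
          · have : nb G U y = ∅ := by
              rw [Finset.eq_empty_iff_forall_notMem]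
              intro x hx
              rw [mem_nb] at hx
              rcases (hstr y hyU x hx.1).mp hx.2 with h | h
              · exact y1 h.1
              · exact y2 h.1
            rw [this] at c0
            simp at c0
            left; omega
  · exact K1.trans (Finset.card_le_card Finset.subset_union_left)
  · exact K2.trans (Finset.card_le_card Finset.subset_union_left)
  · intro u u' hu hu' huu
    by_cases hx : ∃ x ∈ A1, G.Adj u x ∧ G.Adj u' x
    · obtain ⟨x, hx1, hux, hux'⟩ := hx
      right
      have : nb G (A2 ∪ E1) u ∩ nb G (A2 ∪ E1) u' ⊆ Z := by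
        intro y hy
        simp only [mem_inter, mem_nb, mem_union] at hy
        rcases hy.1.1 with h | h
        · exfalso
          exact no_K4 hG huu hux hy.1.2 hux' hy.2.2
            ((hstr x (s1U hx1) y (s2U h)).mpr (Or.inl ⟨hx1, h⟩))
        · exact E1Z y h
      have := Finset.card_le_card this
      omega
    · push Not at hx
      left
      have : nb G (A1 ∪ E2) u ∩ nb G (A1 ∪ E2) u' ⊆ Z := by
        intro y hy
        simp only [mem_inter, mem_nb, mem_union] at hy
        rcases hy.1.1 with h | h
        · exact absurd hy.2.2 (hx y h hy.1.2)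
        · exact E2Z y h
      have := Finset.card_le_card this
      omega

end Pool.Agent.Helper17.TP
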