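import Pool.Agent.Helper17.TP.D1
import Pool.Agent.Helper17.TP.D4
import Pool.Agent.Helper17.TP.D5

/-!
# Block TP-D6: coarse structure theorem

Proof.  `Z` from `remove_bad`; by symmetry (`GenAll.symm`) let `Aᶜ \ Z` be stable and `A \ Z` without
bad set.  If `A \ Z` has no edge: `close_unbalanced` with `Z`.  Otherwise let `vw` be an edge of
`A \ Z`, `A1 = nb G (A \ Z) v`, `A2 = nb G (A \ Z) w`.  If both have `≥ K` elements:
`close_balanced`.  Otherwise let `Z' = Z ∪` (the smaller one), `|Z'| ≤ 13 m + K`; by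
`structure_of_no_bad` every edge of `A \ Z` has an end in `A1` and an end in `A2`, so `A \ Z'` is
stable: `close_unbalanced` with `Z'`: `16 m + |Z'| ≤ 29 m + K`.
(`Close` with a smaller `g` implies `Close` with a larger `g`.)
-/

set_option autoImplicit false

namespace Pool.Agent.Helper17.TP

open SimpleGraph Finset

/-- balanced coarse structure -/
def Balanced {V : Type} [Fintype V] [DecidableEq V] (G : SimpleGraph V) (A T1 T2 : Finset V)
    (g K : ℕ) : Prop :=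
  Close G A T1 T2 g ∧ K ≤ T1.card ∧ K ≤ T2.card ∧
    (∀ u u', u ∉ A → u' ∉ A → G.Adj u u' →
        (nb G T1 u ∩ nb G T1 u').card ≤ g ∨ (nb G T2 u ∩ nb G T2 u').card ≤ g)

theorem Close.mono {V : Type} [Fintype V] [DecidableEq V] {G : SimpleGraph V}
    {A T1 T2 : Finset V} {g g' : ℕ} (h : Close G A T1 T2 g) (hg : g ≤ g') :
    Close G A T1 T2 g' := by
  refine ⟨h.sub1, h.sub2, h.disj, fun v hv => (h.out v hv).trans hg, fun v hv => ?_⟩
  rcases h.ins v hv with h | h | h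
  · exact Or.inl (h.trans hg)
  · exact Or.inr (Or.inl (h.trans hg))
  · exact Or.inr (Or.inr (h.trans hg))

theorem coarse_aux {V : Type} [Fintype V] [DecidableEq V] {G : SimpleGraph V} (hG : TPerf G)
    (A : Finset V) (m K : ℕ) (hm : 1 ≤ m) (hK : 8 * m ≤ K) (hgen : GenAll G A m)
    (Z : Finset V) (hZ : Z.card ≤ 13 * m) (hbad : ∀ X ⊆ A \ Z, ¬ Bad G X)
    (sB : ∀ u ∈ Aᶜ \ Z, ∀ v ∈ Aᶜ \ Z, ¬ G.Adj u v) :
    ∃ A' T1 T2 : Finset V,
      ((A'.card ≤ A.card + (13 * m + K) ∧ A.card ≤ A'.card + (13 * m + K)) ∨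
        (A'.card ≤ Aᶜ.card + (13 * m + K) ∧ Aᶜ.card ≤ A'.card + (13 * m + K))) ∧
      (Balanced G A' T1 T2 (25 * m) K ∨
        (Close G A' T1 T2 (29 * m + K) ∧ T1.card ≤ 29 * m + K)) := by
  -- use `close_unbalanced` with a set `Z'`
  have unb : ∀ Z' : Finset V, Z ⊆ Z' → Z'.card ≤ 13 * m + K →
      (∀ u ∈ A \ Z', ∀ v ∈ A \ Z', ¬ G.Adj u v) →
      ∃ A' T1 T2 : Finset V,
      ((A'.card ≤ A.card + (13 * m + K) ∧ A.card ≤ A'.card + (13 * m + K)) ∨
        (A'.card ≤ Aᶜ.card + (13 * m + K) ∧ Aᶜ.card ≤ A'.card + (13 * m + K))) ∧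
      (Balanced G A' T1 T2 (25 * m) K ∨
        (Close G A' T1 T2 (29 * m + K) ∧ T1.card ≤ 29 * m + K)) := by
    intro Z' hZZ hZ' sA
    have sB' : ∀ u ∈ Aᶜ \ Z', ∀ v ∈ Aᶜ \ Z', ¬ G.Adj u v := fun u hu v hv =>
      sB u (Finset.sdiff_subset_sdiff subset_rfl hZZ hu) v
        (Finset.sdiff_subset_sdiff subset_rfl hZZ hv)
    obtain ⟨A', T1, T2, h1, h2, h3⟩ := close_unbalanced hG A m hm hgen Z' sA sB'
    refine ⟨A', T1, T2, ?_, Or.inr ⟨h2.mono (by omega), by omega⟩⟩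
    rcases h1 with h | h
    · left; omega
    · right; omega
  by_cases hedge : ∃ v ∈ A \ Z, ∃ w ∈ A \ Z, G.Adj v w
  · obtain ⟨v, hv, w, hw, hvw⟩ := hedge
    have hstr : ∀ a ∈ A \ Z, ∀ b ∈ A \ Z, G.Adj a b → (a ∈ nb G (A \ Z) v ∧ b ∈ nb G (A \ Z) w) ∨
      (a ∈ nb G (A \ Z) w ∧ b ∈ nb G (A \ Z) v) := by
      intro a ha b hb hab
      have := (structure_of_no_bad hbad hv hw hvw ha hb).mp hab
      simp only [mem_nb]
      tauto
    by_cases h1 : K ≤ (nb G (A \ Z) v).card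
    · by_cases h2 : K ≤ (nb G (A \ Z) w).card
      · obtain ⟨A', T1, T2, h3, h4, h5, h6, h7⟩ :=
          close_balanced hG A m K hm hK hgen Z hZ hbad sB v w hv hw hvw h1 h2
        exact ⟨A', T1, T2, Or.inl (by omega), Or.inl ⟨h4, h5, h6, h7⟩⟩
      · push Not at h2
        refine unb (Z ∪ nb G (A \ Z) w) Finset.subset_union_left ?_ ?_
        · have := Finset.card_union_le Z (nb G (A \ Z) w)
          omega
        · intro a ha b hb hab
          simp only [mem_sdiff, mem_union, not_or] at ha hb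
          rcases hstr a (by simp [ha.1, ha.2.1]) b (by simp [hb.1, hb.2.1]) hab with h | h
          · exact hb.2.2 h.2
          · exact ha.2.2 h.1
    · push Not at h1
      refine unb (Z ∪ nb G (A \ Z) v) Finset.subset_union_left ?_ ?_
      · have := Finset.card_union_le Z (nb G (A \ Z) v)
        omega
      · intro a ha b hb hab
        simp only [mem_sdiff, mem_union, not_or] at ha hb
        rcases hstr a (by simp [ha.1, ha.2.1]) b (by simp [hb.1, hb.2.1]) hab with h | h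
        · exact ha.2.2 h.1
        · exact hb.2.2 h.2
  · push Not at hedge
    exact unb Z subset_rfl (by omega) hedge

theorem coarse {V : Type} [Fintype V] [DecidableEq V] {G : SimpleGraph V} (hG : TPerf G)
    (A : Finset V) (m K : ℕ) (hm : 1 ≤ m) (hK : 8 * m ≤ K) (hgen : GenAll G A m)
    (hA : 4 * m ≤ A.card) (hB : 4 * m ≤ Aᶜ.card) :
    ∃ A' T1 T2 : Finset V,
      ((A'.card ≤ A.card + (13 * m + K) ∧ A.card ≤ A'.card + (13 * m + K)) ∨
        (A'.card ≤ Aᶜ.card + (13 * m + K) ∧ Aᶜ.card ≤ A'.card + (13 * m + K))) ∧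
      (Balanced G A' T1 T2 (25 * m) K ∨
        (Close G A' T1 T2 (29 * m + K) ∧ T1.card ≤ 29 * m + K)) := by
  obtain ⟨Z, hZ, h | h⟩ := remove_bad hG A m hm hgen hA hB
  · exact coarse_aux hG A m K hm hK hgen Z hZ h.1 h.2
  · have hcc : Aᶜᶜ = A := compl_compl A
    obtain ⟨A', T1, T2, h1, h2⟩ := coarse_aux hG Aᶜ m K hm hK hgen.symm Z hZ h.1
      (by rw [hcc]; exact h.2)
    rw [hcc] at h1
    exact ⟨A', T1, T2, h1.symm, h2⟩

end Pool.Agent.Helper17.TP
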