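import Pool.Agent.Helper17.TP.Base

/-!
# Block TP-G1: generic cross graphs, counting

Fix `k, l ≥ 1`, `δ > 0`, `m = ⌈δ n⌉`.  For all `A ⊆ Fin n` and every graph `I`, the number of graphs
`G` with `inside G A = I` for which `Gen G A k l m` fails is at most `2^(|A||Aᶜ| - c n²)`.

Proof.  By `ext_of_inside` a graph with `inside G A = I` is determined by its cross pairs (subset of
`A × Aᶜ`).  `Gen` fails for some families `s`, `t` (disjoint tuples) and a pattern `pat`: at most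
`n^(mk) n^(ml) 2^(kl)` choices.  For fixed `s, t, pat` the `m²` blocks
`{s i a | a} × {t j b | b}` are pairwise disjoint subsets of `A × Aᶜ` with `kl` elements each, and
the cross graph on each block is different from `pat`: at most
`2^(|A||Aᶜ| - kl m²) (2^(kl) - 1)^(m²) = 2^(|A||Aᶜ|) (1 - 2^(-kl))^(m²)` graphs.  Since
`m ≥ δ n`, `(1 - 2^(-kl))^(m²) ≤ 2^(-2c n²)` with `2c = δ² log₂(1/(1 - 2^(-kl))) > 0`, and
`n^((k+l)m) 2^(kl) ≤ 2^(c n²)` for large `n` (`m ≤ δ n + 1`).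
(If no such injective families exist, `Gen` holds.)

`genAll_count`: the same for `GenAll` (16 pairs `(k, l)`), with a smaller `c`.
-/

set_option autoImplicit false

namespace Pool.Agent.Helper17.TP

open SimpleGraph Finset

private theorem block_count11 {α ι : Type*} [DecidableEq α] [DecidableEq ι] (r : ℕ) (B P : ι → Finset α) (X : Finset ι) :
    ∀ U : Finset α, (∀ x ∈ X, B x ⊆ U) → (∀ x ∈ X, (B x).card = r) → (∀ x ∈ X, P x ⊆ B x) →
      (∀ x ∈ X, ∀ y ∈ X, x ≠ y → Disjoint (B x) (B y)) →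
      ((U.powerset.filter fun E => ∀ x ∈ X, E ∩ B x ≠ P x).card : ℝ) ≤
        2 ^ U.card * (1 - ((2 : ℝ) ^ r)⁻¹) ^ X.card := by
  induction X using Finset.induction_on with
  | empty =>
    intro U _ _ _ _
    simp
  | insert x X hx ih =>
    intro U hU hr hP hd
    have hBU : B x ⊆ U := hU x (mem_insert_self _ _)
    have h1 := ih (U \ B x)
      (fun y hy => subset_sdiff.2 ⟨hU y (mem_insert_of_mem hy),
        hd y (mem_insert_of_mem hy) x (mem_insert_self _ _) (fun h => hx (h ▸ hy))⟩)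
      (fun y hy => hr y (mem_insert_of_mem hy)) (fun y hy => hP y (mem_insert_of_mem hy))
      (fun y hy z hz => hd y (mem_insert_of_mem hy) z (mem_insert_of_mem hz))
    have hle : (U.powerset.filter fun E => ∀ y ∈ insert x X, E ∩ B y ≠ P y).card ≤
        (((U \ B x).powerset.filter fun E => ∀ y ∈ X, E ∩ B y ≠ P y) ×ˢ
          ((B x).powerset.erase (P x))).card := by
      refine Finset.card_le_card_of_injOn (fun E => (E \ B x, E ∩ B x)) ?_ ?_
      · intro E hE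
        have hE := mem_filter.1 (mem_coe.1 hE)
        have hEU := mem_powerset.1 hE.1
        rw [mem_coe, mem_product]
        refine ⟨mem_filter.2 ⟨mem_powerset.2 (sdiff_subset_sdiff hEU (Subset.refl _)), ?_⟩,
          mem_erase.2 ⟨hE.2 x (mem_insert_self _ _), mem_powerset.2 inter_subset_right⟩⟩
        intro y hy
        have hdis : Disjoint (B x) (B y) := hd x (mem_insert_self _ _) y (mem_insert_of_mem hy)
          (fun h => hx (h ▸ hy))
        have h2 : (E \ B x) ∩ B y = E ∩ B y := by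
          ext z
          simp only [mem_inter, mem_sdiff]
          constructor
          · rintro ⟨⟨h3, _⟩, h4⟩
            exact ⟨h3, h4⟩
          · rintro ⟨h3, h4⟩
            exact ⟨⟨h3, fun h5 => Finset.disjoint_left.1 hdis h5 h4⟩, h4⟩
        change (E \ B x) ∩ B y ≠ P y
        rw [h2]
        exact hE.2 y (mem_insert_of_mem hy)
      · intro E _ E' _ h
        have h1 := (Prod.mk.inj h).1
        have h2 := (Prod.mk.inj h).2
        rw [← sdiff_union_inter E (B x), ← sdiff_union_inter E' (B x), h1, h2]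
    rw [card_product, card_erase_of_mem (mem_powerset.2 (hP x (mem_insert_self _ _))),
      card_powerset, hr x (mem_insert_self _ _)] at hle
    have hUc : (U \ B x).card + r = U.card := by
      rw [← hr x (mem_insert_self _ _)]
      exact card_sdiff_add_card_eq_card hBU
    have hle' : ((U.powerset.filter fun E => ∀ y ∈ insert x X, E ∩ B y ≠ P y).card : ℝ) ≤
        (((U \ B x).powerset.filter fun E => ∀ y ∈ X, E ∩ B y ≠ P y).card : ℝ) * ((2 : ℝ) ^ r - 1) := by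
      have h3 : ((2 ^ r - 1 : ℕ) : ℝ) = (2 : ℝ) ^ r - 1 := by
        rw [Nat.cast_sub Nat.one_le_two_pow]; push_cast; rfl
      rw [← h3]
      exact_mod_cast hle
    have h2r : (0 : ℝ) < 2 ^ r := by positivity
    have h2r1 : (1 : ℝ) ≤ 2 ^ r := one_le_pow₀ (by norm_num)
    refine hle'.trans ((mul_le_mul_of_nonneg_right h1 (by linarith)).trans (le_of_eq ?_))
    rw [card_insert_of_notMem hx, ← hUc, pow_add, pow_succ (1 - ((2 : ℝ) ^ r)⁻¹)]
    have h4 : (1 - ((2 : ℝ) ^ r)⁻¹) * 2 ^ r = 2 ^ r - 1 := by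
      rw [sub_mul, one_mul, inv_mul_cancel₀ h2r.ne']
    rw [← h4]
    ring

/-- the number of graphs which avoid a pattern in all blocks -/
private theorem pat_count11 {n : ℕ} (k l m : ℕ) (A : Finset (Fin n)) (I : SimpleGraph (Fin n))
    (s : Fin m → Fin k → Fin n) (t : Fin m → Fin l → Fin n)
    (hs : ∀ i a, s i a ∈ A) (ht : ∀ j b, t j b ∉ A)
    (is : Function.Injective (fun q : Fin m × Fin k => s q.1 q.2))
    (it : Function.Injective (fun q : Fin m × Fin l => t q.1 q.2)) (pat : Fin k → Fin l → Prop) :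
    ({G : SimpleGraph (Fin n) | inside G A = I ∧ ∀ i j, ¬ ∀ a b, (G.Adj (s i a) (t j b) ↔ pat a b)}.ncard : ℝ)
      ≤ 2 ^ (A.card * Aᶜ.card) * (1 - ((2 : ℝ) ^ (k * l))⁻¹) ^ (m ^ 2) := by
  classical
  let B : Fin m × Fin m → Finset (Fin n × Fin n) := fun x =>
    (univ : Finset (Fin k × Fin l)).image fun q => (s x.1 q.1, t x.2 q.2)
  let P : Fin m × Fin m → Finset (Fin n × Fin n) := fun x =>
    ((univ : Finset (Fin k × Fin l)).filter fun q => pat q.1 q.2).image fun q => (s x.1 q.1, t x.2 q.2)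
  have hinjB : ∀ x : Fin m × Fin m, Function.Injective (fun q : Fin k × Fin l => (s x.1 q.1, t x.2 q.2)) := by
    intro x q q' h
    have h1 := (Prod.mk.inj h).1
    have h2 := (Prod.mk.inj h).2
    have h3 := @is (x.1, q.1) (x.1, q'.1) h1
    have h4 := @it (x.2, q.2) (x.2, q'.2) h2
    exact Prod.ext (Prod.mk.inj h3).2 (Prod.mk.inj h4).2
  have hbc := block_count11 (k * l) B P univ (A ×ˢ Aᶜ)
    (by
      intro x _ z hz
      obtain ⟨q, _, rfl⟩ := mem_image.1 hz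
      exact mem_product.2 ⟨hs _ _, mem_compl.2 (ht _ _)⟩)
    (by
      intro x _
      rw [card_image_of_injective _ (hinjB x)]
      simp)
    (by
      intro x _
      exact image_subset_image (filter_subset _ _))
    (by
      intro x _ y _ hxy
      rw [Finset.disjoint_left]
      intro z hz hz'
      obtain ⟨q, _, rfl⟩ := mem_image.1 hz
      obtain ⟨q', _, h⟩ := mem_image.1 hz'
      have h1 := (Prod.mk.inj h).1
      have h2 := (Prod.mk.inj h).2
      have h3 := @is (y.1, q'.1) (x.1, q.1) h1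
      have h4 := @it (y.2, q'.2) (x.2, q.2) h2
      exact hxy (Prod.ext (Prod.mk.inj h3).1.symm (Prod.mk.inj h4).1.symm))
  rw [card_product, card_univ, Fintype.card_prod, Fintype.card_fin, ← sq] at hbc
  refine le_trans ?_ hbc
  rw [Nat.cast_le]
  let c : SimpleGraph (Fin n) → Finset (Fin n × Fin n) := fun G =>
    (A ×ˢ Aᶜ).filter fun q => G.Adj q.1 q.2
  have hcard : {G : SimpleGraph (Fin n) | inside G A = I ∧ ∀ i j, ¬ ∀ a b, (G.Adj (s i a) (t j b) ↔ pat a b)}.ncard ≤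
      ((((A ×ˢ Aᶜ).powerset.filter fun E => ∀ x ∈ (univ : Finset (Fin m × Fin m)), E ∩ B x ≠ P x) :
        Finset (Finset (Fin n × Fin n))) : Set (Finset (Fin n × Fin n))).ncard := by
    refine Set.ncard_le_ncard_of_injOn c ?_ ?_ (Finset.finite_toSet _)
    · rintro G ⟨_, hG⟩
      rw [mem_coe, mem_filter]
      refine ⟨mem_powerset.2 (filter_subset _ _), ?_⟩
      rintro ⟨i, j⟩ _ heq
      apply hG i j
      intro a b
      have hm : ((s i a, t j b) ∈ c G ∩ B (i, j)) ↔ ((s i a, t j b) ∈ P (i, j)) := by rw [heq]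
      have h1 : ((s i a, t j b) ∈ c G ∩ B (i, j)) ↔ G.Adj (s i a) (t j b) := by
        rw [mem_inter, mem_filter, mem_product]
        constructor
        · exact fun h => h.1.2
        · exact fun h => ⟨⟨⟨hs _ _, mem_compl.2 (ht _ _)⟩, h⟩, mem_image.2 ⟨(a, b), mem_univ _, rfl⟩⟩
      have h2 : ((s i a, t j b) ∈ P (i, j)) ↔ pat a b := by
        rw [mem_image]
        constructor
        · rintro ⟨q, hq, h⟩
          have h3 : q = (a, b) := hinjB (i, j) h
          rw [mem_filter, h3] at hq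
          exact hq.2
        · exact fun h => ⟨(a, b), mem_filter.2 ⟨mem_univ _, h⟩, rfl⟩
      rw [← h1, hm, h2]
    · rintro G ⟨hG, _⟩ G' ⟨hG', _⟩ h
      refine ext_of_inside (A := A) (hG.trans hG'.symm) fun y hy => ?_
      ext z
      rw [mem_nb, mem_nb]
      refine and_congr_right fun hz => ?_
      have h1 : ((z, y) ∈ c G) ↔ ((z, y) ∈ c G') := by
        have h' : c G = c G' := h
        rw [h']
      rw [mem_filter, mem_filter] at h1
      have h2 : (z, y) ∈ A ×ˢ Aᶜ := mem_product.2 ⟨hz, mem_compl.2 hy⟩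
      simp only [h2, true_and] at h1
      rw [G.adj_comm, G'.adj_comm]
      exact h1
  rw [Set.ncard_coe_finset] at hcard
  convert hcard

private theorem union_count11 {n : ℕ} (k l m : ℕ) (A : Finset (Fin n)) (I : SimpleGraph (Fin n)) :
    ({G : SimpleGraph (Fin n) | inside G A = I ∧ ¬ Gen G A k l m}.ncard : ℝ)
      ≤ ((n : ℝ) ^ (m * (k + l)) * 2 ^ (k * l)) *
        (2 ^ (A.card * Aᶜ.card) * (1 - ((2 : ℝ) ^ (k * l))⁻¹) ^ (m ^ 2)) := by
  classical
  set K : ℝ := 2 ^ (A.card * Aᶜ.card) * (1 - ((2 : ℝ) ^ (k * l))⁻¹) ^ (m ^ 2) with hK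
  have h2r1 : (1 : ℝ) ≤ 2 ^ (k * l) := one_le_pow₀ (by norm_num)
  have hinv : ((2 : ℝ) ^ (k * l))⁻¹ ≤ 1 := inv_le_one_of_one_le₀ h2r1
  have hK0 : 0 ≤ K := by
    have : 0 ≤ 1 - ((2 : ℝ) ^ (k * l))⁻¹ := by linarith
    positivity
  let T := (Fin m → Fin k → Fin n) × (Fin m → Fin l → Fin n) × (Fin k → Fin l → Prop)
  let S : T → Finset (SimpleGraph (Fin n)) := fun z => univ.filter fun G =>
    (inside G A = I ∧ ∀ i j, ¬ ∀ a b, (G.Adj (z.1 i a) (z.2.1 j b) ↔ z.2.2 a b)) ∧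
    (∀ i a, z.1 i a ∈ A) ∧ (∀ j b, z.2.1 j b ∉ A) ∧
    Function.Injective (fun q : Fin m × Fin k => z.1 q.1 q.2) ∧
    Function.Injective (fun q : Fin m × Fin l => z.2.1 q.1 q.2)
  have hS : ∀ z, ((S z).card : ℝ) ≤ K := by
    intro z
    by_cases hz : (∀ i a, z.1 i a ∈ A) ∧ (∀ j b, z.2.1 j b ∉ A) ∧
      Function.Injective (fun q : Fin m × Fin k => z.1 q.1 q.2) ∧
      Function.Injective (fun q : Fin m × Fin l => z.2.1 q.1 q.2)
    · refine le_trans ?_ (pat_count11 k l m A I z.1 z.2.1 hz.1 hz.2.1 hz.2.2.1 hz.2.2.2 z.2.2)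
      rw [Nat.cast_le, ← Set.ncard_coe_finset]
      refine Set.ncard_le_ncard ?_ (Set.toFinite _)
      intro G hG
      exact (mem_filter.1 (mem_coe.1 hG)).2.1
    · have h0 : S z = ∅ := by
        rw [filter_eq_empty_iff]
        intro G _ h
        exact hz h.2
      rw [h0]
      simpa using hK0
  have hsub : ({G : SimpleGraph (Fin n) | inside G A = I ∧ ¬ Gen G A k l m}) ⊆
      ((univ.biUnion S : Finset (SimpleGraph (Fin n))) : Set (SimpleGraph (Fin n))) := by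
    rintro G ⟨hG, hGen⟩
    unfold Gen at hGen
    push Not at hGen
    obtain ⟨s, t, hs, ht, is, it, pat, hpat⟩ := hGen
    rw [mem_coe, mem_biUnion]
    refine ⟨(s, t, pat), mem_univ _, mem_filter.2 ⟨mem_univ _, ⟨hG, ?_⟩, hs, ht, is, it⟩⟩
    intro i j hij
    obtain ⟨a, b, hab⟩ := hpat i j
    have := hij a b
    change G.Adj (s i a) (t j b) ↔ pat a b at this
    tauto
  have h1 : {G : SimpleGraph (Fin n) | inside G A = I ∧ ¬ Gen G A k l m}.ncard ≤
      ∑ z : T, (S z).card := by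
    refine (Set.ncard_le_ncard hsub (Set.toFinite _)).trans ?_
    rw [Set.ncard_coe_finset]
    exact card_biUnion_le
  have h2 : ({G : SimpleGraph (Fin n) | inside G A = I ∧ ¬ Gen G A k l m}.ncard : ℝ) ≤
      ∑ z : T, ((S z).card : ℝ) := by exact_mod_cast h1
  refine h2.trans ((sum_le_sum fun z _ => hS z).trans (le_of_eq ?_))
  rw [sum_const, nsmul_eq_mul]
  congr 1
  have h3 : (univ : Finset T).card = n ^ (m * (k + l)) * 2 ^ (k * l) := by
    rw [card_univ]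
    simp only [T, Fintype.card_prod, Fintype.card_pi, Finset.prod_const, Fintype.card_fin, card_univ,
      Fintype.card_prop]
    rw [← pow_mul, ← pow_mul, ← pow_mul, ← mul_assoc, ← pow_add]
    congr 2
    · ring
    · ring
  rw [h3]
  push_cast
  rfl

theorem gen_count (k l : ℕ) (hk : 1 ≤ k) (hl : 1 ≤ l) (δ : ℝ) (hδ : 0 < δ) :
    ∃ c > (0 : ℝ), ∃ n₀ : ℕ, ∀ n ≥ n₀, ∀ (A : Finset (Fin n)) (I : SimpleGraph (Fin n)),
      ({G : SimpleGraph (Fin n) | inside G A = I ∧ ¬ Gen G A k l ⌈δ * n⌉₊}.ncard : ℝ)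
        ≤ 2 ^ (((A.card * Aᶜ.card : ℕ) : ℝ) - c * (n : ℝ) ^ 2) := by
  set ρ : ℝ := 1 - ((2 : ℝ) ^ (k * l))⁻¹ with hρ
  have h2r1 : (2 : ℝ) ≤ 2 ^ (k * l) := by
    have : 1 ≤ k * l := Nat.mul_pos hk hl
    calc (2 : ℝ) = 2 ^ 1 := by norm_num
      _ ≤ 2 ^ (k * l) := pow_le_pow_right₀ (by norm_num) this
  have hinv : ((2 : ℝ) ^ (k * l))⁻¹ ≤ 2⁻¹ := inv_anti₀ (by norm_num) h2r1
  have hinv0 : 0 < ((2 : ℝ) ^ (k * l))⁻¹ := by positivity
  have hρ0 : 0 < ρ := by rw [hρ]; linarith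
  have hρ1 : ρ < 1 := by rw [hρ]; linarith
  set lam : ℝ := -Real.logb 2 ρ with hlam
  have hlam0 : 0 < lam := by
    rw [hlam]
    have := Real.logb_neg (b := 2) (by norm_num) hρ0 hρ1
    linarith
  have hρ2 : ρ = 2 ^ (-lam) := by
    rw [hlam, neg_neg, Real.rpow_logb (by norm_num) (by norm_num) hρ0]
  set c : ℝ := lam * δ ^ 2 / 2 with hc
  have hc0 : 0 < c := by positivity
  -- asymptotics
  have hlog := Real.isLittleO_log_id_atTop.def
    (c := c * Real.log 2 / (2 * ((k + l : ℕ) + 1) * (δ + 1))) (by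
      have := Real.log_pos (x := 2) (by norm_num)
      positivity)
  have hlogN := (tendsto_natCast_atTop_atTop (R := ℝ)).eventually hlog
  have hkl : ∀ᶠ n : ℕ in Filter.atTop, ((k * l : ℕ) : ℝ) ≤ c / 2 * n := by
    have h1 : Filter.Tendsto (fun n : ℕ => c / 2 * (n : ℝ)) Filter.atTop Filter.atTop :=
      (tendsto_natCast_atTop_atTop (R := ℝ)).const_mul_atTop (by positivity)
    exact h1.eventually_ge_atTop _
  obtain ⟨n₀, hn₀⟩ := Filter.eventually_atTop.1 ((hlogN.and hkl).and (Filter.eventually_ge_atTop 1))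
  refine ⟨c, hc0, n₀, fun n hn A I => ?_⟩
  obtain ⟨⟨hL, hkln⟩, hn1⟩ := hn₀ n hn
  have hn1' : (1 : ℝ) ≤ n := by exact_mod_cast hn1
  have hn0' : (0 : ℝ) < n := by linarith
  set m := ⌈δ * n⌉₊ with hm
  have hmge : δ * n ≤ m := Nat.le_ceil _
  have hmle : (m : ℝ) ≤ (δ + 1) * n := by
    have := (Nat.ceil_lt_add_one (by positivity : 0 ≤ δ * (n : ℝ))).le
    rw [← hm] at this
    nlinarith
  have hlog2 := Real.log_pos (x := 2) (by norm_num)
  have hLn : Real.log n ≤ c * Real.log 2 / (2 * ((k + l : ℕ) + 1) * (δ + 1)) * n := by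
    rw [Real.norm_eq_abs, Real.norm_eq_abs, id, abs_of_nonneg hn0'.le] at hL
    exact (le_abs_self _).trans hL
  have hLb : Real.logb 2 n ≤ c / (2 * ((k + l : ℕ) + 1) * (δ + 1)) * n := by
    unfold Real.logb
    rw [div_le_iff₀ hlog2]
    refine hLn.trans (le_of_eq ?_)
    ring
  have hLb0 : 0 ≤ Real.logb 2 n := Real.logb_nonneg (by norm_num) hn1'
  refine (union_count11 k l m A I).trans ?_
  have e1 : (n : ℝ) ^ (m * (k + l)) = 2 ^ (Real.logb 2 n * (m * (k + l : ℕ))) := by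
    rw [Real.rpow_mul (by norm_num), Real.rpow_logb (by norm_num) (by norm_num) hn0', ← Nat.cast_mul,
      Real.rpow_natCast]
  have e2 : (2 : ℝ) ^ (k * l) = 2 ^ (((k * l : ℕ) : ℝ)) := (Real.rpow_natCast _ _).symm
  have e3 : (2 : ℝ) ^ (A.card * Aᶜ.card) = 2 ^ (((A.card * Aᶜ.card : ℕ) : ℝ)) := (Real.rpow_natCast _ _).symm
  have e4 : (1 - ((2 : ℝ) ^ (k * l))⁻¹) ^ (m ^ 2) = 2 ^ (-lam * (m : ℝ) ^ 2) := by
    rw [← hρ, hρ2, ← Real.rpow_natCast, ← Real.rpow_mul (by norm_num)]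
    push_cast
    rfl
  rw [e1, e4, e3]
  conv_lhs => rw [e2]
  rw [← Real.rpow_add (by norm_num), ← Real.rpow_add (by norm_num), ← Real.rpow_add (by norm_num)]
  refine Real.rpow_le_rpow_of_exponent_le (by norm_num) ?_
  have f1 : δ ^ 2 * (n : ℝ) ^ 2 ≤ (m : ℝ) ^ 2 := by
    rw [← mul_pow]
    exact pow_le_pow_left₀ (by positivity) hmge 2
  have f2 : lam * (δ ^ 2 * (n : ℝ) ^ 2) ≤ lam * (m : ℝ) ^ 2 := mul_le_mul_of_nonneg_left f1 hlam0.le
  have f3 : Real.logb 2 n * (m * (k + l : ℕ)) ≤ c / 2 * (n : ℝ) ^ 2 := by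
    have g1 : (m : ℝ) * (k + l : ℕ) ≤ (δ + 1) * n * ((k + l : ℕ) + 1) := by
      have : (0 : ℝ) ≤ (k + l : ℕ) := Nat.cast_nonneg _
      have hm0 : (0 : ℝ) ≤ m := Nat.cast_nonneg _
      nlinarith [mul_nonneg hm0 this]
    have g2 : Real.logb 2 n * (m * (k + l : ℕ)) ≤ (c / (2 * ((k + l : ℕ) + 1) * (δ + 1)) * n) *
        ((δ + 1) * n * ((k + l : ℕ) + 1)) :=
      mul_le_mul hLb g1 (by positivity) (by positivity)
    refine g2.trans (le_of_eq ?_)
    have : (0 : ℝ) < ((k + l : ℕ) : ℝ) + 1 := by positivity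
    have : (0 : ℝ) < δ + 1 := by positivity
    field_simp
  have f4 : ((k * l : ℕ) : ℝ) ≤ c / 2 * (n : ℝ) ^ 2 := by
    refine hkln.trans ?_
    have : (n : ℝ) ≤ (n : ℝ) ^ 2 := by nlinarith
    exact mul_le_mul_of_nonneg_left this (by positivity)
  have f5 : lam * (δ ^ 2 * (n : ℝ) ^ 2) = 2 * c * (n : ℝ) ^ 2 := by rw [hc]; ring
  linarith

private theorem fin_union11 (δ : ℝ) (hδ : 0 < δ) (X : Finset (ℕ × ℕ)) :
    (∀ q ∈ X, 1 ≤ q.1 ∧ 1 ≤ q.2) →
    ∃ c > (0 : ℝ), ∃ n₀ : ℕ, ∀ n ≥ n₀, ∀ (A : Finset (Fin n)) (I : SimpleGraph (Fin n)),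
      ({G : SimpleGraph (Fin n) | inside G A = I ∧ ∃ q ∈ X, ¬ Gen G A q.1 q.2 ⌈δ * n⌉₊}.ncard : ℝ)
        ≤ 2 ^ (((A.card * Aᶜ.card : ℕ) : ℝ) - c * (n : ℝ) ^ 2) := by
  classical
  induction X using Finset.induction_on with
  | empty =>
    intro _
    refine ⟨1, one_pos, 0, fun n _ A I => ?_⟩
    have h0 : {G : SimpleGraph (Fin n) | inside G A = I ∧ ∃ q ∈ (∅ : Finset (ℕ × ℕ)), ¬ Gen G A q.1 q.2 ⌈δ * n⌉₊} = ∅ := by
      ext G
      simp
    rw [h0, Set.ncard_empty, Nat.cast_zero]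
    positivity
  | insert q X hq ih =>
    intro hX
    obtain ⟨c1, hc1, n1, h1⟩ := ih fun p hp => hX p (mem_insert_of_mem hp)
    obtain ⟨hq1, hq2⟩ := hX q (mem_insert_self _ _)
    obtain ⟨c2, hc2, n2, h2⟩ := gen_count q.1 q.2 hq1 hq2 δ hδ
    set c := min c1 c2 / 2 with hc
    have hc0 : 0 < c := by have := lt_min hc1 hc2; positivity
    refine ⟨c, hc0, max (max n1 n2) ⌈1 / c⌉₊.succ, fun n hn A I => ?_⟩
    have hn1 : n1 ≤ n := le_trans (le_max_left _ _) ((le_max_left _ _).trans hn)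
    have hn2 : n2 ≤ n := le_trans (le_max_right _ _) ((le_max_left _ _).trans hn)
    have hn3 : ⌈1 / c⌉₊.succ ≤ n := (le_max_right _ _).trans hn
    have hn4 : 1 / c ≤ n := (Nat.le_ceil _).trans (by exact_mod_cast (Nat.le_succ _).trans hn3)
    have hn5 : (1 : ℝ) ≤ n := by
      have : 1 ≤ n := le_trans (Nat.succ_le_succ (Nat.zero_le _)) hn3
      exact_mod_cast this
    have hcn : 1 ≤ c * (n : ℝ) ^ 2 := by
      have h3 : 1 ≤ c * n := by
        rw [div_le_iff₀ hc0] at hn4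
        linarith
      nlinarith
    have hsub : {G : SimpleGraph (Fin n) | inside G A = I ∧ ∃ p ∈ insert q X, ¬ Gen G A p.1 p.2 ⌈δ * n⌉₊} ⊆
        {G : SimpleGraph (Fin n) | inside G A = I ∧ ∃ p ∈ X, ¬ Gen G A p.1 p.2 ⌈δ * n⌉₊} ∪
        {G : SimpleGraph (Fin n) | inside G A = I ∧ ¬ Gen G A q.1 q.2 ⌈δ * n⌉₊} := by
      rintro G ⟨hG, p, hp, hpG⟩
      rcases mem_insert.1 hp with rfl | hp
      · exact Or.inr ⟨hG, hpG⟩
      · exact Or.inl ⟨hG, p, hp, hpG⟩
    have h3 := (Set.ncard_le_ncard hsub (Set.toFinite _)).trans (Set.ncard_union_le _ _)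
    have h4 : ({G : SimpleGraph (Fin n) | inside G A = I ∧ ∃ p ∈ insert q X, ¬ Gen G A p.1 p.2 ⌈δ * n⌉₊}.ncard : ℝ) ≤
        ({G : SimpleGraph (Fin n) | inside G A = I ∧ ∃ p ∈ X, ¬ Gen G A p.1 p.2 ⌈δ * n⌉₊}.ncard : ℝ) +
        ({G : SimpleGraph (Fin n) | inside G A = I ∧ ¬ Gen G A q.1 q.2 ⌈δ * n⌉₊}.ncard : ℝ) := by
      exact_mod_cast h3
    refine h4.trans ((add_le_add (h1 n hn1 A I) (h2 n hn2 A I)).trans ?_)
    have hmin1 : 2 * c ≤ c1 := by rw [hc]; linarith [min_le_left c1 c2]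
    have hmin2 : 2 * c ≤ c2 := by rw [hc]; linarith [min_le_right c1 c2]
    have hnn : (0 : ℝ) ≤ (n : ℝ) ^ 2 := by positivity
    have g1 : (2 : ℝ) ^ (((A.card * Aᶜ.card : ℕ) : ℝ) - c1 * (n : ℝ) ^ 2) ≤
        2 ^ (((A.card * Aᶜ.card : ℕ) : ℝ) - c * (n : ℝ) ^ 2 - 1) := by
      refine Real.rpow_le_rpow_of_exponent_le (by norm_num) ?_
      nlinarith
    have g2 : (2 : ℝ) ^ (((A.card * Aᶜ.card : ℕ) : ℝ) - c2 * (n : ℝ) ^ 2) ≤
        2 ^ (((A.card * Aᶜ.card : ℕ) : ℝ) - c * (n : ℝ) ^ 2 - 1) := by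
      refine Real.rpow_le_rpow_of_exponent_le (by norm_num) ?_
      nlinarith
    refine (add_le_add g1 g2).trans (le_of_eq ?_)
    rw [Real.rpow_sub_one (by norm_num)]
    ring

theorem genAll_count (δ : ℝ) (hδ : 0 < δ) :
    ∃ c > (0 : ℝ), ∃ n₀ : ℕ, ∀ n ≥ n₀, ∀ (A : Finset (Fin n)) (I : SimpleGraph (Fin n)),
      ({G : SimpleGraph (Fin n) | inside G A = I ∧ ¬ GenAll G A ⌈δ * n⌉₊}.ncard : ℝ)
        ≤ 2 ^ (((A.card * Aᶜ.card : ℕ) : ℝ) - c * (n : ℝ) ^ 2) := by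
  obtain ⟨c, hc, n₀, h⟩ := fin_union11 δ hδ (Finset.Icc 1 4 ×ˢ Finset.Icc 1 4) (by
    intro q hq
    rw [mem_product, mem_Icc, mem_Icc] at hq
    exact ⟨hq.1.1, hq.2.1⟩)
  refine ⟨c, hc, n₀, fun n hn A I => le_trans ?_ (h n hn A I)⟩
  rw [Nat.cast_le]
  refine Set.ncard_le_ncard ?_ (Set.toFinite _)
  rintro G ⟨hG, hGen⟩
  unfold GenAll at hGen
  push Not at hGen
  obtain ⟨k, l, hk, hk4, hl, hl4, hkl⟩ := hGen
  exact ⟨hG, (k, l), mem_product.2 ⟨mem_Icc.2 ⟨hk, hk4⟩, mem_Icc.2 ⟨hl, hl4⟩⟩, hkl⟩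

end Pool.Agent.Helper17.TP
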