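import Pool.Agent.Helper17.TP.R4
import Pool.Agent.Helper17.TP.G1

/-!
# Block TP-EXC: all but few t-perfect graphs have a generic nearly balanced partition

Proof.  `c₁` from `genAll_count δ`; `ε = min(δ, c₁/2)`; `c₂, ℱ` from `list_inside ε`.  If a t-perfect
`G` has no `A` as required then either `inside G P.1 ≠ P.2` for all `P ∈ ℱ`, or for some
`P ∈ ℱ`: `inside G P.1 = P.2` and not `GenAll G P.1 m`.  The number of graphs of the second kind is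
`≤ 2^(ε n²) · 2^(n²/4 - c₁ n²) ≤ 2^((1/4 - c₁/2) n²)` (`|A||Aᶜ| ≤ n²/4`).  Total
`≤ 2^((1/4 - c₂) n²) + 2^((1/4 - c₁/2) n²) ≤ 2^((1/4 - c) n²)`, `c = min(c₂, c₁/2)/2`, `n` large.
-/

set_option autoImplicit false

namespace Pool.Agent.Helper17.TP

open SimpleGraph Finset

private lemma ncard_biUnion_mul_le {α ι : Type} [Finite ι] (s : Set ι) (t : ι → Set α) (K : ℝ)
    (hK : ∀ i ∈ s, ((t i).ncard : ℝ) ≤ K) :
    ((⋃ i ∈ s, t i).ncard : ℝ) ≤ s.ncard * K := by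
  classical
  have hs : s.Finite := Set.toFinite s
  have h1 := hs.toFinset.set_ncard_biUnion_le t
  have h2 : (⋃ i ∈ hs.toFinset, t i) = ⋃ i ∈ s, t i := by
    ext x
    simp
  rw [h2] at h1
  have h3 : ((⋃ i ∈ s, t i).ncard : ℝ) ≤ ∑ i ∈ hs.toFinset, ((t i).ncard : ℝ) := by
    exact_mod_cast h1
  refine h3.trans ?_
  have h4 : ∑ i ∈ hs.toFinset, ((t i).ncard : ℝ) ≤ ∑ _i ∈ hs.toFinset, K :=
    Finset.sum_le_sum fun i hi => hK i (hs.mem_toFinset.mp hi)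
  refine h4.trans (le_of_eq ?_)
  rw [Finset.sum_const, nsmul_eq_mul, Set.ncard_eq_toFinset_card s hs]

theorem exceptional (δ : ℝ) (hδ : 0 < δ) : ∃ c > (0 : ℝ), ∃ n₀ : ℕ, ∀ n ≥ n₀,
    ({G : SimpleGraph (Fin n) | TPerf G ∧ ¬ ∃ A : Finset (Fin n),
        |(A.card : ℝ) - n / 2| ≤ δ * n ∧ GenAll G A ⌈δ * n⌉₊}.ncard : ℝ)
      ≤ 2 ^ ((1 / 4 - c) * (n : ℝ) ^ 2) := by
  obtain ⟨c₁, hc₁, n₁, H₁⟩ := genAll_count δ hδ
  have hε : 0 < min δ (c₁ / 2) := lt_min hδ (by linarith)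
  obtain ⟨c₂, hc₂, n₂, H₂⟩ := list_inside (min δ (c₁ / 2)) hε
  have hc : 0 < min c₂ (c₁ / 2) / 2 := half_pos (lt_min hc₂ (by linarith))
  refine ⟨min c₂ (c₁ / 2) / 2, hc, max (max n₁ n₂) (⌈1 / (min c₂ (c₁ / 2) / 2)⌉₊ + 1), ?_⟩
  intro n hn
  have hn₁ : n₁ ≤ n := le_trans (le_trans (le_max_left _ _) (le_max_left _ _)) hn
  have hn₂ : n₂ ≤ n := le_trans (le_trans (le_max_right _ _) (le_max_left _ _)) hn
  have hn₃ : ⌈1 / (min c₂ (c₁ / 2) / 2)⌉₊ + 1 ≤ n := le_trans (le_max_right _ _) hn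
  obtain ⟨ℱ, hℱ, hbal, hbad⟩ := H₂ n hn₂
  set c : ℝ := min c₂ (c₁ / 2) / 2 with hcdef
  set m : ℕ := ⌈δ * n⌉₊ with hm
  have hnpos : (1 : ℝ) ≤ n := by
    have : 1 ≤ n := by omega
    exact_mod_cast this
  have hcn : 1 ≤ c * (n : ℝ) ^ 2 := by
    have h1 : 1 / c ≤ n := by
      refine (Nat.le_ceil _).trans ?_
      have : ⌈1 / c⌉₊ ≤ n := by omega
      exact_mod_cast this
    have h2 : 1 ≤ c * n := by
      rw [div_le_iff₀ hc] at h1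
      linarith
    have h3 : c * n ≤ c * (n : ℝ) ^ 2 := by
      refine mul_le_mul_of_nonneg_left ?_ hc.le
      nlinarith
    linarith
  have hsub : {G : SimpleGraph (Fin n) | TPerf G ∧ ¬ ∃ A : Finset (Fin n),
        |(A.card : ℝ) - n / 2| ≤ δ * n ∧ GenAll G A m}
      ⊆ {G : SimpleGraph (Fin n) | TPerf G ∧ ∀ P ∈ ℱ, inside G P.1 ≠ P.2} ∪
        ⋃ P ∈ ℱ, {G : SimpleGraph (Fin n) | inside G P.1 = P.2 ∧ ¬ GenAll G P.1 m} := by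
    rintro G ⟨hG, hA⟩
    by_cases hP : ∀ P ∈ ℱ, inside G P.1 ≠ P.2
    · exact Or.inl ⟨hG, hP⟩
    · right
      push Not at hP
      obtain ⟨P, hPℱ, hPe⟩ := hP
      refine Set.mem_biUnion hPℱ ⟨hPe, ?_⟩
      intro hgen
      refine hA ⟨P.1, (hbal P hPℱ).trans ?_, hgen⟩
      exact mul_le_mul_of_nonneg_right (min_le_left _ _) (by positivity)
  have h1 : ∀ P ∈ ℱ, (({G : SimpleGraph (Fin n) | inside G P.1 = P.2 ∧ ¬ GenAll G P.1 m}).ncard : ℝ)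
      ≤ 2 ^ ((1 / 4 - c₁) * (n : ℝ) ^ 2) := by
    intro P _
    refine (H₁ n hn₁ P.1 P.2).trans ?_
    refine Real.rpow_le_rpow_of_exponent_le (by norm_num) ?_
    have hcard : P.1.card + P.1ᶜ.card = n := by
      have := Finset.card_add_card_compl P.1
      simpa using this
    have hcard' : (P.1.card : ℝ) + (P.1ᶜ.card : ℝ) = n := by exact_mod_cast hcard
    push_cast
    nlinarith [sq_nonneg ((P.1.card : ℝ) - (P.1ᶜ.card : ℝ))]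
  have h2 := ncard_biUnion_mul_le ℱ
    (fun P => {G : SimpleGraph (Fin n) | inside G P.1 = P.2 ∧ ¬ GenAll G P.1 m}) _ h1
  have h3 : (({G : SimpleGraph (Fin n) | TPerf G ∧ ¬ ∃ A : Finset (Fin n),
        |(A.card : ℝ) - n / 2| ≤ δ * n ∧ GenAll G A m}).ncard : ℝ)
      ≤ 2 ^ ((1 / 4 - c₂) * (n : ℝ) ^ 2)
        + (ℱ.ncard : ℝ) * 2 ^ ((1 / 4 - c₁) * (n : ℝ) ^ 2) := by
    have h4 := (Set.ncard_le_ncard hsub (Set.toFinite _)).trans (Set.ncard_union_le _ _)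
    have h5 : (({G : SimpleGraph (Fin n) | TPerf G ∧ ¬ ∃ A : Finset (Fin n),
        |(A.card : ℝ) - n / 2| ≤ δ * n ∧ GenAll G A m}).ncard : ℝ)
        ≤ (({G : SimpleGraph (Fin n) | TPerf G ∧ ∀ P ∈ ℱ, inside G P.1 ≠ P.2}).ncard : ℝ)
          + ((⋃ P ∈ ℱ, {G : SimpleGraph (Fin n) |
              inside G P.1 = P.2 ∧ ¬ GenAll G P.1 m}).ncard : ℝ) := by
      exact_mod_cast h4
    exact h5.trans (add_le_add hbad h2)
  refine h3.trans ?_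
  have hp2 : (0 : ℝ) < 2 := by norm_num
  have h6 : (ℱ.ncard : ℝ) * 2 ^ ((1 / 4 - c₁) * (n : ℝ) ^ 2)
      ≤ 2 ^ ((1 / 4 - c₁ / 2) * (n : ℝ) ^ 2) := by
    calc (ℱ.ncard : ℝ) * 2 ^ ((1 / 4 - c₁) * (n : ℝ) ^ 2)
        ≤ 2 ^ (min δ (c₁ / 2) * (n : ℝ) ^ 2) * 2 ^ ((1 / 4 - c₁) * (n : ℝ) ^ 2) :=
          mul_le_mul_of_nonneg_right hℱ (Real.rpow_nonneg hp2.le _)
      _ = 2 ^ (min δ (c₁ / 2) * (n : ℝ) ^ 2 + (1 / 4 - c₁) * (n : ℝ) ^ 2) := by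
          rw [← Real.rpow_add hp2]
      _ ≤ 2 ^ ((1 / 4 - c₁ / 2) * (n : ℝ) ^ 2) := by
          refine Real.rpow_le_rpow_of_exponent_le (by norm_num) ?_
          have := mul_le_mul_of_nonneg_right (min_le_right δ (c₁ / 2)) (sq_nonneg (n : ℝ))
          nlinarith
  have h7 : (2 : ℝ) ^ ((1 / 4 - c₂) * (n : ℝ) ^ 2) ≤ 2 ^ ((1 / 4 - 2 * c) * (n : ℝ) ^ 2) := by
    refine Real.rpow_le_rpow_of_exponent_le (by norm_num) ?_
    have h8 : 2 * c ≤ c₂ := by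
      rw [hcdef]
      have := min_le_left c₂ (c₁ / 2)
      linarith
    exact mul_le_mul_of_nonneg_right (by linarith) (sq_nonneg _)
  have h8 : (2 : ℝ) ^ ((1 / 4 - c₁ / 2) * (n : ℝ) ^ 2) ≤ 2 ^ ((1 / 4 - 2 * c) * (n : ℝ) ^ 2) := by
    refine Real.rpow_le_rpow_of_exponent_le (by norm_num) ?_
    have h8 : 2 * c ≤ c₁ / 2 := by
      rw [hcdef]
      have := min_le_right c₂ (c₁ / 2)
      linarith
    exact mul_le_mul_of_nonneg_right (by linarith) (sq_nonneg _)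
  calc (2 : ℝ) ^ ((1 / 4 - c₂) * (n : ℝ) ^ 2)
        + (ℱ.ncard : ℝ) * 2 ^ ((1 / 4 - c₁) * (n : ℝ) ^ 2)
      ≤ 2 ^ ((1 / 4 - 2 * c) * (n : ℝ) ^ 2) + 2 ^ ((1 / 4 - 2 * c) * (n : ℝ) ^ 2) :=
        add_le_add h7 (h6.trans h8)
    _ = 2 ^ (1 + (1 / 4 - 2 * c) * (n : ℝ) ^ 2) := by
        rw [Real.rpow_add hp2, Real.rpow_one]
        ring
    _ ≤ 2 ^ ((1 / 4 - c) * (n : ℝ) ^ 2) := by
        refine Real.rpow_le_rpow_of_exponent_le (by norm_num) ?_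
        nlinarith

end Pool.Agent.Helper17.TP
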