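import Pool.Agent.Helper17.TP.Base
import Pool.Agent.Helper55.TA.Imperf

/-!
# Forbidden patterns (consequences of `TPA.no_three`)
-/

set_option autoImplicit false

namespace Pool.Agent.Helper17.TP

open SimpleGraph Finset

variable {V : Type} [Fintype V] [DecidableEq V] {G : SimpleGraph V}

theorem no_K4 (hG : TPerf G) {a b c d : V} (hab : G.Adj a b) (hac : G.Adj a c) (had : G.Adj a d)
    (hbc : G.Adj b c) (hbd : G.Adj b d) (hcd : G.Adj c d) : False := by
  let r : Fin 3 → V := ![b, c, d]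
  have hadj : ∀ i j : Fin 3, G.Adj (r i) (r j) ↔ j = i + 1 ∨ i = j + 1 := by
    intro i j
    fin_cases i <;> fin_cases j <;> simp [r, hbc, hbd, hcd, hbc.symm, hbd.symm, hcd.symm]
  have hinj : Function.Injective r := by
    intro i j hij
    by_contra hne
    have h1 : ¬ G.Adj (r i) (r j) := by rw [hij]; exact G.irrefl
    rw [hadj] at h1
    clear hij
    revert hne h1
    revert i j
    decide
  refine TPA.no_three hG 1 le_rfl r hinj hadj a ?_ (0 : Fin 3) ?_ ?_ ?_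
  · intro i
    have : ∀ i : Fin 3, a ≠ r i := by
      intro i
      fin_cases i
      · exact hab.ne
      · exact hac.ne
      · exact had.ne
    exact this i
  · exact hab
  · exact hac
  · exact had

/-- induced C5 `p1 p2 p3 p4 p5` and a further vertex adjacent to (at least) `p1, p2, p3`. -/
theorem no_C5h (hG : TPerf G) {p1 p2 p3 p4 p5 h : V}
    (h12 : G.Adj p1 p2) (h23 : G.Adj p2 p3) (h34 : G.Adj p3 p4) (h45 : G.Adj p4 p5)
    (h51 : G.Adj p5 p1)
    (n13 : ¬ G.Adj p1 p3) (n14 : ¬ G.Adj p1 p4) (n24 : ¬ G.Adj p2 p4) (n25 : ¬ G.Adj p2 p5)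
    (n35 : ¬ G.Adj p3 p5)
    (a1 : G.Adj h p1) (a2 : G.Adj h p2) (a3 : G.Adj h p3) (hne4 : h ≠ p4) (hne5 : h ≠ p5) :
    False := by
  let r : Fin 5 → V := ![p1, p2, p3, p4, p5]
  have hadj : ∀ i j : Fin 5, G.Adj (r i) (r j) ↔ j = i + 1 ∨ i = j + 1 := by
    have m13 : ¬ G.Adj p3 p1 := fun h => n13 h.symm
    have m14 : ¬ G.Adj p4 p1 := fun h => n14 h.symm
    have m24 : ¬ G.Adj p4 p2 := fun h => n24 h.symm
    have m25 : ¬ G.Adj p5 p2 := fun h => n25 h.symm
    have m35 : ¬ G.Adj p5 p3 := fun h => n35 h.symm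
    intro i j
    fin_cases i <;> fin_cases j <;>
      simp [r, h12, h23, h34, h45, h51, h12.symm, h23.symm, h34.symm, h45.symm, h51.symm,
        n13, n14, n24, n25, n35, m13, m14, m24, m25, m35]
  have hinj : Function.Injective r := by
    intro i j hij
    by_contra hne
    have h1 : ∀ l, G.Adj (r i) (r l) ↔ G.Adj (r j) (r l) := by intro l; rw [hij]
    simp only [hadj] at h1
    revert hne h1
    clear hij
    revert i j
    decide
  refine TPA.no_three hG 2 (by norm_num) r hinj hadj h ?_ (0 : Fin 5) ?_ ?_ ?_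
  · have : ∀ i : Fin 5, h ≠ r i := by
      intro i
      fin_cases i
      · exact a1.ne
      · exact a2.ne
      · exact a3.ne
      · exact hne4
      · exact hne5
    exact this
  · exact a1
  · exact a2
  · exact a3

theorem no_H4 (hG : TPerf G) {p1 p2 p3 p4 c h : V}
    (h12 : G.Adj p1 p2) (h23 : G.Adj p2 p3) (h34 : G.Adj p3 p4) (h4c : G.Adj p4 c)
    (hc1 : G.Adj c p1)
    (n13 : ¬ G.Adj p1 p3) (n14 : ¬ G.Adj p1 p4) (n24 : ¬ G.Adj p2 p4) (n2c : ¬ G.Adj p2 c)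
    (n3c : ¬ G.Adj p3 c)
    (a1 : G.Adj h p1) (a2 : G.Adj h p2) (a3 : G.Adj h p3) (a4 : G.Adj h p4)
    (ac : ¬ G.Adj h c) : False := by
  refine no_C5h hG h12 h23 h34 h4c hc1 n13 n14 n24 n2c n3c a1 a2 a3 a4.ne ?_
  rintro rfl
  exact n2c a2.symm

theorem no_H3 (hG : TPerf G) {q1 q2 b r c h : V}
    (h12 : G.Adj q1 q2) (h2b : G.Adj q2 b) (hbr : G.Adj b r) (hrc : G.Adj r c)
    (hc1 : G.Adj c q1)
    (n1b : ¬ G.Adj q1 b) (n1r : ¬ G.Adj q1 r) (n2r : ¬ G.Adj q2 r) (n2c : ¬ G.Adj q2 c)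
    (nbc : ¬ G.Adj b c)
    (ab : G.Adj h b) (ar : G.Adj h r) (ac : G.Adj h c)
    (a1 : ¬ G.Adj h q1) (a2 : ¬ G.Adj h q2) : False := by
  refine no_C5h hG hbr hrc hc1 h12 h2b nbc (fun h => n1b h.symm) (fun h => n1r h.symm)
    (fun h => n2r h.symm) (fun h => n2c h.symm) ab ar ac ?_ ?_
  · rintro rfl
    exact n1b ab
  · rintro rfl
    exact n2r ar

theorem no_C7 (hG : TPerf G) {z' a' b a b2 a2 b' z : V}
    (e1 : G.Adj z' a') (e2 : G.Adj a' b) (e3 : G.Adj b a) (e4 : G.Adj a b2) (e5 : G.Adj b2 a2)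
    (e6 : G.Adj a2 b') (e7 : G.Adj b' z')
    (n1 : ¬ G.Adj z' b) (n2 : ¬ G.Adj z' a) (n3 : ¬ G.Adj z' b2) (n4 : ¬ G.Adj z' a2)
    (n5 : ¬ G.Adj a' a) (n6 : ¬ G.Adj a' b2) (n7 : ¬ G.Adj a' a2) (n8 : ¬ G.Adj a' b')
    (n9 : ¬ G.Adj b b2) (n10 : ¬ G.Adj b a2) (n11 : ¬ G.Adj b b')
    (n12 : ¬ G.Adj a a2) (n13 : ¬ G.Adj a b') (n14 : ¬ G.Adj b2 b')
    (hb : G.Adj z b) (ha : G.Adj z a) (hb2 : G.Adj z b2) (ha2 : G.Adj z a2)
    (ha' : ¬ G.Adj z a') (hb' : ¬ G.Adj z b') (hne : z ≠ z') : False := by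
  let r : Fin 7 → V := ![b, a, b2, a2, b', z', a']
  have hadj : ∀ i j : Fin 7, G.Adj (r i) (r j) ↔ j = i + 1 ∨ i = j + 1 := by
    have m1 : ¬ G.Adj b z' := fun h => n1 h.symm
    have m2 : ¬ G.Adj a z' := fun h => n2 h.symm
    have m3 : ¬ G.Adj b2 z' := fun h => n3 h.symm
    have m4 : ¬ G.Adj a2 z' := fun h => n4 h.symm
    have m5 : ¬ G.Adj a a' := fun h => n5 h.symm
    have m6 : ¬ G.Adj b2 a' := fun h => n6 h.symm
    have m7 : ¬ G.Adj a2 a' := fun h => n7 h.symm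
    have m8 : ¬ G.Adj b' a' := fun h => n8 h.symm
    have m9 : ¬ G.Adj b2 b := fun h => n9 h.symm
    have m10 : ¬ G.Adj a2 b := fun h => n10 h.symm
    have m11 : ¬ G.Adj b' b := fun h => n11 h.symm
    have m12 : ¬ G.Adj a2 a := fun h => n12 h.symm
    have m13 : ¬ G.Adj b' a := fun h => n13 h.symm
    have m14 : ¬ G.Adj b' b2 := fun h => n14 h.symm
    intro i j
    fin_cases i <;> fin_cases j <;>
      simp [r, e1, e2, e3, e4, e5, e6, e7, e1.symm, e2.symm, e3.symm, e4.symm, e5.symm, e6.symm,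
        e7.symm, n1, n2, n3, n4, n5, n6, n7, n8, n9, n10, n11, n12, n13, n14,
        m1, m2, m3, m4, m5, m6, m7, m8, m9, m10, m11, m12, m13, m14]
  have hinj : Function.Injective r := by
    intro i j hij
    by_contra hne
    have h1 : ∀ l, G.Adj (r i) (r l) ↔ G.Adj (r j) (r l) := by intro l; rw [hij]
    simp only [hadj] at h1
    revert hne h1
    clear hij
    revert i j
    decide
  refine TPA.no_three hG 3 (by norm_num) r hinj hadj z ?_ (0 : Fin 7) ?_ ?_ ?_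
  · have : ∀ i : Fin 7, z ≠ r i := by
      intro i
      fin_cases i
      · exact hb.ne
      · exact ha.ne
      · exact hb2.ne
      · exact ha2.ne
      · rintro h
        exact n14 ((show z = b' from h) ▸ hb2.symm)
      · exact hne
      · rintro h
        exact n5 ((show z = a' from h) ▸ ha)
    exact this
  · exact hb
  · exact ha
  · exact hb2

end Pool.Agent.Helper17.TP
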