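import Pool.Agent.Helper17.TP.F

/-!
# Block TP-F6: traces on bad sets

* `no_2K2_pair`: `ab`, `cd` disjoint edges with no edge between them, `y` adjacent to exactly
`b, c, d`, `y'` adjacent to exactly `a, c, d` (among `a,b,c,d`): impossible.  If `y ~ y'` then
`y, y', c, d` is a K4.  Otherwise rim `a b y c y'` (`a~b~y~c~y'~a`, induced) and hub `d` adjacent to
`y, c, y'`, not to `a, b`: H3 (block F4, `q1 = a, q2 = b, b = y, r = c, c = y', h = d`).
* `no_P4_pair`: `abcd` induced path, `y` adjacent to all four, `y'` adjacent to exactly `a, d`: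
impossible.  If `y ~ y'`: rim `a b c d y'`, hub `y` adjacent to all: W5.  Otherwise H4.
* `bad_trace`: a bad set `X` has a subset `p` which is not the trace `nb G X y` of any `y ∉ X`:
K3: `p = X` (K4).  2K2: if `y`, `y'` had traces `{b,c,d}` and `{a,c,d}` we get a contradiction, so
one of the two is not a trace.  P4: traces `{a,b,c,d}` and `{a,d}`.
* `structure_of_no_bad`: if `U` contains no bad set and `v, w ∈ U` are adjacent, then the edges of
`G[U]` are exactly the pairs between `N(v) ∩ U` and `N(w) ∩ U`.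
Proof.  (→) Let `a ~ b` in `U`.  If `a ∈ {v, w}` or `b ∈ {v,w}`: easy.  Each of `a, b` is adjacent
to at most one of `v, w` (K3), and `a`, `b` not both adjacent to `v`, not both to `w` (K3).  If none
of `a, b` is adjacent to `v` or `w`: `{v,w,a,b}` is a 2K2.  If exactly one, say `a ~ v` (`b` adjacent
to none of `v, w`): `w v a b` is an induced P4.  So `a ~ v, b ~ w` or `a ~ w, b ~ v`.
(←) `a ~ v`, `b ~ w`: if `a = w`: `b ~ w = a`.  If `b = v`: ok.  Otherwise, if `a ≁ b`
(`a ≠ b` by K3) then `a v w b` is an induced P4.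
* `bad_card`: `|X| ≤ 4`.
-/

set_option autoImplicit false

namespace Pool.Agent.Helper17.TP

open SimpleGraph Finset

variable {V : Type} [Fintype V] [DecidableEq V] {G : SimpleGraph V}

theorem no_2K2_pair (hG : TPerf G) {a b c d y y' : V} (hab : G.Adj a b) (hcd : G.Adj c d)
    (nac : ¬ G.Adj a c) (nad : ¬ G.Adj a d) (nbc : ¬ G.Adj b c) (nbd : ¬ G.Adj b d)
    (ya : ¬ G.Adj y a) (yb : G.Adj y b) (yc : G.Adj y c) (yd : G.Adj y d)
    (y'a : G.Adj y' a) (y'b : ¬ G.Adj y' b) (y'c : G.Adj y' c) (y'd : G.Adj y' d) : False := by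
  by_cases hyy : G.Adj y y'
  · exact no_K4 hG hyy yc yd y'c y'd hcd
  · exact no_H3 hG (q1 := a) (q2 := b) (b := y) (r := c) (c := y') (h := d)
      hab yb.symm yc y'c.symm y'a (fun h => ya h.symm) nac nbc (fun h => y'b h.symm) hyy
      yd.symm hcd.symm y'd.symm (fun h => nad h.symm) (fun h => nbd h.symm)

theorem no_P4_pair (hG : TPerf G) {a b c d y y' : V} (hab : G.Adj a b) (hbc : G.Adj b c)
    (hcd : G.Adj c d) (nac : ¬ G.Adj a c) (nad : ¬ G.Adj a d) (nbd : ¬ G.Adj b d)
    (ya : G.Adj y a) (yb : G.Adj y b) (yc : G.Adj y c) (yd : G.Adj y d)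
    (y'a : G.Adj y' a) (y'b : ¬ G.Adj y' b) (y'c : ¬ G.Adj y' c) (y'd : G.Adj y' d) : False := by
  refine no_C5h hG hab hbc hcd y'd.symm y'a nac nad nbd (fun h => y'b h.symm)
    (fun h => y'c h.symm) ya yb yc yd.ne ?_
  rintro rfl
  exact y'b yb

theorem bad_card {X : Finset V} (hX : Bad G X) : X.card ≤ 4 := by
  rcases hX with ⟨a, b, c, rfl, _⟩ | ⟨a, b, c, d, rfl, _⟩ | ⟨a, b, c, d, rfl, _⟩
  · exact Finset.card_le_three.trans (by norm_num)
  · exact Finset.card_le_four
  · exact Finset.card_le_four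

theorem bad_trace (hG : TPerf G) {X : Finset V} (hX : Bad G X) :
    ∃ p ⊆ X, ∀ y, y ∉ X → nb G X y ≠ p := by
  rcases hX with ⟨a, b, c, rfl, hab, hbc, hac⟩ | ⟨a, b, c, d, rfl, hab, hcd, nac, nad, nbc, nbd⟩ |
    ⟨a, b, c, d, rfl, hab, hbc, hcd, nac, nad, nbd⟩
  · refine ⟨{a, b, c}, subset_rfl, ?_⟩
    intro y hy h
    have key : ∀ w ∈ ({a, b, c} : Finset V), G.Adj y w := by
      intro w hw
      rw [← h] at hw
      exact (mem_nb.mp hw).2
    exact no_K4 hG (key a (by simp)) (key b (by simp)) (key c (by simp)) hab hac hbc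
  · by_cases h1 : ∃ y, y ∉ ({a, b, c, d} : Finset V) ∧ nb G {a, b, c, d} y = {b, c, d}
    · obtain ⟨y, hy, hyn⟩ := h1
      refine ⟨{a, c, d}, ?_, ?_⟩
      · intro w hw; simp only [mem_insert, mem_singleton] at hw ⊢; tauto
      intro y' hy' hyn'
      have k1 : ∀ w ∈ ({a, b, c, d} : Finset V), (G.Adj y w ↔ w ∈ ({b, c, d} : Finset V)) := by
        intro w hw
        rw [← hyn, mem_nb]; tauto
      have k2 : ∀ w ∈ ({a, b, c, d} : Finset V), (G.Adj y' w ↔ w ∈ ({a, c, d} : Finset V)) := by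
        intro w hw
        rw [← hyn', mem_nb]; tauto
      have ab : a ≠ b := hab.ne
      have ac : a ≠ c := by rintro rfl; exact nad hcd
      have ad : a ≠ d := by rintro rfl; exact nac hcd.symm
      have bc : b ≠ c := by rintro rfl; exact nbd hcd
      have bd : b ≠ d := by rintro rfl; exact nbc hcd.symm
      refine no_2K2_pair hG hab hcd nac nad nbc nbd (y := y) (y' := y') ?_ ?_ ?_ ?_ ?_ ?_ ?_ ?_
      · rw [k1 a (by simp)]; simp [ab, ac, ad]
      · rw [k1 b (by simp)]; simp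
      · rw [k1 c (by simp)]; simp
      · rw [k1 d (by simp)]; simp
      · rw [k2 a (by simp)]; simp
      · rw [k2 b (by simp)]; simp [ab.symm, bc, bd]
      · rw [k2 c (by simp)]; simp
      · rw [k2 d (by simp)]; simp
    · push Not at h1
      refine ⟨{b, c, d}, ?_, h1⟩
      intro w hw; simp only [mem_insert, mem_singleton] at hw ⊢; tauto
  · by_cases h1 : ∃ y, y ∉ ({a, b, c, d} : Finset V) ∧ nb G {a, b, c, d} y = {a, b, c, d}
    · obtain ⟨y, hy, hyn⟩ := h1
      refine ⟨{a, d}, ?_, ?_⟩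
      · intro w hw; simp only [mem_insert, mem_singleton] at hw ⊢; tauto
      intro y' hy' hyn'
      have k1 : ∀ w ∈ ({a, b, c, d} : Finset V), G.Adj y w := by
        intro w hw
        rw [← hyn] at hw
        exact (mem_nb.mp hw).2
      have k2 : ∀ w ∈ ({a, b, c, d} : Finset V), (G.Adj y' w ↔ w ∈ ({a, d} : Finset V)) := by
        intro w hw
        rw [← hyn', mem_nb]; tauto
      have ab : a ≠ b := hab.ne
      have ac : a ≠ c := by rintro rfl; exact nad hcd
      have bd : b ≠ d := by rintro rfl; exact nad hab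
      have cd : c ≠ d := hcd.ne
      refine no_P4_pair hG hab hbc hcd nac nad nbd (y := y) (y' := y') (k1 a (by simp))
        (k1 b (by simp)) (k1 c (by simp)) (k1 d (by simp)) ?_ ?_ ?_ ?_
      · rw [k2 a (by simp)]; simp
      · rw [k2 b (by simp)]; simp [ab.symm, bd]
      · rw [k2 c (by simp)]; simp [ac.symm, cd]
      · rw [k2 d (by simp)]; simp
    · push Not at h1
      exact ⟨{a, b, c, d}, subset_rfl, h1⟩

omit [Fintype V] in
theorem structure_of_no_bad {U : Finset V} (hU : ∀ X ⊆ U, ¬ Bad G X) {v w : V}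
    (hv : v ∈ U) (hw : w ∈ U) (hvw : G.Adj v w) {a b : V} (ha : a ∈ U) (hb : b ∈ U) :
    G.Adj a b ↔ (G.Adj v a ∧ G.Adj w b) ∨ (G.Adj w a ∧ G.Adj v b) := by
  have sub4 : ∀ {p q r s : V}, p ∈ U → q ∈ U → r ∈ U → s ∈ U → ({p, q, r, s} : Finset V) ⊆ U := by
    intro p q r s hp hq hr hs x hx
    simp only [mem_insert, mem_singleton] at hx
    rcases hx with rfl | rfl | rfl | rfl <;> assumption
  have noK3 : ∀ {p q r : V}, p ∈ U → q ∈ U → r ∈ U → G.Adj p q → G.Adj q r → ¬ G.Adj p r := by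
    intro p q r hp hq hr h1 h2 h3
    refine hU {p, q, r} ?_ (Or.inl ⟨p, q, r, rfl, h1, h2, h3⟩)
    intro x hx
    simp only [mem_insert, mem_singleton] at hx
    rcases hx with rfl | rfl | rfl <;> assumption
  have no2K2 : ∀ {p q r s : V}, p ∈ U → q ∈ U → r ∈ U → s ∈ U → G.Adj p q → G.Adj r s →
      ¬ G.Adj p r → ¬ G.Adj p s → ¬ G.Adj q r → ¬ G.Adj q s → False := by
    intro p q r s hp hq hr hs h1 h2 h3 h4 h5 h6
    exact hU _ (sub4 hp hq hr hs) (Or.inr (Or.inl ⟨p, q, r, s, rfl, h1, h2, h3, h4, h5, h6⟩))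
  have noP4 : ∀ {p q r s : V}, p ∈ U → q ∈ U → r ∈ U → s ∈ U → G.Adj p q → G.Adj q r →
      G.Adj r s → ¬ G.Adj p r → ¬ G.Adj p s → ¬ G.Adj q s → False := by
    intro p q r s hp hq hr hs h1 h2 h3 h4 h5 h6
    exact hU _ (sub4 hp hq hr hs) (Or.inr (Or.inr ⟨p, q, r, s, rfl, h1, h2, h3, h4, h5, h6⟩))
  constructor
  · intro hab
    by_cases hva : G.Adj v a
    · -- then v not adjacent to b
      have nvb : ¬ G.Adj v b := noK3 hv ha hb hva hab
      have nwa : ¬ G.Adj w a := noK3 hw hv ha hvw.symm hva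
      by_cases hwb : G.Adj w b
      · exact Or.inl ⟨hva, hwb⟩
      · -- w v a b induced P4
        exact (noP4 hw hv ha hb hvw.symm hva hab nwa hwb nvb).elim
    · by_cases hwa : G.Adj w a
      · have nwb : ¬ G.Adj w b := noK3 hw ha hb hwa hab
        by_cases hvb : G.Adj v b
        · exact Or.inr ⟨hwa, hvb⟩
        · exact (noP4 hv hw ha hb hvw hwa hab hva hvb nwb).elim
      · by_cases hvb : G.Adj v b
        · have nwb : ¬ G.Adj w b := noK3 hw hv hb hvw.symm hvb
          exact (noP4 hw hv hb ha hvw.symm hvb hab.symm nwb hwa hva).elim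
        · by_cases hwb : G.Adj w b
          · exact (noP4 hv hw hb ha hvw hwb hab.symm hvb hva hwa).elim
          · exact (no2K2 hv hw ha hb hvw hab hva hvb hwa hwb).elim
  · rintro (⟨h1, h2⟩ | ⟨h1, h2⟩)
    · by_contra hab
      exact noP4 ha hv hw hb h1.symm hvw h2 (fun h => noK3 hw hv ha hvw.symm h1 h.symm) hab
        (noK3 hv hw hb hvw h2)
    · by_contra hab
      exact noP4 ha hw hv hb h1.symm hvw.symm h2 (fun h => noK3 hv hw ha hvw h1 h.symm) hab
        (noK3 hw hv hb hvw.symm h2)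

end Pool.Agent.Helper17.TP
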