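import Pool.Agent.Helper17.TP.Base

/-!
# Block TP-L1 (IVc): lower bound for the number of typical graphs without isolated vertices

`W n = Σ_A 3^|A| 2^(|A||Aᶜ|)`, sum over `A ⊆ Fin n` with `3n ≤ 8|A| ≤ 5n`.  For every `η > 0` and
`n ≥ n₀`: `W n ≤ 2^(η n) · #{G typical without isolated vertices}`.

Proof.  Fix `k` with `(1 - 2^(-k)) ≥ 2^(-η/2)`.  For every `A` choose special vertices
`x_1..x_k` (in `A₀`), `y₁ ∈ A₁`, `y₂ ∈ A₂`, `b_1..b_k ∈ B` with `x_i ~ b_j` iff `i = j`; every other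
`b ∈ B` has a neighbour among the `x_j`, every other `a ∈ A` has a neighbour among the `b_j`.  The
graph together with the tuple of special vertices determines `A` and all the data.
-/

set_option autoImplicit false

namespace Pool.Agent.Helper17.TP

open SimpleGraph Finset

namespace L1

variable {n k : ℕ}

/-- the special vertices: `x` (in `A₀`), `y1 ∈ A₁`, `y2 ∈ A₂`, `b` outside `A` -/
structure Sp (A : Finset (Fin n)) (x : Fin k → Fin n) (y1 y2 : Fin n) (b : Fin k → Fin n) :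
    Prop where
  xA : ∀ j, x j ∈ A
  y1A : y1 ∈ A
  y2A : y2 ∈ A
  bA : ∀ j, b j ∉ A
  xinj : Function.Injective x
  binj : Function.Injective b
  xy1 : ∀ j, x j ≠ y1
  xy2 : ∀ j, x j ≠ y2
  y12 : y1 ≠ y2

open Classical in
/-- labels inside `A` -/
noncomputable def lab (x : Fin k → Fin n) (y1 y2 : Fin n) (l : Fin n → Fin 3) (u : Fin n) :
    Fin 3 :=
  if ∃ j, x j = u then 0 else if u = y1 then 1 else if u = y2 then 2 else l u

/-- cross adjacency between `u ∈ A` and `v ∉ A` -/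
def cross (x : Fin k → Fin n) (y1 y2 : Fin n) (b : Fin k → Fin n)
    (gA gB : Fin n → Finset (Fin k)) (h : Fin n → Finset (Fin n)) (u v : Fin n) : Prop :=
  ((∃ j, x j = u) ∧ (∃ i, b i = v) ∧ ∃ j, x j = u ∧ b j = v) ∨
  ((∃ j, x j = u) ∧ (¬ ∃ i, b i = v) ∧ ∃ j, x j = u ∧ j ∈ gB v) ∨
  ((¬ ∃ j, x j = u) ∧ (∃ i, b i = v) ∧ u ≠ y1 ∧ u ≠ y2 ∧ ∃ i, b i = v ∧ i ∈ gA u) ∨
  ((¬ ∃ j, x j = u) ∧ (¬ ∃ i, b i = v) ∧ u ∈ h v)

/-- the graph -/
def gr (A : Finset (Fin n)) (x : Fin k → Fin n) (y1 y2 : Fin n) (b : Fin k → Fin n)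
    (d : (Fin n → Fin 3) × (Fin n → Finset (Fin k)) × (Fin n → Finset (Fin k)) ×
      (Fin n → Finset (Fin n))) : SimpleGraph (Fin n) where
  Adj u v :=
    (u ∈ A ∧ v ∈ A ∧ ((lab x y1 y2 d.1 u = 1 ∧ lab x y1 y2 d.1 v = 2) ∨
      (lab x y1 y2 d.1 u = 2 ∧ lab x y1 y2 d.1 v = 1))) ∨
    (u ∈ A ∧ v ∉ A ∧ cross x y1 y2 b d.2.1 d.2.2.1 d.2.2.2 u v) ∨
    (v ∈ A ∧ u ∉ A ∧ cross x y1 y2 b d.2.1 d.2.2.1 d.2.2.2 v u)
  symm := ⟨by
    rintro u v (⟨h1, h2, h3⟩ | ⟨h1, h2, h3⟩ | ⟨h1, h2, h3⟩)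
    · refine Or.inl ⟨h2, h1, ?_⟩
      rcases h3 with ⟨h3, h4⟩ | ⟨h3, h4⟩
      · exact Or.inr ⟨h4, h3⟩
      · exact Or.inl ⟨h4, h3⟩
    · exact Or.inr (Or.inr ⟨h1, h2, h3⟩)
    · exact Or.inr (Or.inl ⟨h1, h2, h3⟩)⟩
  loopless := ⟨by
    rintro u (⟨h1, h2, h3⟩ | ⟨h1, h2, h3⟩ | ⟨h1, h2, h3⟩)
    · rcases h3 with ⟨h3, h4⟩ | ⟨h3, h4⟩
      · rw [h3] at h4; exact absurd h4 (by decide)
      · rw [h3] at h4; exact absurd h4 (by decide)
    · exact h2 h1
    · exact h2 h1⟩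

/-- special vertices of `A` -/
def SA (x : Fin k → Fin n) (y1 y2 : Fin n) : Finset (Fin n) := insert y1 (insert y2 (univ.image x))

/-- the data -/
noncomputable def dat (A : Finset (Fin n)) (x : Fin k → Fin n) (y1 y2 : Fin n)
    (b : Fin k → Fin n) :
    Finset ((Fin n → Fin 3) × (Fin n → Finset (Fin k)) × (Fin n → Finset (Fin k)) ×
      (Fin n → Finset (Fin n))) :=
  (Fintype.piFinset (fun u => if u ∈ A \ SA x y1 y2 then (univ : Finset (Fin 3)) else {0})) ×ˢ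
  (Fintype.piFinset (fun u => if u ∈ A \ SA x y1 y2 then
      (univ : Finset (Finset (Fin k))).erase ∅ else {∅})) ×ˢ
  (Fintype.piFinset (fun u => if u ∈ Aᶜ \ univ.image b then
      (univ : Finset (Finset (Fin k))).erase ∅ else {∅})) ×ˢ
  (Fintype.piFinset (fun u => if u ∈ Aᶜ \ univ.image b then
      (A \ univ.image x).powerset else {∅}))

theorem card_dat {A : Finset (Fin n)} {x : Fin k → Fin n} {y1 y2 : Fin n} {b : Fin k → Fin n}
    (h : Sp A x y1 y2 b) :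
    (dat A x y1 y2 b).card = 3 ^ (A.card - (k + 2)) * (2 ^ k - 1) ^ (A.card - (k + 2)) *
      ((2 ^ k - 1) ^ (Aᶜ.card - k) * 2 ^ ((A.card - k) * (Aᶜ.card - k))) := by
  have hprod : ∀ (S : Finset (Fin n)) (c : ℕ),
      ∏ u : Fin n, (if u ∈ S then c else 1) = c ^ S.card := by
    intro S c
    rw [Finset.prod_ite_mem, Finset.univ_inter, Finset.prod_const]
  have hX : (univ.image x).card = k := by
    rw [Finset.card_image_of_injective _ h.xinj]; simp
  have hB : (univ.image b).card = k := by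
    rw [Finset.card_image_of_injective _ h.binj]; simp
  have hS : (SA x y1 y2).card = k + 2 := by
    unfold SA
    rw [Finset.card_insert_of_notMem, Finset.card_insert_of_notMem, hX]
    · simp only [mem_image, mem_univ, true_and, not_exists]
      exact fun j => h.xy2 j
    · simp only [mem_insert, mem_image, mem_univ, true_and, not_or, not_exists]
      exact ⟨h.y12, fun j => h.xy1 j⟩
  have hSA : SA x y1 y2 ⊆ A := by
    unfold SA
    intro u hu
    simp only [mem_insert, mem_image, mem_univ, true_and] at hu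
    rcases hu with rfl | rfl | ⟨j, rfl⟩
    · exact h.y1A
    · exact h.y2A
    · exact h.xA j
  have hXA : univ.image x ⊆ A := by
    intro u hu
    simp only [mem_image, mem_univ, true_and] at hu
    obtain ⟨j, rfl⟩ := hu
    exact h.xA j
  have hBA : univ.image b ⊆ Aᶜ := by
    intro u hu
    simp only [mem_image, mem_univ, true_and] at hu
    obtain ⟨j, rfl⟩ := hu
    simpa using h.bA j
  have c1 : (A \ SA x y1 y2).card = A.card - (k + 2) := by
    rw [Finset.card_sdiff_of_subset hSA, hS]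
  have c2 : (Aᶜ \ univ.image b).card = Aᶜ.card - k := by
    rw [Finset.card_sdiff_of_subset hBA, hB]
  have c3 : (A \ univ.image x).card = A.card - k := by
    rw [Finset.card_sdiff_of_subset hXA, hX]
  have f1 : (Fintype.piFinset (fun u => if u ∈ A \ SA x y1 y2 then
      (univ : Finset (Fin 3)) else {0})).card = 3 ^ (A.card - (k + 2)) := by
    rw [Fintype.card_piFinset, ← c1, ← hprod]
    refine Finset.prod_congr rfl fun u _ => ?_
    split_ifs <;> simp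
  have f2 : (Fintype.piFinset (fun u => if u ∈ A \ SA x y1 y2 then
      (univ : Finset (Finset (Fin k))).erase ∅ else {∅})).card =
      (2 ^ k - 1) ^ (A.card - (k + 2)) := by
    rw [Fintype.card_piFinset, ← c1, ← hprod]
    refine Finset.prod_congr rfl fun u _ => ?_
    split_ifs <;> simp
  have f3 : (Fintype.piFinset (fun u => if u ∈ Aᶜ \ univ.image b then
      (univ : Finset (Finset (Fin k))).erase ∅ else {∅})).card =
      (2 ^ k - 1) ^ (Aᶜ.card - k) := by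
    rw [Fintype.card_piFinset, ← c2, ← hprod]
    refine Finset.prod_congr rfl fun u _ => ?_
    split_ifs <;> simp
  have f4 : (Fintype.piFinset (fun u => if u ∈ Aᶜ \ univ.image b then
      (A \ univ.image x).powerset else {∅})).card =
      2 ^ ((A.card - k) * (Aᶜ.card - k)) := by
    rw [Fintype.card_piFinset, pow_mul, ← c3, ← c2, ← hprod]
    refine Finset.prod_congr rfl fun u _ => ?_
    split_ifs <;> simp
  unfold dat
  rw [Finset.card_product, Finset.card_product, Finset.card_product, f1, f2, f3, f4]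
  ring

theorem mem_dat {A : Finset (Fin n)} {x : Fin k → Fin n} {y1 y2 : Fin n} {b : Fin k → Fin n}
    {d : (Fin n → Fin 3) × (Fin n → Finset (Fin k)) × (Fin n → Finset (Fin k)) ×
      (Fin n → Finset (Fin n))} (hd : d ∈ dat A x y1 y2 b) :
    (∀ u, (u ∉ A \ SA x y1 y2 → d.1 u = 0)) ∧
    (∀ u, (u ∈ A \ SA x y1 y2 → (d.2.1 u).Nonempty) ∧ (u ∉ A \ SA x y1 y2 → d.2.1 u = ∅)) ∧
    (∀ u, (u ∈ Aᶜ \ univ.image b → (d.2.2.1 u).Nonempty) ∧
      (u ∉ Aᶜ \ univ.image b → d.2.2.1 u = ∅)) ∧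
    (∀ u, (u ∈ Aᶜ \ univ.image b → d.2.2.2 u ⊆ A \ univ.image x) ∧
      (u ∉ Aᶜ \ univ.image b → d.2.2.2 u = ∅)) := by
  unfold dat at hd
  simp only [Finset.mem_product, Fintype.mem_piFinset] at hd
  obtain ⟨h1, h2, h3, h4⟩ := hd
  refine ⟨fun u hu => ?_, fun u => ⟨fun hu => ?_, fun hu => ?_⟩,
    fun u => ⟨fun hu => ?_, fun hu => ?_⟩, fun u => ⟨fun hu => ?_, fun hu => ?_⟩⟩
  · have := h1 u
    rw [if_neg hu] at this
    simpa using this
  · have := h2 u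
    rw [if_pos hu] at this
    simpa [Finset.nonempty_iff_ne_empty] using this
  · have := h2 u
    rw [if_neg hu] at this
    simpa using this
  · have := h3 u
    rw [if_pos hu] at this
    simpa [Finset.nonempty_iff_ne_empty] using this
  · have := h3 u
    rw [if_neg hu] at this
    simpa using this
  · have := h4 u
    rw [if_pos hu] at this
    simpa using this
  · have := h4 u
    rw [if_neg hu] at this
    simpa using this

section facts

variable {A : Finset (Fin n)} {x : Fin k → Fin n} {y1 y2 : Fin n} {b : Fin k → Fin n}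
  {d : (Fin n → Fin 3) × (Fin n → Finset (Fin k)) × (Fin n → Finset (Fin k)) ×
      (Fin n → Finset (Fin n))}

theorem lab_x (j : Fin k) : lab x y1 y2 d.1 (x j) = 0 := by
  unfold lab; rw [if_pos ⟨j, rfl⟩]

theorem lab_y1 (h : Sp A x y1 y2 b) : lab x y1 y2 d.1 y1 = 1 := by
  unfold lab
  rw [if_neg (by rintro ⟨j, hj⟩; exact h.xy1 j hj), if_pos rfl]

theorem lab_y2 (h : Sp A x y1 y2 b) : lab x y1 y2 d.1 y2 = 2 := by
  unfold lab
  rw [if_neg (by rintro ⟨j, hj⟩; exact h.xy2 j hj), if_neg h.y12.symm, if_pos rfl]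

theorem lab_other {u : Fin n} (hu : u ∉ SA x y1 y2) :
    lab x y1 y2 d.1 u = d.1 u := by
  unfold SA at hu
  simp only [mem_insert, mem_image, mem_univ, true_and, not_or] at hu
  unfold lab
  rw [if_neg hu.2.2, if_neg hu.1, if_neg hu.2.1]

theorem adj_in {u v : Fin n} (hu : u ∈ A) (hv : v ∈ A) :
    (gr A x y1 y2 b d).Adj u v ↔ ((lab x y1 y2 d.1 u = 1 ∧ lab x y1 y2 d.1 v = 2) ∨
      (lab x y1 y2 d.1 u = 2 ∧ lab x y1 y2 d.1 v = 1)) := by
  simp [gr, hu, hv]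

theorem adj_out {u v : Fin n} (hu : u ∉ A) (hv : v ∉ A) :
    ¬ (gr A x y1 y2 b d).Adj u v := by
  simp [gr, hu, hv]

theorem adj_cross {u v : Fin n} (hu : u ∈ A) (hv : v ∉ A) :
    (gr A x y1 y2 b d).Adj u v ↔ cross x y1 y2 b d.2.1 d.2.2.1 d.2.2.2 u v := by
  simp [gr, hu, hv]

theorem adj_x_in (h : Sp A x y1 y2 b) (j : Fin k) {v : Fin n} (hv : v ∈ A) :
    ¬ (gr A x y1 y2 b d).Adj (x j) v := by
  rw [adj_in (h.xA j) hv, lab_x]
  simp

theorem adj_x_b (h : Sp A x y1 y2 b) (j : Fin k) : (gr A x y1 y2 b d).Adj (x j) (b j) := by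
  rw [adj_cross (h.xA j) (h.bA j)]
  exact Or.inl ⟨⟨j, rfl⟩, ⟨j, rfl⟩, j, rfl, rfl⟩

theorem adj_x_other (h : Sp A x y1 y2 b) (j : Fin k) {v : Fin n} (hv : v ∉ A)
    (hvb : ¬ ∃ i, b i = v) : (gr A x y1 y2 b d).Adj (x j) v ↔ j ∈ d.2.2.1 v := by
  rw [adj_cross (h.xA j) hv]
  unfold cross
  constructor
  · rintro (⟨_, h2, _⟩ | ⟨_, _, j', h3, h4⟩ | ⟨h1, _⟩ | ⟨h1, _⟩)
    · exact absurd h2 hvb
    · rwa [← h.xinj h3]
    · exact absurd ⟨j, rfl⟩ h1
    · exact absurd ⟨j, rfl⟩ h1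
  · intro hj
    exact Or.inr (Or.inl ⟨⟨j, rfl⟩, hvb, j, rfl, hj⟩)

theorem adj_b (h : Sp A x y1 y2 b) (i : Fin k) {u : Fin n} (hu : u ∈ A \ SA x y1 y2) :
    (gr A x y1 y2 b d).Adj u (b i) ↔ i ∈ d.2.1 u := by
  rw [mem_sdiff] at hu
  have hu2 := hu.2
  unfold SA at hu2
  simp only [mem_insert, mem_image, mem_univ, true_and, not_or] at hu2
  rw [adj_cross hu.1 (h.bA i)]
  unfold cross
  constructor
  · rintro (⟨h1, _⟩ | ⟨h1, _⟩ | ⟨_, _, _, _, i', h3, h4⟩ | ⟨_, h2, _⟩)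
    · exact absurd h1 hu2.2.2
    · exact absurd h1 hu2.2.2
    · rwa [← h.binj h3]
    · exact absurd ⟨i, rfl⟩ h2
  · intro hi
    exact Or.inr (Or.inr (Or.inl ⟨hu2.2.2, ⟨i, rfl⟩, hu2.1, hu2.2.1, i, rfl, hi⟩))

theorem adj_h {u v : Fin n} (hu : u ∈ A \ univ.image x) (hv : v ∈ Aᶜ \ univ.image b) :
    (gr A x y1 y2 b d).Adj u v ↔ u ∈ d.2.2.2 v := by
  simp only [mem_sdiff, mem_image, mem_univ, true_and, mem_compl] at hu hv
  rw [adj_cross hu.1 hv.1]
  unfold cross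
  constructor
  · rintro (⟨h1, _⟩ | ⟨h1, _⟩ | ⟨_, h2, _⟩ | ⟨_, _, h3⟩)
    · exact absurd h1 hu.2
    · exact absurd h1 hu.2
    · exact absurd h2 hv.2
    · exact h3
  · intro h3
    exact Or.inr (Or.inr (Or.inr ⟨hu.2, hv.2, h3⟩))

theorem compl_iff (h : Sp A x y1 y2 b) (hd : d ∈ dat A x y1 y2 b) (v : Fin n) :
    v ∉ A ↔ ∃ j, (gr A x y1 y2 b d).Adj (x j) v := by
  constructor
  · intro hv
    by_cases hb : ∃ i, b i = v
    · obtain ⟨i, rfl⟩ := hb
      exact ⟨i, adj_x_b h i⟩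
    · obtain ⟨j, hj⟩ := ((mem_dat hd).2.2.1 v).1 (by
        simp only [mem_sdiff, mem_compl, mem_image, mem_univ, true_and]
        exact ⟨hv, hb⟩)
      exact ⟨j, (adj_x_other h j hv hb).2 hj⟩
  · rintro ⟨j, hj⟩ hv
    exact adj_x_in h j hv hj

theorem typical : Typical (gr A x y1 y2 b d) := by
  refine ⟨A, A.filter (fun u => lab x y1 y2 d.1 u = 1), A.filter (fun u => lab x y1 y2 d.1 u = 2),
    filter_subset _ _, filter_subset _ _, ?_, ?_, ?_⟩
  · rw [Finset.disjoint_left]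
    intro u h1 h2
    simp only [mem_filter] at h1 h2
    rw [h1.2] at h2
    exact absurd h2.2 (by decide)
  · intro u v hu hv
    exact adj_out hu hv
  · intro u hu v hv
    rw [adj_in hu hv]
    simp [hu, hv]

theorem noiso (h : Sp A x y1 y2 b) (hd : d ∈ dat A x y1 y2 b) (v : Fin n) :
    ∃ u, (gr A x y1 y2 b d).Adj v u := by
  by_cases hv : v ∈ A
  · by_cases hS : v ∈ SA x y1 y2
    · unfold SA at hS
      simp only [mem_insert, mem_image, mem_univ, true_and] at hS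
      rcases hS with rfl | rfl | ⟨j, rfl⟩
      · refine ⟨y2, (adj_in hv h.y2A).2 (Or.inl ⟨lab_y1 h, lab_y2 h⟩)⟩
      · refine ⟨y1, (adj_in hv h.y1A).2 (Or.inr ⟨lab_y2 h, lab_y1 h⟩)⟩
      · exact ⟨b j, adj_x_b h j⟩
    · have hvS : v ∈ A \ SA x y1 y2 := by rw [mem_sdiff]; exact ⟨hv, hS⟩
      obtain ⟨i, hi⟩ := ((mem_dat hd).2.1 v).1 hvS
      exact ⟨b i, (adj_b h i hvS).2 hi⟩
  · obtain ⟨j, hj⟩ := (compl_iff h hd v).1 hv
    exact ⟨x j, hj.symm⟩

theorem gr_inj (h : Sp A x y1 y2 b) : Set.InjOn (gr A x y1 y2 b) (dat A x y1 y2 b : Set _) := by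
  intro d hd d' hd' hdd
  rw [Finset.mem_coe] at hd hd'
  have m := mem_dat hd
  have m' := mem_dat hd'
  have e1 : d.1 = d'.1 := by
    funext u
    by_cases hu : u ∈ A \ SA x y1 y2
    · have hu' := hu
      rw [mem_sdiff] at hu'
      have a1 : (gr A x y1 y2 b d).Adj u y2 ↔ (gr A x y1 y2 b d').Adj u y2 := by rw [hdd]
      have a2 : (gr A x y1 y2 b d).Adj u y1 ↔ (gr A x y1 y2 b d').Adj u y1 := by rw [hdd]
      rw [adj_in hu'.1 h.y2A, adj_in hu'.1 h.y2A, lab_y2 h, lab_y2 h, lab_other hu'.2,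
        lab_other hu'.2] at a1
      rw [adj_in hu'.1 h.y1A, adj_in hu'.1 h.y1A, lab_y1 h, lab_y1 h, lab_other hu'.2,
        lab_other hu'.2] at a2
      revert a1 a2
      generalize d.1 u = p
      generalize d'.1 u = q
      revert p q
      decide
    · rw [m.1 u hu, m'.1 u hu]
  have e2 : d.2.1 = d'.2.1 := by
    funext u
    by_cases hu : u ∈ A \ SA x y1 y2
    · ext i
      rw [← adj_b h i hu, ← adj_b h i hu, hdd]
    · rw [(m.2.1 u).2 hu, (m'.2.1 u).2 hu]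
  have e3 : d.2.2.1 = d'.2.2.1 := by
    funext u
    by_cases hu : u ∈ Aᶜ \ univ.image b
    · have hu' := hu
      simp only [mem_sdiff, mem_compl, mem_image, mem_univ, true_and] at hu'
      ext i
      rw [← adj_x_other h i hu'.1 hu'.2, ← adj_x_other h i hu'.1 hu'.2, hdd]
    · rw [(m.2.2.1 u).2 hu, (m'.2.2.1 u).2 hu]
  have e4 : d.2.2.2 = d'.2.2.2 := by
    funext v
    by_cases hv : v ∈ Aᶜ \ univ.image b
    · ext u
      by_cases hu : u ∈ A \ univ.image x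
      · rw [← adj_h hu hv, ← adj_h hu hv, hdd]
      · constructor
        · intro h1
          exact absurd ((m.2.2.2 v).1 hv h1) hu
        · intro h1
          exact absurd ((m'.2.2.2 v).1 hv h1) hu
    · rw [(m.2.2.2 v).2 hv, (m'.2.2.2 v).2 hv]
  exact Prod.ext e1 (Prod.ext e2 (Prod.ext e3 e4))

end facts

theorem exists_sp (A : Finset (Fin n)) (h1 : k + 2 ≤ A.card) (h2 : k ≤ Aᶜ.card) :
    ∃ s : (Fin k → Fin n) × Fin n × Fin n × (Fin k → Fin n), Sp A s.1 s.2.1 s.2.2.1 s.2.2.2 := by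
  obtain ⟨S, hS, hSc⟩ := Finset.exists_subset_card_eq h1
  obtain ⟨T, hT, hTc⟩ := Finset.exists_subset_card_eq h2
  let e := S.orderEmbOfFin hSc
  let f := T.orderEmbOfFin hTc
  have he : ∀ i, e i ∈ A := fun i => hS (S.orderEmbOfFin_mem hSc i)
  have hf : ∀ i, f i ∉ A := fun i => by
    have := hT (T.orderEmbOfFin_mem hTc i)
    simpa using this
  refine ⟨(fun j => e (Fin.castAdd 2 j), e (Fin.natAdd k 0), e (Fin.natAdd k 1), fun j => f j),
    ?_, ?_, ?_, ?_, ?_, ?_, ?_, ?_, ?_⟩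
  · exact fun j => he _
  · exact he _
  · exact he _
  · exact fun j => hf _
  · intro i j hij
    exact Fin.castAdd_injective k 2 (e.injective hij)
  · exact f.injective
  · intro j hj
    have := e.injective hj
    have h3 := congrArg Fin.val this
    simp at h3
    omega
  · intro j hj
    have := e.injective hj
    have h3 := congrArg Fin.val this
    simp at h3
    omega
  · intro hj
    have := e.injective hj
    have h3 := congrArg Fin.val this
    simp at h3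

theorem sum_dat_le (𝒜 : Finset (Finset (Fin n)))
    (σ : Finset (Fin n) → (Fin k → Fin n) × Fin n × Fin n × (Fin k → Fin n))
    (hσ : ∀ A ∈ 𝒜, Sp A (σ A).1 (σ A).2.1 (σ A).2.2.1 (σ A).2.2.2) :
    ∑ A ∈ 𝒜, (dat A (σ A).1 (σ A).2.1 (σ A).2.2.1 (σ A).2.2.2).card ≤
      n ^ (2 * k + 2) *
        {G : SimpleGraph (Fin n) | Typical G ∧ ∀ v, ∃ u, G.Adj v u}.ncard := by
  classical
  set 𝒢 : Finset (SimpleGraph (Fin n)) :=
    univ.filter (fun G => Typical G ∧ ∀ v, ∃ u, G.Adj v u) with h𝒢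
  have hG : {G : SimpleGraph (Fin n) | Typical G ∧ ∀ v, ∃ u, G.Adj v u}.ncard = 𝒢.card := by
    rw [← Set.ncard_coe_finset]
    congr 1
    ext G
    simp [h𝒢]
  have hcard : ((univ : Finset ((Fin k → Fin n) × Fin n × Fin n × (Fin k → Fin n))) ×ˢ 𝒢).card =
      n ^ (2 * k + 2) * 𝒢.card := by
    rw [Finset.card_product]
    congr 1
    simp only [Finset.card_univ, Fintype.card_prod, Fintype.card_fin, Fintype.card_pi,
      Finset.prod_const]
    ring
  rw [hG, ← hcard, ← Finset.card_sigma]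
  refine Finset.card_le_card_of_injOn
    (fun P => (σ P.1, gr P.1 (σ P.1).1 (σ P.1).2.1 (σ P.1).2.2.1 (σ P.1).2.2.2 P.2)) ?_ ?_
  · rintro ⟨A, d⟩ hP
    simp only [Finset.coe_sigma, Set.mem_sigma_iff, Finset.mem_coe] at hP
    simp only [Finset.coe_product, Set.mem_prod, Finset.mem_coe, Finset.mem_univ, true_and, h𝒢,
      Finset.mem_filter]
    exact ⟨typical, noiso (hσ A hP.1) hP.2⟩
  · rintro ⟨A, d⟩ hP ⟨A', d'⟩ hP' hPP
    simp only [Finset.coe_sigma, Set.mem_sigma_iff, Finset.mem_coe] at hP hP'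
    simp only [Prod.mk.injEq] at hPP
    obtain ⟨e1, e2⟩ := hPP
    have hA : A = A' := by
      have h1 := compl_iff (hσ A hP.1) hP.2
      have h2 := compl_iff (hσ A' hP'.1) hP'.2
      ext v
      rw [← not_iff_not, h1 v, h2 v, e2, e1]
    subst hA
    have := gr_inj (hσ A hP.1) (Finset.mem_coe.2 hP.2) (Finset.mem_coe.2 hP'.2) e2
    rw [this]

end L1

/-- the comparison sum -/
noncomputable def W (n : ℕ) : ℝ :=
  ∑ A : Finset (Fin n) with (3 * n ≤ 8 * A.card ∧ 8 * A.card ≤ 5 * n),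
    (3 : ℝ) ^ A.card * 2 ^ (A.card * Aᶜ.card)

theorem L1.term_le {n k : ℕ} (hk : 1 ≤ k) {A : Finset (Fin n)} {x : Fin k → Fin n} {y1 y2 : Fin n}
    {b : Fin k → Fin n} (h : L1.Sp A x y1 y2 b) (h1 : k + 2 ≤ A.card) (h2 : k ≤ Aᶜ.card) :
    (3 : ℝ) ^ A.card * 2 ^ (A.card * Aᶜ.card) * (1 - (1 / 2) ^ k) ^ n ≤
      3 ^ (k + 2) * 2 ^ (k * (k + 2)) * ((L1.dat A x y1 y2 b).card : ℝ) := by
  have hn : A.card + Aᶜ.card = n := by
    rw [Finset.card_add_card_compl]; simp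
  rw [L1.card_dat h]
  obtain ⟨a', ha'⟩ := Nat.exists_eq_add_of_le h1
  obtain ⟨b', hb'⟩ := Nat.exists_eq_add_of_le h2
  rw [ha', hb'] at hn ⊢
  rw [← hn]
  have e1 : k + 2 + a' - (k + 2) = a' := by omega
  have e2 : k + b' - k = b' := by omega
  have e3 : k + 2 + a' - k = a' + 2 := by omega
  rw [e1, e2, e3]
  have h2k : (1 : ℕ) ≤ 2 ^ k := Nat.one_le_two_pow
  set q : ℝ := 1 - (1 / 2) ^ k with hq
  have hq1 : q ≤ 1 := by
    rw [hq]; have : (0 : ℝ) ≤ (1 / 2) ^ k := by positivity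
    linarith
  have hq0 : 0 ≤ q := by
    rw [hq]
    have : ((1 : ℝ) / 2) ^ k ≤ 1 := pow_le_one₀ (by norm_num) (by norm_num)
    linarith
  have hcast : (((2 : ℕ) ^ k - 1 : ℕ) : ℝ) = q * 2 ^ k := by
    rw [Nat.cast_sub h2k, hq]
    push_cast
    rw [sub_mul, one_mul, ← mul_pow]
    norm_num
  push_cast [hcast]
  rw [mul_pow, mul_pow, ← pow_mul, ← pow_mul]
  have hle : q ^ (k + 2 + a' + (k + b')) ≤ q ^ (a' + b') := by
    apply pow_le_pow_of_le_one hq0 hq1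
    omega
  calc (3 : ℝ) ^ (k + 2 + a') * 2 ^ ((k + 2 + a') * (k + b')) * q ^ (k + 2 + a' + (k + b'))
      ≤ (3 : ℝ) ^ (k + 2 + a') * 2 ^ ((k + 2 + a') * (k + b')) * q ^ (a' + b') := by
        gcongr
    _ = 3 ^ (k + 2) * 2 ^ (k * (k + 2)) * (3 ^ a' * (q ^ a' * 2 ^ (k * a')) *
        (q ^ b' * 2 ^ (k * b') * 2 ^ ((a' + 2) * b'))) := by
        ring

theorem W_le (η : ℝ) (hη : 0 < η) : ∃ n₀ : ℕ, ∀ n ≥ n₀,
    W n ≤ 2 ^ (η * n) *
      ({G : SimpleGraph (Fin n) | Typical G ∧ ∀ v, ∃ u, G.Adj v u}.ncard : ℝ) := by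
  have hr1 : (2 : ℝ) ^ (-(η / 2)) < 1 := by
    apply Real.rpow_lt_one_of_one_lt_of_neg (by norm_num)
    linarith
  have hr0 : (0 : ℝ) < 2 ^ (-(η / 2)) := by positivity
  obtain ⟨k0, hk0⟩ := exists_pow_lt_of_lt_one (show (0 : ℝ) < 1 - 2 ^ (-(η / 2)) by linarith)
    (show (1 / 2 : ℝ) < 1 by norm_num)
  set k := k0 + 1 with hk
  have hk1 : 1 ≤ k := by omega
  have hkq : (2 : ℝ) ^ (-(η / 2)) ≤ 1 - (1 / 2) ^ k := by
    have : (1 / 2 : ℝ) ^ k ≤ (1 / 2) ^ k0 :=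
      pow_le_pow_of_le_one (by norm_num) (by norm_num) (by omega)
    linarith
  set C : ℝ := 3 ^ (k + 2) * 2 ^ (k * (k + 2)) with hC
  have hCpos : 0 < C := by positivity
  have htend := tendsto_pow_const_mul_const_pow_of_lt_one (2 * k + 2) hr0.le hr1
  have hev := htend.eventually (ge_mem_nhds (show (0 : ℝ) < 1 / C by positivity))
  obtain ⟨n1, hn1⟩ := Filter.eventually_atTop.1 hev
  refine ⟨max n1 (8 * (k + 2)), fun n hn => ?_⟩
  have hn1' : n1 ≤ n := le_trans (le_max_left _ _) hn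
  have hn2' : 8 * (k + 2) ≤ n := le_trans (le_max_right _ _) hn
  have hlarge := hn1 n hn1'
  set 𝒜 : Finset (Finset (Fin n)) :=
    univ.filter (fun A => 3 * n ≤ 8 * A.card ∧ 8 * A.card ≤ 5 * n) with h𝒜
  have hsz : ∀ A ∈ 𝒜, k + 2 ≤ A.card ∧ k ≤ Aᶜ.card := by
    intro A hA
    rw [h𝒜, mem_filter] at hA
    have hn : A.card + Aᶜ.card = n := by
      rw [Finset.card_add_card_compl]; simp
    omega
  have hex : ∀ A : Finset (Fin n), ∃ s : (Fin k → Fin n) × Fin n × Fin n × (Fin k → Fin n),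
      A ∈ 𝒜 → L1.Sp A s.1 s.2.1 s.2.2.1 s.2.2.2 := by
    intro A
    by_cases hA : A ∈ 𝒜
    · obtain ⟨s, hs⟩ := L1.exists_sp A (hsz A hA).1 (hsz A hA).2
      exact ⟨s, fun _ => hs⟩
    · have : 0 < n := by omega
      exact ⟨(fun _ => ⟨0, this⟩, ⟨0, this⟩, ⟨0, this⟩, fun _ => ⟨0, this⟩), fun h => absurd h hA⟩
  choose σ hσ using hex
  have hsum := L1.sum_dat_le 𝒜 σ hσ
  set N : ℕ := {G : SimpleGraph (Fin n) | Typical G ∧ ∀ v, ∃ u, G.Adj v u}.ncard with hN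
  set q : ℝ := 1 - (1 / 2) ^ k with hq
  have hqpos : 0 < q := lt_of_lt_of_le hr0 hkq
  have h1 : W n * q ^ n ≤ C * ((n : ℝ) ^ (2 * k + 2) * N) := by
    unfold W
    rw [Finset.sum_mul]
    calc ∑ A ∈ 𝒜, (3 : ℝ) ^ A.card * 2 ^ (A.card * Aᶜ.card) * q ^ n
        ≤ ∑ A ∈ 𝒜, C * ((L1.dat A (σ A).1 (σ A).2.1 (σ A).2.2.1 (σ A).2.2.2).card : ℝ) :=
          Finset.sum_le_sum fun A hA => L1.term_le hk1 (hσ A hA) (hsz A hA).1 (hsz A hA).2
      _ = C * ((∑ A ∈ 𝒜, (L1.dat A (σ A).1 (σ A).2.1 (σ A).2.2.1 (σ A).2.2.2).card : ℕ) : ℝ) := by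
          rw [← Finset.mul_sum]; push_cast; rfl
      _ ≤ C * ((n : ℝ) ^ (2 * k + 2) * N) := by
          gcongr
          exact_mod_cast hsum
  set r : ℝ := (2 : ℝ) ^ (-(η / 2)) with hr
  have h2 : r ^ n ≤ q ^ n := pow_le_pow_left₀ hr0.le hkq n
  have hW0 : 0 ≤ W n := by
    unfold W
    exact Finset.sum_nonneg fun A _ => by positivity
  have hrn : 0 < r ^ n := by positivity
  have h3 : C * ((n : ℝ) ^ (2 * k + 2) * r ^ n) ≤ 1 := by
    calc C * ((n : ℝ) ^ (2 * k + 2) * r ^ n) ≤ C * (1 / C) := by gcongr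
      _ = 1 := by field_simp
  have h4 : W n * r ^ n * r ^ n ≤ N := by
    calc W n * r ^ n * r ^ n ≤ W n * q ^ n * r ^ n := by gcongr
      _ ≤ C * ((n : ℝ) ^ (2 * k + 2) * N) * r ^ n := by gcongr
      _ = C * ((n : ℝ) ^ (2 * k + 2) * r ^ n) * N := by ring
      _ ≤ 1 * N := by gcongr
      _ = N := one_mul _
  have h5 : r ^ n * r ^ n = (2 : ℝ) ^ (-(η * n)) := by
    rw [hr, ← Real.rpow_natCast, ← Real.rpow_mul (by norm_num), ← Real.rpow_add (by norm_num)]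
    congr 1
    ring
  have h6 : W n = 2 ^ (η * n) * (W n * r ^ n * r ^ n) := by
    rw [mul_assoc (W n), h5]
    have : (2 : ℝ) ^ (η * n) * 2 ^ (-(η * n)) = 1 := by
      rw [← Real.rpow_add (by norm_num)]; simp
    calc W n = W n * (2 ^ (η * n) * 2 ^ (-(η * n))) := by rw [this, mul_one]
      _ = _ := by ring
  rw [h6]
  gcongr

end Pool.Agent.Helper17.TP
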