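import Pool.Agent.Helper17.TP.Y1

/-!
# Block TP-Y2 (IVa): graphs with a given coarse structure

Proof.  Let `G` be t-perfect with `Close G A T1 T2 g`, `B = Aᶜ`.  Let `J_A` (`J_B`) be the graph of
the edges of `G` inside `A` (inside `B`); `inside G A = J_A ⊔ J_B`.  Choose a maximal family of
pairwise disjoint bad sets of `G` contained in `A` (a bad set of `G` contained in `A` is a bad set of
`J_A` and conversely), with traces `p` from `bad_trace`: `PP_A` with `(J_A, PP_A) ∈ OneSided A T1 T2 g s`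
and no `y ∈ B` has trace `p` on `X`; in the same way `(J_B, PP_B) ∈ OneSided B ∅ ∅ g r`.  For given
`(J_A, PP_A)`, `(J_B, PP_B)` the number of `G` is, by `count_traces` (for `A`, resp. for `Aᶜ`), at most
`2^(|A||B|) (15/16)^(max(s,r) min(|A|,|B|)) ≤ 2^(|A||B|) 2^(-0.0155 (s+r) n)`, since
`max(s,r) ≥ (s+r)/2`, `min(|A|,|B|) ≥ n/3`, `log₂(16/15) ≥ 0.093`.  With `card_oneSided h₁`
(`h₁ = min(h/4, 1/1000)`) the total number is at most
`Σ_(s,r) 2^(|A||B|) 2^(h₁ n (s + r + 2)) 2^(-0.0155 (s+r) n)`; the sum over all `(s, r)` is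
`≤ 2^(|A||B| + 2 h₁ n + 1)...≤ 2^(|A||B| + h n)`, the sum over `s + r ≥ 1` is
`≤ 2^(|A||B| + 2 h₁ n) Σ_(j ≥ 1) (j+1) 2^(-0.0145 j n) ≤ 2^(|A||B| - n/200)` for large `n`.
If `G` has a bad set contained in `A` or in `Aᶜ` then `s + r ≥ 1` (maximality).  (`s, r ≤ n`, finite
sums.)
-/

set_option autoImplicit false

namespace Pool.Agent.Helper17.TP

open SimpleGraph Finset

/-- the edges of `G` inside `A` -/
private def JJ1 {n : ℕ} (G : SimpleGraph (Fin n)) (A : Finset (Fin n)) : SimpleGraph (Fin n) where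
  Adj u v := G.Adj u v ∧ u ∈ A ∧ v ∈ A
  symm := ⟨fun _ _ h => ⟨h.1.symm, h.2.2, h.2.1⟩⟩
  loopless := ⟨fun _ h => G.irrefl h.1⟩

private theorem jj_adj1 {n : ℕ} {G : SimpleGraph (Fin n)} {A : Finset (Fin n)} {u v : Fin n} :
    (JJ1 G A).Adj u v ↔ G.Adj u v ∧ u ∈ A ∧ v ∈ A := Iff.rfl

private theorem inside_sup1 {n : ℕ} (G : SimpleGraph (Fin n)) (A : Finset (Fin n)) :
    inside G A = JJ1 G A ⊔ JJ1 G Aᶜ := by
  ext u v
  rw [SimpleGraph.sup_adj, jj_adj1, jj_adj1, mem_compl, mem_compl]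
  show G.Adj u v ∧ (u ∈ A ↔ v ∈ A) ↔ _
  tauto

private theorem inside_compl1 {n : ℕ} (G : SimpleGraph (Fin n)) (A : Finset (Fin n)) :
    inside G Aᶜ = inside G A := by
  ext u v
  show G.Adj u v ∧ (u ∈ Aᶜ ↔ v ∈ Aᶜ) ↔ G.Adj u v ∧ (u ∈ A ↔ v ∈ A)
  rw [mem_compl, mem_compl, not_iff_not]

private theorem bad_congr1 {n : ℕ} {G G' : SimpleGraph (Fin n)} {X : Finset (Fin n)}
    (h : ∀ u ∈ X, ∀ v ∈ X, (G.Adj u v ↔ G'.Adj u v)) (hB : Bad G X) : Bad G' X := by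
  rcases hB with ⟨a, b, c, rfl, h1, h2, h3⟩ | ⟨a, b, c, d, rfl, h1, h2, h3, h4, h5, h6⟩ |
    ⟨a, b, c, d, rfl, h1, h2, h3, h4, h5, h6⟩
  · exact Or.inl ⟨a, b, c, rfl, (h _ (by simp) _ (by simp)).1 h1, (h _ (by simp) _ (by simp)).1 h2,
      (h _ (by simp) _ (by simp)).1 h3⟩
  · exact Or.inr (Or.inl ⟨a, b, c, d, rfl, (h _ (by simp) _ (by simp)).1 h1, (h _ (by simp) _ (by simp)).1 h2,
      fun k => h3 ((h _ (by simp) _ (by simp)).2 k), fun k => h4 ((h _ (by simp) _ (by simp)).2 k),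
      fun k => h5 ((h _ (by simp) _ (by simp)).2 k), fun k => h6 ((h _ (by simp) _ (by simp)).2 k)⟩)
  · exact Or.inr (Or.inr ⟨a, b, c, d, rfl, (h _ (by simp) _ (by simp)).1 h1, (h _ (by simp) _ (by simp)).1 h2,
      (h _ (by simp) _ (by simp)).1 h3, fun k => h4 ((h _ (by simp) _ (by simp)).2 k),
      fun k => h5 ((h _ (by simp) _ (by simp)).2 k), fun k => h6 ((h _ (by simp) _ (by simp)).2 k)⟩)

private theorem bad_nonempty1 {n : ℕ} {G : SimpleGraph (Fin n)} {X : Finset (Fin n)} (hB : Bad G X) :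
    X.Nonempty := by
  rcases hB with ⟨a, b, c, rfl, -⟩ | ⟨a, b, c, d, rfl, -⟩ | ⟨a, b, c, d, rfl, -⟩
  · exact ⟨a, by simp⟩
  · exact ⟨a, by simp⟩
  · exact ⟨a, by simp⟩

/-- a maximal family of disjoint bad sets, with traces -/
private theorem family1 {n : ℕ} {G : SimpleGraph (Fin n)} (hG : TPerf G) (A : Finset (Fin n)) :
    ∃ PP : Finset (Finset (Fin n) × Finset (Fin n)), Traces A PP ∧
      (∀ q ∈ PP, ∀ y, y ∉ A → nb G q.1 y ≠ q.2) ∧
      (∀ X ⊆ A, (∀ q ∈ PP, Disjoint X q.1) → ¬ Bad G X) := by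
  classical
  obtain ⟨PP, hPP, hmax⟩ := Finset.exists_max_image
    (Finset.univ.filter fun PP : Finset (Finset (Fin n) × Finset (Fin n)) =>
      Traces A PP ∧ ∀ q ∈ PP, ∀ y, y ∉ A → nb G q.1 y ≠ q.2) Finset.card
    ⟨∅, by
      rw [mem_filter]
      exact ⟨mem_univ _, ⟨by simp, by simp⟩, by simp⟩⟩
  rw [mem_filter] at hPP
  obtain ⟨-, hT, hq⟩ := hPP
  refine ⟨PP, hT, hq, ?_⟩
  intro X hX hd hB
  obtain ⟨p, hp, hp2⟩ := bad_trace hG hB
  have hne := bad_nonempty1 hB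
  have hnot : (X, p) ∉ PP := by
    intro h
    have h1 := hd _ h
    rw [disjoint_self_iff_empty] at h1
    exact hne.ne_empty h1
  have h2 := hmax (insert (X, p) PP) (by
    rw [mem_filter]
    refine ⟨mem_univ _, ⟨?_, ?_⟩, ?_⟩
    · intro q hq1
      rw [mem_insert] at hq1
      rcases hq1 with rfl | hq1
      · exact ⟨hX, hp, bad_card hB⟩
      · exact hT.1 q hq1
    · intro q hq1 r hr1 hqr
      rw [mem_insert] at hq1 hr1
      rcases hq1 with rfl | hq1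
      · rcases hr1 with rfl | hr1
        · exact absurd rfl hqr
        · exact hd r hr1
      · rcases hr1 with rfl | hr1
        · exact (hd q hq1).symm
        · exact hT.2 q hq1 r hr1 hqr
    · intro q hq1 y hy
      rw [mem_insert] at hq1
      rcases hq1 with rfl | hq1
      · exact hp2 y fun h => hy (hX h)
      · exact hq q hq1 y hy)
  rw [card_insert_of_notMem hnot] at h2
  omega

private theorem nb_jj1 {n : ℕ} (G : SimpleGraph (Fin n)) (A : Finset (Fin n)) {v : Fin n} (hv : v ∈ A) :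
    nb (JJ1 G A) A v = nb G A v := by
  ext u
  rw [mem_nb, mem_nb, jj_adj1]
  tauto

private theorem ncard_le_sum1 {α ι : Type*} [Finite α] (I : Finset ι) (F : ι → Set α) (c : ι → ℝ)
    (hF : ∀ i ∈ I, ((F i).ncard : ℝ) ≤ c i) :
    ∀ S : Set α, (∀ x ∈ S, ∃ i ∈ I, x ∈ F i) → (S.ncard : ℝ) ≤ ∑ i ∈ I, c i := by
  classical
  induction I using Finset.induction_on with
  | empty =>
    intro S hS
    have : S = ∅ := by
      rw [Set.eq_empty_iff_forall_notMem]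
      intro x hx
      obtain ⟨i, hi, -⟩ := hS x hx
      exact absurd hi (notMem_empty i)
    rw [this]
    simp
  | insert i I hi ih =>
    intro S hS
    rw [sum_insert hi]
    have h1 : S ⊆ F i ∪ (S \ F i) := by
      intro x hx
      by_cases h : x ∈ F i
      · exact Or.inl h
      · exact Or.inr ⟨hx, h⟩
    have h2 := Set.ncard_le_ncard h1 (Set.toFinite _)
    have h3 := Set.ncard_union_le (F i) (S \ F i)
    have h4 := ih (fun j hj => hF j (mem_insert_of_mem hj)) (S \ F i) (by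
      intro x hx
      obtain ⟨j, hj, hj2⟩ := hS x hx.1
      rw [mem_insert] at hj
      rcases hj with rfl | hj
      · exact absurd hj2 hx.2
      · exact ⟨j, hj, hj2⟩)
    have h5 := hF i (mem_insert_self _ _)
    have h6 : (S.ncard : ℝ) ≤ (F i).ncard + (S \ F i).ncard := by exact_mod_cast h2.trans h3
    linarith

private theorem ncard_le_mul1 {α β : Type*} [Finite α] [Finite β] (D : Set β) (F : β → Set α) (c : ℝ)
    (hF : ∀ i ∈ D, ((F i).ncard : ℝ) ≤ c) (S : Set α) (hS : ∀ x ∈ S, ∃ i ∈ D, x ∈ F i) :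
    (S.ncard : ℝ) ≤ D.ncard * c := by
  classical
  have hD : D.Finite := Set.toFinite _
  have h := ncard_le_sum1 hD.toFinset F (fun _ => c) (fun i hi => hF i (hD.mem_toFinset.1 hi)) S (by
    intro x hx
    obtain ⟨i, hi, h2⟩ := hS x hx
    exact ⟨i, hD.mem_toFinset.2 hi, h2⟩)
  rw [sum_const, nsmul_eq_mul, ← Set.ncard_eq_toFinset_card D hD] at h
  exact h

private theorem geo1 {q : ℝ} (h0 : 0 ≤ q) (h1 : q ≤ 1 / 4) (M : ℕ) :
    ∑ s ∈ range M, q ^ s ≤ 1 / (1 - q) := by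
  have h2 : q < 1 := by linarith
  have h3 : (∑ s ∈ range M, q ^ s) * (1 - q) = 1 - q ^ M := geom_sum_mul_neg q M
  rw [le_div_iff₀ (by linarith), h3]
  have := pow_nonneg h0 M
  linarith

private theorem pow1516 (m : ℕ) : ((15 : ℝ) / 16) ^ m ≤ 2 ^ (-(9 / 100 : ℝ) * m) := by
  have h1 : ((15 : ℝ) / 16) ≤ 2 ^ (-(9 / 100 : ℝ)) := by
    have h2 : ((15 : ℝ) / 16) = (((15 : ℝ) / 16) ^ (100 : ℕ)) ^ ((1 : ℝ) / 100) := by
      rw [← Real.rpow_natCast, ← Real.rpow_mul (by norm_num)]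
      norm_num
    have h3 : (2 : ℝ) ^ (-(9 / 100 : ℝ)) = (((2 : ℝ) ^ 9)⁻¹) ^ ((1 : ℝ) / 100) := by
      rw [← Real.rpow_natCast, ← Real.rpow_neg (by norm_num), ← Real.rpow_mul (by norm_num)]
      norm_num
    rw [h2, h3]
    refine Real.rpow_le_rpow (by positivity) ?_ (by norm_num)
    norm_num
  calc ((15 : ℝ) / 16) ^ m ≤ (2 ^ (-(9 / 100 : ℝ))) ^ m := pow_le_pow_left₀ (by norm_num) h1 m
    _ = 2 ^ (-(9 / 100 : ℝ) * m) := by rw [← Real.rpow_natCast, ← Real.rpow_mul (by norm_num)]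

/-- graphs with given codes -/
private def Fib1 {n : ℕ} (A : Finset (Fin n))
    (P : (SimpleGraph (Fin n) × Finset (Finset (Fin n) × Finset (Fin n))) ×
      (SimpleGraph (Fin n) × Finset (Finset (Fin n) × Finset (Fin n)))) : Set (SimpleGraph (Fin n)) :=
  {G | inside G A = P.1.1 ⊔ P.2.1 ∧ (∀ q ∈ P.1.2, ∀ y, y ∉ A → nb G q.1 y ≠ q.2) ∧
    (∀ q ∈ P.2.2, ∀ y, y ∉ Aᶜ → nb G q.1 y ≠ q.2)}

private theorem half1 {n s r m : ℕ} (hm : n ≤ 3 * m) (hsr : r ≤ s) :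
    ((15 : ℝ) / 16) ^ (s * m) ≤ 2 ^ (-(15 / 1000 : ℝ) * (s + r) * n) := by
  refine (pow1516 (s * m)).trans (Real.rpow_le_rpow_of_exponent_le (by norm_num) ?_)
  have h1 : (n : ℝ) ≤ 3 * m := by exact_mod_cast hm
  have h2 : (r : ℝ) ≤ s := by exact_mod_cast hsr
  have h3 : (0 : ℝ) ≤ s := Nat.cast_nonneg s
  have h4 : (0 : ℝ) ≤ n := Nat.cast_nonneg n
  push_cast
  have h5 : (s : ℝ) * n ≤ s * (3 * m) := mul_le_mul_of_nonneg_left h1 h3
  have h6 : (r : ℝ) * n ≤ s * n := mul_le_mul_of_nonneg_right h2 h4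
  linarith

private theorem fib_card1 {n : ℕ} (A : Finset (Fin n)) (hA : n ≤ 3 * A.card) (hA' : n ≤ 3 * Aᶜ.card)
    (P : (SimpleGraph (Fin n) × Finset (Finset (Fin n) × Finset (Fin n))) ×
      (SimpleGraph (Fin n) × Finset (Finset (Fin n) × Finset (Fin n)))) {s r : ℕ}
    (h1 : Traces A P.1.2) (h2 : Traces Aᶜ P.2.2) (hs : P.1.2.card = s) (hr : P.2.2.card = r) :
    ((Fib1 A P).ncard : ℝ) ≤ 2 ^ (A.card * Aᶜ.card) * 2 ^ (-(15 / 1000 : ℝ) * (s + r) * n) := by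
  rcases le_total r s with h | h
  · have h3 : Fib1 A P ⊆ {G : SimpleGraph (Fin n) | inside G A = P.1.1 ⊔ P.2.1 ∧
        ∀ q ∈ P.1.2, ∀ y, y ∉ A → nb G q.1 y ≠ q.2} := fun G hG => ⟨hG.1, hG.2.1⟩
    have h4 := Set.ncard_le_ncard h3 (Set.toFinite _)
    refine ((Nat.cast_le.2 h4).trans (count_traces A _ P.1.2 h1)).trans ?_
    rw [hs]
    exact mul_le_mul_of_nonneg_left (half1 hA' h) (by positivity)
  · have h3 : Fib1 A P ⊆ {G : SimpleGraph (Fin n) | inside G Aᶜ = P.1.1 ⊔ P.2.1 ∧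
        ∀ q ∈ P.2.2, ∀ y, y ∉ Aᶜ → nb G q.1 y ≠ q.2} := fun G hG => ⟨by rw [inside_compl1]; exact hG.1, hG.2.2⟩
    have h4 := Set.ncard_le_ncard h3 (Set.toFinite _)
    refine ((Nat.cast_le.2 h4).trans (count_traces Aᶜ _ P.2.2 h2)).trans ?_
    rw [hr, compl_compl, mul_comm Aᶜ.card A.card, add_comm (s : ℝ) r]
    exact mul_le_mul_of_nonneg_left (half1 hA h) (by positivity)

private theorem data1 {n : ℕ} {G : SimpleGraph (Fin n)} (hG : TPerf G) {A T1 T2 : Finset (Fin n)} {g : ℕ}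
    (hC : Close G A T1 T2 g) :
    ∃ s r : ℕ, s < Fintype.card (Finset (Fin n) × Finset (Fin n)) + 1 ∧
      r < Fintype.card (Finset (Fin n) × Finset (Fin n)) + 1 ∧
      (∃ P ∈ OneSided A T1 T2 g s ×ˢ OneSided Aᶜ ∅ ∅ g r, G ∈ Fib1 A P) ∧
      ((∃ X, Bad G X ∧ (X ⊆ A ∨ X ⊆ Aᶜ)) → (s, r) ≠ (0, 0)) := by
  obtain ⟨P1, a1, a2, a3⟩ := family1 hG A
  obtain ⟨P2, b1, b2, b3⟩ := family1 hG Aᶜ
  have key : ∀ (B : Finset (Fin n)) (PP : Finset (Finset (Fin n) × Finset (Fin n))),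
      (∀ X ⊆ B, (∀ q ∈ PP, Disjoint X q.1) → ¬ Bad G X) →
      (∀ X ⊆ B, (∀ q ∈ PP, Disjoint X q.1) → ¬ Bad (JJ1 G B) X) := by
    intro B PP h X hX hd hB
    refine h X hX hd (bad_congr1 ?_ hB)
    intro u hu v hv
    rw [jj_adj1]
    exact ⟨fun k => k.1, fun k => ⟨k, hX hu, hX hv⟩⟩
  refine ⟨P1.card, P2.card, Nat.lt_succ_of_le (Finset.card_le_univ _), Nat.lt_succ_of_le (Finset.card_le_univ _),
    ⟨((JJ1 G A, P1), (JJ1 G Aᶜ, P2)), ⟨⟨fun u v h => h.2, ?_, rfl, a1, key A P1 a3⟩,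
      ⟨fun u v h => h.2, ?_, rfl, b1, key Aᶜ P2 b3⟩⟩, inside_sup1 G A, a2, b2⟩, ?_⟩
  · intro v hv
    show (nb (JJ1 G A) A v).card ≤ g ∨ (symmDiff (nb (JJ1 G A) A v) T1).card ≤ g ∨
      (symmDiff (nb (JJ1 G A) A v) T2).card ≤ g
    rw [nb_jj1 G A hv]
    exact hC.ins v hv
  · intro v hv
    left
    show (nb (JJ1 G Aᶜ) Aᶜ v).card ≤ g
    rw [nb_jj1 G Aᶜ hv]
    exact hC.out v (mem_compl.1 hv)
  · rintro ⟨X, hX, hXA⟩ h0
    rw [Prod.mk.injEq, card_eq_zero, card_eq_zero] at h0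
    rcases hXA with h1 | h1
    · refine a3 X h1 ?_ hX
      rw [h0.1]
      simp
    · refine b3 X h1 ?_ hX
      rw [h0.2]
      simp

/-- the contribution of the pairs of codes of sizes `s, r` -/
private theorem cell1 {n : ℕ} {A T1 T2 : Finset (Fin n)} {g : ℕ} (hA : n ≤ 3 * A.card) (hA' : n ≤ 3 * Aᶜ.card)
    {h : ℝ} (hO : ∀ (A T1 T2 : Finset (Fin n)), ∀ s : ℕ,
      ((OneSided A T1 T2 g s).ncard : ℝ) ≤ 2 ^ (h * n * (s + 1))) (s r : ℕ) :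
    (({G | ∃ P ∈ OneSided A T1 T2 g s ×ˢ OneSided Aᶜ ∅ ∅ g r, G ∈ Fib1 A P} : Set (SimpleGraph (Fin n))).ncard : ℝ) ≤
      2 ^ (((A.card * Aᶜ.card : ℕ) : ℝ) + 2 * h * n) *
        ((2 ^ ((h - 15 / 1000) * n : ℝ)) ^ s * (2 ^ ((h - 15 / 1000) * n : ℝ)) ^ r) := by
  have h1 := ncard_le_mul1 (OneSided A T1 T2 g s ×ˢ OneSided Aᶜ ∅ ∅ g r) (Fib1 A)
    (2 ^ (A.card * Aᶜ.card) * 2 ^ (-(15 / 1000 : ℝ) * (s + r) * n))
    (fun P hP => fib_card1 A hA hA' P hP.1.2.2.2.1 hP.2.2.2.2.1 hP.1.2.2.1 hP.2.2.2.1)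
    {G | ∃ P ∈ OneSided A T1 T2 g s ×ˢ OneSided Aᶜ ∅ ∅ g r, G ∈ Fib1 A P} (fun G hG => hG)
  refine h1.trans ?_
  rw [Set.ncard_prod]
  push_cast
  have h2 := hO A T1 T2 s
  have h3 := hO Aᶜ ∅ ∅ r
  calc ((OneSided A T1 T2 g s).ncard : ℝ) * ((OneSided Aᶜ ∅ ∅ g r).ncard : ℝ) *
        (2 ^ (A.card * Aᶜ.card) * 2 ^ (-(15 / 1000 : ℝ) * (s + r) * n))
      ≤ 2 ^ (h * n * (s + 1)) * 2 ^ (h * n * (r + 1)) *
        (2 ^ (A.card * Aᶜ.card) * 2 ^ (-(15 / 1000 : ℝ) * (s + r) * n)) := by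
        refine mul_le_mul_of_nonneg_right (mul_le_mul h2 h3 (by positivity) (by positivity)) (by positivity)
    _ = 2 ^ ((((A.card : ℝ) * Aᶜ.card)) + 2 * h * n) *
        ((2 ^ ((h - 15 / 1000) * n : ℝ)) ^ s * (2 ^ ((h - 15 / 1000) * n : ℝ)) ^ r) := by
        have e1 : ((2 : ℝ) ^ (A.card * Aᶜ.card)) = 2 ^ ((A.card : ℝ) * Aᶜ.card) := by
          rw [← Real.rpow_natCast]
          push_cast
          rfl
        rw [e1, ← Real.rpow_natCast (2 ^ ((h - 15 / 1000) * n : ℝ)) s,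
          ← Real.rpow_natCast (2 ^ ((h - 15 / 1000) * n : ℝ)) r, ← Real.rpow_mul (by norm_num),
          ← Real.rpow_mul (by norm_num), ← Real.rpow_add (by norm_num), ← Real.rpow_add (by norm_num),
          ← Real.rpow_add (by norm_num), ← Real.rpow_add (by norm_num), ← Real.rpow_add (by norm_num)]
        congr 1
        ring

theorem count_close (h : ℝ) (hh : 0 < h) : ∃ γ > (0 : ℝ), ∃ n₀ : ℕ, ∀ n ≥ n₀,
    ∀ (A T1 T2 : Finset (Fin n)) (g : ℕ), (g : ℝ) ≤ γ * n → n ≤ 3 * A.card → n ≤ 3 * Aᶜ.card →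
      ({G : SimpleGraph (Fin n) | TPerf G ∧ Close G A T1 T2 g}.ncard : ℝ)
        ≤ 2 ^ (((A.card * Aᶜ.card : ℕ) : ℝ) + h * n) ∧
      ({G : SimpleGraph (Fin n) | TPerf G ∧ Close G A T1 T2 g ∧
          ∃ X, Bad G X ∧ (X ⊆ A ∨ X ⊆ Aᶜ)}.ncard : ℝ)
        ≤ 2 ^ (((A.card * Aᶜ.card : ℕ) : ℝ) - n / 200) := by
  classical
  set h₁ : ℝ := min (h / 4) (1 / 1000) with hh₁
  have h₁0 : 0 < h₁ := lt_min (by positivity) (by norm_num)
  have h₁h : h₁ ≤ h / 4 := min_le_left _ _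
  have h₁1 : h₁ ≤ 1 / 1000 := min_le_right _ _
  obtain ⟨γ, hγ, n₀, hO⟩ := card_oneSided h₁ h₁0
  obtain ⟨n₁, hn₁⟩ := exists_nat_ge (2 / h)
  refine ⟨γ, hγ, max n₀ (max 1000 n₁), ?_⟩
  intro n hn A T1 T2 g hg hA hA'
  have hn0 : n₀ ≤ n := (le_max_left _ _).trans hn
  have hn2 : 1000 ≤ n := ((le_max_left _ _).trans (le_max_right _ _)).trans hn
  have hn3 : n₁ ≤ n := ((le_max_right _ _).trans (le_max_right _ _)).trans hn
  have hnR : (1000 : ℝ) ≤ n := by exact_mod_cast hn2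
  have hnh : 1 ≤ h * n / 2 := by
    have h1 : 2 / h ≤ (n : ℝ) := hn₁.trans (by exact_mod_cast hn3)
    rw [div_le_iff₀ hh] at h1
    linarith
  set q : ℝ := 2 ^ ((h₁ - 15 / 1000) * n : ℝ) with hq
  have hq0 : 0 < q := by rw [hq]; positivity
  have hq1 : q ≤ 1 / 4 := by
    have h1 : q ≤ 2 ^ (-2 : ℝ) := Real.rpow_le_rpow_of_exponent_le (by norm_num) (by nlinarith)
    refine h1.trans (le_of_eq ?_)
    rw [Real.rpow_neg (by norm_num)]
    norm_num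
  set C : ℝ := 2 ^ (((A.card * Aᶜ.card : ℕ) : ℝ) + 2 * h₁ * n) with hC
  have hC0 : 0 < C := by rw [hC]; positivity
  set M : ℕ := Fintype.card (Finset (Fin n) × Finset (Fin n)) + 1 with hM
  have hcell : ∀ s r : ℕ, (({G | ∃ P ∈ OneSided A T1 T2 g s ×ˢ OneSided Aᶜ ∅ ∅ g r, G ∈ Fib1 A P} :
      Set (SimpleGraph (Fin n))).ncard : ℝ) ≤ C * (q ^ s * q ^ r) := fun s r =>
    cell1 hA hA' (fun A T1 T2 s => hO n hn0 A T1 T2 g hg s) s r
  have hsum : ∑ z ∈ range M ×ˢ range M, C * (q ^ z.1 * q ^ z.2) = C * (∑ s ∈ range M, q ^ s) ^ 2 := by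
    rw [sum_product, sq, Finset.sum_mul_sum, Finset.mul_sum]
    refine sum_congr rfl fun s _ => ?_
    rw [Finset.mul_sum]
  have hge := geo1 hq0.le hq1 M
  have hge0 : 0 ≤ ∑ s ∈ range M, q ^ s := sum_nonneg fun s _ => pow_nonneg hq0.le s
  have hge2 : (∑ s ∈ range M, q ^ s) ^ 2 ≤ 1 + 4 * q := by
    have h1 : (∑ s ∈ range M, q ^ s) ^ 2 ≤ (1 / (1 - q)) ^ 2 := pow_le_pow_left₀ hge0 hge 2
    refine h1.trans ?_
    rw [div_pow, one_pow, div_le_iff₀ (by nlinarith)]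
    nlinarith [mul_nonneg hq0.le hq0.le, mul_nonneg hq0.le (by linarith : 0 ≤ 1 / 4 - q)]
  constructor
  · have h1 := ncard_le_sum1 (range M ×ˢ range M)
      (fun z => {G : SimpleGraph (Fin n) | ∃ P ∈ OneSided A T1 T2 g z.1 ×ˢ OneSided Aᶜ ∅ ∅ g z.2, G ∈ Fib1 A P})
      (fun z => C * (q ^ z.1 * q ^ z.2)) (fun z _ => hcell z.1 z.2)
      {G : SimpleGraph (Fin n) | TPerf G ∧ Close G A T1 T2 g} (by
        rintro G ⟨hG, hCl⟩
        obtain ⟨s, r, hs, hr, hP, -⟩ := data1 hG hCl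
        exact ⟨(s, r), mem_product.2 ⟨mem_range.2 hs, mem_range.2 hr⟩, hP⟩)
    rw [hsum] at h1
    refine h1.trans ?_
    have h2 : C * (∑ s ∈ range M, q ^ s) ^ 2 ≤ C * 2 := mul_le_mul_of_nonneg_left (by linarith) hC0.le
    refine h2.trans ?_
    have h3 : C * 2 = 2 ^ (((A.card * Aᶜ.card : ℕ) : ℝ) + 2 * h₁ * n + 1) := by
      rw [Real.rpow_add_one (by norm_num)]
    rw [h3]
    refine Real.rpow_le_rpow_of_exponent_le (by norm_num) ?_
    have h4 : 2 * h₁ * n ≤ h * n / 2 := by nlinarith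
    linarith
  · have h1 := ncard_le_sum1 ((range M ×ˢ range M).erase (0, 0))
      (fun z => {G : SimpleGraph (Fin n) | ∃ P ∈ OneSided A T1 T2 g z.1 ×ˢ OneSided Aᶜ ∅ ∅ g z.2, G ∈ Fib1 A P})
      (fun z => C * (q ^ z.1 * q ^ z.2)) (fun z _ => hcell z.1 z.2)
      {G : SimpleGraph (Fin n) | TPerf G ∧ Close G A T1 T2 g ∧ ∃ X, Bad G X ∧ (X ⊆ A ∨ X ⊆ Aᶜ)} (by
        rintro G ⟨hG, hCl, hX⟩
        obtain ⟨s, r, hs, hr, hP, h0⟩ := data1 hG hCl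
        exact ⟨(s, r), mem_erase.2 ⟨h0 hX, mem_product.2 ⟨mem_range.2 hs, mem_range.2 hr⟩⟩, hP⟩)
    have h00 : ((0, 0) : ℕ × ℕ) ∈ range M ×ˢ range M :=
      mem_product.2 ⟨mem_range.2 (Nat.succ_pos _), mem_range.2 (Nat.succ_pos _)⟩
    have hs2 := Finset.add_sum_erase (range M ×ˢ range M) (fun z => C * (q ^ z.1 * q ^ z.2)) h00
    rw [hsum] at hs2
    simp only [pow_zero, mul_one] at hs2
    refine h1.trans ?_
    have h2 : C * (∑ s ∈ range M, q ^ s) ^ 2 ≤ C * (1 + 4 * q) := mul_le_mul_of_nonneg_left hge2 hC0.le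
    have h3 : ∑ z ∈ (range M ×ˢ range M).erase (0, 0), C * (q ^ z.1 * q ^ z.2) ≤ C * (4 * q) := by linarith
    refine h3.trans ?_
    have h4 : C * (4 * q) = 2 ^ (((A.card * Aᶜ.card : ℕ) : ℝ) + 2 * h₁ * n + 2 + (h₁ - 15 / 1000) * n) := by
      rw [Real.rpow_add (by norm_num), Real.rpow_add (by norm_num) _ 2, hC, hq]
      norm_num
      ring
    rw [h4]
    refine Real.rpow_le_rpow_of_exponent_le (by norm_num) ?_
    nlinarith

end Pool.Agent.Helper17.TP
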