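import Pool.Agent.Helper17.TP.Y1
import Pool.Agent.Helper17.TP.D6

/-!
# Block TP-Y3 (IVb): balanced structure, no bad set on either side, an edge in `Aᶜ`

For `κ > 0` there are `c, γ > 0`, `n₀` such that for `n ≥ n₀`, `g ≤ γ n`, `K ≥ κ n`, the number of
graphs `G` with `Balanced G A T1 T2 g K`, no bad set inside `A` or inside `Aᶜ`, and an edge in `Aᶜ`,
is at most `2^(|A||Aᶜ| - c n)`.

Proof.  `inside G A = J_A ⊔ J_B`, with `(J_A, ∅) ∈ OneSided A T1 T2 g 0` and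
`(J_B, ∅) ∈ OneSided Aᶜ ∅ ∅ g 0`: at most `2^(2 h n)` choices of the inside.  Let `u u'` be an edge in
`Aᶜ` (`n²` choices).  `|N(u) ∩ N(u') ∩ T_i| ≤ g` for `i = 1` or `2`.  The number of pairs `(S, S')` of
subsets of `A` with `|S ∩ S' ∩ T| ≤ g`, `|T| ≥ K`, is at most
`4^(|A| - |T|) Σ_(j ≤ g) C(|T|, j) 3^(|T| - j) ≤ 4^|A| (3/4)^|T| vol(n, g)` (as `3^(-j) ≤ 1`).  So the
number of cross graphs (`count_cross`) for given inside and `u, u'` is at most
`2 · 2^(|A||Aᶜ|) (3/4)^K vol(n, g)`.  Total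
`≤ 2^(2hn) n² 2 · 2^(|A||Aᶜ|) 2^(-0.41 κ n) vol(n,g) ≤ 2^(|A||Aᶜ| - c n)` with `h = κ/20`,
`vol(n,g) ≤ 2^(κ n/20)` (`vol_bound`), `c = κ/10`, `n` large.
-/

set_option autoImplicit false

namespace Pool.Agent.Helper17.TP

open SimpleGraph Finset

private theorem y3_pair {n : ℕ} (A T J : Finset (Fin n)) (hT : T ⊆ A) (u u' : Fin n)
    (hu : u ∉ A) (hu' : u' ∉ A) (hne : u ≠ u') (I : SimpleGraph (Fin n)) :
    ({G : SimpleGraph (Fin n) | inside G A = I ∧ nb G T u ∩ nb G T u' = J}.ncard : ℝ)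
      ≤ 2 ^ (A.card * Aᶜ.card) * (3 / 4) ^ T.card := by
  classical
  let t : Fin n → Finset (Finset (Fin n)) := fun x =>
    if x ∈ A then Aᶜ.powerset.filter (fun C => x ∈ T → ((u ∈ C ∧ u' ∈ C) ↔ x ∈ J)) else {∅}
  let φ : SimpleGraph (Fin n) → (Fin n → Finset (Fin n)) := fun G x =>
    if x ∈ A then nb G Aᶜ x else ∅
  have h1 : {G : SimpleGraph (Fin n) | inside G A = I ∧ nb G T u ∩ nb G T u' = J}.ncard
      ≤ (Fintype.piFinset t).card := by
    rw [← Set.ncard_coe_finset]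
    apply Set.ncard_le_ncard_of_injOn φ _ _ (Finset.finite_toSet _)
    · rintro G ⟨-, hJ⟩
      rw [Finset.mem_coe, Fintype.mem_piFinset]
      intro x
      by_cases hx : x ∈ A
      · simp only [t, φ, hx, if_true]
        rw [Finset.mem_filter, Finset.mem_powerset]
        refine ⟨fun y hy => (mem_nb.mp hy).1, fun hxT => ?_⟩
        rw [← hJ, Finset.mem_inter, mem_nb, mem_nb, mem_nb, mem_nb, Finset.mem_compl,
          Finset.mem_compl]
        constructor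
        · rintro ⟨⟨_, h2⟩, ⟨_, h3⟩⟩
          exact ⟨⟨hxT, h2.symm⟩, ⟨hxT, h3.symm⟩⟩
        · rintro ⟨⟨_, h2⟩, ⟨_, h3⟩⟩
          exact ⟨⟨hu, h2.symm⟩, ⟨hu', h3.symm⟩⟩
      · simp only [t, φ, hx, if_false]
        exact Finset.mem_singleton_self _
    · rintro G ⟨hI, -⟩ G' ⟨hI', -⟩ hφ
      apply ext_of_inside (A := A) (hI.trans hI'.symm)
      intro y hy
      ext x
      rw [mem_nb, mem_nb]
      apply and_congr_right
      intro hx
      have h2 := congrFun hφ x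
      simp only [φ, hx, if_true] at h2
      have h3 : y ∈ nb G Aᶜ x ↔ y ∈ nb G' Aᶜ x := by rw [h2]
      rw [mem_nb, mem_nb, Finset.mem_compl] at h3
      rw [G.adj_comm, G'.adj_comm]
      tauto
  have hsub : ({u, u'} : Finset (Fin n)) ⊆ Aᶜ := by
    intro y hy
    rw [Finset.mem_insert, Finset.mem_singleton] at hy
    rw [Finset.mem_compl]
    rcases hy with rfl | rfl
    · exact hu
    · exact hu'
  have hcard2 : ({u, u'} : Finset (Fin n)).card = 2 := Finset.card_pair hne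
  have hB2 : 2 ≤ Aᶜ.card := by
    rw [← hcard2]
    exact Finset.card_le_card hsub
  have hboth : (Aᶜ.powerset.filter (fun C => u ∈ C ∧ u' ∈ C)).card = 2 ^ (Aᶜ.card - 2) := by
    have h2 : Aᶜ.powerset.filter (fun C => u ∈ C ∧ u' ∈ C) = Finset.Icc {u, u'} Aᶜ := by
      ext C
      rw [Finset.mem_filter, Finset.mem_powerset, Finset.mem_Icc]
      change _ ↔ ({u, u'} : Finset (Fin n)) ⊆ C ∧ C ⊆ Aᶜ
      rw [Finset.insert_subset_iff, Finset.singleton_subset_iff]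
      tauto
    rw [h2, Finset.card_Icc_finset hsub, hcard2]
  have hpow : 2 ^ Aᶜ.card = 4 * 2 ^ (Aᶜ.card - 2) := by
    have h2 : Aᶜ.card = 2 + (Aᶜ.card - 2) := by omega
    conv_lhs => rw [h2]
    rw [pow_add]
    norm_num
  have hnot : (Aᶜ.powerset.filter (fun C => ¬ (u ∈ C ∧ u' ∈ C))).card
      = 3 * 2 ^ (Aᶜ.card - 2) := by
    have h2 := Finset.card_filter_add_card_filter_not (s := Aᶜ.powerset)
      (fun C => u ∈ C ∧ u' ∈ C)
    rw [Finset.card_powerset, hboth, hpow] at h2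
    omega
  have hpowR : (2 : ℝ) ^ Aᶜ.card = 4 * 2 ^ (Aᶜ.card - 2) := by exact_mod_cast hpow
  have h3 : ∀ x, ((t x).card : ℝ) ≤
      (if x ∈ A then (2 : ℝ) ^ Aᶜ.card else 1) * (if x ∈ T then (3 / 4 : ℝ) else 1) := by
    intro x
    have hp : (0 : ℝ) < 2 ^ (Aᶜ.card - 2) := by positivity
    by_cases hx : x ∈ A
    · simp only [t, hx, if_true]
      by_cases hxT : x ∈ T
      · simp only [hxT, if_true, true_implies]
        by_cases hxJ : x ∈ J
        · simp only [hxJ, iff_true]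
          rw [hboth, hpowR]
          push_cast
          linarith
        · simp only [hxJ, iff_false]
          rw [hnot, hpowR]
          push_cast
          linarith
      · simp only [hxT, if_false, false_implies, mul_one]
        have h4 : (Aᶜ.powerset.filter (fun _ => True)).card ≤ 2 ^ Aᶜ.card := by
          rw [← Finset.card_powerset]
          exact Finset.card_filter_le _ _
        exact_mod_cast h4
    · have hxT : x ∉ T := fun h => hx (hT h)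
      simp only [t, hx, if_false, hxT, mul_one, Finset.card_singleton]
      norm_num
  calc ({G : SimpleGraph (Fin n) | inside G A = I ∧ nb G T u ∩ nb G T u' = J}.ncard : ℝ)
      ≤ ((Fintype.piFinset t).card : ℝ) := by exact_mod_cast h1
    _ = ∏ x, ((t x).card : ℝ) := by rw [Fintype.card_piFinset]; push_cast; rfl
    _ ≤ ∏ x, ((if x ∈ A then (2 : ℝ) ^ Aᶜ.card else 1) * (if x ∈ T then (3 / 4 : ℝ) else 1)) :=
        Finset.prod_le_prod (fun x _ => Nat.cast_nonneg _) (fun x _ => h3 x)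
    _ = 2 ^ (A.card * Aᶜ.card) * (3 / 4) ^ T.card := by
        rw [Finset.prod_mul_distrib, Finset.prod_ite_mem, Finset.prod_ite_mem,
          Finset.univ_inter, Finset.univ_inter, Finset.prod_const, Finset.prod_const, ← pow_mul,
          mul_comm A.card]

/-- the part of `G` inside `A` -/
private def y3_part {V : Type} (G : SimpleGraph V) (A : Finset V) : SimpleGraph V where
  Adj u v := G.Adj u v ∧ u ∈ A ∧ v ∈ A
  symm := ⟨fun _ _ h => ⟨h.1.symm, h.2.2, h.2.1⟩⟩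
  loopless := ⟨fun _ h => G.irrefl h.1⟩

private theorem y3_part_nb {V : Type} (G : SimpleGraph V) (A : Finset V) {v : V} (hv : v ∈ A) :
    nb (y3_part G A) A v = nb G A v := by
  ext x
  rw [mem_nb, mem_nb]
  simp only [y3_part]
  tauto

private theorem y3_part_bad {V : Type} [DecidableEq V] (G : SimpleGraph V) (A X : Finset V)
    (hX : X ⊆ A) (h : Bad (y3_part G A) X) : Bad G X := by
  have key : ∀ a b, a ∈ X → b ∈ X → ((y3_part G A).Adj a b ↔ G.Adj a b) := fun a b ha hb =>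
    ⟨fun h => h.1, fun h => ⟨h, hX ha, hX hb⟩⟩
  rcases h with ⟨a, b, c, rfl, h1, h2, h3⟩ | ⟨a, b, c, d, rfl, h1, h2, h3, h4, h5, h6⟩ |
    ⟨a, b, c, d, rfl, h1, h2, h3, h4, h5, h6⟩
  · exact Or.inl ⟨a, b, c, rfl, h1.1, h2.1, h3.1⟩
  · rw [key _ _ (by simp) (by simp)] at h1 h2 h3 h4 h5 h6
    exact Or.inr (Or.inl ⟨a, b, c, d, rfl, h1, h2, h3, h4, h5, h6⟩)
  · rw [key _ _ (by simp) (by simp)] at h1 h2 h3 h4 h5 h6
    exact Or.inr (Or.inr ⟨a, b, c, d, rfl, h1, h2, h3, h4, h5, h6⟩)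

private theorem y3_inside {V : Type} [Fintype V] [DecidableEq V] (G : SimpleGraph V)
    (A : Finset V) : inside G A = y3_part G A ⊔ y3_part G Aᶜ := by
  ext u v
  simp only [inside, y3_part, SimpleGraph.sup_adj, Finset.mem_compl]
  tauto

private theorem y3_oneSidedA {n : ℕ} {G : SimpleGraph (Fin n)} {A T1 T2 : Finset (Fin n)} {g : ℕ}
    (hc : Close G A T1 T2 g) (hb : ∀ X, Bad G X → ¬ X ⊆ A) :
    (y3_part G A, ∅) ∈ OneSided A T1 T2 g 0 := by
  refine ⟨fun u v h => ⟨h.2.1, h.2.2⟩, fun v hv => ?_, rfl, ⟨by simp, by simp⟩,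
    fun X hX _ hbad => hb X (y3_part_bad G A X hX hbad) hX⟩
  rw [y3_part_nb G A hv]
  exact hc.ins v hv

private theorem y3_oneSidedB {n : ℕ} {G : SimpleGraph (Fin n)} {A T1 T2 : Finset (Fin n)} {g : ℕ}
    (hc : Close G A T1 T2 g) (hb : ∀ X, Bad G X → ¬ X ⊆ Aᶜ) :
    (y3_part G Aᶜ, ∅) ∈ OneSided Aᶜ ∅ ∅ g 0 := by
  refine ⟨fun u v h => ⟨h.2.1, h.2.2⟩, fun v hv => ?_, rfl, ⟨by simp, by simp⟩,
    fun X hX _ hbad => hb X (y3_part_bad G Aᶜ X hX hbad) hX⟩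
  rw [y3_part_nb G Aᶜ hv]
  exact Or.inl (hc.out v (Finset.mem_compl.mp hv))

/-- The counting part. -/
private theorem y3_count {n : ℕ} (A T1 T2 : Finset (Fin n)) (g K : ℕ) :
    ({G : SimpleGraph (Fin n) | Balanced G A T1 T2 g K ∧
          (∀ X, Bad G X → ¬ X ⊆ A ∧ ¬ X ⊆ Aᶜ) ∧
          (∃ u v, u ∉ A ∧ v ∉ A ∧ G.Adj u v)}.ncard : ℝ) ≤
      ((OneSided A T1 T2 g 0).ncard * (OneSided Aᶜ ∅ ∅ g 0).ncard * (n ^ 2 * (2 * vol n g))) *
        (2 ^ (A.card * Aᶜ.card) * (3 / 4) ^ K) := by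
  classical
  set 𝒢 := {G : SimpleGraph (Fin n) | Balanced G A T1 T2 g K ∧
          (∀ X, Bad G X → ¬ X ⊆ A ∧ ¬ X ⊆ Aᶜ) ∧
          (∃ u v, u ∉ A ∧ v ∉ A ∧ G.Adj u v)} with h𝒢
  rcases 𝒢.eq_empty_or_nonempty with h0 | ⟨G₀, hG₀⟩
  · rw [h0, Set.ncard_empty, Nat.cast_zero]
    positivity
  have hT1 : T1 ⊆ A ∧ K ≤ T1.card := ⟨hG₀.1.1.sub1, hG₀.1.2.1⟩
  have hT2 : T2 ⊆ A ∧ K ≤ T2.card := ⟨hG₀.1.1.sub2, hG₀.1.2.2.1⟩
  let P := (Set.toFinite (OneSided A T1 T2 g 0)).toFinset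
  let Q := (Set.toFinite (OneSided Aᶜ ∅ ∅ g 0)).toFinset
  let S := (Finset.univ : Finset (Finset (Fin n))).filter (fun J => J.card ≤ g)
  let idx := (P ×ˢ Q) ×ˢ ((Finset.univ : Finset (Fin n × Fin n)) ×ˢ
    (({T1, T2} : Finset (Finset (Fin n))) ×ˢ S))
  let F : ((SimpleGraph (Fin n) × Finset (Finset (Fin n) × Finset (Fin n))) ×
      (SimpleGraph (Fin n) × Finset (Finset (Fin n) × Finset (Fin n)))) ×
      ((Fin n × Fin n) × (Finset (Fin n) × Finset (Fin n))) → Finset (SimpleGraph (Fin n)) :=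
    fun i => Finset.univ.filter (fun G => i.2.1.1 ∉ A ∧ i.2.1.2 ∉ A ∧ i.2.1.1 ≠ i.2.1.2 ∧
      inside G A = i.1.1.1 ⊔ i.1.2.1 ∧ nb G i.2.2.1 i.2.1.1 ∩ nb G i.2.2.1 i.2.1.2 = i.2.2.2)
  have hcover : 𝒢 ⊆ ((idx.biUnion F : Finset (SimpleGraph (Fin n))) : Set (SimpleGraph (Fin n))) := by
    rintro G ⟨hbal, hbad, u, v, hu, hv, huv⟩
    have hmem1 := y3_oneSidedA hbal.1 (fun X hX => (hbad X hX).1)
    have hmem2 := y3_oneSidedB hbal.1 (fun X hX => (hbad X hX).2)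
    obtain ⟨T, hT, hTg⟩ : ∃ T ∈ ({T1, T2} : Finset (Finset (Fin n))),
        (nb G T u ∩ nb G T v).card ≤ g := by
      rcases hbal.2.2.2 u v hu hv huv with h | h
      · exact ⟨T1, by simp, h⟩
      · exact ⟨T2, by simp, h⟩
    rw [Finset.mem_coe, Finset.mem_biUnion]
    refine ⟨(((y3_part G A, ∅), (y3_part G Aᶜ, ∅)), ((u, v), (T, nb G T u ∩ nb G T v))), ?_, ?_⟩
    · rw [Finset.mem_product, Finset.mem_product, Finset.mem_product, Finset.mem_product]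
      refine ⟨⟨(Set.Finite.mem_toFinset _).mpr hmem1, (Set.Finite.mem_toFinset _).mpr hmem2⟩,
        Finset.mem_univ _, hT, Finset.mem_filter.mpr ⟨Finset.mem_univ _, hTg⟩⟩
    · rw [Finset.mem_filter]
      exact ⟨Finset.mem_univ _, hu, hv, huv.ne, y3_inside G A, rfl⟩
  have hF : ∀ i ∈ idx, ((F i).card : ℝ) ≤ 2 ^ (A.card * Aᶜ.card) * (3 / 4) ^ K := by
    rintro ⟨⟨p, q⟩, ⟨⟨u, v⟩, ⟨T, J⟩⟩⟩ hi
    rw [Finset.mem_product, Finset.mem_product, Finset.mem_product, Finset.mem_product] at hi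
    have hT : T ⊆ A ∧ K ≤ T.card := by
      have h1 := hi.2.2.1
      rw [Finset.mem_insert, Finset.mem_singleton] at h1
      rcases h1 with h1 | h1
      · change T = T1 at h1
        rw [h1]; exact hT1
      · change T = T2 at h1
        rw [h1]; exact hT2
    by_cases huv : u ∉ A ∧ v ∉ A ∧ u ≠ v
    · have h1 := y3_pair A T J hT.1 u v huv.1 huv.2.1 huv.2.2 (p.1 ⊔ q.1)
      have h2 : ((F ((p, q), ((u, v), (T, J)))).card : ℝ) ≤
          ({G : SimpleGraph (Fin n) | inside G A = p.1 ⊔ q.1 ∧ nb G T u ∩ nb G T v = J}.ncard : ℝ) := by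
        rw [← Set.ncard_coe_finset]
        have h3 := Set.ncard_le_ncard (s := ((F ((p, q), ((u, v), (T, J))) :
          Finset (SimpleGraph (Fin n))) : Set (SimpleGraph (Fin n))))
          (t := {G : SimpleGraph (Fin n) | inside G A = p.1 ⊔ q.1 ∧ nb G T u ∩ nb G T v = J}) (by
            intro G hG
            have hG' := (Finset.mem_filter.mp (Finset.mem_coe.mp hG)).2
            exact ⟨hG'.2.2.2.1, hG'.2.2.2.2⟩) (Set.toFinite _)
        exact_mod_cast h3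
      refine h2.trans (h1.trans ?_)
      apply mul_le_mul_of_nonneg_left _ (by positivity)
      exact pow_le_pow_of_le_one (by norm_num) (by norm_num) hT.2
    · have h1 : F ((p, q), ((u, v), (T, J))) = ∅ := by
        rw [Finset.filter_eq_empty_iff]
        intro G _ hG
        exact huv ⟨hG.1, hG.2.1, hG.2.2.1⟩
      rw [h1, Finset.card_empty]
      push_cast
      positivity
  have hS : S.card ≤ vol n g := by
    have h1 := card_ball_le (V := Fin n) ∅ g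
    rw [Fintype.card_fin] at h1
    refine le_trans (le_of_eq ?_) h1
    congr 1
    ext J
    have h2 : symmDiff J (∅ : Finset (Fin n)) = J := by
      rw [← Finset.bot_eq_empty, symmDiff_bot]
    simp [S, h2]
  have hidx : (idx.card : ℝ) ≤
      (OneSided A T1 T2 g 0).ncard * (OneSided Aᶜ ∅ ∅ g 0).ncard * (n ^ 2 * (2 * vol n g)) := by
    have h1 : idx.card ≤ (OneSided A T1 T2 g 0).ncard * (OneSided Aᶜ ∅ ∅ g 0).ncard *
        (n ^ 2 * (2 * vol n g)) := by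
      rw [Finset.card_product, Finset.card_product, Finset.card_product, Finset.card_product]
      have h2 : P.card = (OneSided A T1 T2 g 0).ncard :=
        (Set.ncard_eq_toFinset_card _ _).symm
      have h3 : Q.card = (OneSided Aᶜ ∅ ∅ g 0).ncard :=
        (Set.ncard_eq_toFinset_card _ _).symm
      rw [h2, h3]
      apply Nat.mul_le_mul_left
      apply Nat.mul_le_mul
      · simp [sq]
      · exact Nat.mul_le_mul Finset.card_le_two hS
    exact_mod_cast h1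
  have h1 : 𝒢.ncard ≤ (idx.biUnion F).card := by
    rw [← Set.ncard_coe_finset]
    exact Set.ncard_le_ncard hcover (Set.toFinite _)
  calc (𝒢.ncard : ℝ) ≤ ((idx.biUnion F).card : ℝ) := by exact_mod_cast h1
    _ ≤ ∑ i ∈ idx, ((F i).card : ℝ) := by exact_mod_cast Finset.card_biUnion_le
    _ ≤ ∑ _i ∈ idx, (2 ^ (A.card * Aᶜ.card) * (3 / 4) ^ K : ℝ) := Finset.sum_le_sum hF
    _ = (idx.card : ℝ) * (2 ^ (A.card * Aᶜ.card) * (3 / 4) ^ K) := by
        rw [Finset.sum_const, nsmul_eq_mul]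
    _ ≤ _ := mul_le_mul_of_nonneg_right hidx (by positivity)

theorem count_balanced (κ : ℝ) (hκ : 0 < κ) : ∃ c > (0 : ℝ), ∃ γ > (0 : ℝ), ∃ n₀ : ℕ, ∀ n ≥ n₀,
    ∀ (A T1 T2 : Finset (Fin n)) (g K : ℕ), (g : ℝ) ≤ γ * n → κ * n ≤ K →
      ({G : SimpleGraph (Fin n) | Balanced G A T1 T2 g K ∧
          (∀ X, Bad G X → ¬ X ⊆ A ∧ ¬ X ⊆ Aᶜ) ∧
          (∃ u v, u ∉ A ∧ v ∉ A ∧ G.Adj u v)}.ncard : ℝ)
        ≤ 2 ^ (((A.card * Aᶜ.card : ℕ) : ℝ) - c * n) := by
  obtain ⟨γ₁, hγ₁, n₁, h₁⟩ := card_oneSided (κ / 20) (by positivity)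
  obtain ⟨γ₂, hγ₂, h₂⟩ := vol_bound (κ / 20) (by positivity)
  have hr : (1 : ℝ) < 2 ^ (κ / 10) := Real.one_lt_rpow (by norm_num) (by positivity)
  have hlim := tendsto_pow_const_div_const_pow_of_one_lt 2 hr
  have hev := hlim.eventually (gt_mem_nhds (show (0 : ℝ) < 1 / 2 by norm_num))
  obtain ⟨n₂, hn₂⟩ := Filter.eventually_atTop.mp hev
  refine ⟨κ / 10, by positivity, min γ₁ γ₂, lt_min hγ₁ hγ₂, max n₁ n₂, ?_⟩
  intro n hn A T1 T2 g K hg hK
  have hn0 : (0 : ℝ) ≤ n := Nat.cast_nonneg n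
  have hg1 : (g : ℝ) ≤ γ₁ * n := hg.trans (mul_le_mul_of_nonneg_right (min_le_left _ _) hn0)
  have hg2 : (g : ℝ) ≤ γ₂ * n := hg.trans (mul_le_mul_of_nonneg_right (min_le_right _ _) hn0)
  have hA := h₁ n (le_trans (le_max_left _ _) hn) A T1 T2 g hg1 0
  have hB := h₁ n (le_trans (le_max_left _ _) hn) Aᶜ ∅ ∅ g hg1 0
  have hvol := h₂ n g hg2
  have h2n := hn₂ n (le_trans (le_max_right _ _) hn)
  refine (y3_count A T1 T2 g K).trans ?_
  have two_pos : (0 : ℝ) < 2 := by norm_num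
  -- all factors as powers of two
  have e1 : (n : ℝ) ^ 2 * 2 ≤ 2 ^ (κ / 10 * n) := by
    rw [Real.rpow_mul two_pos.le, Real.rpow_natCast]
    have hp : (0 : ℝ) < (2 ^ (κ / 10)) ^ n := by positivity
    have h3 : (n : ℝ) ^ 2 / (2 ^ (κ / 10)) ^ n < 1 / 2 := h2n
    rw [div_lt_iff₀ hp] at h3
    linarith
  have e2 : ((3 : ℝ) / 4) ^ K ≤ 2 ^ (-(2 / 5) * κ * n) := by
    have h3 : ((3 : ℝ) / 4) ≤ 2 ^ (-(2 / 5) : ℝ) := by
      have h4 : ((3 : ℝ) / 4) ^ 5 ≤ (2 ^ (-(2 / 5) : ℝ)) ^ 5 := by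
        rw [← Real.rpow_natCast (2 ^ (-(2 / 5) : ℝ)) 5, ← Real.rpow_mul two_pos.le]
        norm_num
      exact le_of_pow_le_pow_left₀ (by norm_num) (by positivity) h4
    calc ((3 : ℝ) / 4) ^ K ≤ (2 ^ (-(2 / 5) : ℝ)) ^ K := pow_le_pow_left₀ (by norm_num) h3 K
      _ = 2 ^ (-(2 / 5) * (K : ℝ)) := by
        rw [← Real.rpow_natCast, ← Real.rpow_mul two_pos.le]
      _ ≤ 2 ^ (-(2 / 5) * κ * n) := by
        apply Real.rpow_le_rpow_of_exponent_le (by norm_num)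
        nlinarith
  have e3 : (2 : ℝ) ^ (A.card * Aᶜ.card) = 2 ^ ((A.card * Aᶜ.card : ℕ) : ℝ) :=
    (Real.rpow_natCast _ _).symm
  have e4 : ((OneSided A T1 T2 g 0).ncard : ℝ) * ((OneSided Aᶜ ∅ ∅ g 0).ncard : ℝ) ≤
      2 ^ (κ / 20 * n) * 2 ^ (κ / 20 * n) := by
    have hA' : ((OneSided A T1 T2 g 0).ncard : ℝ) ≤ 2 ^ (κ / 20 * n) := by
      refine hA.trans (le_of_eq ?_)
      congr 1
      push_cast
      ring
    have hB' : ((OneSided Aᶜ ∅ ∅ g 0).ncard : ℝ) ≤ 2 ^ (κ / 20 * n) := by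
      refine hB.trans (le_of_eq ?_)
      congr 1
      push_cast
      ring
    exact mul_le_mul hA' hB' (Nat.cast_nonneg _) (by positivity)
  have e5 : (n : ℝ) ^ 2 * (2 * vol n g) ≤ 2 ^ (κ / 10 * n) * 2 ^ (κ / 20 * n) := by
    rw [← mul_assoc]
    exact mul_le_mul e1 hvol (Nat.cast_nonneg _) (by positivity)
  calc _ ≤ (((2 : ℝ) ^ (κ / 20 * n) * 2 ^ (κ / 20 * n)) *
        ((2 : ℝ) ^ (κ / 10 * n) * 2 ^ (κ / 20 * n))) *
        ((2 : ℝ) ^ ((A.card * Aᶜ.card : ℕ) : ℝ) * 2 ^ (-(2 / 5) * κ * n)) := by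
        rw [e3]
        apply mul_le_mul
        · exact mul_le_mul e4 e5 (by positivity) (by positivity)
        · exact mul_le_mul_of_nonneg_left e2 (by positivity)
        · positivity
        · positivity
    _ = (2 : ℝ) ^ (κ / 20 * n + κ / 20 * n + (κ / 10 * n + κ / 20 * n) +
        (((A.card * Aᶜ.card : ℕ) : ℝ) + -(2 / 5) * κ * n)) := by
        rw [← Real.rpow_add two_pos, ← Real.rpow_add two_pos, ← Real.rpow_add two_pos,
          ← Real.rpow_add two_pos, ← Real.rpow_add two_pos]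
    _ ≤ _ := by
        apply Real.rpow_le_rpow_of_exponent_le (by norm_num)
        nlinarith [mul_nonneg hκ.le hn0]

end Pool.Agent.Helper17.TP
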