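import Pool.Agent.Helper17.TP.C
import Pool.Agent.Helper17.TP.EXC
import Pool.Agent.Helper17.TP.D6
import Pool.Agent.Helper17.TP.Y2
import Pool.Agent.Helper17.TP.Y3
import Pool.Agent.Helper17.TP.L1

/-!
# Block TP-FIN: the final count

`#{G t-perfect (usual convention), not typical} ≤ 2^(-c n) #{G typical, no isolated vertex}`.

Proof.  Constants: `γ₁, n₁` from `count_close (1/1000)`; `κ` with `κ ≤ 1/1000` and `60 κ ≤ γ₁`;
`vol(n, 30 κ n + ...) ≤ 2^(n/1000)` (`vol_bound (1/1000)` gives `γ₂`; `60 κ ≤ γ₂`);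
`c₃, γ₃` from `count_balanced κ`; `m = ⌈δ n⌉` with `δ ≤ κ/100`, `50 δ ≤ min(γ₁, γ₃)`;
`K = ⌈κ n⌉` (so `8 m ≤ K` for large `n`).
Let `G` be t-perfect and not typical.  Either `G` is one of the `2^((1/4 - c₀) n²)` exceptional
graphs of block EXC, or there is `A` with `||A| - n/2| ≤ δ n` and `GenAll G A m`, so (block D6) there
are `A', T1, T2`, `3n ≤ 8|A'| ≤ 5n`, with
 (1) `Balanced G A' T1 T2 (25m) K` and a bad set in `A'` or `A'ᶜ`: for each `(A', T1, T2)` at most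
    `2^(|A'||A'ᶜ| - n/200)` graphs (`count_close`), and at most `3^|A'|` pairs `(T1, T2)` of disjoint
    subsets of `A'`: total `≤ 2^(-n/200) W n`;
 (2) `Balanced`, no bad set in `A'`, `A'ᶜ`: if `A'ᶜ` is stable then `G` is typical: by
    `structure_of_no_bad` (`U = A'`; if `G[A']` has an edge `vw` take `A₁ = nb G A' w`,
    `A₂ = nb G A' v`, disjoint since there is no triangle; otherwise `A₁ = A₂ = ∅`).  So there is an
    edge in `A'ᶜ`: `≤ 2^(|A'||A'ᶜ| - c₃ n)` graphs each (`count_balanced`), total `≤ 2^(-c₃ n) W n`;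
 (3) `Close G A' T1 T2 (29 m + K)`, `|T1| ≤ 29 m + K`: for each `(A', T1, T2)` at most
    `2^(|A'||A'ᶜ| + n/1000)` graphs; number of `(T1, T2)`: `≤ 2^(n/1000) 2^|A'|`; and
    `2^|A'| ≤ 3^|A'| 2^(-0.58 · 3n/8) ≤ 3^|A'| 2^(-n/5)`: total `≤ 2^(-n/10) W n`.
 (0) the exceptional ones: `2^((1/4 - c₀) n²) ≤ 2^(-n) W n` for large `n`, since `W n ≥ 2^(n²/4 - 1)`
    (one set `A` with `⌊n/2⌋` elements).
Total `≤ 2^(-2 c n) W n ≤ 2^(-c n) #{typical, no isolated vertex}` (`W_le c`).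
-/

set_option autoImplicit false

namespace Pool.Agent.Helper17.TP

open SimpleGraph Finset

private theorem fin_typical {V : Type} [Fintype V] [DecidableEq V] {G : SimpleGraph V}
    {A : Finset V} (hA : ∀ X ⊆ A, ¬ Bad G X) (hB : ∀ u v, u ∉ A → v ∉ A → ¬ G.Adj u v) :
    Typical G := by
  by_cases h : ∃ v ∈ A, ∃ w ∈ A, G.Adj v w
  · obtain ⟨v, hv, w, hw, hvw⟩ := h
    refine ⟨A, nb G A w, nb G A v, ?_, ?_, ?_, hB, ?_⟩
    · intro x hx; exact (mem_nb.1 hx).1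
    · intro x hx; exact (mem_nb.1 hx).1
    · rw [Finset.disjoint_left]
      intro x hx hx'
      rw [mem_nb] at hx hx'
      have := (structure_of_no_bad hA hv hw hvw hx.1 hx.1).2 (Or.inl ⟨hx'.2, hx.2⟩)
      exact G.irrefl this
    · intro a ha b hb
      rw [structure_of_no_bad hA hv hw hvw ha hb, mem_nb, mem_nb, mem_nb, mem_nb]
      tauto
  · push Not at h
    refine ⟨A, ∅, ∅, by simp, by simp, by simp, hB, ?_⟩
    intro a ha b hb
    simp [h a ha b hb]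

private def prsA {V : Type} [DecidableEq V] (A : Finset V) : Finset (Σ _ : Finset V, Finset V) :=
  A.powerset.sigma (fun T => (A \ T).powerset)

private theorem card_prsA {V : Type} [DecidableEq V] (A : Finset V) :
    (prsA A).card = 3 ^ A.card := by
  have h := Finset.sum_pow_mul_eq_add_pow (1 : ℕ) 2 A
  rw [prsA, Finset.card_sigma]
  rw [show (3 : ℕ) = 1 + 2 from rfl, ← h]
  refine Finset.sum_congr rfl fun T hT => ?_
  rw [Finset.card_powerset, Finset.card_sdiff_of_subset (Finset.mem_powerset.1 hT), one_pow,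
    one_mul]

private theorem mem_prsA {V : Type} [DecidableEq V] {A T1 T2 : Finset V} (h1 : T1 ⊆ A)
    (h2 : T2 ⊆ A) (hd : Disjoint T1 T2) : (⟨T1, T2⟩ : Σ _ : Finset V, Finset V) ∈ prsA A := by
  rw [prsA, Finset.mem_sigma]
  refine ⟨Finset.mem_powerset.2 h1, Finset.mem_powerset.2 ?_⟩
  intro x hx
  exact Finset.mem_sdiff.2 ⟨h2 hx, fun hx' => Finset.disjoint_left.1 hd hx' hx⟩

private theorem card_small (n q : ℕ) :
    ((Finset.univ : Finset (Finset (Fin n))).filter (fun T => T.card ≤ q)).card ≤ vol n q := by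
  have h := card_ball_le (V := Fin n) ∅ q
  rw [Fintype.card_fin] at h
  refine le_trans (le_of_eq ?_) h
  congr 1
  ext S
  have hS : symmDiff S (∅ : Finset (Fin n)) = S := by
    rw [← Finset.bot_eq_empty, symmDiff_bot]
  simp [hS]

/-- the middle sets -/
private def midA (n : ℕ) : Finset (Finset (Fin n)) :=
  Finset.univ.filter (fun A => 3 * n ≤ 8 * A.card ∧ 8 * A.card ≤ 5 * n)

/-- covering of the non typical graphs -/
private theorem cover {n m K : ℕ} {δ : ℝ} (hm : m = ⌈δ * n⌉₊) (hm1 : 1 ≤ m) (hK : 8 * m ≤ K)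
    (hsz : ∀ A : Finset (Fin n), |(A.card : ℝ) - n / 2| ≤ δ * n →
      4 * m ≤ A.card ∧ 4 * m ≤ Aᶜ.card ∧ ∀ A' : Finset (Fin n),
        ((A'.card ≤ A.card + (13 * m + K) ∧ A.card ≤ A'.card + (13 * m + K)) ∨
        (A'.card ≤ Aᶜ.card + (13 * m + K) ∧ Aᶜ.card ≤ A'.card + (13 * m + K))) → A' ∈ midA n) :
    {G : SimpleGraph (Fin n) | TPerf G ∧ ¬ Typical G} ⊆
      {G : SimpleGraph (Fin n) | TPerf G ∧ ¬ ∃ A : Finset (Fin n),
        |(A.card : ℝ) - n / 2| ≤ δ * n ∧ GenAll G A ⌈δ * n⌉₊} ∪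
      ⋃ A ∈ midA n, ((⋃ t ∈ prsA A,
        ({G : SimpleGraph (Fin n) | TPerf G ∧ Close G A t.1 t.2 (25 * m) ∧
          ∃ X, Bad G X ∧ (X ⊆ A ∨ X ⊆ Aᶜ)} ∪
        {G : SimpleGraph (Fin n) | Balanced G A t.1 t.2 (25 * m) K ∧
          (∀ X, Bad G X → ¬ X ⊆ A ∧ ¬ X ⊆ Aᶜ) ∧
          (∃ u v, u ∉ A ∧ v ∉ A ∧ G.Adj u v)})) ∪
        ⋃ t ∈ ((Finset.univ : Finset (Finset (Fin n))).filter
          (fun T => T.card ≤ 29 * m + K)) ×ˢ A.powerset,
          {G : SimpleGraph (Fin n) | TPerf G ∧ Close G A t.1 t.2 (29 * m + K)}) := by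
  rintro G ⟨hG, hT⟩
  by_cases hex : ∃ A : Finset (Fin n), |(A.card : ℝ) - n / 2| ≤ δ * n ∧ GenAll G A ⌈δ * n⌉₊
  · right
    obtain ⟨A, hA, hgen⟩ := hex
    rw [← hm] at hgen
    obtain ⟨h1, h2, h3⟩ := hsz A hA
    obtain ⟨A', T1, T2, hc, hcl⟩ := coarse hG A m K hm1 hK hgen h1 h2
    have hmid := h3 A' hc
    refine Set.mem_iUnion₂.2 ⟨A', hmid, ?_⟩
    rcases hcl with hb | ⟨hcl, hcd⟩
    · left
      refine Set.mem_iUnion₂.2 ⟨⟨T1, T2⟩, mem_prsA hb.1.sub1 hb.1.sub2 hb.1.disj, ?_⟩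
      by_cases hbad : ∃ X, Bad G X ∧ (X ⊆ A' ∨ X ⊆ A'ᶜ)
      · left
        exact ⟨hG, hb.1, hbad⟩
      · right
        refine ⟨hb, ?_, ?_⟩
        · intro X hX
          exact ⟨fun h => hbad ⟨X, hX, Or.inl h⟩, fun h => hbad ⟨X, hX, Or.inr h⟩⟩
        · by_contra hcon
          push Not at hcon
          exact hT (fin_typical (A := A') (fun X hX hB => hbad ⟨X, hB, Or.inl hX⟩)
            (fun u v hu hv => hcon u v hu hv))
    · right
      refine Set.mem_iUnion₂.2 ⟨(T1, T2), ?_, hG, hcl⟩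
      rw [Finset.mem_product]
      exact ⟨Finset.mem_filter.2 ⟨Finset.mem_univ _, hcd⟩, Finset.mem_powerset.2 hcl.sub2⟩
  · left
    exact ⟨hG, hex⟩

private theorem ncard_cover {n m K : ℕ} {δ : ℝ} {b1 b2 b3 Q : ℝ}
    (hm : m = ⌈δ * n⌉₊) (hm1 : 1 ≤ m) (hK : 8 * m ≤ K)
    (hsz : ∀ A : Finset (Fin n), |(A.card : ℝ) - n / 2| ≤ δ * n →
      4 * m ≤ A.card ∧ 4 * m ≤ Aᶜ.card ∧ ∀ A' : Finset (Fin n),
        ((A'.card ≤ A.card + (13 * m + K) ∧ A.card ≤ A'.card + (13 * m + K)) ∨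
        (A'.card ≤ Aᶜ.card + (13 * m + K) ∧ Aᶜ.card ≤ A'.card + (13 * m + K))) → A' ∈ midA n)
    (h1 : ∀ A ∈ midA n, ∀ T1 T2, ({G : SimpleGraph (Fin n) | TPerf G ∧ Close G A T1 T2 (25 * m) ∧
          ∃ X, Bad G X ∧ (X ⊆ A ∨ X ⊆ Aᶜ)}.ncard : ℝ) ≤ 2 ^ (A.card * Aᶜ.card) * b1)
    (h2 : ∀ A ∈ midA n, ∀ T1 T2, ({G : SimpleGraph (Fin n) | Balanced G A T1 T2 (25 * m) K ∧
          (∀ X, Bad G X → ¬ X ⊆ A ∧ ¬ X ⊆ Aᶜ) ∧
          (∃ u v, u ∉ A ∧ v ∉ A ∧ G.Adj u v)}.ncard : ℝ) ≤ 2 ^ (A.card * Aᶜ.card) * b2)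
    (h3 : ∀ A ∈ midA n, ∀ T1 T2, ({G : SimpleGraph (Fin n) | TPerf G ∧
          Close G A T1 T2 (29 * m + K)}.ncard : ℝ) ≤ 2 ^ (A.card * Aᶜ.card) * b3)
    (hQ : (vol n (29 * m + K) : ℝ) ≤ Q) (hb3 : 0 ≤ b3) :
    ({G : SimpleGraph (Fin n) | TPerf G ∧ ¬ Typical G}.ncard : ℝ) ≤
      ({G : SimpleGraph (Fin n) | TPerf G ∧ ¬ ∃ A : Finset (Fin n),
        |(A.card : ℝ) - n / 2| ≤ δ * n ∧ GenAll G A ⌈δ * n⌉₊}.ncard : ℝ) +
      ∑ A ∈ midA n, (3 ^ A.card * (2 ^ (A.card * Aᶜ.card) * b1 + 2 ^ (A.card * Aᶜ.card) * b2) +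
        Q * 2 ^ A.card * (2 ^ (A.card * Aᶜ.card) * b3)) := by
  have hc := Set.ncard_le_ncard (cover hm hm1 hK hsz) (Set.toFinite _)
  have hc' : ({G : SimpleGraph (Fin n) | TPerf G ∧ ¬ Typical G}.ncard : ℝ) ≤ _ := Nat.cast_le.2 hc
  refine le_trans hc' ?_
  refine le_trans (Nat.cast_le.2 (Set.ncard_union_le _ _)) ?_
  rw [Nat.cast_add]
  refine add_le_add le_rfl ?_
  refine le_trans (Nat.cast_le.2 (Finset.set_ncard_biUnion_le _ _)) ?_
  rw [Nat.cast_sum]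
  refine Finset.sum_le_sum fun A hA => ?_
  refine le_trans (Nat.cast_le.2 (Set.ncard_union_le _ _)) ?_
  rw [Nat.cast_add]
  refine add_le_add ?_ ?_
  · refine le_trans (Nat.cast_le.2 (Finset.set_ncard_biUnion_le _ _)) ?_
    rw [Nat.cast_sum]
    refine le_trans (Finset.sum_le_card_nsmul _ _
      (2 ^ (A.card * Aᶜ.card) * b1 + 2 ^ (A.card * Aᶜ.card) * b2) ?_) ?_
    · intro t _
      refine le_trans (Nat.cast_le.2 (Set.ncard_union_le _ _)) ?_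
      rw [Nat.cast_add]
      exact add_le_add (h1 A hA t.1 t.2) (h2 A hA t.1 t.2)
    · rw [card_prsA, nsmul_eq_mul]
      push_cast
      exact le_rfl
  · refine le_trans (Nat.cast_le.2 (Finset.set_ncard_biUnion_le _ _)) ?_
    rw [Nat.cast_sum]
    refine le_trans (Finset.sum_le_card_nsmul _ _ (2 ^ (A.card * Aᶜ.card) * b3)
      (fun t _ => h3 A hA t.1 t.2)) ?_
    rw [nsmul_eq_mul, Finset.card_product, Finset.card_powerset]
    push_cast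
    refine mul_le_mul_of_nonneg_right ?_ (by positivity)
    refine mul_le_mul_of_nonneg_right ?_ (by positivity)
    exact le_trans (by exact_mod_cast card_small n (29 * m + K)) hQ

private theorem W_eq (n : ℕ) : W n = ∑ A ∈ midA n, (3 : ℝ) ^ A.card * 2 ^ (A.card * Aᶜ.card) := by
  rfl

private theorem W_ge {n : ℕ} (hn : 4 ≤ n) : (2 : ℝ) ^ (((n : ℝ) ^ 2 - 1) / 4) ≤ W n := by
  obtain ⟨A, hA⟩ : ∃ A : Finset (Fin n), A.card = n / 2 := by
    obtain ⟨A, _, hA⟩ := Finset.exists_subset_card_eq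
      (s := (Finset.univ : Finset (Fin n))) (n := n / 2) (by simp; omega)
    exact ⟨A, hA⟩
  have hAc : Aᶜ.card = n - n / 2 := by rw [Finset.card_compl, Fintype.card_fin, hA]
  have hmem : A ∈ midA n := by
    rw [midA, Finset.mem_filter]
    refine ⟨Finset.mem_univ _, ?_⟩
    rw [hA]; omega
  have h1 : (3 : ℝ) ^ A.card * 2 ^ (A.card * Aᶜ.card) ≤ W n := by
    rw [W_eq]
    exact Finset.single_le_sum (f := fun A : Finset (Fin n) => (3 : ℝ) ^ A.card * 2 ^ (A.card * Aᶜ.card))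
      (fun B _ => by positivity) hmem
  refine le_trans ?_ h1
  have h2 : (2 : ℝ) ^ (((n : ℝ) ^ 2 - 1) / 4) ≤ 2 ^ ((A.card * Aᶜ.card : ℕ) : ℝ) := by
    refine Real.rpow_le_rpow_of_exponent_le (by norm_num) ?_
    rw [hA, hAc]
    have h3 : n ^ 2 ≤ 4 * ((n / 2) * (n - n / 2)) + 1 := by
      obtain ⟨k, hk | hk⟩ : ∃ k, n = 2 * k ∨ n = 2 * k + 1 := ⟨n / 2, by omega⟩
      · subst hk
        have e1 : 2 * k / 2 = k := by omega
        have e2 : 2 * k - k = k := by omega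
        rw [e1, e2]; nlinarith
      · subst hk
        have e1 : (2 * k + 1) / 2 = k := by omega
        have e2 : 2 * k + 1 - k = k + 1 := by omega
        rw [e1, e2]; nlinarith
    have h4 : ((n : ℝ)) ^ 2 ≤ 4 * ((n / 2 * (n - n / 2) : ℕ) : ℝ) + 1 := by exact_mod_cast h3
    linarith
  rw [Real.rpow_natCast] at h2
  refine le_trans h2 ?_
  have h5 : (1 : ℝ) ≤ 3 ^ A.card := one_le_pow₀ (by norm_num)
  nlinarith [pow_pos (show (0 : ℝ) < 2 by norm_num) (A.card * Aᶜ.card)]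

private theorem two_le_three {n a : ℕ} (h : 3 * n ≤ 8 * a) :
    (2 : ℝ) ^ a ≤ 3 ^ a * 2 ^ (-((n : ℝ) / 5)) := by
  have h1 : (2 : ℝ) ^ ((n : ℝ) / 5) ≤ (3 / 2) ^ a := by
    have h2 : (2 : ℝ) ^ (8 : ℕ) ≤ (3 / 2) ^ (15 : ℕ) := by norm_num
    have h3 : ((2 : ℝ) ^ (8 : ℕ)) ^ ((n : ℝ) / 40) ≤ ((3 / 2) ^ (15 : ℕ)) ^ ((n : ℝ) / 40) :=
      Real.rpow_le_rpow (by norm_num) h2 (by positivity)
    rw [← Real.rpow_natCast, ← Real.rpow_mul (by norm_num), ← Real.rpow_natCast,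
      ← Real.rpow_mul (by norm_num)] at h3
    have e1 : ((8 : ℕ) : ℝ) * ((n : ℝ) / 40) = (n : ℝ) / 5 := by push_cast; ring
    rw [e1] at h3
    refine le_trans h3 ?_
    rw [← Real.rpow_natCast (3 / 2) a]
    refine Real.rpow_le_rpow_of_exponent_le (by norm_num) ?_
    have h4 : 3 * (n : ℝ) ≤ 8 * a := by exact_mod_cast h
    push_cast
    linarith
  have h2 : (0 : ℝ) < 2 ^ ((n : ℝ) / 5) := by positivity
  rw [Real.rpow_neg (by norm_num), ← div_eq_mul_inv, le_div_iff₀ h2]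
  have h3 : (3 : ℝ) ^ a = 2 ^ a * (3 / 2) ^ a := by rw [← mul_pow]; norm_num
  rw [h3]
  exact mul_le_mul_of_nonneg_left h1 (by positivity)

private theorem sum_bound {n : ℕ} {b1 b2 b3 Q : ℝ} (hb3 : 0 ≤ b3) (hQ : 0 ≤ Q) :
    ∑ A ∈ midA n, (3 ^ A.card * (2 ^ (A.card * Aᶜ.card) * b1 + 2 ^ (A.card * Aᶜ.card) * b2) +
        Q * 2 ^ A.card * (2 ^ (A.card * Aᶜ.card) * b3)) ≤
      (b1 + b2 + Q * 2 ^ (-((n : ℝ) / 5)) * b3) * W n := by
  rw [W_eq, Finset.mul_sum]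
  refine Finset.sum_le_sum fun A hA => ?_
  rw [midA, Finset.mem_filter] at hA
  have h1 := two_le_three hA.2.1
  have h2 : Q * 2 ^ A.card * (2 ^ (A.card * Aᶜ.card) * b3) ≤
      Q * (3 ^ A.card * 2 ^ (-((n : ℝ) / 5))) * (2 ^ (A.card * Aᶜ.card) * b3) := by
    refine mul_le_mul_of_nonneg_right ?_ (by positivity)
    exact mul_le_mul_of_nonneg_left h1 hQ
  have e : (b1 + b2 + Q * 2 ^ (-((n : ℝ) / 5)) * b3) * (3 ^ A.card * 2 ^ (A.card * Aᶜ.card)) =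
      3 ^ A.card * (2 ^ (A.card * Aᶜ.card) * b1 + 2 ^ (A.card * Aᶜ.card) * b2) +
      Q * (3 ^ A.card * 2 ^ (-((n : ℝ) / 5))) * (2 ^ (A.card * Aᶜ.card) * b3) := by ring
  rw [e]
  linarith

theorem final_count : ∃ c > (0 : ℝ), ∃ n₀ : ℕ, ∀ n ≥ n₀,
    ({G : SimpleGraph (Fin n) | TPerf G ∧ ¬ Typical G}.ncard : ℝ)
      ≤ 2 ^ (-(c * n)) *
        ({G : SimpleGraph (Fin n) | Typical G ∧ ∀ v, ∃ u, G.Adj v u}.ncard : ℝ) := by
  obtain ⟨γ₁, hγ₁, n₁, H1⟩ := count_close (1 / 1000) (by norm_num)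
  obtain ⟨γ₂, hγ₂, H2⟩ := vol_bound (1 / 1000) (by norm_num)
  obtain ⟨κ, hκ, hκ1, hκ2, hκ3⟩ : ∃ κ : ℝ, 0 < κ ∧ κ ≤ 1 / 1000 ∧ 60 * κ ≤ γ₁ ∧ 60 * κ ≤ γ₂ := by
    refine ⟨min (1 / 1000) (min (γ₁ / 60) (γ₂ / 60)), by positivity, min_le_left _ _, ?_, ?_⟩
    · have := le_trans (min_le_right (1 / 1000 : ℝ) (min (γ₁ / 60) (γ₂ / 60))) (min_le_left _ _)
      linarith
    · have := le_trans (min_le_right (1 / 1000 : ℝ) (min (γ₁ / 60) (γ₂ / 60))) (min_le_right _ _)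
      linarith
  obtain ⟨c₃, hc₃, γ₃, hγ₃, n₃, H3⟩ := count_balanced κ hκ
  obtain ⟨δ, hδ, hδ1, hδ2, hδ3⟩ : ∃ δ : ℝ, 0 < δ ∧ 100 * δ ≤ κ ∧ 50 * δ ≤ γ₁ ∧ 50 * δ ≤ γ₃ := by
    refine ⟨min (κ / 100) (min (γ₁ / 50) (γ₃ / 50)), by positivity, ?_, ?_, ?_⟩
    · have := min_le_left (κ / 100) (min (γ₁ / 50) (γ₃ / 50))
      linarith
    · have := le_trans (min_le_right (κ / 100) (min (γ₁ / 50) (γ₃ / 50))) (min_le_left _ _)
      linarith
    · have := le_trans (min_le_right (κ / 100) (min (γ₁ / 50) (γ₃ / 50))) (min_le_right _ _)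
      linarith
  obtain ⟨c₀, hc₀, n₄, H4⟩ := exceptional δ hδ
  obtain ⟨c', hc', hc'1, hc'2⟩ : ∃ c' : ℝ, 0 < c' ∧ c' ≤ c₃ ∧ c' ≤ 1 / 200 :=
    ⟨min c₃ (1 / 200), by positivity, min_le_left _ _, min_le_right _ _⟩
  obtain ⟨n₅, H5⟩ := W_le (c' / 4) (by positivity)
  obtain ⟨N, hN⟩ : ∃ N : ℕ, ∀ n : ℕ, N ≤ n → n₁ ≤ n ∧ n₃ ≤ n ∧ n₄ ≤ n ∧ n₅ ≤ n ∧
      10 ≤ κ * n ∧ 50 ≤ γ₁ * n ∧ 60 ≤ γ₂ * n ∧ 60 ≤ γ₃ * n ∧ 2 ≤ c₀ * n ∧ 4 ≤ c' * n ∧
      1000 ≤ (n : ℝ) ∧ 60 ≤ γ₁ * n := by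
    have key : ∀ a : ℝ, 0 < a → ∀ b : ℝ, ∃ N : ℕ, ∀ n : ℕ, N ≤ n → b ≤ a * n := by
      intro a ha b
      obtain ⟨N, hN⟩ := exists_nat_ge (b / a)
      refine ⟨N, fun n hn => ?_⟩
      have h1 : b / a ≤ n := le_trans hN (by exact_mod_cast hn)
      rw [div_le_iff₀ ha] at h1
      linarith
    obtain ⟨N1, h1⟩ := key κ hκ 10
    obtain ⟨N2, h2⟩ := key γ₁ hγ₁ 60
    obtain ⟨N3, h3⟩ := key γ₂ hγ₂ 60
    obtain ⟨N4, h4⟩ := key γ₃ hγ₃ 60
    obtain ⟨N5, h5⟩ := key c₀ hc₀ 2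
    obtain ⟨N6, h6⟩ := key c' hc' 4
    refine ⟨n₁ + n₃ + n₄ + n₅ + N1 + N2 + N3 + N4 + N5 + N6 + 1000, fun n hn => ?_⟩
    refine ⟨by omega, by omega, by omega, by omega, h1 n (by omega), ?_, h3 n (by omega),
      h4 n (by omega), h5 n (by omega), h6 n (by omega), ?_, h2 n (by omega)⟩
    · linarith [h2 n (by omega)]
    · have : 1000 ≤ n := by omega
      exact_mod_cast this
  refine ⟨c' / 4, by positivity, N, fun n hn => ?_⟩
  obtain ⟨g1, g3, g4, g5, e1, e2, e3, e4, e5, e6, e7, e8⟩ := hN n hn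
  set m : ℕ := ⌈δ * n⌉₊ with hm
  set K : ℕ := ⌈κ * n⌉₊ with hKdef
  have hδn : 0 < δ * n := by positivity
  have m1 : δ * n ≤ m := Nat.le_ceil _
  have m2 : (m : ℝ) < δ * n + 1 := Nat.ceil_lt_add_one hδn.le
  have K1 : κ * n ≤ K := Nat.le_ceil _
  have K2 : (K : ℝ) < κ * n + 1 := Nat.ceil_lt_add_one (by positivity)
  have hnpos : (0 : ℝ) < n := by linarith
  have d1 : 100 * (δ * n) ≤ κ * n := by nlinarith
  have d2 : 50 * (δ * n) ≤ γ₁ * n := by nlinarith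
  have d3 : 50 * (δ * n) ≤ γ₃ * n := by nlinarith
  have d4 : κ * n ≤ n / 1000 := by nlinarith
  have d5 : 60 * (κ * n) ≤ γ₁ * n := by nlinarith
  have d6 : 60 * (κ * n) ≤ γ₂ * n := by nlinarith
  have hm1 : 1 ≤ m := Nat.one_le_iff_ne_zero.2 (by rw [hm]; exact (Nat.ceil_pos.2 hδn).ne')
  have hK8 : 8 * m ≤ K := by
    have : (8 * m : ℝ) ≤ K := by linarith
    exact_mod_cast this
  have hsz : ∀ A : Finset (Fin n), |(A.card : ℝ) - n / 2| ≤ δ * n →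
      4 * m ≤ A.card ∧ 4 * m ≤ Aᶜ.card ∧ ∀ A' : Finset (Fin n),
        ((A'.card ≤ A.card + (13 * m + K) ∧ A.card ≤ A'.card + (13 * m + K)) ∨
        (A'.card ≤ Aᶜ.card + (13 * m + K) ∧ Aᶜ.card ≤ A'.card + (13 * m + K))) →
        A' ∈ midA n := by
    intro A hA
    have hAc : (A.card : ℝ) + Aᶜ.card = n := by
      have := Finset.card_add_card_compl A
      rw [Fintype.card_fin] at this
      exact_mod_cast this
    rw [abs_le] at hA
    refine ⟨?_, ?_, ?_⟩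
    · have : (4 * m : ℝ) ≤ A.card := by linarith
      exact_mod_cast this
    · have : (4 * m : ℝ) ≤ Aᶜ.card := by linarith
      exact_mod_cast this
    · intro A' h
      rw [midA, Finset.mem_filter]
      refine ⟨Finset.mem_univ _, ?_⟩
      have h' : |(A'.card : ℝ) - n / 2| ≤ δ * n + (13 * m + K) := by
        rw [abs_le]
        rcases h with ⟨ha, hb⟩ | ⟨ha, hb⟩
        · have ha' : (A'.card : ℝ) ≤ A.card + (13 * m + K) := by exact_mod_cast ha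
          have hb' : (A.card : ℝ) ≤ A'.card + (13 * m + K) := by exact_mod_cast hb
          constructor <;> linarith
        · have ha' : (A'.card : ℝ) ≤ Aᶜ.card + (13 * m + K) := by exact_mod_cast ha
          have hb' : (Aᶜ.card : ℝ) ≤ A'.card + (13 * m + K) := by exact_mod_cast hb
          constructor <;> linarith
      rw [abs_le] at h'
      constructor
      · have : (3 * n : ℝ) ≤ 8 * A'.card := by linarith
        exact_mod_cast this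
      · have : (8 * A'.card : ℝ) ≤ 5 * n := by linarith
        exact_mod_cast this
  have hmidc : ∀ A ∈ midA n, n ≤ 3 * A.card ∧ n ≤ 3 * Aᶜ.card := by
    intro A hA
    rw [midA, Finset.mem_filter] at hA
    have := Finset.card_add_card_compl A
    rw [Fintype.card_fin] at this
    omega
  have g25 : ((25 * m : ℕ) : ℝ) ≤ γ₁ * n := by push_cast; linarith
  have g25' : ((25 * m : ℕ) : ℝ) ≤ γ₃ * n := by push_cast; linarith
  have g29 : ((29 * m + K : ℕ) : ℝ) ≤ γ₁ * n := by push_cast; linarith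
  have g29' : ((29 * m + K : ℕ) : ℝ) ≤ γ₂ * n := by push_cast; linarith
  have hmain := ncard_cover (n := n) (m := m) (K := K) (δ := δ) (b1 := 2 ^ (-((n : ℝ) / 200)))
    (b2 := 2 ^ (-(c₃ * n))) (b3 := 2 ^ ((1 / 1000 : ℝ) * n)) (Q := 2 ^ ((1 / 1000 : ℝ) * n))
    hm hm1 hK8 hsz ?_ ?_ ?_ (H2 n _ g29') (by positivity)
  · have hs := sum_bound (n := n) (b1 := (2 : ℝ) ^ (-((n : ℝ) / 200)))
      (b2 := (2 : ℝ) ^ (-(c₃ * n))) (b3 := (2 : ℝ) ^ ((1 / 1000 : ℝ) * n))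
      (Q := (2 : ℝ) ^ ((1 / 1000 : ℝ) * n)) (by positivity) (by positivity)
    have hE := H4 n g4
    have hW0 : 0 ≤ W n := by
      rw [W_eq]; exact Finset.sum_nonneg fun A _ => by positivity
    have hWg : (2 : ℝ) ^ (((n : ℝ) ^ 2 - 1) / 4) ≤ W n := W_ge (by
      have : (4 : ℝ) ≤ n := by linarith
      exact_mod_cast this)
    have hE2 : (2 : ℝ) ^ ((1 / 4 - c₀) * (n : ℝ) ^ 2) ≤ 2 ^ (-(c' * n)) * W n := by
      refine le_trans ?_ (mul_le_mul_of_nonneg_left hWg (by positivity))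
      rw [← Real.rpow_add (by norm_num)]
      refine Real.rpow_le_rpow_of_exponent_le (by norm_num) ?_
      nlinarith
    have p1 : (2 : ℝ) ^ (-((n : ℝ) / 200)) ≤ 2 ^ (-(c' * n)) :=
      Real.rpow_le_rpow_of_exponent_le (by norm_num) (by nlinarith)
    have p2 : (2 : ℝ) ^ (-(c₃ * n)) ≤ 2 ^ (-(c' * n)) :=
      Real.rpow_le_rpow_of_exponent_le (by norm_num) (by nlinarith)
    have p3 : (2 : ℝ) ^ ((1 / 1000 : ℝ) * n) * 2 ^ (-((n : ℝ) / 5)) * 2 ^ ((1 / 1000 : ℝ) * n) ≤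
        2 ^ (-(c' * n)) := by
      rw [← Real.rpow_add (by norm_num), ← Real.rpow_add (by norm_num)]
      exact Real.rpow_le_rpow_of_exponent_le (by norm_num) (by nlinarith)
    have q1 : ({G : SimpleGraph (Fin n) | TPerf G ∧ ¬ Typical G}.ncard : ℝ) ≤
        4 * 2 ^ (-(c' * n)) * W n := by
      refine le_trans hmain ?_
      have r1 : ((2 : ℝ) ^ (-((n : ℝ) / 200)) + 2 ^ (-(c₃ * n)) +
          2 ^ ((1 / 1000 : ℝ) * n) * 2 ^ (-((n : ℝ) / 5)) * 2 ^ ((1 / 1000 : ℝ) * n)) * W n ≤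
          (2 ^ (-(c' * n)) + 2 ^ (-(c' * n)) + 2 ^ (-(c' * n))) * W n :=
        mul_le_mul_of_nonneg_right (add_le_add (add_le_add p1 p2) p3) hW0
      linarith
    have q2 : (4 : ℝ) * 2 ^ (-(c' * n)) ≤ 2 ^ (-(c' / 4 * n)) * 2 ^ (-(c' / 4 * n)) := by
      have r1 : (4 : ℝ) = 2 ^ (2 : ℝ) := by norm_num
      rw [r1, ← Real.rpow_add (by norm_num), ← Real.rpow_add (by norm_num)]
      exact Real.rpow_le_rpow_of_exponent_le (by norm_num) (by nlinarith)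
    have q3 := H5 n g5
    calc ({G : SimpleGraph (Fin n) | TPerf G ∧ ¬ Typical G}.ncard : ℝ)
        ≤ 4 * 2 ^ (-(c' * n)) * W n := q1
      _ ≤ 2 ^ (-(c' / 4 * n)) * 2 ^ (-(c' / 4 * n)) * W n :=
          mul_le_mul_of_nonneg_right q2 hW0
      _ ≤ 2 ^ (-(c' / 4 * n)) * 2 ^ (-(c' / 4 * n)) * (2 ^ (c' / 4 * n) *
          ({G : SimpleGraph (Fin n) | Typical G ∧ ∀ v, ∃ u, G.Adj v u}.ncard : ℝ)) :=
          mul_le_mul_of_nonneg_left q3 (by positivity)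
      _ = 2 ^ (-(c' / 4 * n)) * (2 ^ (-(c' / 4 * n)) * 2 ^ (c' / 4 * n)) *
          ({G : SimpleGraph (Fin n) | Typical G ∧ ∀ v, ∃ u, G.Adj v u}.ncard : ℝ) := by ring
      _ = 2 ^ (-(c' / 4 * n)) *
          ({G : SimpleGraph (Fin n) | Typical G ∧ ∀ v, ∃ u, G.Adj v u}.ncard : ℝ) := by
          rw [← Real.rpow_add (by norm_num), neg_add_cancel, Real.rpow_zero, mul_one]
  · intro A hA T1 T2
    obtain ⟨ha, hb⟩ := hmidc A hA
    have := (H1 n g1 A T1 T2 (25 * m) g25 ha hb).2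
    rw [sub_eq_add_neg, Real.rpow_add (by norm_num), Real.rpow_natCast] at this
    exact this
  · intro A hA T1 T2
    have := H3 n g3 A T1 T2 (25 * m) K g25' K1
    rw [sub_eq_add_neg, Real.rpow_add (by norm_num), Real.rpow_natCast] at this
    exact this
  · intro A hA T1 T2
    obtain ⟨ha, hb⟩ := hmidc A hA
    have := (H1 n g1 A T1 T2 (29 * m + K) g29 ha hb).1
    rw [Real.rpow_add (by norm_num), Real.rpow_natCast] at this
    exact this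

end Pool.Agent.Helper17.TP
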