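import Pool.Agent.Helper17.TP.F

/-!
# Block TP-R1: three regular clusters give an H4

`V1, V2, V3` pairwise disjoint stable sets, pairwise `ε`-uniform with densities in `[d, 1-d]`,
`0 < ε ≤ d^3/20` (so `d ≤ 1/2`, `ε ≤ 1/160`), `V3` has at least 2 elements.  Then there are
vertices `p1, p3 ∈ V1`, `p2, p4 ∈ V2`, `h, c ∈ V3` forming the pattern H4 of block F3.

Proof.  (Fact) for an `ε`-uniform pair `(S, T)` with density `≥ d` and `T' ⊆ T`, `|T'| ≥ ε|T|`: at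
most `ε|S|` (strictly fewer than, or the set is not `≥ ε|S|`) vertices `s ∈ S` have
`|N(s) ∩ T'| < (d - ε)|T'|` (otherwise the set `S'` of these has `|S'| ≥ ε |S|` and density to `T'`
`< d - ε`); the same for non-neighbours when the density is `≤ 1 - d`.
1. choose `h ∈ V3` with `Y1 = N(h) ∩ V1`, `Y2 = N(h) ∩ V2` of size `≥ (d-ε)|V_i|`
   (bad: `≤ 2ε|V3| < |V3|`).
2. choose `c ∈ V3`, `c ≠ h`, such that `P1 = Y1 ∩ N(c)`, `P3 = Y1 \ N(c)`, `P4 = Y2 ∩ N(c)`,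
   `P2 = Y2 \ N(c)` have sizes `≥ (d-ε)|Y_i| ≥ (d-ε)^2 |V_i|` (bad: `≤ 4ε|V3| < |V3| - 1`).
3. choose `p1 ∈ P1` with `|N(p1) ∩ P2| ≥ (d-ε)|P2|`, `|P4 \ N(p1)| ≥ (d-ε)|P4|`
   (bad `≤ 2ε|V1| < |P1|`, as `(d-ε)^2 > 2ε`).
4. choose `p3 ∈ P3` with a neighbour `p2` in `N(p1) ∩ P2` and a neighbour `p4` in `P4 \ N(p1)`
   (both sets have size `≥ (d-ε)^3|V2| ≥ ε|V2|`, bad `≤ 2ε|V1| < |P3|`).
Then `p1~p2~p3~p4~c~p1`, `p1≁p3`, `p2≁p4` (stable sets), `p1≁p4`, `p2≁c`, `p3≁c`, `h` adjacent to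
`p1..p4`, `h≁c`.

`three_clusters`: the same conclusion `False` for t-perfect `G` and arbitrary (not stable) clusters
`U1, U2, U3`, `|U_i| ≥ 6`, pairwise `ε`-uniform with densities in `[δ, 1-δ]`, `0 < ε ≤ δ^3/480`: take
stable subsets `V_i ⊆ U_i` with `|V_i| ≥ |U_i|/3 ≥ 2` (`TPA.exists_third`).  `V_i, V_j` are
`3ε`-uniform (`s' ⊆ V_i` with `|s'| ≥ 3ε|V_i|` has `|s'| ≥ ε|U_i|`; two applications of uniformity of
`(U_i, U_j)`: differences `< 2ε ≤ 3ε`), density in `[δ - ε, 1 - δ + ε] ⊆ [d, 1-d]`, `d = δ/2`,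
`3ε ≤ d^3/20`.  Then `no_H4`.
-/

set_option autoImplicit false

namespace Pool.Agent.Helper17.TP

open SimpleGraph Finset

variable {V : Type} [Fintype V] [DecidableEq V]

private lemma dens_eq (G : SimpleGraph V) [DecidableRel G.Adj] (S T : Finset V) :
    (G.edgeDensity S T : ℝ) = (∑ s ∈ S, ((T.filter (fun t => G.Adj s t)).card : ℝ)) /
      ((S.card : ℝ) * T.card) := by
  have h1 : (G.interedges S T).card = ∑ s ∈ S, (T.filter (fun t => G.Adj s t)).card := by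
    have h2 : G.interedges S T = (S ×ˢ T).filter (fun e => G.Adj e.1 e.2) := rfl
    rw [h2, Finset.card_filter, Finset.sum_product]
    refine Finset.sum_congr rfl fun a _ => ?_
    rw [Finset.card_filter]
  rw [SimpleGraph.edgeDensity_def, h1]
  push_cast
  rfl

private lemma few_bad (G : SimpleGraph V) [DecidableRel G.Adj] {d ε : ℝ} (hεd : ε < d)
    {S T T' : Finset V} (u : G.IsUniform ε S T) (hd : d ≤ (G.edgeDensity S T : ℝ))
    (hT' : T' ⊆ T) (hc : (T.card : ℝ) * ε ≤ T'.card) :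
    ((S.filter (fun s => ((T'.filter (fun t => G.Adj s t)).card : ℝ) <
      (d - ε) * T'.card)).card : ℝ) < S.card * ε := by
  by_contra hcon
  push Not at hcon
  set S' := S.filter (fun s => ((T'.filter (fun t => G.Adj s t)).card : ℝ) < (d - ε) * T'.card)
    with hS'
  have h1 := u (Finset.filter_subset _ _ : S' ⊆ S) hT' hcon hc
  have h2 : (G.edgeDensity S' T' : ℝ) ≤ d - ε := by
    rw [dens_eq]
    have h3 : ∑ s ∈ S', ((T'.filter (fun t => G.Adj s t)).card : ℝ) ≤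
        (d - ε) * ((S'.card : ℝ) * T'.card) := by
      calc ∑ s ∈ S', ((T'.filter (fun t => G.Adj s t)).card : ℝ)
          ≤ ∑ _s ∈ S', (d - ε) * (T'.card : ℝ) := by
            refine Finset.sum_le_sum fun s hs => ?_
            rw [hS', Finset.mem_filter] at hs
            exact hs.2.le
        _ = (d - ε) * ((S'.card : ℝ) * T'.card) := by
            rw [Finset.sum_const, nsmul_eq_mul]; ring
    rcases eq_or_lt_of_le (show (0 : ℝ) ≤ (S'.card : ℝ) * T'.card by positivity) with h0 | h0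
    · rw [← h0, div_zero]; linarith
    · rw [div_le_iff₀ h0]; exact h3
  have h4 := (abs_lt.1 h1).1
  linarith

private lemma few_bad' (G : SimpleGraph V) [DecidableRel G.Adj] {d ε : ℝ} (hεd : ε < d)
    {S T T' : Finset V} (u : G.IsUniform ε S T) (hd : d ≤ (G.edgeDensity S T : ℝ))
    (hd' : (G.edgeDensity S T : ℝ) ≤ 1 - d)
    (hT' : T' ⊆ T) (hc : (T.card : ℝ) * ε ≤ T'.card) :
    ((S.filter (fun s => ((T'.filter (fun t => ¬ G.Adj s t)).card : ℝ) <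
      (d - ε) * T'.card)).card : ℝ) < S.card * ε := by
  by_contra hcon
  push Not at hcon
  set S' := S.filter (fun s => ((T'.filter (fun t => ¬ G.Adj s t)).card : ℝ) < (d - ε) * T'.card)
    with hS'
  have h1 := u (Finset.filter_subset _ _ : S' ⊆ S) hT' hcon hc
  rcases eq_or_lt_of_le (show (0 : ℝ) ≤ (S'.card : ℝ) * T'.card by positivity) with h0 | h0
  · have h2 : (G.edgeDensity S' T' : ℝ) = 0 := by
      rw [dens_eq, ← h0, div_zero]
    rw [h2] at h1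
    have h4 := (abs_lt.1 h1).1
    linarith
  · have h2 : 1 - d + ε ≤ (G.edgeDensity S' T' : ℝ) := by
      rw [dens_eq, le_div_iff₀ h0]
      calc (1 - d + ε) * ((S'.card : ℝ) * T'.card)
          = ∑ _s ∈ S', (1 - d + ε) * (T'.card : ℝ) := by
            rw [Finset.sum_const, nsmul_eq_mul]; ring
        _ ≤ ∑ s ∈ S', ((T'.filter (fun t => G.Adj s t)).card : ℝ) := by
            refine Finset.sum_le_sum fun s hs => ?_
            rw [hS', Finset.mem_filter] at hs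
            have h5 : ((T'.filter (fun t => G.Adj s t)).card : ℝ) +
                ((T'.filter (fun t => ¬ G.Adj s t)).card : ℝ) = T'.card := by
              exact_mod_cast Finset.card_filter_add_card_filter_not (s := T') (fun t => G.Adj s t)
            linarith [hs.2]
    have h4 := (abs_lt.1 h1).2
    linarith

private lemma pick {S B : Finset V} (h : (B.card : ℝ) < S.card) : ∃ s ∈ S, s ∉ B := by
  have h1 : B.card < S.card := by exact_mod_cast h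
  exact Finset.exists_mem_notMem_of_card_lt_card h1

private lemma card_union_le' (A B : Finset V) : ((A ∪ B).card : ℝ) ≤ (A.card : ℝ) + B.card := by
  exact_mod_cast Finset.card_union_le A B

theorem embed_H4 (G : SimpleGraph V) [DecidableRel G.Adj] {d ε : ℝ} (hε : 0 < ε)
    (hdε : ε ≤ d ^ 3 / 20) (hd : 0 < d)
    (V1 V2 V3 : Finset V) (h12 : Disjoint V1 V2) (h13 : Disjoint V1 V3) (h23 : Disjoint V2 V3)
    (s1 : G.IsIndepSet (V1 : Set V)) (s2 : G.IsIndepSet (V2 : Set V))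
    (s3 : G.IsIndepSet (V3 : Set V))
    (u12 : G.IsUniform ε V1 V2) (u13 : G.IsUniform ε V1 V3) (u23 : G.IsUniform ε V2 V3)
    (d12 : d ≤ (G.edgeDensity V1 V2 : ℝ) ∧ (G.edgeDensity V1 V2 : ℝ) ≤ 1 - d)
    (d13 : d ≤ (G.edgeDensity V1 V3 : ℝ) ∧ (G.edgeDensity V1 V3 : ℝ) ≤ 1 - d)
    (d23 : d ≤ (G.edgeDensity V2 V3 : ℝ) ∧ (G.edgeDensity V2 V3 : ℝ) ≤ 1 - d)
    (hc : 2 ≤ V3.card) :
    ∃ p1 p2 p3 p4 c h : V, G.Adj p1 p2 ∧ G.Adj p2 p3 ∧ G.Adj p3 p4 ∧ G.Adj p4 c ∧ G.Adj c p1 ∧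
      ¬ G.Adj p1 p3 ∧ ¬ G.Adj p1 p4 ∧ ¬ G.Adj p2 p4 ∧ ¬ G.Adj p2 c ∧ ¬ G.Adj p3 c ∧
      G.Adj h p1 ∧ G.Adj h p2 ∧ G.Adj h p3 ∧ G.Adj h p4 ∧ ¬ G.Adj h c := by
  classical
  -- numerical facts
  have hd2 : d ≤ 1 / 2 := by linarith [d12.1, d12.2]
  have hε1 : ε ≤ d ^ 2 / 40 := by nlinarith [sq_nonneg d, pow_pos hd 2]
  have hε2 : ε ≤ d / 80 := by nlinarith
  have hεd : ε < d := by linarith
  have hδ : 0 < d - ε := by linarith
  have hδ1 : d * (79 / 80) ≤ d - ε := by linarith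
  have hsq : d ^ 2 * (9 / 10) ≤ (d - ε) ^ 2 := by
    nlinarith [mul_self_nonneg (d - ε - d * (79 / 80)), mul_nonneg hd.le (sub_nonneg.2 hδ1)]
  have hcb : d ^ 3 * (8 / 10) ≤ (d - ε) ^ 3 := by
    have h1 : d ^ 2 * (9 / 10) * (d * (79 / 80)) ≤ (d - ε) ^ 2 * (d - ε) :=
      mul_le_mul hsq hδ1 (by positivity) (by positivity)
    nlinarith [pow_pos hd 3]
  have hεsq : 2 * ε ≤ (d - ε) ^ 2 := by nlinarith [pow_pos hd 2]
  have hεcb : ε ≤ (d - ε) ^ 3 := by nlinarith [pow_pos hd 3]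
  have hε160 : ε ≤ 1 / 160 := by nlinarith
  have hd1 : d - ε ≤ 1 := by linarith
  have d31 : d ≤ (G.edgeDensity V3 V1 : ℝ) ∧ (G.edgeDensity V3 V1 : ℝ) ≤ 1 - d := by
    rw [SimpleGraph.edgeDensity_comm]; exact d13
  have d32 : d ≤ (G.edgeDensity V3 V2 : ℝ) ∧ (G.edgeDensity V3 V2 : ℝ) ≤ 1 - d := by
    rw [SimpleGraph.edgeDensity_comm]; exact d23
  have u31 := u13.symm
  have u32 := u23.symm
  have hc' : (2 : ℝ) ≤ V3.card := by exact_mod_cast hc
  have ha : (0 : ℝ) < V1.card := by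
    rcases Nat.eq_zero_or_pos V1.card with h0 | h0
    · rw [Finset.card_eq_zero] at h0
      subst h0
      rw [dens_eq] at d12
      simp at d12
      linarith [d12.1]
    · exact_mod_cast h0
  have hb : (0 : ℝ) < V2.card := by
    rcases Nat.eq_zero_or_pos V2.card with h0 | h0
    · rw [Finset.card_eq_zero] at h0
      subst h0
      rw [dens_eq] at d12
      simp at d12
      linarith [d12.1]
    · exact_mod_cast h0
  -- step 1
  obtain ⟨h, hh, hhb⟩ := pick (S := V3) (B := (V3.filter (fun s =>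
      ((V1.filter (fun t => G.Adj s t)).card : ℝ) < (d - ε) * V1.card)) ∪ (V3.filter (fun s =>
      ((V2.filter (fun t => G.Adj s t)).card : ℝ) < (d - ε) * V2.card))) (by
    have h1 := few_bad G hεd u31 d31.1 (Finset.Subset.refl V1) (by nlinarith)
    have h2 := few_bad G hεd u32 d32.1 (Finset.Subset.refl V2) (by nlinarith)
    refine (card_union_le' _ _).trans_lt ?_
    nlinarith)
  simp only [Finset.mem_union, Finset.mem_filter, not_or, not_and, not_lt] at hhb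
  obtain ⟨hY1, hY2⟩ := hhb
  replace hY1 := hY1 hh
  replace hY2 := hY2 hh
  set Y1 := V1.filter (fun t => G.Adj h t) with hY1def
  set Y2 := V2.filter (fun t => G.Adj h t) with hY2def
  have hY1s : Y1 ⊆ V1 := Finset.filter_subset _ _
  have hY2s : Y2 ⊆ V2 := Finset.filter_subset _ _
  have e1 : (V1.card : ℝ) * ε ≤ Y1.card := by nlinarith
  have e2 : (V2.card : ℝ) * ε ≤ Y2.card := by nlinarith
  -- step 2
  obtain ⟨c, hcm, hcb'⟩ := pick (S := V3) (B := {h} ∪ (((V3.filter (fun s =>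
      ((Y1.filter (fun t => G.Adj s t)).card : ℝ) < (d - ε) * Y1.card)) ∪ (V3.filter (fun s =>
      ((Y1.filter (fun t => ¬ G.Adj s t)).card : ℝ) < (d - ε) * Y1.card))) ∪ ((V3.filter (fun s =>
      ((Y2.filter (fun t => G.Adj s t)).card : ℝ) < (d - ε) * Y2.card)) ∪ (V3.filter (fun s =>
      ((Y2.filter (fun t => ¬ G.Adj s t)).card : ℝ) < (d - ε) * Y2.card))))) (by
    have h1 := few_bad G hεd u31 d31.1 hY1s e1
    have h2 := few_bad' G hεd u31 d31.1 d31.2 hY1s e1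
    have h3 := few_bad G hεd u32 d32.1 hY2s e2
    have h4 := few_bad' G hεd u32 d32.1 d32.2 hY2s e2
    have h5 : (({h} : Finset V).card : ℝ) = 1 := by simp
    refine (card_union_le' _ _).trans_lt ?_
    refine (add_le_add_right (card_union_le' _ _) _).trans_lt ?_
    have h6 := card_union_le' (V3.filter (fun s =>
      ((Y1.filter (fun t => G.Adj s t)).card : ℝ) < (d - ε) * Y1.card)) (V3.filter (fun s =>
      ((Y1.filter (fun t => ¬ G.Adj s t)).card : ℝ) < (d - ε) * Y1.card))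
    have h7 := card_union_le' (V3.filter (fun s =>
      ((Y2.filter (fun t => G.Adj s t)).card : ℝ) < (d - ε) * Y2.card)) (V3.filter (fun s =>
      ((Y2.filter (fun t => ¬ G.Adj s t)).card : ℝ) < (d - ε) * Y2.card))
    nlinarith)
  simp only [Finset.mem_union, Finset.mem_filter, Finset.mem_singleton, not_or, not_and,
    not_lt] at hcb'
  obtain ⟨-, ⟨hP1, hP3⟩, ⟨hP4, hP2⟩⟩ := hcb'
  replace hP1 := hP1 hcm
  replace hP2 := hP2 hcm
  replace hP3 := hP3 hcm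
  replace hP4 := hP4 hcm
  set P1 := Y1.filter (fun t => G.Adj c t) with hP1def
  set P3 := Y1.filter (fun t => ¬ G.Adj c t) with hP3def
  set P4 := Y2.filter (fun t => G.Adj c t) with hP4def
  set P2 := Y2.filter (fun t => ¬ G.Adj c t) with hP2def
  have hP2s : P2 ⊆ V2 := (Finset.filter_subset _ _).trans hY2s
  have hP4s : P4 ⊆ V2 := (Finset.filter_subset _ _).trans hY2s
  have f1 : (d - ε) ^ 2 * V1.card ≤ P1.card := by nlinarith
  have f3 : (d - ε) ^ 2 * V1.card ≤ P3.card := by nlinarith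
  have f2 : (d - ε) ^ 2 * V2.card ≤ P2.card := by nlinarith
  have f4 : (d - ε) ^ 2 * V2.card ≤ P4.card := by nlinarith
  have g2 : (V2.card : ℝ) * ε ≤ P2.card := by nlinarith
  have g4 : (V2.card : ℝ) * ε ≤ P4.card := by nlinarith
  -- step 3
  obtain ⟨p1, hp1, hp1b⟩ := pick (S := P1) (B := (V1.filter (fun s =>
      ((P2.filter (fun t => G.Adj s t)).card : ℝ) < (d - ε) * P2.card)) ∪ (V1.filter (fun s =>
      ((P4.filter (fun t => ¬ G.Adj s t)).card : ℝ) < (d - ε) * P4.card))) (by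
    have h1 := few_bad G hεd u12 d12.1 hP2s g2
    have h2 := few_bad' G hεd u12 d12.1 d12.2 hP4s g4
    refine (card_union_le' _ _).trans_lt ?_
    nlinarith)
  have hp1V : p1 ∈ V1 := hY1s (Finset.mem_of_mem_filter _ hp1)
  simp only [Finset.mem_union, Finset.mem_filter, not_or, not_and, not_lt] at hp1b
  obtain ⟨hQ2, hQ4⟩ := hp1b
  replace hQ2 := hQ2 hp1V
  replace hQ4 := hQ4 hp1V
  set Q2 := P2.filter (fun t => G.Adj p1 t) with hQ2def
  set Q4 := P4.filter (fun t => ¬ G.Adj p1 t) with hQ4def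
  have hQ2s : Q2 ⊆ V2 := (Finset.filter_subset _ _).trans hP2s
  have hQ4s : Q4 ⊆ V2 := (Finset.filter_subset _ _).trans hP4s
  have k2 : (d - ε) ^ 3 * V2.card ≤ Q2.card := by
    have : (d - ε) * ((d - ε) ^ 2 * V2.card) ≤ (d - ε) * P2.card :=
      mul_le_mul_of_nonneg_left f2 hδ.le
    calc (d - ε) ^ 3 * V2.card = (d - ε) * ((d - ε) ^ 2 * V2.card) := by ring
      _ ≤ _ := this.trans hQ2
  have k4 : (d - ε) ^ 3 * V2.card ≤ Q4.card := by
    have : (d - ε) * ((d - ε) ^ 2 * V2.card) ≤ (d - ε) * P4.card :=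
      mul_le_mul_of_nonneg_left f4 hδ.le
    calc (d - ε) ^ 3 * V2.card = (d - ε) * ((d - ε) ^ 2 * V2.card) := by ring
      _ ≤ _ := this.trans hQ4
  have l2 : (V2.card : ℝ) * ε ≤ Q2.card := by nlinarith
  have l4 : (V2.card : ℝ) * ε ≤ Q4.card := by nlinarith
  -- step 4
  obtain ⟨p3, hp3, hp3b⟩ := pick (S := P3) (B := (V1.filter (fun s =>
      ((Q2.filter (fun t => G.Adj s t)).card : ℝ) < (d - ε) * Q2.card)) ∪ (V1.filter (fun s =>
      ((Q4.filter (fun t => G.Adj s t)).card : ℝ) < (d - ε) * Q4.card))) (by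
    have h1 := few_bad G hεd u12 d12.1 hQ2s l2
    have h2 := few_bad G hεd u12 d12.1 hQ4s l4
    refine (card_union_le' _ _).trans_lt ?_
    nlinarith)
  have hp3V : p3 ∈ V1 := hY1s (Finset.mem_of_mem_filter _ hp3)
  simp only [Finset.mem_union, Finset.mem_filter, not_or, not_and, not_lt] at hp3b
  obtain ⟨hR2, hR4⟩ := hp3b
  replace hR2 := hR2 hp3V
  replace hR4 := hR4 hp3V
  have hpos : 0 < (d - ε) ^ 3 * V2.card := by positivity
  have hR2' : 0 < ((Q2.filter (fun t => G.Adj p3 t)).card : ℝ) :=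
    lt_of_lt_of_le (mul_pos hδ (hpos.trans_le k2)) hR2
  have hR4' : 0 < ((Q4.filter (fun t => G.Adj p3 t)).card : ℝ) :=
    lt_of_lt_of_le (mul_pos hδ (hpos.trans_le k4)) hR4
  obtain ⟨p2, hp2⟩ := Finset.card_pos.1 (Nat.cast_pos.1 hR2')
  obtain ⟨p4, hp4⟩ := Finset.card_pos.1 (Nat.cast_pos.1 hR4')
  rw [Finset.mem_filter, hQ2def, Finset.mem_filter, hP2def, Finset.mem_filter, hY2def,
    Finset.mem_filter] at hp2
  rw [Finset.mem_filter, hQ4def, Finset.mem_filter, hP4def, Finset.mem_filter, hY2def,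
    Finset.mem_filter] at hp4
  rw [hP1def, Finset.mem_filter, hY1def, Finset.mem_filter] at hp1
  rw [hP3def, Finset.mem_filter, hY1def, Finset.mem_filter] at hp3
  obtain ⟨⟨⟨⟨hp2V, hhp2⟩, hcp2⟩, hp12⟩, hp32⟩ := hp2
  obtain ⟨⟨⟨⟨hp4V, hhp4⟩, hcp4⟩, hp14⟩, hp34⟩ := hp4
  obtain ⟨⟨-, hhp1⟩, hcp1⟩ := hp1
  obtain ⟨⟨-, hhp3⟩, hcp3⟩ := hp3
  have hindep : ∀ {S : Finset V}, G.IsIndepSet (S : Set V) → ∀ a ∈ S, ∀ b ∈ S, ¬ G.Adj a b := by
    intro S hS a ha b hb hab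
    exact hS ha hb hab.ne hab
  exact ⟨p1, p2, p3, p4, c, h, hp12, hp32.symm, hp34, hcp4.symm, hcp1,
    hindep s1 _ hp1V _ hp3V, hp14, hindep s2 _ hp2V _ hp4V, fun h' => hcp2 h'.symm,
    fun h' => hcp3 h'.symm, hhp1, hhp2, hhp3, hhp4, hindep s3 _ hh _ hcm⟩

theorem three_clusters {G : SimpleGraph V} [DecidableRel G.Adj] (hG : TPerf G) {δ ε : ℝ}
    (hδ : 0 < δ) (hε : 0 < ε) (hdε : ε ≤ δ ^ 3 / 480)
    (U1 U2 U3 : Finset V) (h12 : Disjoint U1 U2) (h13 : Disjoint U1 U3) (h23 : Disjoint U2 U3)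
    (u12 : G.IsUniform ε U1 U2) (u13 : G.IsUniform ε U1 U3) (u23 : G.IsUniform ε U2 U3)
    (d12 : δ ≤ (G.edgeDensity U1 U2 : ℝ) ∧ (G.edgeDensity U1 U2 : ℝ) ≤ 1 - δ)
    (d13 : δ ≤ (G.edgeDensity U1 U3 : ℝ) ∧ (G.edgeDensity U1 U3 : ℝ) ≤ 1 - δ)
    (d23 : δ ≤ (G.edgeDensity U2 U3 : ℝ) ∧ (G.edgeDensity U2 U3 : ℝ) ≤ 1 - δ)
    (c1 : 6 ≤ U1.card) (c2 : 6 ≤ U2.card) (c3 : 6 ≤ U3.card) : False := by
  classical
  obtain ⟨V1, hV1, s1, c1'⟩ := TPA.exists_third hG U1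
  obtain ⟨V2, hV2, s2, c2'⟩ := TPA.exists_third hG U2
  obtain ⟨V3, hV3, s3, c3'⟩ := TPA.exists_third hG U3
  have hδ2 : δ ≤ 1 / 2 := by linarith [d12.1, d12.2]
  have hεδ : ε ≤ δ / 1000 := by nlinarith [mul_pos hδ hδ]
  have key : ∀ {U U' W W' : Finset V}, G.IsUniform ε U U' → W ⊆ U → W' ⊆ U' →
      (U.card : ℝ) / 3 ≤ W.card → (U'.card : ℝ) / 3 ≤ W'.card →
      δ ≤ (G.edgeDensity U U' : ℝ) → (G.edgeDensity U U' : ℝ) ≤ 1 - δ →
      G.IsUniform (3 * ε) W W' ∧ δ / 2 ≤ (G.edgeDensity W W' : ℝ) ∧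
        (G.edgeDensity W W' : ℝ) ≤ 1 - δ / 2 := by
    intro U U' W W' hu hW hW' hc hc' hl hr
    have hU0 : (0 : ℝ) ≤ U.card := Nat.cast_nonneg _
    have hU0' : (0 : ℝ) ≤ U'.card := Nat.cast_nonneg _
    have h0 := hu hW hW' (by nlinarith) (by nlinarith)
    have h0' := abs_lt.1 h0
    refine ⟨?_, by linarith [h0'.1], by linarith [h0'.2]⟩
    intro S hS T hT hSc hTc
    have h1 := hu (hS.trans hW) (hT.trans hW') (by nlinarith) (by nlinarith)
    have h1' := abs_lt.1 h1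
    rw [abs_lt]
    constructor <;> linarith [h0'.1, h0'.2, h1'.1, h1'.2]
  obtain ⟨v12, e12, f12⟩ := key u12 hV1 hV2 c1' c2' d12.1 d12.2
  obtain ⟨v13, e13, f13⟩ := key u13 hV1 hV3 c1' c3' d13.1 d13.2
  obtain ⟨v23, e23, f23⟩ := key u23 hV2 hV3 c2' c3' d23.1 d23.2
  obtain ⟨p1, p2, p3, p4, c, h, q1, q2, q3, q4, q5, q6, q7, q8, q9, q10, q11, q12, q13, q14,
    q15⟩ := embed_H4 G (d := δ / 2) (ε := 3 * ε) (by linarith) (by nlinarith) (by linarith)
    V1 V2 V3 (Finset.disjoint_of_subset_left hV1 (Finset.disjoint_of_subset_right hV2 h12))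
    (Finset.disjoint_of_subset_left hV1 (Finset.disjoint_of_subset_right hV3 h13))
    (Finset.disjoint_of_subset_left hV2 (Finset.disjoint_of_subset_right hV3 h23))
    s1 s2 s3 v12 v13 v23 ⟨e12, f12⟩ ⟨e13, f13⟩ ⟨e23, f23⟩ (by
      have h6 : (6 : ℝ) ≤ U3.card := by exact_mod_cast c3
      have h7 : (2 : ℝ) ≤ V3.card := by linarith
      exact_mod_cast h7)
  exact no_H4 hG q1 q2 q3 q4 q5 q6 q7 q8 q9 q10 q11 q12 q13 q14 q15

end Pool.Agent.Helper17.TP
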