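import Pool.Agent.Helper17.TP.Base

/-!
# Block TP-R2: Füredi's stability for triangle-free graphs

`F` triangle-free on `V`, `n = |V|`.  There is `A` with `e(F[A]) + e(F[Aᶜ]) ≤ n²/4 - e(F)`.

Proof.  If `V` is empty, take `A = ∅`.  Let `x` be a vertex of maximum degree `Δ`; `Aᶜ := N(x)`
(stable, as `F` is triangle-free), `A` := the rest.  Every edge has an end in `A`:
`Σ_(v ∈ A) deg v = e(A, Aᶜ) + 2 e(A) = e(F) + e(F[A])`, and it is `≤ |A| Δ = (n - Δ) Δ ≤ n²/4`.

`furedi_balanced`: if moreover `e(F) ≥ (1/4 - t) n²`, then `e(inside F A) ≤ t n²` and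
`(|A| - n/2)² ≤ 2 t n²`: `e(F) ≤ |A||Aᶜ| + e(inside F A)`, so `|A||Aᶜ| ≥ (1/4 - 2t) n²` and
`|A||Aᶜ| = n²/4 - (|A| - n/2)²`.
-/

set_option autoImplicit false

namespace Pool.Agent.Helper17.TP

open SimpleGraph Finset

namespace R2

variable {V : Type} [Fintype V]

open Classical in
/-- twice the number of edges = number of ordered adjacent pairs -/
theorem two_ne (F : SimpleGraph V) :
    2 * ne F = ((univ : Finset (V × V)).filter (fun p => F.Adj p.1 p.2)).card := by
  have h1 : ne F = F.edgeFinset.card := by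
    unfold ne
    rw [← Set.ncard_coe_finset]
    simp
  rw [h1, ← F.sum_degrees_eq_twice_card_edges]
  rw [Finset.card_filter, ← Finset.univ_product_univ, Finset.sum_product]
  refine Finset.sum_congr rfl fun v _ => ?_
  rw [← Finset.card_filter, ← SimpleGraph.card_neighborFinset_eq_degree]
  congr 1
  ext w
  simp

open Classical in
/-- adjacent ordered pairs with given sides -/
noncomputable def pr (F : SimpleGraph V) (S T : Finset V) : Finset (V × V) :=
  univ.filter (fun p => F.Adj p.1 p.2 ∧ p.1 ∈ S ∧ p.2 ∈ T)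

theorem pr_swap (F : SimpleGraph V) (S T : Finset V) : (pr F S T).card = (pr F T S).card := by
  classical
  refine Finset.card_bij (fun p _ => (p.2, p.1)) ?_ ?_ ?_
  · rintro ⟨a, b⟩ h
    simp only [pr, mem_filter, mem_univ, true_and] at h ⊢
    exact ⟨h.1.symm, h.2.2, h.2.1⟩
  · rintro ⟨a, b⟩ _ ⟨c, d⟩ _ h
    simp only [Prod.mk.injEq] at h ⊢
    exact ⟨h.2, h.1⟩
  · rintro ⟨a, b⟩ h
    simp only [pr, mem_filter, mem_univ, true_and] at h
    refine ⟨(b, a), ?_, rfl⟩
    simp only [pr, mem_filter, mem_univ, true_and]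
    exact ⟨h.1.symm, h.2.2, h.2.1⟩

variable [DecidableEq V]

omit [DecidableEq V] in
theorem pr_le (F : SimpleGraph V) (S T : Finset V) : (pr F S T).card ≤ S.card * T.card := by
  classical
  rw [← Finset.card_product]
  refine Finset.card_le_card ?_
  intro p hp
  simp only [pr, mem_filter, mem_univ, true_and] at hp
  exact mem_product.2 hp.2

theorem two_ne_split (F : SimpleGraph V) (A : Finset V) :
    2 * ne F = (pr F A A).card + (pr F Aᶜ Aᶜ).card + 2 * (pr F A Aᶜ).card := by
  classical
  rw [two_ne]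
  have h1 : ((univ : Finset (V × V)).filter (fun p => F.Adj p.1 p.2)) =
      (pr F A A ∪ pr F Aᶜ Aᶜ) ∪ (pr F A Aᶜ ∪ pr F Aᶜ A) := by
    ext p
    simp only [pr, mem_filter, mem_univ, true_and, mem_union, mem_compl]
    tauto
  rw [h1, Finset.card_union_of_disjoint, Finset.card_union_of_disjoint,
    Finset.card_union_of_disjoint, pr_swap F Aᶜ A]
  · ring
  · rw [Finset.disjoint_left]
    intro p h2 h3
    simp only [pr, mem_filter, mem_univ, true_and, mem_compl] at h2 h3
    tauto
  · rw [Finset.disjoint_left]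
    intro p h2 h3
    simp only [pr, mem_filter, mem_univ, true_and, mem_compl] at h2 h3
    tauto
  · rw [Finset.disjoint_left]
    intro p h2 h3
    simp only [pr, mem_filter, mem_univ, true_and, mem_compl, mem_union] at h2 h3
    tauto

theorem two_ne_inside (F : SimpleGraph V) (A : Finset V) :
    2 * ne (inside F A) = (pr F A A).card + (pr F Aᶜ Aᶜ).card := by
  classical
  rw [two_ne, ← Finset.card_union_of_disjoint]
  · congr 1
    ext p
    simp only [pr, mem_filter, mem_univ, true_and, mem_union, mem_compl, inside]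
    tauto
  · rw [Finset.disjoint_left]
    intro p h2 h3
    simp only [pr, mem_filter, mem_univ, true_and, mem_compl] at h2 h3
    tauto

theorem ne_le (F : SimpleGraph V) (A : Finset V) :
    ne F ≤ A.card * Aᶜ.card + ne (inside F A) := by
  have h1 := two_ne_split F A
  have h2 := two_ne_inside F A
  have h3 := pr_le F A Aᶜ
  omega

end R2

theorem furedi {V : Type} [Fintype V] [DecidableEq V] (F : SimpleGraph V) (hF : F.CliqueFree 3) :
    ∃ A : Finset V, (ne (inside F A) : ℝ) ≤ (Fintype.card V : ℝ) ^ 2 / 4 - ne F := by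
  classical
  rcases isEmpty_or_nonempty V with hV | hV
  · refine ⟨∅, ?_⟩
    have h0 : ∀ H : SimpleGraph V, ne H = 0 := by
      intro H
      have := R2.two_ne H
      have h1 : ((univ : Finset (V × V)).filter (fun p => H.Adj p.1 p.2)) = ∅ := by
        ext ⟨a, b⟩
        exact (hV.false a).elim
      rw [h1] at this
      simp at this
      exact this
    rw [h0, h0]
    simp
  · obtain ⟨x, -, hx⟩ := Finset.exists_max_image (univ : Finset V)
      (fun v => (univ.filter (fun w => F.Adj v w)).card) univ_nonempty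
    set Δ := (univ.filter (fun w => F.Adj x w)).card with hΔ
    set A : Finset V := univ.filter (fun w => ¬ F.Adj x w) with hA
    have hAc : Aᶜ = univ.filter (fun w => F.Adj x w) := by
      ext w; simp [hA]
    have hcard : A.card + Δ = Fintype.card V := by
      rw [hΔ, ← hAc, Finset.card_add_card_compl]
    have hBB : (R2.pr F Aᶜ Aᶜ).card = 0 := by
      rw [Finset.card_eq_zero, Finset.eq_empty_iff_forall_notMem]
      rintro ⟨a, b⟩ h
      rw [hAc] at h
      simp only [R2.pr, mem_filter, mem_univ, true_and] at h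
      refine hF {x, a, b} ?_
      rw [is3Clique_triple_iff]
      exact ⟨h.2.1, h.2.2, h.1⟩
    have hdeg : (R2.pr F A A).card + (R2.pr F A Aᶜ).card ≤ A.card * Δ := by
      have h1 : (R2.pr F A A).card + (R2.pr F A Aᶜ).card =
          ∑ v ∈ A, (univ.filter (fun w => F.Adj v w)).card := by
        rw [← Finset.card_union_of_disjoint, ← Finset.card_sigma]
        · refine Finset.card_bij (fun p _ => ⟨p.1, p.2⟩) ?_ ?_ ?_
          · rintro ⟨a, b⟩ h
            simp only [R2.pr, mem_filter, mem_univ, true_and, mem_union, mem_compl] at h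
            simp only [mem_sigma, mem_filter, mem_univ, true_and]
            tauto
          · rintro ⟨a, b⟩ _ ⟨c, d⟩ _ h
            simp only [Sigma.mk.injEq, heq_eq_eq] at h
            rw [h.1, h.2]
          · rintro ⟨a, b⟩ h
            simp only [mem_sigma, mem_filter, mem_univ, true_and] at h
            refine ⟨(a, b), ?_, rfl⟩
            simp only [R2.pr, mem_filter, mem_univ, true_and, mem_union, mem_compl]
            tauto
        · rw [Finset.disjoint_left]
          intro p h2 h3
          simp only [R2.pr, mem_filter, mem_univ, true_and, mem_compl] at h2 h3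
          tauto
      rw [h1]
      calc ∑ v ∈ A, (univ.filter (fun w => F.Adj v w)).card ≤ ∑ _v ∈ A, Δ :=
            Finset.sum_le_sum fun v _ => hx v (mem_univ _)
        _ = A.card * Δ := by simp
    have h1 := R2.two_ne_split F A
    have h2 := R2.two_ne_inside F A
    rw [hBB] at h1 h2
    have h3 : ne F + ne (inside F A) ≤ A.card * Δ := by omega
    refine ⟨A, ?_⟩
    have h3' : (ne F : ℝ) + ne (inside F A) ≤ (A.card : ℝ) * Δ := by exact_mod_cast h3
    have h4 : (A.card : ℝ) + Δ = Fintype.card V := by exact_mod_cast hcard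
    rw [← h4]
    nlinarith [sq_nonneg ((A.card : ℝ) - Δ)]

theorem furedi_balanced {n : ℕ} (F : SimpleGraph (Fin n)) (hF : F.CliqueFree 3) (t : ℝ)
    (ht : (1 / 4 - t) * (n : ℝ) ^ 2 ≤ ne F) :
    ∃ A : Finset (Fin n), (ne (inside F A) : ℝ) ≤ t * (n : ℝ) ^ 2 ∧
      ((A.card : ℝ) - n / 2) ^ 2 ≤ 2 * t * (n : ℝ) ^ 2 := by
  obtain ⟨A, hA⟩ := furedi F hF
  rw [Fintype.card_fin] at hA
  have h1 : (ne (inside F A) : ℝ) ≤ t * (n : ℝ) ^ 2 := by linarith
  refine ⟨A, h1, ?_⟩
  have h2 := R2.ne_le F A
  have h2' : (ne F : ℝ) ≤ (A.card : ℝ) * Aᶜ.card + ne (inside F A) := by exact_mod_cast h2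
  have h3 : A.card + Aᶜ.card = n := by
    rw [Finset.card_add_card_compl]; simp
  have h3' : (Aᶜ.card : ℝ) = n - A.card := by
    have : (A.card : ℝ) + Aᶜ.card = n := by exact_mod_cast h3
    linarith
  rw [h3'] at h2'
  nlinarith

end Pool.Agent.Helper17.TP
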