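import Pool.Agent.Helper17.TP.R1
import Pool.Agent.Helper17.TP.R2

/-!
# Block TP-R3: regularity lemma for t-perfect graphs

For every `δ > 0` there are `M, n₀` such that every t-perfect graph `G` on `n ≥ n₀` vertices has a
map `f : Fin n → Fin M` (clusters) and graphs `R`, `H` on `Fin M`, `R` triangle-free, such that all
but `δ n²` pairs outside the blow-up `R.comap f` behave as in the blow-up `H.comap f`.

Proof.  Put `δ₁ = min(δ/8, 1/4)`, `ε = min(δ₁^3/480, δ/16)`, `l = ⌈16/δ⌉`.  Mathlib:
`szemeredi_regularity G (hε) (hl : l ≤ card)` gives an equipartition `P` of `univ`, `l ≤ #parts ≤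
SzemerediRegularity.bound ε l =: M`, uniform: at most `ε k(k-1)` ordered pairs of parts are not
`ε`-uniform (`k = #parts`).  `n₀ := max ...` such that all parts have at least 6 elements
(parts of an equipartition have size `n/k` or `n/k + 1`).
`f v` := index of the part of `v` (`P.parts ≃ Fin k`, `Fin.castLE`).  For indices `i ≠ j < k` of
parts `U_i, U_j`: `R.Adj i j` iff `(U_i, U_j)` is `ε`-uniform with density in `[δ₁, 1 - δ₁]`;
`H.Adj i j` iff density `> 1/2`.
`R` is triangle-free by `three_clusters`.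
The pairs `uv` with `¬ R.Adj (f u) (f v)` and (`G.Adj u v` xor `H.Adj (f u) (f v)`) are: pairs inside
a part: `≤ k (n/k+1)² ≤ 4n²/k ≤ 4n²/l`; pairs in non-uniform pairs of parts: `≤ ε k² (n/k+1)² ≤
4 ε n²`; pairs in uniform pairs of density `< δ₁` which are edges: `≤ δ₁ n²`; of density `> 1 - δ₁`
which are non-edges: `≤ δ₁ n²`.  (All counts are for ordered pairs, a fortiori for edges.)  The
total is `≤ δ n²`.
-/

set_option autoImplicit false

namespace Pool.Agent.Helper17.TP

open SimpleGraph Finset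

namespace R3

open Classical in
/-- ordered adjacent pairs between two disjoint parts, and the non adjacent ones -/
theorem card_adj {n : ℕ} (G : SimpleGraph (Fin n)) (U W : Finset (Fin n)) :
    (((U ×ˢ W).filter (fun p => G.Adj p.1 p.2)).card : ℝ) =
      (G.edgeDensity U W : ℝ) * (U.card * W.card) := by
  rw [SimpleGraph.edgeDensity_def]
  have h1 : ((U ×ˢ W).filter (fun p => G.Adj p.1 p.2)) = G.interedges U W := by
    ext p
    simp [SimpleGraph.mem_interedges_iff, Finset.mem_filter, Finset.mem_product, and_assoc]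
  rw [h1]
  by_cases h : (U.card : ℝ) * W.card = 0
  · have h2 : (G.interedges U W).card ≤ U.card * W.card := by
      rw [← h1, ← Finset.card_product]; exact Finset.card_filter_le _ _
    have h3 : ((G.interedges U W).card : ℝ) ≤ U.card * W.card := by exact_mod_cast h2
    rw [h] at h3
    have h4 : (0 : ℝ) ≤ (G.interedges U W).card := by positivity
    rw [h, mul_zero]
    linarith
  · push_cast
    exact (div_mul_cancel₀ _ h).symm

open Classical in
theorem card_nonadj {n : ℕ} (G : SimpleGraph (Fin n)) (U W : Finset (Fin n)) :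
    (((U ×ˢ W).filter (fun p => ¬ G.Adj p.1 p.2)).card : ℝ) =
      (1 - (G.edgeDensity U W : ℝ)) * (U.card * W.card) := by
  have h1 := card_adj G U W
  have h2 := Finset.card_filter_add_card_filter_not (s := U ×ˢ W) (fun p => G.Adj p.1 p.2)
  rw [Finset.card_product] at h2
  have h3 : (((U ×ˢ W).filter (fun p => G.Adj p.1 p.2)).card : ℝ) +
      ((U ×ˢ W).filter (fun p => ¬ G.Adj p.1 p.2)).card = U.card * W.card := by
    exact_mod_cast h2
  linarith

end R3

open Classical in
theorem reg_apply (δ : ℝ) (hδ : 0 < δ) : ∃ M n₀ : ℕ, ∀ n ≥ n₀, ∀ G : SimpleGraph (Fin n),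
    TPerf G → ∃ (f : Fin n → Fin M) (R H : SimpleGraph (Fin M)), R.CliqueFree 3 ∧
      (ne (symmDiff G (H.comap f) \ (R.comap f)) : ℝ) ≤ δ * (n : ℝ) ^ 2 := by
  set δ₁ : ℝ := min (δ / 8) (1 / 4) with hδ₁
  have hδ₁pos : 0 < δ₁ := by rw [hδ₁]; positivity
  have hδ₁a : δ₁ ≤ δ / 8 := min_le_left _ _
  have hδ₁b : δ₁ ≤ 1 / 4 := min_le_right _ _
  set ε : ℝ := min (δ₁ ^ 3 / 480) (δ / 16) with hε
  have hεpos : 0 < ε := by rw [hε]; positivity
  have hεa : ε ≤ δ₁ ^ 3 / 480 := min_le_left _ _
  have hεb : ε ≤ δ / 16 := min_le_right _ _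
  set l : ℕ := ⌈16 / δ⌉₊ with hl
  have hl16 : 16 / δ ≤ l := Nat.le_ceil _
  have hlpos : 0 < l := by
    rw [hl]; exact Nat.ceil_pos.2 (by positivity)
  set M : ℕ := SzemerediRegularity.bound ε l with hM
  refine ⟨M, max l (6 * M + 6), fun n hn G hG => ?_⟩
  have hnl : l ≤ n := le_trans (le_max_left _ _) hn
  have hnM : 6 * M + 6 ≤ n := le_trans (le_max_right _ _) hn
  obtain ⟨P, hPe, hPl, hPM, hPu⟩ := szemeredi_regularity G hεpos (l := l) (by simpa using hnl)
  set k := P.parts.card with hk
  have hkpos : 0 < k := lt_of_lt_of_le hlpos hPl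
  have hkM : k ≤ M := hPM
  have hkn : k ≤ n := by omega
  -- part sizes
  have hlow : ∀ U ∈ P.parts, 6 ≤ U.card := by
    intro U hU
    have h1 := hPe.average_le_card_part hU
    rw [Finset.card_univ, Fintype.card_fin] at h1
    refine le_trans ?_ h1
    rw [Nat.le_div_iff_mul_le hkpos]
    nlinarith
  have hkR : (0 : ℝ) < k := by exact_mod_cast hkpos
  have hnR : (0 : ℝ) < n := by
    have : 0 < n := by omega
    exact_mod_cast this
  have hup : ∀ U ∈ P.parts, (U.card : ℝ) ≤ 2 * n / k := by
    intro U hU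
    have h1 := hPe.card_part_le_average_add_one hU
    rw [Finset.card_univ, Fintype.card_fin] at h1
    have h2 : ((n / k : ℕ) : ℝ) ≤ (n : ℝ) / k := Nat.cast_div_le
    have h3 : (U.card : ℝ) ≤ (n / k : ℕ) + 1 := by exact_mod_cast h1
    have h4 : (1 : ℝ) ≤ (n : ℝ) / k := by
      rw [le_div_iff₀ hkR, one_mul]; exact_mod_cast hkn
    calc (U.card : ℝ) ≤ (n / k : ℕ) + 1 := h3
      _ ≤ n / k + n / k := by linarith
      _ = 2 * n / k := by ring
  -- clusters
  let e := P.parts.equivFin
  have hpart : ∀ v : Fin n, P.part v ∈ P.parts := fun v => P.part_mem.2 (mem_univ v)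
  let ι : {U // U ∈ P.parts} → Fin M := fun U => Fin.castLE hkM (e U)
  have hι : Function.Injective ι := by
    intro U W h
    exact e.injective (Fin.castLE_injective hkM h)
  let f : Fin n → Fin M := fun v => ι ⟨P.part v, hpart v⟩
  let R : SimpleGraph (Fin M) :=
    { Adj := fun i j => ∃ U W : {U // U ∈ P.parts}, U ≠ W ∧ ι U = i ∧ ι W = j ∧
        G.IsUniform ε U.1 W.1 ∧ δ₁ ≤ (G.edgeDensity U.1 W.1 : ℝ) ∧
        (G.edgeDensity U.1 W.1 : ℝ) ≤ 1 - δ₁
      symm := ⟨by
        rintro i j ⟨U, W, h1, h2, h3, h4, h5, h6⟩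
        exact ⟨W, U, h1.symm, h3, h2, h4.symm, by rwa [G.edgeDensity_comm], by
          rwa [G.edgeDensity_comm]⟩⟩
      loopless := ⟨by
        rintro i ⟨U, W, h1, h2, h3, _⟩
        exact h1 (hι (h2.trans h3.symm))⟩ }
  let H : SimpleGraph (Fin M) :=
    { Adj := fun i j => ∃ U W : {U // U ∈ P.parts}, U ≠ W ∧ ι U = i ∧ ι W = j ∧
        1 / 2 < (G.edgeDensity U.1 W.1 : ℝ)
      symm := ⟨by
        rintro i j ⟨U, W, h1, h2, h3, h4⟩
        exact ⟨W, U, h1.symm, h3, h2, by rwa [G.edgeDensity_comm]⟩⟩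
      loopless := ⟨by
        rintro i ⟨U, W, h1, h2, h3, _⟩
        exact h1 (hι (h2.trans h3.symm))⟩ }
  have hdisj : ∀ U W : {U // U ∈ P.parts}, U ≠ W → Disjoint U.1 W.1 := by
    intro U W h
    exact P.disjoint U.2 W.2 (fun h' => h (Subtype.ext h'))
  refine ⟨f, R, H, ?_, ?_⟩
  · -- triangle-free
    intro s hs
    rw [is3Clique_iff] at hs
    obtain ⟨a, b, c, hab, hac, hbc, -⟩ := hs
    obtain ⟨U, W, n1, u1, w1, r1, s1, t1⟩ := hab
    obtain ⟨U', X, n2, u2, x2, r2, s2, t2⟩ := hac
    obtain ⟨W', X', n3, w3, x3, r3, s3, t3⟩ := hbc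
    have e1 : U' = U := hι (u2.trans u1.symm)
    have e2 : W' = W := hι (w3.trans w1.symm)
    have e3 : X' = X := hι (x3.trans x2.symm)
    subst e1; subst e2; subst e3
    exact three_clusters hG hδ₁pos hεpos hεa U'.1 W'.1 X'.1 (hdisj _ _ n1) (hdisj _ _ n2)
      (hdisj _ _ n3) r1 r2 r3 ⟨s1, t1⟩ ⟨s2, t2⟩ ⟨s3, t3⟩ (hlow _ U'.2) (hlow _ W'.2)
      (hlow _ X'.2)
  · -- counting
    set D : SimpleGraph (Fin n) := symmDiff G (H.comap f) \ (R.comap f) with hD
    have hDadj : ∀ u v, D.Adj u v → ((G.Adj u v ∧ ¬ H.Adj (f u) (f v)) ∨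
        (¬ G.Adj u v ∧ H.Adj (f u) (f v))) ∧ ¬ R.Adj (f u) (f v) := by
      intro u v h
      rw [hD, sdiff_adj, symmDiff_def, sup_adj, sdiff_adj, sdiff_adj, comap_adj, comap_adj] at h
      refine ⟨?_, h.2⟩
      rcases h.1 with h1 | h1
      · exact Or.inl h1
      · exact Or.inr ⟨h1.2, h1.1⟩
    have htwo := R2.two_ne D
    set Q : Finset (Fin n × Fin n) := univ.filter (fun p => D.Adj p.1 p.2) with hQ
    -- weights
    let w : Finset (Fin n) → Finset (Fin n) → ℝ := fun U W =>
      (if U = W then (4 * (n : ℝ) ^ 2 / (k : ℝ) ^ 2) else 0) +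
      (if U ≠ W ∧ ¬ G.IsUniform ε U W then (4 * (n : ℝ) ^ 2 / (k : ℝ) ^ 2) else 0) +
      δ₁ * (U.card * W.card)
    have hcell : ∀ U ∈ P.parts, ∀ W ∈ P.parts,
        (((U ×ˢ W).filter (fun p => D.Adj p.1 p.2)).card : ℝ) ≤ w U W := by
      intro U hU W hW
      have hδUW : 0 ≤ δ₁ * ((U.card : ℝ) * W.card) := by positivity
      have hbig : (((U ×ˢ W).filter (fun p => D.Adj p.1 p.2)).card : ℝ) ≤
          4 * (n : ℝ) ^ 2 / (k : ℝ) ^ 2 := by
        have h1 : ((U ×ˢ W).filter (fun p => D.Adj p.1 p.2)).card ≤ U.card * W.card := by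
          rw [← Finset.card_product]; exact Finset.card_filter_le _ _
        have h2 : (((U ×ˢ W).filter (fun p => D.Adj p.1 p.2)).card : ℝ) ≤ U.card * W.card := by
          exact_mod_cast h1
        calc _ ≤ (U.card : ℝ) * W.card := h2
          _ ≤ (2 * n / k) * (2 * n / k) := by
            gcongr
            · exact hup U hU
            · exact hup W hW
          _ = 4 * (n : ℝ) ^ 2 / (k : ℝ) ^ 2 := by ring
      by_cases hUW : U = W
      · simp only [w]
        rw [if_pos hUW, if_neg (by simp [hUW])]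
        linarith
      · by_cases hun : G.IsUniform ε U W
        · simp only [w]
          rw [if_neg hUW, if_neg (by simp [hun]), zero_add, zero_add]
          have hfU : ∀ u ∈ U, f u = ι ⟨U, hU⟩ := by
            intro u hu
            have : P.part u = U := P.part_eq_of_mem hU hu
            simp only [f, this]
          have hfW : ∀ u ∈ W, f u = ι ⟨W, hW⟩ := by
            intro u hu
            have : P.part u = W := P.part_eq_of_mem hW hu
            simp only [f, this]
          have hne : (⟨U, hU⟩ : {U // U ∈ P.parts}) ≠ ⟨W, hW⟩ := by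
            intro h; exact hUW (congrArg Subtype.val h)
          have hHadj : ∀ u ∈ U, ∀ v ∈ W, (H.Adj (f u) (f v) ↔
              1 / 2 < (G.edgeDensity U W : ℝ)) := by
            intro u hu v hv
            rw [hfU u hu, hfW v hv]
            constructor
            · rintro ⟨U', W', _, h2, h3, h4⟩
              have e1 := hι h2
              have e2 := hι h3
              subst e1; subst e2
              exact h4
            · intro h
              exact ⟨_, _, hne, rfl, rfl, h⟩
          by_cases hlo : (G.edgeDensity U W : ℝ) < δ₁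
          · have hsub : ((U ×ˢ W).filter (fun p => D.Adj p.1 p.2)) ⊆
                ((U ×ˢ W).filter (fun p => G.Adj p.1 p.2)) := by
              intro p hp
              rw [mem_filter] at hp ⊢
              refine ⟨hp.1, ?_⟩
              rcases (hDadj _ _ hp.2).1 with h | h
              · exact h.1
              · exfalso
                have := (hHadj _ (mem_product.1 hp.1).1 _ (mem_product.1 hp.1).2).1 h.2
                linarith
            have h1 : (((U ×ˢ W).filter (fun p => D.Adj p.1 p.2)).card : ℝ) ≤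
                ((U ×ˢ W).filter (fun p => G.Adj p.1 p.2)).card := by
              exact_mod_cast Finset.card_le_card hsub
            rw [R3.card_adj G U W] at h1
            refine h1.trans ?_
            gcongr
          · by_cases hhi : (G.edgeDensity U W : ℝ) ≤ 1 - δ₁
            · -- then R-adjacent: no pair
              have hempty : ((U ×ˢ W).filter (fun p => D.Adj p.1 p.2)) = ∅ := by
                rw [Finset.eq_empty_iff_forall_notMem]
                intro p hp
                rw [mem_filter] at hp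
                refine (hDadj _ _ hp.2).2 ?_
                rw [hfU _ (mem_product.1 hp.1).1, hfW _ (mem_product.1 hp.1).2]
                exact ⟨_, _, hne, rfl, rfl, hun, not_lt.1 hlo, hhi⟩
              rw [hempty]
              simpa using hδUW
            · have hsub : ((U ×ˢ W).filter (fun p => D.Adj p.1 p.2)) ⊆
                  ((U ×ˢ W).filter (fun p => ¬ G.Adj p.1 p.2)) := by
                intro p hp
                rw [mem_filter] at hp ⊢
                refine ⟨hp.1, ?_⟩
                rcases (hDadj _ _ hp.2).1 with h | h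
                · exfalso
                  refine h.2 ((hHadj _ (mem_product.1 hp.1).1 _ (mem_product.1 hp.1).2).2 ?_)
                  push Not at hhi
                  linarith
                · exact h.1
              have h1 : (((U ×ˢ W).filter (fun p => D.Adj p.1 p.2)).card : ℝ) ≤
                  ((U ×ˢ W).filter (fun p => ¬ G.Adj p.1 p.2)).card := by
                exact_mod_cast Finset.card_le_card hsub
              rw [R3.card_nonadj G U W] at h1
              refine h1.trans ?_
              push Not at hhi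
              gcongr
              linarith
        · simp only [w]
          rw [if_neg hUW, if_pos ⟨hUW, hun⟩]
          linarith
    -- total
    have hQsub : Q ⊆ (P.parts ×ˢ P.parts).biUnion
        (fun q => ((q.1 ×ˢ q.2).filter (fun p => D.Adj p.1 p.2))) := by
      intro p hp
      rw [hQ, mem_filter] at hp
      rw [mem_biUnion]
      refine ⟨(P.part p.1, P.part p.2), mem_product.2 ⟨hpart _, hpart _⟩, ?_⟩
      rw [mem_filter]
      exact ⟨mem_product.2 ⟨P.mem_part (mem_univ _), P.mem_part (mem_univ _)⟩, hp.2⟩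
    have hQle : (Q.card : ℝ) ≤ ∑ q ∈ P.parts ×ˢ P.parts, w q.1 q.2 := by
      have h1 := (Finset.card_le_card hQsub).trans Finset.card_biUnion_le
      calc (Q.card : ℝ) ≤ ((∑ q ∈ P.parts ×ˢ P.parts,
            ((q.1 ×ˢ q.2).filter (fun p => D.Adj p.1 p.2)).card : ℕ) : ℝ) := by exact_mod_cast h1
        _ = ∑ q ∈ P.parts ×ˢ P.parts,
            (((q.1 ×ˢ q.2).filter (fun p => D.Adj p.1 p.2)).card : ℝ) := by push_cast; rfl
        _ ≤ ∑ q ∈ P.parts ×ˢ P.parts, w q.1 q.2 := by
            refine Finset.sum_le_sum fun q hq => ?_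
            rw [mem_product] at hq
            exact hcell _ hq.1 _ hq.2
    have hsum1 : ∑ q ∈ P.parts ×ˢ P.parts,
        (if q.1 = q.2 then (4 * (n : ℝ) ^ 2 / (k : ℝ) ^ 2) else 0) = 4 * (n : ℝ) ^ 2 / k := by
      rw [Finset.sum_product]
      have : ∀ U ∈ P.parts, ∑ W ∈ P.parts,
          (if U = W then (4 * (n : ℝ) ^ 2 / (k : ℝ) ^ 2) else 0) =
            4 * (n : ℝ) ^ 2 / (k : ℝ) ^ 2 := by
        intro U hU
        rw [Finset.sum_ite_eq, if_pos hU]
      rw [Finset.sum_congr rfl this, Finset.sum_const, ← hk, nsmul_eq_mul]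
      field_simp
    have hsum2 : ∑ q ∈ P.parts ×ˢ P.parts,
        (if q.1 ≠ q.2 ∧ ¬ G.IsUniform ε q.1 q.2 then (4 * (n : ℝ) ^ 2 / (k : ℝ) ^ 2) else 0) ≤
          4 * ε * (n : ℝ) ^ 2 := by
      rw [← Finset.sum_filter, Finset.sum_const, nsmul_eq_mul]
      have h1 : (((P.parts ×ˢ P.parts).filter
          (fun q => q.1 ≠ q.2 ∧ ¬ G.IsUniform ε q.1 q.2)).card : ℝ) ≤ (k : ℝ) ^ 2 * ε := by
        have h2 : ((P.parts ×ˢ P.parts).filter
          (fun q => q.1 ≠ q.2 ∧ ¬ G.IsUniform ε q.1 q.2)) ⊆ P.nonUniforms G ε := by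
          intro q hq
          rw [mem_filter, mem_product] at hq
          unfold Finpartition.nonUniforms
          rw [mem_filter, mem_offDiag]
          exact ⟨⟨hq.1.1, hq.1.2, hq.2.1⟩, hq.2.2⟩
        have h3 : ((P.nonUniforms G ε).card : ℝ) ≤ ((k * (k - 1) : ℕ) : ℝ) * ε := hPu
        calc _ ≤ ((P.nonUniforms G ε).card : ℝ) := by exact_mod_cast Finset.card_le_card h2
          _ ≤ ((k * (k - 1) : ℕ) : ℝ) * ε := h3
          _ ≤ (k : ℝ) ^ 2 * ε := by
            gcongr
            rw [Nat.cast_mul, sq]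
            gcongr
            exact_mod_cast Nat.sub_le k 1
      calc _ ≤ (k : ℝ) ^ 2 * ε * (4 * (n : ℝ) ^ 2 / (k : ℝ) ^ 2) := by gcongr
        _ = 4 * ε * (n : ℝ) ^ 2 := by field_simp
    have hsum3 : ∑ q ∈ P.parts ×ˢ P.parts, δ₁ * ((q.1.card : ℝ) * q.2.card) =
        δ₁ * (n : ℝ) ^ 2 := by
      rw [← Finset.mul_sum, Finset.sum_product]
      have h1 : ∑ U ∈ P.parts, (U.card : ℝ) = n := by
        have := P.sum_card_parts
        rw [Finset.card_univ, Fintype.card_fin] at this
        exact_mod_cast this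
      congr 1
      calc ∑ U ∈ P.parts, ∑ W ∈ P.parts, (U.card : ℝ) * W.card =
          ∑ U ∈ P.parts, (U.card : ℝ) * n := by
            refine Finset.sum_congr rfl fun U _ => ?_
            rw [← Finset.mul_sum, h1]
        _ = (n : ℝ) ^ 2 := by rw [← Finset.sum_mul, h1]; ring
    have htotal : ∑ q ∈ P.parts ×ˢ P.parts, w q.1 q.2 ≤
        4 * (n : ℝ) ^ 2 / k + 4 * ε * (n : ℝ) ^ 2 + δ₁ * (n : ℝ) ^ 2 := by
      simp only [w]
      rw [Finset.sum_add_distrib, Finset.sum_add_distrib, hsum1, hsum3]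
      linarith
    have hk4 : 4 * (n : ℝ) ^ 2 / k ≤ δ / 4 * (n : ℝ) ^ 2 := by
      rw [div_le_iff₀ hkR]
      have h1 : 16 / δ ≤ k := hl16.trans (by exact_mod_cast hPl)
      have h2 : 16 ≤ δ * k := by
        rw [div_le_iff₀ hδ] at h1; linarith
      nlinarith [sq_nonneg (n : ℝ)]
    have hQfin : (Q.card : ℝ) ≤ δ * (n : ℝ) ^ 2 := by
      have hn2 : (0 : ℝ) ≤ (n : ℝ) ^ 2 := by positivity
      have h1 : 4 * ε * (n : ℝ) ^ 2 ≤ δ / 4 * (n : ℝ) ^ 2 := by
        gcongr; linarith
      have h2 : δ₁ * (n : ℝ) ^ 2 ≤ δ / 8 * (n : ℝ) ^ 2 := by gcongr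
      nlinarith
    have h2ne : (2 : ℝ) * ne D = Q.card := by exact_mod_cast htwo
    have : (0 : ℝ) ≤ ne D := by positivity
    linarith

end Pool.Agent.Helper17.TP
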