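import Pool.Agent.Helper17.TP.Base

/-!
# Block TP-V1: binomial sums (entropy bounds)

`vol N g = Σ_(i ≤ g) C(N, i)`.
1. for every `h > 0` there is `γ > 0` (take `γ ≤ 1`) with `vol N g ≤ 2^(h N + 1)`... we state: for
all `N` and all `g ≤ γ N`: `vol N g ≤ 2^(h N)`.
Proof: for `0 < t ≤ 1`: `Σ_(i ≤ g) C(N,i) ≤ t^(-g) Σ C(N,i) t^i = t^(-g) (1+t)^N ≤ t^(-γN) e^(tN)`.
Choose `t` with `t ≤ h/2 · log 2`, then `γ` with `γ log(1/t) ≤ (h/2) log 2`.
2. number of subsets `S` of a finite type with `|S Δ T| ≤ g` is `vol (card) g` (we need `≤`).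
3. number of graphs on `Fin n` with at most `m` edges is `≤ vol (n²) m` (a graph is determined by
its set of ordered adjacent pairs `(u, v)`, `u < v`: an injection into the subsets of `Fin n × Fin n`
of size `≤ m`).
-/

set_option autoImplicit false

namespace Pool.Agent.Helper17.TP

open SimpleGraph Finset

def vol (N g : ℕ) : ℕ := ∑ i ∈ Finset.range (g + 1), N.choose i

private lemma vol_mul_le (N g : ℕ) (t : ℝ) (ht : 0 < t) (ht1 : t ≤ 1) :
    (vol N g : ℝ) * t ^ g ≤ (1 + t) ^ N := by
  have h1 : (vol N g : ℝ) * t ^ g ≤ ∑ i ∈ Finset.range (g + 1), (N.choose i : ℝ) * t ^ i := by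
    unfold vol
    push_cast
    rw [Finset.sum_mul]
    refine Finset.sum_le_sum fun i hi => ?_
    have hi' : i ≤ g := by
      have := Finset.mem_range.mp hi
      omega
    exact mul_le_mul_of_nonneg_left (pow_le_pow_of_le_one ht.le ht1 hi') (Nat.cast_nonneg _)
  have h2 : ∑ i ∈ Finset.range (g + 1), (N.choose i : ℝ) * t ^ i
      ≤ ∑ i ∈ Finset.range (max g N + 1), (N.choose i : ℝ) * t ^ i := by
    refine Finset.sum_le_sum_of_subset_of_nonneg ?_ ?_
    · exact Finset.range_subset_range.mpr (by omega)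
    · intro i _ _
      positivity
  have h3 : ∑ i ∈ Finset.range (N + 1), (N.choose i : ℝ) * t ^ i
      = ∑ i ∈ Finset.range (max g N + 1), (N.choose i : ℝ) * t ^ i := by
    refine Finset.sum_subset (Finset.range_subset_range.mpr (by omega)) ?_
    intro i _ hi
    have hi' : N < i := by
      rw [Finset.mem_range] at hi
      omega
    rw [Nat.choose_eq_zero_of_lt hi']
    simp
  have h4 : (1 + t) ^ N = ∑ i ∈ Finset.range (N + 1), (N.choose i : ℝ) * t ^ i := by
    rw [add_comm, add_pow]
    refine Finset.sum_congr rfl fun i _ => ?_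
    rw [one_pow, mul_one, mul_comm]
  rw [h4, h3]
  exact h1.trans h2

theorem vol_bound (h : ℝ) (hh : 0 < h) : ∃ γ > (0 : ℝ), ∀ (N g : ℕ), (g : ℝ) ≤ γ * N →
    (vol N g : ℝ) ≤ 2 ^ (h * N) := by
  have hl2 : (0 : ℝ) < Real.log 2 := Real.log_pos (by norm_num)
  obtain ⟨t, ht, ht1, hth⟩ : ∃ t : ℝ, 0 < t ∧ t ≤ 1 ∧ t ≤ h / 2 * Real.log 2 :=
    ⟨min 1 (h / 2 * Real.log 2), lt_min one_pos (by positivity), min_le_left _ _,
      min_le_right _ _⟩
  have hL : 0 ≤ -Real.log t := by
    have := Real.log_nonpos ht.le ht1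
    linarith
  refine ⟨h / 2 * Real.log 2 / (-Real.log t + 1), by positivity, ?_⟩
  intro N g hg
  have h1 := vol_mul_le N g t ht ht1
  have hN : (0 : ℝ) ≤ N := Nat.cast_nonneg _
  have h2 : (1 + t) ^ N ≤ Real.exp (t * N) := by
    have h3 : 1 + t ≤ Real.exp t := by
      have := Real.add_one_le_exp t
      linarith
    calc (1 + t) ^ N ≤ (Real.exp t) ^ N := pow_le_pow_left₀ (by positivity) h3 N
      _ = Real.exp (t * N) := by
        rw [mul_comm, Real.exp_nat_mul]
  have h4 : (t : ℝ) ^ g = Real.exp (-(-Real.log t * g)) := by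
    rw [neg_mul, neg_neg, mul_comm, Real.exp_nat_mul, Real.exp_log ht]
  have h5 : (vol N g : ℝ) ≤ Real.exp (t * N + -Real.log t * g) := by
    have h6 : (vol N g : ℝ) = (vol N g : ℝ) * t ^ g * Real.exp (-Real.log t * g) := by
      rw [h4, mul_assoc, ← Real.exp_add]
      simp
    rw [h6, Real.exp_add]
    exact mul_le_mul_of_nonneg_right (h1.trans h2) (Real.exp_pos _).le
  refine h5.trans ?_
  rw [Real.rpow_def_of_pos (by norm_num)]
  refine Real.exp_le_exp.mpr ?_
  have h7 : -Real.log t * g ≤ h / 2 * Real.log 2 * N := by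
    calc -Real.log t * g ≤ -Real.log t * (h / 2 * Real.log 2 / (-Real.log t + 1) * N) :=
          mul_le_mul_of_nonneg_left hg hL
      _ = h / 2 * Real.log 2 * N * (-Real.log t / (-Real.log t + 1)) := by ring
      _ ≤ h / 2 * Real.log 2 * N * 1 := by
          refine mul_le_mul_of_nonneg_left ?_ (by positivity)
          rw [div_le_one (by positivity)]
          linarith
      _ = h / 2 * Real.log 2 * N := mul_one _
  have h8 : t * N ≤ h / 2 * Real.log 2 * N := mul_le_mul_of_nonneg_right hth hN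
  calc t * N + -Real.log t * g ≤ h / 2 * Real.log 2 * N + h / 2 * Real.log 2 * N :=
        add_le_add h8 h7
    _ = Real.log 2 * (h * N) := by ring

private lemma card_small_le {V : Type} [Fintype V] [DecidableEq V] (g : ℕ) :
    (Finset.univ.filter (fun S : Finset V => S.card ≤ g)).card
      ≤ vol (Fintype.card V) g := by
  have h1 : (Finset.univ.filter (fun S : Finset V => S.card ≤ g))
      ⊆ (Finset.range (g + 1)).biUnion (fun i => Finset.powersetCard i (Finset.univ : Finset V)) := by
    intro S hS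
    rw [Finset.mem_filter] at hS
    rw [Finset.mem_biUnion]
    refine ⟨S.card, Finset.mem_range.mpr (by omega), ?_⟩
    rw [Finset.mem_powersetCard]
    exact ⟨Finset.subset_univ _, rfl⟩
  refine (Finset.card_le_card h1).trans ?_
  refine Finset.card_biUnion_le.trans ?_
  unfold vol
  refine le_of_eq (Finset.sum_congr rfl fun i _ => ?_)
  rw [Finset.card_powersetCard, Finset.card_univ]

theorem card_ball_le {V : Type} [Fintype V] [DecidableEq V] (T : Finset V) (g : ℕ) :
    (Finset.univ.filter (fun S : Finset V => (symmDiff S T).card ≤ g)).card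
      ≤ vol (Fintype.card V) g := by
  refine le_trans ?_ (card_small_le (V := V) g)
  refine Finset.card_le_card_of_injOn (fun S => symmDiff S T) ?_ ?_
  · intro S hS
    have hS' := (Finset.mem_filter.mp (Finset.mem_coe.mp hS)).2
    exact Finset.mem_coe.mpr (Finset.mem_filter.mpr ⟨Finset.mem_univ _, hS'⟩)
  · intro S _ S' _ hSS
    exact symmDiff_left_injective T hSS

theorem card_few_edges_le (n m : ℕ) :
    ({D : SimpleGraph (Fin n) | ne D ≤ m}.ncard) ≤ vol (n ^ 2) m := by
  classical
  have hcard : Fintype.card (Fin n × Fin n) = n ^ 2 := by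
    simp [sq]
  have h0 := card_small_le (V := Fin n × Fin n) m
  rw [hcard] at h0
  refine le_trans ?_ h0
  rw [← Set.ncard_coe_finset]
  refine Set.ncard_le_ncard_of_injOn
    (fun D => Finset.univ.filter (fun p : Fin n × Fin n => p.1 < p.2 ∧ D.Adj p.1 p.2)) ?_ ?_
    (Finset.finite_toSet _)
  · intro D hD
    have hD' : ne D ≤ m := hD
    refine Finset.mem_coe.mpr (Finset.mem_filter.mpr ⟨Finset.mem_univ _, ?_⟩)
    refine le_trans ?_ hD'
    unfold ne
    rw [← Set.ncard_coe_finset]
    refine Set.ncard_le_ncard_of_injOn (fun p => s(p.1, p.2)) ?_ ?_ (Set.toFinite _)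
    · intro p hp
      have hp' := (Finset.mem_filter.mp (Finset.mem_coe.mp hp)).2
      exact (SimpleGraph.mem_edgeSet D).mpr hp'.2
    · intro p hp q hq hpq
      have hp' := (Finset.mem_filter.mp (Finset.mem_coe.mp hp)).2
      have hq' := (Finset.mem_filter.mp (Finset.mem_coe.mp hq)).2
      have h1 : s(p.1, p.2) = s(q.1, q.2) := hpq
      rw [Sym2.eq_iff] at h1
      rcases h1 with ⟨h1, h2⟩ | ⟨h1, h2⟩
      · exact Prod.ext h1 h2
      · exfalso
        have h3 := hp'.1
        rw [h1, h2] at h3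
        exact absurd h3 (not_lt.mpr hq'.1.le)
  · intro D _ D' _ hDD
    have hDD' : (Finset.univ.filter (fun p : Fin n × Fin n => p.1 < p.2 ∧ D.Adj p.1 p.2))
        = Finset.univ.filter (fun p : Fin n × Fin n => p.1 < p.2 ∧ D'.Adj p.1 p.2) := hDD
    have key : ∀ u v : Fin n, u < v → (D.Adj u v ↔ D'.Adj u v) := by
      intro u v huv
      have h1 := Finset.ext_iff.mp hDD' (u, v)
      rw [Finset.mem_filter, Finset.mem_filter] at h1
      simpa [huv] using h1
    ext u v
    rcases lt_trichotomy u v with h | h | h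
    · exact key u v h
    · subst h
      simp
    · rw [D.adj_comm, D'.adj_comm]
      exact key v u h

end Pool.Agent.Helper17.TP
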