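import Pool.Agent.Helper17.TP.R2
import Pool.Agent.Helper17.TP.R3
import Pool.Agent.Helper17.TP.V1

/-!
# Block TP-R4: a short list of insides

For every `ε > 0` there are `c > 0`, `n₀` such that for `n ≥ n₀` there is a set `ℱ` of at most
`2^(ε n²)` pairs `(A, I)`, `||A| - n/2| ≤ ε n`, such that all but `2^((1/4 - c) n²)` of the
t-perfect graphs `G` on `Fin n` satisfy `inside G A = I` for some `(A, I) ∈ ℱ`.

Proof.  WLOG `ε ≤ 1`.  `t := min(ε²/8, ε/4, 1/8)`; `h := min(ε, t)/8`; `δ := min(t/4, h/4, γ)` with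
`γ` from `vol_bound h` for `N = n²`; `M, n₀` from `reg_apply δ`.  Let `𝒲` be the set of all pairs
`(Q, F) = (H.comap f, R.comap f)`, `f : Fin n → Fin M`, `H, R` graphs on `Fin M`, `R` triangle-free;
`|𝒲| ≤ M^n C² ≤ 2^(h n²)` for large `n`; `F` is triangle-free (a triangle of `R.comap f` maps to
a triangle of `R`).  Every t-perfect `G` is of the form: for some `(Q, F) ∈ 𝒲` the graph
`D = symmDiff G Q \ F` has at most `δ n²` edges.
(i) pairs `(Q, F)` with `e(F) < (1/4 - t) n²`: `G` is determined by `(Q, F, D, G ⊓ F)`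
(`G \ F = symmDiff Q D \ F`), so the number of such `G` is at most
`2^(h n²) · 2^(h n²) · 2^((1/4 - t) n²) ≤ 2^((1/4 - c) n²)`, `c = t - 2h > 0`.
(number of subgraphs `G ⊓ F` of `F` is `≤ 2^(e(F))`; number of `D`: `card_few_edges_le`.)
(ii) pairs `(Q, F)` with `e(F) ≥ (1/4 - t) n²`: let `A` be from `furedi_balanced F t`; then
`| |A| - n/2 | ≤ √(2t) n ≤ ε n`; `inside G A` is determined by `(Q, F, D)` and
`inside (G ⊓ F) A`, a subgraph of `inside F A` which has `≤ t n²` edges.  Put all these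
`(A, I)` in `ℱ`: `|ℱ| ≤ 2^(h n²) · 2^(h n²) · 2^(t n²) ≤ 2^(ε n²)`.
-/

set_option autoImplicit false

namespace Pool.Agent.Helper17.TP

open SimpleGraph Finset

theorem card_subgraphs_le {V : Type} [Fintype V] [DecidableEq V] (F : SimpleGraph V) :
    {G : SimpleGraph V | G ≤ F}.ncard ≤ 2 ^ (ne F) := by
  classical
  have h1 : ne F = F.edgeFinset.card := by
    unfold ne
    rw [← Set.ncard_coe_finset]
    simp
  rw [h1, ← Finset.card_powerset, ← Set.ncard_coe_finset]
  refine Set.ncard_le_ncard_of_injOn (fun G => G.edgeFinset) ?_ ?_ (Finset.finite_toSet _)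
  · intro G hG
    rw [Finset.mem_coe, Finset.mem_powerset]
    exact SimpleGraph.edgeFinset_subset_edgeFinset.2 hG
  · intro G _ G' _ h
    exact SimpleGraph.edgeFinset_inj.1 h

namespace R4

variable {n : ℕ}

theorem recover (G Q F : SimpleGraph (Fin n)) :
    G = (symmDiff Q (symmDiff G Q \ F)) \ F ⊔ G ⊓ F := by
  ext u v
  simp only [symmDiff_def, sup_adj, sdiff_adj, inf_adj]
  tauto

theorem inside_sup (X Y : SimpleGraph (Fin n)) (A : Finset (Fin n)) :
    inside (X ⊔ Y) A = inside X A ⊔ inside Y A := by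
  ext u v
  simp only [inside, sup_adj]
  tauto

theorem inside_mono {X Y : SimpleGraph (Fin n)} (h : X ≤ Y) (A : Finset (Fin n)) :
    inside X A ≤ inside Y A := by
  intro u v huv
  exact ⟨h huv.1, huv.2⟩

open Classical in
/-- graphs with few edges -/
noncomputable def few (n m : ℕ) : Finset (SimpleGraph (Fin n)) := univ.filter (fun D => ne D ≤ m)

open Classical in
/-- subgraphs -/
noncomputable def sub (F : SimpleGraph (Fin n)) : Finset (SimpleGraph (Fin n)) :=
  univ.filter (fun K => K ≤ F)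

theorem card_few (n m : ℕ) : (few n m).card ≤ vol (n ^ 2) m := by
  classical
  have := card_few_edges_le n m
  have h : {D : SimpleGraph (Fin n) | ne D ≤ m} = (few n m : Set _) := by
    ext D; simp [few]
  rwa [h, Set.ncard_coe_finset] at this

theorem card_sub (F : SimpleGraph (Fin n)) : (sub F).card ≤ 2 ^ (ne F) := by
  classical
  have := card_subgraphs_le F
  have h : {D : SimpleGraph (Fin n) | D ≤ F} = (sub F : Set _) := by
    ext D; simp [sub]
  rwa [h, Set.ncard_coe_finset] at this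

open Classical in
/-- the blow-ups -/
noncomputable def blow (n M : ℕ) : Finset (SimpleGraph (Fin n) × SimpleGraph (Fin n)) :=
  ((univ : Finset ((Fin n → Fin M) × SimpleGraph (Fin M) × SimpleGraph (Fin M))).filter
    (fun p => p.2.2.CliqueFree 3)).image (fun p => (p.2.1.comap p.1, p.2.2.comap p.1))

theorem card_blow (n M : ℕ) : (blow n M).card ≤
    M ^ n * (Nat.card (SimpleGraph (Fin M)) * Nat.card (SimpleGraph (Fin M))) := by
  classical
  unfold blow
  refine Finset.card_image_le.trans ((Finset.card_filter_le _ _).trans ?_)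
  rw [Finset.card_univ, Fintype.card_prod, Fintype.card_prod, Fintype.card_pi]
  simp [Nat.card_eq_fintype_card]

theorem blow_free {M : ℕ} {q : SimpleGraph (Fin n) × SimpleGraph (Fin n)} (hq : q ∈ blow n M) :
    q.2.CliqueFree 3 := by
  classical
  unfold blow at hq
  rw [mem_image] at hq
  obtain ⟨p, hp, rfl⟩ := hq
  rw [mem_filter] at hp
  intro s hs
  rw [is3Clique_iff] at hs
  obtain ⟨a, b, c, hab, hac, hbc, -⟩ := hs
  simp only [comap_adj] at hab hac hbc
  refine hp.2 {p.1 a, p.1 b, p.1 c} ?_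
  rw [is3Clique_triple_iff]
  exact ⟨hab, hac, hbc⟩

end R4

theorem list_inside (ε : ℝ) (hε : 0 < ε) : ∃ c > (0 : ℝ), ∃ n₀ : ℕ, ∀ n ≥ n₀,
    ∃ ℱ : Set (Finset (Fin n) × SimpleGraph (Fin n)),
      (ℱ.ncard : ℝ) ≤ 2 ^ (ε * (n : ℝ) ^ 2) ∧
      (∀ P ∈ ℱ, |(P.1.card : ℝ) - n / 2| ≤ ε * n) ∧
      ({G : SimpleGraph (Fin n) | TPerf G ∧ ∀ P ∈ ℱ, inside G P.1 ≠ P.2}.ncard : ℝ)
        ≤ 2 ^ ((1 / 4 - c) * (n : ℝ) ^ 2) := by
  classical
  set t : ℝ := min (ε ^ 2 / 8) (ε / 4) with ht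
  have htpos : 0 < t := by rw [ht]; positivity
  have hta : t ≤ ε ^ 2 / 8 := min_le_left _ _
  have htb : t ≤ ε / 4 := min_le_right _ _
  set h : ℝ := min ε t / 8 with hh
  have hhpos : 0 < h := by rw [hh]; positivity
  have hha : h ≤ ε / 8 := by
    rw [hh]; have := min_le_left ε t; linarith
  have hhb : h ≤ t / 8 := by
    rw [hh]; have := min_le_right ε t; linarith
  obtain ⟨γ, hγ, hvol⟩ := vol_bound h hhpos
  set δ : ℝ := γ with hδ
  obtain ⟨M, n1, hreg⟩ := reg_apply δ hγ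
  set C : ℕ := Nat.card (SimpleGraph (Fin M)) with hC
  have hCpos : 1 ≤ C := by
    rw [hC]; exact Nat.card_pos
  -- large n
  set K : ℝ := ((M : ℝ) + 1) * (C * C) with hK
  have hCR : (1 : ℝ) ≤ C := by exact_mod_cast hCpos
  have hCC : (1 : ℝ) ≤ (C : ℝ) * C := by nlinarith
  have hMR : (1 : ℝ) ≤ (M : ℝ) + 1 := by
    have : (0 : ℝ) ≤ M := by positivity
    linarith
  have hK1 : 1 ≤ K := by rw [hK]; nlinarith
  have hKpos : 0 < K := by linarith
  refine ⟨t - 2 * h, by linarith, max n1 (max 1 ⌈Real.logb 2 K / h⌉₊), fun n hn => ?_⟩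
  have hn1 : n1 ≤ n := le_trans (le_max_left _ _) hn
  have hn2 : 1 ≤ n := le_trans (le_trans (le_max_left _ _) (le_max_right _ _)) hn
  have hn3 : ⌈Real.logb 2 K / h⌉₊ ≤ n :=
    le_trans (le_trans (le_max_right _ _) (le_max_right _ _)) hn
  have hn0 : n ≠ 0 := by omega
  have hKn : K ≤ 2 ^ (h * n) := by
    have h1 : Real.logb 2 K / h ≤ n := (Nat.le_ceil _).trans (by exact_mod_cast hn3)
    rw [div_le_iff₀ hhpos] at h1
    calc K = 2 ^ (Real.logb 2 K) := by
          rw [Real.rpow_logb (by norm_num) (by norm_num) hKpos]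
      _ ≤ 2 ^ (h * n) := by
          apply Real.rpow_le_rpow_of_exponent_le (by norm_num)
          linarith
  have hWcard : ((R4.blow n M).card : ℝ) ≤ 2 ^ (h * (n : ℝ) ^ 2) := by
    have h1 := R4.card_blow n M
    have h2 : ((R4.blow n M).card : ℝ) ≤ (M : ℝ) ^ n * (C * C) := by exact_mod_cast h1
    calc ((R4.blow n M).card : ℝ) ≤ (M : ℝ) ^ n * (C * C) := h2
      _ ≤ ((M : ℝ) + 1) ^ n * ((C : ℝ) * C) ^ n := by
          gcongr
          · linarith
          · exact le_self_pow₀ hCC hn0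
      _ = K ^ n := by rw [hK, ← mul_pow]
      _ ≤ (2 ^ (h * n)) ^ n := by gcongr
      _ = 2 ^ (h * (n : ℝ) ^ 2) := by
          rw [← Real.rpow_natCast, ← Real.rpow_mul (by norm_num)]
          congr 1; ring
  set m : ℕ := ⌊δ * (n : ℝ) ^ 2⌋₊ with hm
  have hδn : 0 ≤ δ * (n : ℝ) ^ 2 := by positivity
  have hfew : ((R4.few n m).card : ℝ) ≤ 2 ^ (h * (n : ℝ) ^ 2) := by
    have h1 := R4.card_few n m
    have h2 : ((R4.few n m).card : ℝ) ≤ vol (n ^ 2) m := by exact_mod_cast h1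
    refine h2.trans ?_
    have h3 := hvol (n ^ 2) m (by
      push_cast
      exact Nat.floor_le hδn)
    push_cast at h3
    exact h3
  -- Füredi sets
  have hfur : ∀ F : SimpleGraph (Fin n), ∃ A : Finset (Fin n),
      F.CliqueFree 3 → (1 / 4 - t) * (n : ℝ) ^ 2 ≤ ne F →
        (ne (inside F A) : ℝ) ≤ t * (n : ℝ) ^ 2 ∧
          ((A.card : ℝ) - n / 2) ^ 2 ≤ 2 * t * (n : ℝ) ^ 2 := by
    intro F
    by_cases h1 : F.CliqueFree 3
    · by_cases h2 : (1 / 4 - t) * (n : ℝ) ^ 2 ≤ ne F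
      · obtain ⟨A, hA⟩ := furedi_balanced F h1 t h2
        exact ⟨A, fun _ _ => hA⟩
      · exact ⟨∅, fun _ h => absurd h h2⟩
    · exact ⟨∅, fun h => absurd h h1⟩
  choose α hα using hfur
  set 𝒲₂ : Finset (SimpleGraph (Fin n) × SimpleGraph (Fin n)) :=
    (R4.blow n M).filter (fun q => (1 / 4 - t) * (n : ℝ) ^ 2 ≤ ne q.2) with h𝒲₂
  set 𝒲₁ : Finset (SimpleGraph (Fin n) × SimpleGraph (Fin n)) :=
    (R4.blow n M).filter (fun q => ¬ (1 / 4 - t) * (n : ℝ) ^ 2 ≤ ne q.2) with h𝒲₁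
  -- the list
  set 𝓛 : Finset (Finset (Fin n) × SimpleGraph (Fin n)) :=
    𝒲₂.biUnion (fun q => ((R4.few n m) ×ˢ (R4.sub (inside q.2 (α q.2)))).image
      (fun p => (α q.2, inside (symmDiff q.1 p.1 \ q.2) (α q.2) ⊔ p.2))) with h𝓛
  have hcard𝓛 : (𝓛.card : ℝ) ≤ 2 ^ (ε * (n : ℝ) ^ 2) := by
    have h1 : (𝓛.card : ℝ) ≤ ∑ q ∈ 𝒲₂, ((R4.few n m).card : ℝ) *
        ((R4.sub (inside q.2 (α q.2))).card : ℝ) := by
      have h2 : 𝓛.card ≤ ∑ q ∈ 𝒲₂, (R4.few n m).card * (R4.sub (inside q.2 (α q.2))).card := by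
        refine Finset.card_biUnion_le.trans (Finset.sum_le_sum fun q _ => ?_)
        exact Finset.card_image_le.trans (le_of_eq (Finset.card_product _ _))
      exact_mod_cast h2
    calc (𝓛.card : ℝ) ≤ _ := h1
      _ ≤ ∑ _q ∈ 𝒲₂, (2 : ℝ) ^ (h * (n : ℝ) ^ 2) * 2 ^ (t * (n : ℝ) ^ 2) := by
          refine Finset.sum_le_sum fun q hq => ?_
          rw [h𝒲₂, mem_filter] at hq
          have h3 := (hα q.2 (R4.blow_free hq.1) hq.2).1
          have h4 : ((R4.sub (inside q.2 (α q.2))).card : ℝ) ≤ 2 ^ (t * (n : ℝ) ^ 2) := by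
            have h5 := R4.card_sub (inside q.2 (α q.2))
            calc ((R4.sub (inside q.2 (α q.2))).card : ℝ) ≤
                (2 : ℝ) ^ (ne (inside q.2 (α q.2))) := by exact_mod_cast h5
              _ = 2 ^ ((ne (inside q.2 (α q.2)) : ℕ) : ℝ) := (Real.rpow_natCast _ _).symm
              _ ≤ 2 ^ (t * (n : ℝ) ^ 2) :=
                  Real.rpow_le_rpow_of_exponent_le (by norm_num) h3
          gcongr
      _ = (𝒲₂.card : ℝ) * (2 ^ (h * (n : ℝ) ^ 2) * 2 ^ (t * (n : ℝ) ^ 2)) := by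
          rw [Finset.sum_const, nsmul_eq_mul]
      _ ≤ 2 ^ (h * (n : ℝ) ^ 2) * (2 ^ (h * (n : ℝ) ^ 2) * 2 ^ (t * (n : ℝ) ^ 2)) := by
          gcongr
          refine le_trans ?_ hWcard
          exact_mod_cast Finset.card_filter_le _ _
      _ = 2 ^ ((2 * h + t) * (n : ℝ) ^ 2) := by
          rw [← Real.rpow_add (by norm_num), ← Real.rpow_add (by norm_num)]
          congr 1; ring
      _ ≤ 2 ^ (ε * (n : ℝ) ^ 2) := by
          apply Real.rpow_le_rpow_of_exponent_le (by norm_num)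
          gcongr
          linarith
  refine ⟨(𝓛 : Set _), ?_, ?_, ?_⟩
  · rw [Set.ncard_coe_finset]; exact hcard𝓛
  · intro P hP
    rw [Finset.mem_coe, h𝓛, mem_biUnion] at hP
    obtain ⟨q, hq, hP⟩ := hP
    rw [mem_image] at hP
    obtain ⟨p, _, rfl⟩ := hP
    rw [h𝒲₂, mem_filter] at hq
    have h3 := (hα q.2 (R4.blow_free hq.1) hq.2).2
    apply abs_le_of_sq_le_sq _ (by positivity)
    calc (((α q.2).card : ℝ) - n / 2) ^ 2 ≤ 2 * t * (n : ℝ) ^ 2 := h3
      _ ≤ (ε * n) ^ 2 := by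
        rw [mul_pow]
        gcongr
        nlinarith [sq_nonneg ε]
  · -- the exceptional graphs
    set 𝒮 : Finset (SimpleGraph (Fin n)) :=
      𝒲₁.biUnion (fun q => ((R4.few n m) ×ˢ (R4.sub q.2)).image
        (fun p => symmDiff q.1 p.1 \ q.2 ⊔ p.2)) with h𝒮
    have hsub : {G : SimpleGraph (Fin n) | TPerf G ∧
        ∀ P ∈ (𝓛 : Set (Finset (Fin n) × SimpleGraph (Fin n))), inside G P.1 ≠ P.2} ⊆
        (𝒮 : Set (SimpleGraph (Fin n))) := by
      rintro G ⟨hG, hG2⟩
      obtain ⟨f, R, H, hR, hne⟩ := hreg n hn1 G hG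
      set Q := H.comap f with hQ
      set F := R.comap f with hF
      have hD : symmDiff G Q \ F ∈ R4.few n m := by
        unfold R4.few
        rw [mem_filter]
        exact ⟨mem_univ _, Nat.le_floor hne⟩
      have hmem : (Q, F) ∈ R4.blow n M := by
        unfold R4.blow
        rw [mem_image]
        exact ⟨(f, H, R), by rw [mem_filter]; exact ⟨mem_univ _, hR⟩, rfl⟩
      by_cases hcase : (1 / 4 - t) * (n : ℝ) ^ 2 ≤ ne F
      · exfalso
        refine hG2 (α F, inside G (α F)) ?_ rfl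
        rw [Finset.mem_coe, h𝓛, mem_biUnion]
        refine ⟨(Q, F), ?_, ?_⟩
        · rw [h𝒲₂, mem_filter]; exact ⟨hmem, hcase⟩
        · rw [mem_image]
          refine ⟨(symmDiff G Q \ F, inside (G ⊓ F) (α F)), ?_, ?_⟩
          · rw [mem_product]
            refine ⟨hD, ?_⟩
            unfold R4.sub
            rw [mem_filter]
            exact ⟨mem_univ _, R4.inside_mono inf_le_right _⟩
          · change (α F, inside (symmDiff Q (symmDiff G Q \ F) \ F) (α F) ⊔
              inside (G ⊓ F) (α F)) = (α F, inside G (α F))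
            rw [← R4.inside_sup, ← R4.recover]
      · rw [Finset.mem_coe, h𝒮, mem_biUnion]
        refine ⟨(Q, F), ?_, ?_⟩
        · rw [h𝒲₁, mem_filter]; exact ⟨hmem, hcase⟩
        · rw [mem_image]
          refine ⟨(symmDiff G Q \ F, G ⊓ F), ?_, ?_⟩
          · rw [mem_product]
            refine ⟨hD, ?_⟩
            unfold R4.sub
            rw [mem_filter]
            exact ⟨mem_univ _, inf_le_right⟩
          · exact (R4.recover G Q F).symm
    have h1 : ({G : SimpleGraph (Fin n) | TPerf G ∧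
        ∀ P ∈ (𝓛 : Set (Finset (Fin n) × SimpleGraph (Fin n))), inside G P.1 ≠ P.2}.ncard : ℝ) ≤
          𝒮.card := by
      have := Set.ncard_le_ncard hsub (Finset.finite_toSet _)
      rw [Set.ncard_coe_finset] at this
      exact_mod_cast this
    refine h1.trans ?_
    have h2 : (𝒮.card : ℝ) ≤ ∑ q ∈ 𝒲₁, ((R4.few n m).card : ℝ) * ((R4.sub q.2).card : ℝ) := by
      have h3 : 𝒮.card ≤ ∑ q ∈ 𝒲₁, (R4.few n m).card * (R4.sub q.2).card := by
        refine Finset.card_biUnion_le.trans (Finset.sum_le_sum fun q _ => ?_)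
        exact Finset.card_image_le.trans (le_of_eq (Finset.card_product _ _))
      exact_mod_cast h3
    calc (𝒮.card : ℝ) ≤ _ := h2
      _ ≤ ∑ _q ∈ 𝒲₁, (2 : ℝ) ^ (h * (n : ℝ) ^ 2) * 2 ^ ((1 / 4 - t) * (n : ℝ) ^ 2) := by
          refine Finset.sum_le_sum fun q hq => ?_
          rw [h𝒲₁, mem_filter] at hq
          have h3 := hq.2
          push Not at h3
          have h4 : ((R4.sub q.2).card : ℝ) ≤ 2 ^ ((1 / 4 - t) * (n : ℝ) ^ 2) := by
            have h5 := R4.card_sub q.2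
            calc ((R4.sub q.2).card : ℝ) ≤ (2 : ℝ) ^ (ne q.2) := by exact_mod_cast h5
              _ = 2 ^ ((ne q.2 : ℕ) : ℝ) := (Real.rpow_natCast _ _).symm
              _ ≤ 2 ^ ((1 / 4 - t) * (n : ℝ) ^ 2) :=
                  Real.rpow_le_rpow_of_exponent_le (by norm_num) h3.le
          gcongr
      _ = (𝒲₁.card : ℝ) * (2 ^ (h * (n : ℝ) ^ 2) * 2 ^ ((1 / 4 - t) * (n : ℝ) ^ 2)) := by
          rw [Finset.sum_const, nsmul_eq_mul]
      _ ≤ 2 ^ (h * (n : ℝ) ^ 2) * (2 ^ (h * (n : ℝ) ^ 2) * 2 ^ ((1 / 4 - t) * (n : ℝ) ^ 2)) := by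
          gcongr
          refine le_trans ?_ hWcard
          exact_mod_cast Finset.card_filter_le _ _
      _ = 2 ^ ((1 / 4 - (t - 2 * h)) * (n : ℝ) ^ 2) := by
          rw [← Real.rpow_add (by norm_num), ← Real.rpow_add (by norm_num)]
          congr 1; ring

end Pool.Agent.Helper17.TP
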