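import Pool.Agent.Helper17.TP.Base

/-!
# Block TP-X1: counting cross graphs with forbidden traces

1. `PP` a finite set of pairs `(X, p)`, `p ⊆ X ⊆ A`, `|X| ≤ 4`, the sets `X` pairwise disjoint.  The
number of `S ⊆ A` with `S ∩ X ≠ p` for all `(X, p) ∈ PP` is at most `2^|A| (15/16)^|PP|`.
Proof.  Induction on `PP`: for a new pair `(X, p)` the sets `S` split as `S ∩ X` and `S \ X`;
at most `2^|X| - 1 ≤ (15/16) 2^|X|` possibilities for `S ∩ X`, and the conditions of the other pairs
depend only on `S \ X`.  (E.g. prove for the subsets of `A \ X` by induction and use the injection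
`S ↦ (S ∩ X, S \ X)`.)
2. `count_cross`: for an arbitrary set `𝒮` of functions `Fin n → Finset (Fin n)`, the number of graphs
with `inside G A = I` whose cross neighbourhood function `y ↦ (if y ∈ A then ∅ else nb G A y)` is in
`𝒮` is at most `|𝒮|` (injective by `ext_of_inside`).
3. `count_traces`: the number of `G` with `inside G A = I` and `nb G X y ≠ p` for all `y ∉ A`,
`(X, p) ∈ PP`, is at most `2^(|A||Aᶜ|) (15/16)^(|PP||Aᶜ|)`: product over `y ∉ A` of the bound 1
(`nb G X y = nb G A y ∩ X`).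
-/

set_option autoImplicit false

namespace Pool.Agent.Helper17.TP

open SimpleGraph Finset

/-- admissible families of forbidden traces -/
def Traces {W : Type} [DecidableEq W] (A : Finset W) (PP : Finset (Finset W × Finset W)) : Prop :=
  (∀ q ∈ PP, q.1 ⊆ A ∧ q.2 ⊆ q.1 ∧ q.1.card ≤ 4) ∧
  (∀ q ∈ PP, ∀ r ∈ PP, q ≠ r → Disjoint q.1 r.1)

private theorem arith85 {k : ℕ} (hk : k ≤ 4) : ((2 ^ k - 1 : ℕ) : ℝ) ≤ 15 / 16 * 2 ^ k := by
  interval_cases k <;> norm_num

theorem card_avoid {W : Type} [DecidableEq W] (A : Finset W) (PP : Finset (Finset W × Finset W))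
    (h : Traces A PP) :
    ((A.powerset.filter (fun S => ∀ q ∈ PP, S ∩ q.1 ≠ q.2)).card : ℝ)
      ≤ 2 ^ A.card * (15 / 16) ^ PP.card := by
  induction PP using Finset.induction_on generalizing A with
  | empty =>
    rw [Finset.card_empty, pow_zero, mul_one]
    have h1 := Finset.card_filter_le A.powerset (fun S => ∀ q ∈ (∅ : Finset (Finset W × Finset W)),
      S ∩ q.1 ≠ q.2)
    rw [Finset.card_powerset] at h1
    exact_mod_cast h1
  | insert q₀ PP hq ih =>
    obtain ⟨hT1, hT2⟩ := h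
    have hq0 := hT1 q₀ (Finset.mem_insert_self _ _)
    have hdj : ∀ q ∈ PP, Disjoint q.1 q₀.1 := fun q hqP =>
      hT2 q (Finset.mem_insert_of_mem hqP) q₀ (Finset.mem_insert_self _ _)
        (fun he => hq (he ▸ hqP))
    have hT' : Traces (A \ q₀.1) PP := by
      refine ⟨fun q hqP => ?_, fun q hqP r hr => hT2 q (Finset.mem_insert_of_mem hqP) r
        (Finset.mem_insert_of_mem hr)⟩
      have h1 := hT1 q (Finset.mem_insert_of_mem hqP)
      exact ⟨Finset.subset_sdiff.2 ⟨h1.1, hdj q hqP⟩, h1.2⟩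
    have hle := ih (A \ q₀.1) hT'
    have hcard : (A.powerset.filter (fun S => ∀ q ∈ insert q₀ PP, S ∩ q.1 ≠ q.2)).card ≤
        (2 ^ q₀.1.card - 1) *
          ((A \ q₀.1).powerset.filter (fun S => ∀ q ∈ PP, S ∩ q.1 ≠ q.2)).card := by
      have h2 : (q₀.1.powerset.erase q₀.2).card = 2 ^ q₀.1.card - 1 := by
        rw [Finset.card_erase_of_mem (Finset.mem_powerset.2 hq0.2.1), Finset.card_powerset]
      rw [← h2, ← Finset.card_product]
      refine Finset.card_le_card_of_injOn (fun S => (S ∩ q₀.1, S \ q₀.1)) ?_ ?_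
      · intro S hS
        rw [Finset.mem_coe, Finset.mem_filter, Finset.mem_powerset] at hS
        rw [Finset.mem_coe, Finset.mem_product, Finset.mem_erase, Finset.mem_powerset,
          Finset.mem_filter, Finset.mem_powerset]
        refine ⟨⟨hS.2 q₀ (Finset.mem_insert_self _ _), Finset.inter_subset_right⟩,
          Finset.sdiff_subset_sdiff hS.1 (Finset.Subset.refl _), fun q hqP => ?_⟩
        have h3 : (S \ q₀.1) ∩ q.1 = S ∩ q.1 := by
          ext x
          simp only [Finset.mem_inter, Finset.mem_sdiff]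
          constructor
          · rintro ⟨⟨a, _⟩, b⟩
            exact ⟨a, b⟩
          · rintro ⟨a, b⟩
            exact ⟨⟨a, fun c => (Finset.disjoint_left.1 (hdj q hqP)) b c⟩, b⟩
        simp only
        rw [h3]
        exact hS.2 q (Finset.mem_insert_of_mem hqP)
      · intro S _ S' _ hSS
        simp only [Prod.mk.injEq] at hSS
        rw [← Finset.sdiff_union_inter S q₀.1, ← Finset.sdiff_union_inter S' q₀.1, hSS.1, hSS.2]
    have hAc : A.card = q₀.1.card + (A \ q₀.1).card := by
      rw [Finset.card_sdiff_of_subset hq0.1]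
      have := Finset.card_le_card hq0.1
      omega
    rw [Finset.card_insert_of_notMem hq, hAc]
    calc ((A.powerset.filter (fun S => ∀ q ∈ insert q₀ PP, S ∩ q.1 ≠ q.2)).card : ℝ)
        ≤ (((2 ^ q₀.1.card - 1) *
          ((A \ q₀.1).powerset.filter (fun S => ∀ q ∈ PP, S ∩ q.1 ≠ q.2)).card : ℕ) : ℝ) := by
          exact_mod_cast hcard
      _ = ((2 ^ q₀.1.card - 1 : ℕ) : ℝ) *
          (((A \ q₀.1).powerset.filter (fun S => ∀ q ∈ PP, S ∩ q.1 ≠ q.2)).card : ℝ) := by
          rw [Nat.cast_mul]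
      _ ≤ (15 / 16 * 2 ^ q₀.1.card) * (2 ^ (A \ q₀.1).card * (15 / 16) ^ PP.card) :=
          mul_le_mul (arith85 hq0.2.2) hle (Nat.cast_nonneg _) (by positivity)
      _ = 2 ^ (q₀.1.card + (A \ q₀.1).card) * (15 / 16) ^ (PP.card + 1) := by
          rw [pow_add, pow_succ]
          ring

open Classical in
theorem count_cross {n : ℕ} (A : Finset (Fin n)) (I : SimpleGraph (Fin n))
    (𝒮 : Set (Fin n → Finset (Fin n))) :
    {G : SimpleGraph (Fin n) | inside G A = I ∧
      (fun y => if y ∈ A then (∅ : Finset (Fin n)) else nb G A y) ∈ 𝒮}.ncard ≤ 𝒮.ncard := by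
  refine Set.ncard_le_ncard_of_injOn
    (fun G y => if y ∈ A then (∅ : Finset (Fin n)) else nb G A y) (fun G hG => hG.2) ?_
    (Set.toFinite _)
  intro G hG G' hG' h
  refine ext_of_inside (A := A) (hG.1.trans hG'.1.symm) ?_
  intro y hy
  have h1 := congrFun h y
  simp only [hy, if_false] at h1
  exact h1

theorem count_traces {n : ℕ} (A : Finset (Fin n)) (I : SimpleGraph (Fin n))
    (PP : Finset (Finset (Fin n) × Finset (Fin n))) (h : Traces A PP) :
    ({G : SimpleGraph (Fin n) | inside G A = I ∧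
        ∀ q ∈ PP, ∀ y, y ∉ A → nb G q.1 y ≠ q.2}.ncard : ℝ)
      ≤ 2 ^ (A.card * Aᶜ.card) * (15 / 16) ^ (PP.card * Aᶜ.card) := by
  classical
  set av := A.powerset.filter (fun S => ∀ q ∈ PP, S ∩ q.1 ≠ q.2) with hav
  set F : Finset (Fin n → Finset (Fin n)) :=
    Fintype.piFinset (fun y => if y ∈ A then {∅} else av) with hF
  have h1 : {G : SimpleGraph (Fin n) | inside G A = I ∧
        ∀ q ∈ PP, ∀ y, y ∉ A → nb G q.1 y ≠ q.2}.ncard ≤ (F : Set (Fin n → Finset (Fin n))).ncard := by
    refine le_trans (Set.ncard_le_ncard ?_ (Set.toFinite _)) (count_cross A I _)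
    rintro G ⟨hG1, hG2⟩
    refine ⟨hG1, ?_⟩
    rw [Finset.mem_coe, hF, Fintype.mem_piFinset]
    intro y
    by_cases hy : y ∈ A
    · simp only [hy, if_true, Finset.mem_singleton]
    · simp only [hy, if_false]
      rw [hav, Finset.mem_filter, Finset.mem_powerset]
      refine ⟨Finset.filter_subset _ _, fun q hq => ?_⟩
      have h2 : nb G A y ∩ q.1 = nb G q.1 y := by
        ext u
        rw [Finset.mem_inter, mem_nb, mem_nb]
        constructor
        · rintro ⟨⟨_, a⟩, b⟩
          exact ⟨b, a⟩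
        · rintro ⟨b, a⟩
          exact ⟨⟨(h.1 q hq).1 b, a⟩, b⟩
      rw [h2]
      exact hG2 q hq y hy
  rw [Set.ncard_coe_finset] at h1
  have h3 : F.card = av.card ^ Aᶜ.card := by
    rw [hF, Fintype.card_piFinset]
    rw [← Finset.prod_mul_prod_compl A, Finset.prod_congr rfl (g := fun _ => 1),
      Finset.prod_const_one, one_mul, Finset.prod_congr rfl (g := fun _ => av.card),
      Finset.prod_const]
    · intro y hy
      rw [Finset.mem_compl] at hy
      rw [if_neg hy]
    · intro y hy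
      rw [if_pos hy, Finset.card_singleton]
  have h4 : (av.card : ℝ) ≤ 2 ^ A.card * (15 / 16) ^ PP.card := by
    have h5 := card_avoid A PP h
    convert h5
  calc ({G : SimpleGraph (Fin n) | inside G A = I ∧
        ∀ q ∈ PP, ∀ y, y ∉ A → nb G q.1 y ≠ q.2}.ncard : ℝ) ≤ (F.card : ℝ) := by exact_mod_cast h1
    _ = (av.card : ℝ) ^ Aᶜ.card := by rw [h3]; push_cast; rfl
    _ ≤ (2 ^ A.card * (15 / 16) ^ PP.card) ^ Aᶜ.card :=
        pow_le_pow_left₀ (Nat.cast_nonneg _) h4 _
    _ = 2 ^ (A.card * Aᶜ.card) * (15 / 16) ^ (PP.card * Aᶜ.card) := by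
        rw [mul_pow, ← pow_mul, ← pow_mul]

end Pool.Agent.Helper17.TP
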