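import Pool.Agent.Helper17.TP.F6
import Pool.Agent.Helper17.TP.V1
import Pool.Agent.Helper17.TP.X1

/-!
# Block TP-Y1: the number of possible one-sided graphs

`J` = graph with all edges inside `A`, every vertex of `A` has in `A` a neighbourhood `g`-close to
`∅`, `T1` or `T2`; `PP` = family of `s` pairs `(X, p)` (`Traces A PP`) such that no bad set of `J` is
contained in `A` minus the union of the `X`'s.  The number of such pairs `(J, PP)` is at most
`2^(h n (s+1))` if `g ≤ γ n`, `n ≥ n₀` (`γ, n₀` depend only on `h`).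

Proof.  Let `U = ⋃ X`, `|U| ≤ 4s`.  Each pair is encoded by two maps `Fin 4 → Option (Fin n)`, and
`J` is determined by `PP`, the neighbourhoods `nb J A x` (`x ∈ U`), and, if `J[A \ U]` has an edge
`vw`, the vertices `v, w` and the sets `nb J A v`, `nb J A w` (`structure_of_no_bad`).
-/

set_option autoImplicit false

namespace Pool.Agent.Helper17.TP

open SimpleGraph Finset

/-- one-sided data -/
def OneSided {n : ℕ} (A T1 T2 : Finset (Fin n)) (g s : ℕ) :
    Set (SimpleGraph (Fin n) × Finset (Finset (Fin n) × Finset (Fin n))) :=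
  {P | (∀ u v, P.1.Adj u v → u ∈ A ∧ v ∈ A) ∧
    (∀ v ∈ A, (nb P.1 A v).card ≤ g ∨ (symmDiff (nb P.1 A v) T1).card ≤ g ∨
      (symmDiff (nb P.1 A v) T2).card ≤ g) ∧
    P.2.card = s ∧ Traces A P.2 ∧
    (∀ X ⊆ A, (∀ q ∈ P.2, Disjoint X q.1) → ¬ Bad P.1 X)}

namespace Y1

variable {n : ℕ}

/-- admissible neighbourhoods -/
def nbs (T1 T2 : Finset (Fin n)) (g : ℕ) : Finset (Finset (Fin n)) :=
  univ.filter (fun S => S.card ≤ g ∨ (symmDiff S T1).card ≤ g ∨ (symmDiff S T2).card ≤ g)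

theorem card_nbs (T1 T2 : Finset (Fin n)) (g : ℕ) : (nbs T1 T2 g).card ≤ 3 * vol n g := by
  have h0 := card_ball_le (V := Fin n) ∅ g
  have h1 := card_ball_le (V := Fin n) T1 g
  have h2 := card_ball_le (V := Fin n) T2 g
  rw [Fintype.card_fin] at h0 h1 h2
  have hsub : nbs T1 T2 g ⊆
      (univ.filter (fun S : Finset (Fin n) => (symmDiff S ∅).card ≤ g)) ∪
      ((univ.filter (fun S : Finset (Fin n) => (symmDiff S T1).card ≤ g)) ∪
      (univ.filter (fun S : Finset (Fin n) => (symmDiff S T2).card ≤ g))) := by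
    intro S hS
    unfold nbs at hS
    simp only [mem_filter, mem_univ, true_and] at hS
    simp only [mem_union, mem_filter, mem_univ, true_and]
    rcases hS with h | h | h
    · left
      have : symmDiff S (∅ : Finset (Fin n)) = S := symmDiff_bot S
      rw [this]; exact h
    · exact Or.inr (Or.inl h)
    · exact Or.inr (Or.inr h)
  have := (Finset.card_le_card hsub).trans (Finset.card_union_le _ _)
  have h3 := Finset.card_union_le
    (univ.filter (fun S : Finset (Fin n) => (symmDiff S T1).card ≤ g))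
    (univ.filter (fun S : Finset (Fin n) => (symmDiff S T2).card ≤ g))
  omega

/-- set coded by a map -/
def st (f : Fin 4 → Option (Fin n)) : Finset (Fin n) := univ.filter (fun u => ∃ j, f j = some u)

theorem exists_code (X : Finset (Fin n)) (hX : X.card ≤ 4) : ∃ f, st f = X := by
  classical
  let e := X.equivFin
  refine ⟨fun j => if h : j.val < X.card then some (e.symm ⟨j.val, h⟩ : Fin n) else none, ?_⟩
  ext u
  simp only [st, mem_filter, mem_univ, true_and]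
  constructor
  · rintro ⟨j, hj⟩
    split_ifs at hj with h
    simp only [Option.some.injEq] at hj
    rw [← hj]
    exact (e.symm ⟨j.val, h⟩).2
  · intro hu
    refine ⟨⟨(e ⟨u, hu⟩).val, lt_of_lt_of_le (e ⟨u, hu⟩).2 hX⟩, ?_⟩
    simp

/-- the code type -/
abbrev Code (n s : ℕ) : Type :=
  (Fin s → (Fin 4 → Option (Fin n)) × (Fin 4 → Option (Fin n)) × (Fin 4 → Finset (Fin n))) ×
    Option (Fin n × Fin n × Finset (Fin n) × Finset (Fin n))

/-- `c` is a code of `P` -/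
structure Codes (A : Finset (Fin n)) (s : ℕ)
    (P : SimpleGraph (Fin n) × Finset (Finset (Fin n) × Finset (Fin n))) (c : Code n s) :
    Prop where
  pp : P.2 = univ.image (fun i => (st (c.1 i).1, st (c.1 i).2.1))
  nbh : ∀ i j u, (c.1 i).1 j = some u → (c.1 i).2.2 j = nb P.1 A u
  edge : (c.2 = none ∧ ∀ u ∈ A, ∀ v ∈ A, (∀ q ∈ P.2, u ∉ q.1) → (∀ q ∈ P.2, v ∉ q.1) →
      ¬ P.1.Adj u v) ∨
    (∃ v w, c.2 = some (v, w, nb P.1 A v, nb P.1 A w) ∧ v ∈ A ∧ w ∈ A ∧ (∀ q ∈ P.2, v ∉ q.1) ∧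
      (∀ q ∈ P.2, w ∉ q.1) ∧ P.1.Adj v w)

theorem codes_inj {A T1 T2 : Finset (Fin n)} {g s : ℕ}
    {P P' : SimpleGraph (Fin n) × Finset (Finset (Fin n) × Finset (Fin n))}
    (hP : P ∈ OneSided A T1 T2 g s) (hP' : P' ∈ OneSided A T1 T2 g s) {c : Code n s}
    (h : Codes A s P c) (h' : Codes A s P' c) : P = P' := by
  classical
  have e2 : P.2 = P'.2 := by rw [h.pp, h'.pp]
  have hin : ∀ {Q : SimpleGraph (Fin n) × Finset (Finset (Fin n) × Finset (Fin n))},
      Q ∈ OneSided A T1 T2 g s → ∀ u v, Q.1.Adj u v ↔ v ∈ nb Q.1 A u := by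
    intro Q hQ u v
    rw [mem_nb]
    exact ⟨fun h => ⟨(hQ.1 u v h).2, h⟩, fun h => h.2⟩
  -- vertices in U
  have hU : ∀ u, (∃ q ∈ P.2, u ∈ q.1) → nb P.1 A u = nb P'.1 A u := by
    rintro u ⟨q, hq, hu⟩
    rw [h.pp] at hq
    simp only [mem_image, mem_univ, true_and] at hq
    obtain ⟨i, rfl⟩ := hq
    simp only [st, mem_filter, mem_univ, true_and] at hu
    obtain ⟨j, hj⟩ := hu
    rw [← h.nbh i j u hj, ← h'.nbh i j u hj]
  have e1 : P.1 = P'.1 := by
    ext u v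
    by_cases hu : ∃ q ∈ P.2, u ∈ q.1
    · rw [hin hP, hin hP', hU u hu]
    by_cases hv : ∃ q ∈ P.2, v ∈ q.1
    · rw [P.1.adj_comm, P'.1.adj_comm, hin hP, hin hP', hU v hv]
    push Not at hu hv
    by_cases hAu : u ∈ A
    swap
    · exact ⟨fun h => absurd (hP.1 u v h).1 hAu, fun h => absurd (hP'.1 u v h).1 hAu⟩
    by_cases hAv : v ∈ A
    swap
    · exact ⟨fun h => absurd (hP.1 u v h).2 hAv, fun h => absurd (hP'.1 u v h).2 hAv⟩
    have hu' := hu
    have hv' := hv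
    rw [e2] at hu' hv'
    rcases h.edge with ⟨n1, n2⟩ | ⟨a, b, n1, n2, n3, n4, n5, n6⟩
    · rcases h'.edge with ⟨m1, m2⟩ | ⟨a', b', m1, m2, m3, m4, m5, m6⟩
      · exact ⟨fun h => absurd h (n2 u hAu v hAv hu hv),
          fun h => absurd h (m2 u hAu v hAv hu' hv')⟩
      · rw [n1] at m1; exact absurd m1 (by simp)
    · rcases h'.edge with ⟨m1, m2⟩ | ⟨a', b', m1, m2, m3, m4, m5, m6⟩
      · rw [n1] at m1; exact absurd m1 (by simp)
      · rw [n1] at m1
        simp only [Option.some.injEq, Prod.mk.injEq] at m1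
        obtain ⟨rfl, rfl, k1, k2⟩ := m1
        have key : ∀ {Q : SimpleGraph (Fin n) × Finset (Finset (Fin n) × Finset (Fin n))},
            Q ∈ OneSided A T1 T2 g s → (∀ q ∈ Q.2, u ∉ q.1) → (∀ q ∈ Q.2, v ∉ q.1) →
            (∀ q ∈ Q.2, a ∉ q.1) → (∀ q ∈ Q.2, b ∉ q.1) → Q.1.Adj a b →
            (Q.1.Adj u v ↔ (Q.1.Adj a u ∧ Q.1.Adj b v) ∨ (Q.1.Adj b u ∧ Q.1.Adj a v)) := by
          intro Q hQ q1 q2 q3 q4 q5
          refine structure_of_no_bad (U := A.filter (fun z => ∀ q ∈ Q.2, z ∉ q.1)) ?_ ?_ ?_ q5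
            ?_ ?_
          · intro X hX
            refine hQ.2.2.2.2 X (hX.trans (filter_subset _ _)) ?_
            intro q hq
            rw [Finset.disjoint_left]
            intro z hz
            exact (mem_filter.1 (hX hz)).2 q hq
          · exact mem_filter.2 ⟨n2, q3⟩
          · exact mem_filter.2 ⟨n3, q4⟩
          · exact mem_filter.2 ⟨hAu, q1⟩
          · exact mem_filter.2 ⟨hAv, q2⟩
        rw [key hP hu hv n4 n5 n6, key hP' hu' hv' m4 m5 m6]
        have j1 : ∀ z, P.1.Adj a z ↔ P'.1.Adj a z := by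
          intro z; rw [hin hP, hin hP', k1]
        have j2 : ∀ z, P.1.Adj b z ↔ P'.1.Adj b z := by
          intro z; rw [hin hP, hin hP', k2]
        rw [j1, j1, j2, j2]
  exact Prod.ext e1 e2

/-- the finite set of admissible codes -/
def codeSet (T1 T2 : Finset (Fin n)) (g s : ℕ) : Finset (Code n s) :=
  (Fintype.piFinset (fun _ : Fin s =>
    (univ : Finset (Fin 4 → Option (Fin n))) ×ˢ (univ : Finset (Fin 4 → Option (Fin n))) ×ˢ
      (Fintype.piFinset (fun _ : Fin 4 => nbs T1 T2 g)))) ×ˢ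
  (insertNone ((univ : Finset (Fin n)) ×ˢ (univ : Finset (Fin n)) ×ˢ nbs T1 T2 g ×ˢ
    nbs T1 T2 g))

theorem card_codeSet (T1 T2 : Finset (Fin n)) (g s : ℕ) :
    (codeSet T1 T2 g s).card = ((n + 1) ^ 4 * ((n + 1) ^ 4 * (nbs T1 T2 g).card ^ 4)) ^ s *
      (n * (n * ((nbs T1 T2 g).card * (nbs T1 T2 g).card)) + 1) := by
  unfold codeSet
  simp [Finset.card_product, Fintype.card_piFinset, Finset.card_insertNone]

theorem exists_codes {A T1 T2 : Finset (Fin n)} {g s : ℕ}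
    {P : SimpleGraph (Fin n) × Finset (Finset (Fin n) × Finset (Fin n))}
    (hP : P ∈ OneSided A T1 T2 g s) : ∃ c ∈ codeSet T1 T2 g s, Codes A s P c := by
  classical
  obtain ⟨h1, h2, h3, h4, h5⟩ := hP
  have hn : ∀ v ∈ A, nb P.1 A v ∈ nbs T1 T2 g := by
    intro v hv
    unfold nbs
    simpa using h2 v hv
  have hempty : (∅ : Finset (Fin n)) ∈ nbs T1 T2 g := by
    unfold nbs; simp
  let e : P.2 ≃ Fin s := Finset.equivFinOfCardEq h3
  have hc : ∀ X : Finset (Fin n), ∃ f : Fin 4 → Option (Fin n), X.card ≤ 4 → st f = X := by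
    intro X
    by_cases hX : X.card ≤ 4
    · obtain ⟨f, hf⟩ := exists_code X hX
      exact ⟨f, fun _ => hf⟩
    · exact ⟨fun _ => none, fun h => absurd h hX⟩
  choose cd hcd using hc
  let c1 : Fin s → (Fin 4 → Option (Fin n)) × (Fin 4 → Option (Fin n)) ×
      (Fin 4 → Finset (Fin n)) := fun i =>
    (cd (e.symm i).1.1, cd (e.symm i).1.2, fun j =>
      match cd (e.symm i).1.1 j with
      | none => ∅
      | some u => nb P.1 A u)
  have hX4 : ∀ q ∈ P.2, q.1.card ≤ 4 := fun q hq => (h4.1 q hq).2.2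
  have hp4 : ∀ q ∈ P.2, q.2.card ≤ 4 := fun q hq =>
    (Finset.card_le_card (h4.1 q hq).2.1).trans (h4.1 q hq).2.2
  have hpp : P.2 = univ.image (fun i => (st (c1 i).1, st (c1 i).2.1)) := by
    ext q
    simp only [mem_image, mem_univ, true_and, c1]
    constructor
    · intro hq
      refine ⟨e ⟨q, hq⟩, ?_⟩
      rw [e.symm_apply_apply, hcd _ (hX4 q hq), hcd _ (hp4 q hq)]
    · rintro ⟨i, rfl⟩
      rw [hcd _ (hX4 _ (e.symm i).2), hcd _ (hp4 _ (e.symm i).2)]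
      exact (e.symm i).2
  have hc1 : ∀ i j, (c1 i).2.2 j ∈ nbs T1 T2 g := by
    intro i j
    change (match cd (e.symm i).1.1 j with
      | none => ∅
      | some u => nb P.1 A u) ∈ nbs T1 T2 g
    rcases hj : cd (e.symm i).1.1 j with _ | u
    · exact hempty
    · apply hn
      have hu : u ∈ st (cd (e.symm i).1.1) := by
        simp only [st, mem_filter, mem_univ, true_and]
        exact ⟨j, hj⟩
      rw [hcd _ (hX4 _ (e.symm i).2)] at hu
      exact (h4.1 _ (e.symm i).2).1 hu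
  have hnbh : ∀ i j u, (c1 i).1 j = some u → (c1 i).2.2 j = nb P.1 A u := by
    intro i j u hj
    change (match cd (e.symm i).1.1 j with
      | none => ∅
      | some u => nb P.1 A u) = _
    have : cd (e.symm i).1.1 j = some u := hj
    rw [this]
  by_cases hedge : ∃ u ∈ A, ∃ v ∈ A, (∀ q ∈ P.2, u ∉ q.1) ∧ (∀ q ∈ P.2, v ∉ q.1) ∧ P.1.Adj u v
  · obtain ⟨u, hu, v, hv, k1, k2, k3⟩ := hedge
    refine ⟨(c1, some (u, v, nb P.1 A u, nb P.1 A v)), ?_, hpp, hnbh,
      Or.inr ⟨u, v, rfl, hu, hv, k1, k2, k3⟩⟩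
    unfold codeSet
    simp only [mem_product, Fintype.mem_piFinset, mem_univ, true_and]
    refine ⟨hc1, ?_⟩
    rw [Finset.some_mem_insertNone]
    simp only [mem_product, mem_univ, true_and]
    exact ⟨hn u hu, hn v hv⟩
  · refine ⟨(c1, none), ?_, hpp, hnbh, Or.inl ⟨rfl, ?_⟩⟩
    · unfold codeSet
      simp only [mem_product, Fintype.mem_piFinset, mem_univ, true_and]
      exact ⟨hc1, Finset.none_mem_insertNone⟩
    · intro u hu v hv k1 k2 k3
      exact hedge ⟨u, hu, v, hv, k1, k2, k3⟩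

theorem ncard_le (A T1 T2 : Finset (Fin n)) (g s : ℕ) :
    (OneSided A T1 T2 g s).ncard ≤ ((n + 1) ^ 8 * (3 * vol n g) ^ 4) ^ s *
      (n ^ 2 * (3 * vol n g) ^ 2 + 1) := by
  classical
  have hex : ∀ P : SimpleGraph (Fin n) × Finset (Finset (Fin n) × Finset (Fin n)),
      ∃ c : Code n s, P ∈ OneSided A T1 T2 g s → c ∈ codeSet T1 T2 g s ∧ Codes A s P c := by
    intro P
    by_cases hP : P ∈ OneSided A T1 T2 g s
    · obtain ⟨c, hc, hc'⟩ := exists_codes hP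
      exact ⟨c, fun _ => ⟨hc, hc'⟩⟩
    · exact ⟨(fun _ => (fun _ => none, fun _ => none, fun _ => ∅), none), fun h => absurd h hP⟩
  choose φ hφ using hex
  have h1 : (OneSided A T1 T2 g s).ncard ≤ (codeSet T1 T2 g s : Set (Code n s)).ncard := by
    refine Set.ncard_le_ncard_of_injOn φ (fun P hP => Finset.mem_coe.2 (hφ P hP).1) ?_
      (Finset.finite_toSet _)
    intro P hP P' hP' hPP
    refine codes_inj hP hP' (hφ P hP).2 ?_
    rw [hPP]
    exact (hφ P' hP').2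
  rw [Set.ncard_coe_finset, card_codeSet] at h1
  refine h1.trans ?_
  have hN := card_nbs T1 T2 g
  have e1 : (n + 1) ^ 4 * ((n + 1) ^ 4 * (nbs T1 T2 g).card ^ 4) =
      (n + 1) ^ 8 * (nbs T1 T2 g).card ^ 4 := by ring
  have e2 : n * (n * ((nbs T1 T2 g).card * (nbs T1 T2 g).card)) =
      n ^ 2 * (nbs T1 T2 g).card ^ 2 := by ring
  rw [e1, e2]
  gcongr

end Y1

theorem card_oneSided (h : ℝ) (hh : 0 < h) : ∃ γ > (0 : ℝ), ∃ n₀ : ℕ, ∀ n ≥ n₀,
    ∀ (A T1 T2 : Finset (Fin n)) (g : ℕ), (g : ℝ) ≤ γ * n → ∀ s : ℕ,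
      ((OneSided A T1 T2 g s).ncard : ℝ) ≤ 2 ^ (h * n * (s + 1)) := by
  obtain ⟨γ, hγ, hvol⟩ := vol_bound (h / 8) (by linarith)
  have hr0 : (0 : ℝ) < 2 ^ (-(h / 2)) := by positivity
  have hr1 : (2 : ℝ) ^ (-(h / 2)) < 1 := by
    apply Real.rpow_lt_one_of_one_lt_of_neg (by norm_num)
    linarith
  have htend := tendsto_pow_const_mul_const_pow_of_lt_one 8 hr0.le hr1
  have hev := htend.eventually (ge_mem_nhds (show (0 : ℝ) < 1 / (81 * 2 ^ 8) by positivity))
  obtain ⟨n1, hn1⟩ := Filter.eventually_atTop.1 hev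
  refine ⟨γ, hγ, max n1 1, fun n hn A T1 T2 g hg s => ?_⟩
  have hn1' : n1 ≤ n := le_trans (le_max_left _ _) hn
  have hn1R : (1 : ℝ) ≤ n := by exact_mod_cast le_trans (le_max_right _ _) hn
  have hlarge := hn1 n hn1'
  have hv := hvol n g hg
  set r : ℝ := (2 : ℝ) ^ (-(h / 2)) with hr
  set v : ℝ := (vol n g : ℝ) with hvdef
  have hv0 : 0 ≤ v := by positivity
  have hrn : r ^ n = 2 ^ (-(h * n / 2)) := by
    rw [hr, ← Real.rpow_natCast, ← Real.rpow_mul (by norm_num)]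
    congr 1; ring
  have hpow8 : (81 : ℝ) * (2 ^ 8 * (n : ℝ) ^ 8) ≤ 2 ^ (h * n / 2) := by
    rw [hrn] at hlarge
    have hpos : (0 : ℝ) < 2 ^ (h * n / 2) := by positivity
    have h1 : (2 : ℝ) ^ (-(h * n / 2)) * 2 ^ (h * n / 2) = 1 := by
      rw [← Real.rpow_add (by norm_num)]; simp
    calc (81 : ℝ) * (2 ^ 8 * (n : ℝ) ^ 8)
        = 81 * 2 ^ 8 * ((n : ℝ) ^ 8 * (2 ^ (-(h * n / 2)) * 2 ^ (h * n / 2))) := by
          rw [h1]; ring
      _ = 81 * 2 ^ 8 * ((n : ℝ) ^ 8 * 2 ^ (-(h * n / 2))) * 2 ^ (h * n / 2) := by ring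
      _ ≤ 81 * 2 ^ 8 * (1 / (81 * 2 ^ 8)) * 2 ^ (h * n / 2) := by gcongr
      _ = 2 ^ (h * n / 2) := by norm_num
  have hn18 : ((n : ℝ) + 1) ^ 8 ≤ 2 ^ 8 * (n : ℝ) ^ 8 := by
    rw [← mul_pow]
    gcongr
    linarith
  have hv4 : v ^ 4 ≤ 2 ^ (h * n / 2) := by
    calc v ^ 4 ≤ (2 ^ (h / 8 * n)) ^ 4 := by gcongr
      _ = 2 ^ (h * n / 2) := by
        rw [← Real.rpow_natCast, ← Real.rpow_mul (by norm_num)]
        congr 1; push_cast; ring
  have hA : (((n : ℝ) + 1) ^ 8 * (3 * v) ^ 4) ≤ 2 ^ (h * n) := by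
    calc ((n : ℝ) + 1) ^ 8 * (3 * v) ^ 4 ≤ (2 ^ 8 * (n : ℝ) ^ 8) * (81 * v ^ 4) := by
          rw [mul_pow]
          have : (3 : ℝ) ^ 4 = 81 := by norm_num
          rw [this]
          gcongr
      _ = (81 * (2 ^ 8 * (n : ℝ) ^ 8)) * v ^ 4 := by ring
      _ ≤ 2 ^ (h * n / 2) * 2 ^ (h * n / 2) := by gcongr
      _ = 2 ^ (h * n) := by
          rw [← Real.rpow_add (by norm_num)]; congr 1; ring
  have hB : ((n : ℝ) ^ 2 * (3 * v) ^ 2 + 1) ≤ 2 ^ (h * n) := by
    have hv2 : v ^ 2 ≤ 2 ^ (h * n / 2) := by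
      calc v ^ 2 ≤ (2 ^ (h / 8 * n)) ^ 2 := by gcongr
        _ = 2 ^ (h * n / 4) := by
          rw [← Real.rpow_natCast, ← Real.rpow_mul (by norm_num)]
          congr 1; push_cast; ring
        _ ≤ 2 ^ (h * n / 2) := by
          apply Real.rpow_le_rpow_of_exponent_le (by norm_num)
          have : 0 ≤ h * n := by positivity
          linarith
    have h1 : (1 : ℝ) ≤ 2 ^ (h * n / 2) := by
      apply Real.one_le_rpow (by norm_num)
      positivity
    have hn2 : (n : ℝ) ^ 2 * 9 + 1 ≤ 2 ^ (h * n / 2) := by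
      refine le_trans ?_ hpow8
      have : (n : ℝ) ^ 2 ≤ (n : ℝ) ^ 8 := pow_le_pow_right₀ hn1R (by norm_num)
      have h18 : (1 : ℝ) ≤ (n : ℝ) ^ 8 := one_le_pow₀ hn1R
      nlinarith
    calc (n : ℝ) ^ 2 * (3 * v) ^ 2 + 1 ≤ (n : ℝ) ^ 2 * 9 * 2 ^ (h * n / 2) +
          2 ^ (h * n / 2) := by
          have : (n : ℝ) ^ 2 * (3 * v) ^ 2 = (n : ℝ) ^ 2 * 9 * v ^ 2 := by ring
          rw [this]
          gcongr
      _ = ((n : ℝ) ^ 2 * 9 + 1) * 2 ^ (h * n / 2) := by ring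
      _ ≤ 2 ^ (h * n / 2) * 2 ^ (h * n / 2) := by gcongr
      _ = 2 ^ (h * n) := by
          rw [← Real.rpow_add (by norm_num)]; congr 1; ring
  have hcount := Y1.ncard_le A T1 T2 g s
  have hcountR : ((OneSided A T1 T2 g s).ncard : ℝ) ≤
      (((n : ℝ) + 1) ^ 8 * (3 * v) ^ 4) ^ s * ((n : ℝ) ^ 2 * (3 * v) ^ 2 + 1) := by
    rw [hvdef]; exact_mod_cast hcount
  calc ((OneSided A T1 T2 g s).ncard : ℝ) ≤
      (((n : ℝ) + 1) ^ 8 * (3 * v) ^ 4) ^ s * ((n : ℝ) ^ 2 * (3 * v) ^ 2 + 1) := hcountR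
    _ ≤ (2 ^ (h * n)) ^ s * 2 ^ (h * n) := by gcongr
    _ = 2 ^ (h * n * (s + 1)) := by
        rw [← Real.rpow_natCast, ← Real.rpow_mul (by norm_num), ← Real.rpow_add (by norm_num)]
        congr 1; ring

end Pool.Agent.Helper17.TP
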